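import Mathlib

set_option autoImplicit false

/-! Sums of a prime and powers of two, part M1: this file joins several modules to save build time. -/

section S_NA_Defs

/-!
Problem MP_2497bc_nt: no arithmetic progression of non-representable numbers.  Definitions.
-/


namespace Pool.H53.NA

open scoped Pointwise

/-- `n` is a prime plus at most `r` powers of two. -/
def Rep (r n : ℕ) : Prop :=
  ∃ p : ℕ, p.Prime ∧ ∃ l : List ℕ, l.length ≤ r ∧ n = p + (l.map fun k => 2 ^ k).sum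

/-- `E r`: the odd positive integers that are not a prime plus at most `r` powers of two. -/
def E (r : ℕ) : Set ℕ := {n | Odd n ∧ ¬ Rep r n}

/-! ### Additive combinatorics -/

section ring

variable {R : Type} [CommRing R] [DecidableEq R]

/-- dilation of a finite set -/
def dil (ξ : R) (A : Finset R) : Finset R := A.image fun a => ξ * a

/-- `|A - ξ A| ≤ x |A|` -/
def Xi (A : Finset R) (x : ℝ) (ξ : R) : Prop := (((A - dil ξ A).card : ℕ) : ℝ) ≤ x * A.card

/-- finite sets that are multiplicative subgroups -/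
structure SGL (H : Finset R) : Prop where
  one : (1 : R) ∈ H
  mul : ∀ g ∈ H, ∀ h ∈ H, g * h ∈ H
  inv : ∀ h ∈ H, ∃ g ∈ H, g * h = 1

end ring

section group

variable {V : Type} [AddCommGroup V]

/-- additive energy -/
def E4 [DecidableEq V] (A : Finset V) : ℕ :=
  ((A ×ˢ A ×ˢ A ×ˢ A).filter fun x => x.1 + x.2.1 = x.2.2.1 + x.2.2.2).card

/-- additive convolution -/
noncomputable def cv [Fintype V] (f g : V → ℝ) (y : V) : ℝ := ∑ x, f x * g (y - x)

/-- the effective size of the support of `f` -/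
noncomputable def Nf [Fintype V] (f : V → ℝ) : ℝ := (∑ x, f x) ^ 2 / ∑ x, f x ^ 2

end group

/-! ### Sums of powers of two modulo `N` -/

/-- the number of `k ∈ {0, …, D-1}^s` with `∑ 2 ^ (k i) = y` modulo `N` -/
def rep (N D s : ℕ) (y : ZMod N) : ℕ :=
  ((Finset.univ : Finset (Fin s → Fin D)).filter fun k => ∑ i, (2 : ZMod N) ^ (k i : ℕ) = y).card

/-- the energy: the number of pairs with equal sums -/
def en (N D s : ℕ) [NeZero N] : ℕ := ∑ y : ZMod N, rep N D s y ^ 2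

/-- the powers of two modulo `N` -/
noncomputable def pw (N : ℕ) : Finset (ZMod N) :=
  (Finset.range (orderOf (2 : ZMod N))).image fun k => (2 : ZMod N) ^ k

/-- the exponential sum -/
noncomputable def SS (N D : ℕ) [NeZero N] (a : ZMod N) : ℂ :=
  ∑ k ∈ Finset.range D, (ZMod.stdAddChar (N := N) (a * 2 ^ k) : ℂ)

end Pool.H53.NA

end S_NA_Defs

section S_NA_Drc

/-!
Row Drc: dependent random choice.  PROOF.  Write `n = |A|`, `N b = {a ∈ A : G a b}` for `b ∈ A`.
`∑_{b ∈ A} |N b| = |{(a,b) ∈ A² : G a b}| ≥ α n²`, so by Cauchy-Schwarz `∑_b |N b|² ≥ α² n³`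
(`inner_mul_le_norm_mul_norm` or `sq_sum_le_card_mul_sum_sq`).  Call `(a,a') ∈ A²` bad if its
codegree `|{b ∈ A : G a b ∧ G a' b}|` is `< α²/32 * n`.  Let `bad b` be the number of bad pairs in
`N b × N b`.  Double counting: `∑_b bad b = ∑_{(a,a') bad} codegree ≤ n² * (α²/32) n`.  Hence
`∑_b (|N b|² - 16 bad b) ≥ α² n³ - α² n³/2 = (α²/2) n³`, so some `b ∈ A` has
`|N b|² - 16 bad b ≥ (α²/2) n²` (`Finset.exists_le_of_sum_le`).  Take `A1 = N b`: then
`|A1|² ≥ (α²/2) n² ≥ ((α/2) n)²` and `16 bad b ≤ |A1|²`.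
-/


namespace Pool.H53.NA

theorem drc {X : Type} [DecidableEq X] (A : Finset X) (G : X → X → Prop) [DecidableRel G]
    (α : ℝ) (hα : 0 < α) (hA : A.Nonempty)
    (hG : α * (A.card : ℝ) ^ 2 ≤ (((A ×ˢ A).filter fun p => G p.1 p.2).card : ℝ)) :
    ∃ A1 : Finset X, A1 ⊆ A ∧ α / 2 * A.card ≤ A1.card ∧
      (((A1 ×ˢ A1).filter fun p => ((A.filter fun b => G p.1 b ∧ G p.2 b).card : ℝ)
          < α ^ 2 / 32 * A.card).card : ℝ) ≤ 1 / 16 * (A1.card : ℝ) ^ 2 := by
  classical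
  set n : ℝ := (A.card : ℝ) with hn
  have hn0 : 0 < n := by
    rw [hn]
    exact_mod_cast hA.card_pos
  set N : X → Finset X := fun b => A.filter fun a => G a b with hN
  set Bad : X × X → Prop := fun p =>
    ((A.filter fun b => G p.1 b ∧ G p.2 b).card : ℝ) < α ^ 2 / 32 * n with hBad
  set bad : X → ℕ := fun b => ((N b ×ˢ N b).filter Bad).card with hbad
  have h1 : ∑ b ∈ A, ((N b).card : ℝ) = (((A ×ˢ A).filter fun p => G p.1 p.2).card : ℝ) := by
    rw [← Nat.cast_sum]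
    congr 1
    rw [Finset.card_filter, Finset.sum_product_right]
    refine Finset.sum_congr rfl fun b _ => ?_
    rw [hN, Finset.card_filter]
  have h2 : (∑ b ∈ A, ((N b).card : ℝ)) ^ 2 ≤ n * ∑ b ∈ A, ((N b).card : ℝ) ^ 2 :=
    sq_sum_le_card_mul_sum_sq
  have h3 : α ^ 2 * n ^ 3 ≤ ∑ b ∈ A, ((N b).card : ℝ) ^ 2 := by
    rw [h1] at h2
    have h4 : (α * n ^ 2) ^ 2 ≤ n * ∑ b ∈ A, ((N b).card : ℝ) ^ 2 := by
      refine le_trans ?_ h2
      exact pow_le_pow_left₀ (by positivity) hG 2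
    have h5 : n * (α ^ 2 * n ^ 3) ≤ n * ∑ b ∈ A, ((N b).card : ℝ) ^ 2 := by
      calc n * (α ^ 2 * n ^ 3) = (α * n ^ 2) ^ 2 := by ring
        _ ≤ _ := h4
    exact le_of_mul_le_mul_left h5 hn0
  have h6 : ∑ b ∈ A, (bad b : ℝ) ≤ α ^ 2 / 32 * n ^ 3 := by
    have e1 : ∑ b ∈ A, (bad b : ℝ) = ∑ p ∈ A ×ˢ A, (if Bad p then
        ((A.filter fun b => G p.1 b ∧ G p.2 b).card : ℝ) else 0) := by
      have e2 : ∀ b ∈ A, (bad b : ℝ) =
          ∑ p ∈ A ×ˢ A, (if Bad p ∧ (G p.1 b ∧ G p.2 b) then (1 : ℝ) else 0) := by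
        intro b _
        have e3 : (N b ×ˢ N b).filter Bad =
            (A ×ˢ A).filter (fun p => Bad p ∧ (G p.1 b ∧ G p.2 b)) := by
          ext p
          simp only [hN, Finset.mem_filter, Finset.mem_product]
          tauto
        change (((((N b ×ˢ N b).filter Bad).card : ℕ)) : ℝ) = _
        rw [e3, ← Finset.sum_filter, Finset.sum_const, nsmul_eq_mul, mul_one]
      rw [Finset.sum_congr rfl e2, Finset.sum_comm]
      refine Finset.sum_congr rfl fun p _ => ?_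
      by_cases hp : Bad p
      · simp only [hp, true_and, if_true]
        rw [← Finset.sum_filter, Finset.sum_const, nsmul_eq_mul, mul_one]
      · simp only [hp, false_and, if_false, Finset.sum_const_zero]
    rw [e1]
    calc _ ≤ ∑ p ∈ A ×ˢ A, α ^ 2 / 32 * n := by
          refine Finset.sum_le_sum fun p _ => ?_
          by_cases hp : Bad p
          · rw [if_pos hp]
            exact le_of_lt hp
          · rw [if_neg hp]
            positivity
      _ = α ^ 2 / 32 * n ^ 3 := by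
          rw [Finset.sum_const, Finset.card_product, nsmul_eq_mul]
          push_cast
          rw [← hn]
          ring
  have h7 : ∑ b ∈ A, (α ^ 2 / 2 * n ^ 2) ≤
      ∑ b ∈ A, (((N b).card : ℝ) ^ 2 - 16 * (bad b : ℝ)) := by
    rw [Finset.sum_const, nsmul_eq_mul, Finset.sum_sub_distrib, ← Finset.mul_sum, ← hn]
    nlinarith [h3, h6]
  obtain ⟨b, _, hb⟩ := Finset.exists_le_of_sum_le hA h7
  refine ⟨N b, Finset.filter_subset _ _, ?_, ?_⟩
  · by_contra hlt
    push Not at hlt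
    have h8 : ((N b).card : ℝ) ^ 2 < (α / 2 * n) ^ 2 :=
      pow_lt_pow_left₀ hlt (by positivity) (by norm_num)
    have h9 : (0 : ℝ) ≤ (bad b : ℝ) := by positivity
    have h10 : 0 < α ^ 2 * n ^ 2 := by positivity
    nlinarith
  · have h11 : ((((N b ×ˢ N b).filter Bad).card : ℕ) : ℝ) = (bad b : ℝ) := rfl
    have h10 : 0 < α ^ 2 * n ^ 2 := by positivity
    have h12 : (((((N b) ×ˢ (N b)).filter fun p =>
        ((A.filter fun b => G p.1 b ∧ G p.2 b).card : ℝ) < α ^ 2 / 32 * n).card : ℕ) : ℝ)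
        = (bad b : ℝ) := by
      rw [← h11]
    rw [h12]
    nlinarith

end Pool.H53.NA

end S_NA_Drc

section S_NA_Bpa

/-!
Row Bpa: many paths of length four.  PROOF.  Take `A1` from `drc`; call `(a,a')` bad if its codegree
`|{b ∈ A : G a b ∧ G a' b}|` is `< α²/32 * n`, `n = |A|` (symmetric in `a,a'`).  The number of bad pairs in
`A1²` is `≤ |A1|²/16`.  Let `A2` be the set of `a ∈ A1` with at most `|A1|/8` bad partners `a' ∈ A1`.
Then `|A1 \ A2| * |A1|/8 ≤ |A1|²/16`, so `|A2| ≥ |A1|/2 ≥ (α/4) n`.  For `a, a'' ∈ A2` at least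
`|A1| - |A1|/8 - |A1|/8 = (3/4)|A1|` elements `a' ∈ A1` are good with both; each gives at least
`(α²/32 n)²` pairs `(b,b') ∈ A²` with `G a b, G a' b, G a' b', G a'' b'`.  Total
`≥ (3/4)(α/2) n (α²/32 n)² = (3/8192) α⁵ n³ ≥ α⁵ n³/4096`.
-/


namespace Pool.H53.NA

theorem bsg_paths {X : Type} [DecidableEq X] (A : Finset X) (G : X → X → Prop) [DecidableRel G]
    (α : ℝ) (hα : 0 < α) (hA : A.Nonempty)
    (hG : α * (A.card : ℝ) ^ 2 ≤ (((A ×ˢ A).filter fun p => G p.1 p.2).card : ℝ)) :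
    ∃ A2 : Finset X, A2 ⊆ A ∧ α / 4 * A.card ≤ A2.card ∧
      ∀ a ∈ A2, ∀ a'' ∈ A2, α ^ 5 / 4096 * (A.card : ℝ) ^ 3 ≤
        (((A ×ˢ A ×ˢ A).filter fun t =>
          G a t.2.1 ∧ G t.1 t.2.1 ∧ G t.1 t.2.2 ∧ G a'' t.2.2).card : ℝ) := by
  classical
  obtain ⟨A1, hA1, hc1, hb1⟩ := drc A G α hα hA hG
  set n : ℝ := (A.card : ℝ) with hn
  have hn0 : 0 < n := by
    rw [hn]
    exact_mod_cast hA.card_pos
  set m : ℝ := (A1.card : ℝ) with hm
  have hm0 : 0 < m := lt_of_lt_of_le (by positivity) hc1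
  have hT0 : 0 ≤ α ^ 2 / 32 * n := by positivity
  have hT1 : 0 ≤ (α ^ 2 / 32 * n) ^ 2 := by positivity
  have hT2 : 0 ≤ α ^ 5 * n ^ 3 := by positivity
  set cod : X → X → ℝ := fun a a' => ((A.filter fun b => G a b ∧ G a' b).card : ℝ) with hcod
  set B : X → Finset X := fun a => A1.filter fun a' => cod a a' < α ^ 2 / 32 * n with hB
  have hbsum : ∑ a ∈ A1, ((B a).card : ℝ) ≤ 1 / 16 * m ^ 2 := by
    refine le_trans (le_of_eq ?_) hb1
    rw [Finset.card_filter, Finset.sum_product]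
    push_cast
    refine Finset.sum_congr rfl fun a _ => ?_
    rw [hB, Finset.card_filter]
    push_cast
    rfl
  set A2 : Finset X := A1.filter fun a => ((B a).card : ℝ) ≤ m / 8 with hA2
  have h1 : ((A1.filter fun a => ¬ ((B a).card : ℝ) ≤ m / 8).card : ℝ) * (m / 8) ≤
      1 / 16 * m ^ 2 := by
    refine le_trans ?_ hbsum
    have e1 : ((A1.filter fun a => ¬ ((B a).card : ℝ) ≤ m / 8).card : ℝ) * (m / 8) =
        ∑ a ∈ A1.filter (fun a => ¬ ((B a).card : ℝ) ≤ m / 8), (m / 8) := by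
      rw [Finset.sum_const, nsmul_eq_mul]
    rw [e1]
    calc _ ≤ ∑ a ∈ A1.filter (fun a => ¬ ((B a).card : ℝ) ≤ m / 8), ((B a).card : ℝ) := by
          refine Finset.sum_le_sum fun a ha => ?_
          have := (Finset.mem_filter.1 ha).2
          push Not at this
          exact this.le
      _ ≤ _ := Finset.sum_le_sum_of_subset_of_nonneg (Finset.filter_subset _ _)
          fun _ _ _ => by positivity
  have h2 : m = (A2.card : ℝ) + ((A1.filter fun a => ¬ ((B a).card : ℝ) ≤ m / 8).card : ℝ) := by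
    rw [hm, hA2, ← Nat.cast_add, Finset.card_filter_add_card_filter_not]
  have h3 : ((A1.filter fun a => ¬ ((B a).card : ℝ) ≤ m / 8).card : ℝ) ≤ m / 2 := by
    by_contra hlt
    have hlt' := lt_of_not_ge hlt
    nlinarith
  have h4 : m / 2 ≤ (A2.card : ℝ) := by linarith
  refine ⟨A2, (Finset.filter_subset _ _).trans hA1, by linarith, ?_⟩
  intro a ha a'' ha''
  have ha1 : ((B a).card : ℝ) ≤ m / 8 := (Finset.mem_filter.1 ha).2
  have ha2 : ((B a'').card : ℝ) ≤ m / 8 := (Finset.mem_filter.1 ha'').2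
  set Gd : Finset X := A1.filter fun a' => a' ∉ B a ∧ a' ∉ B a'' with hGd
  have h5 : m ≤ (Gd.card : ℝ) + (B a).card + (B a'').card := by
    have e1 : A1 ⊆ Gd ∪ B a ∪ B a'' := by
      intro x hx
      by_cases hx1 : x ∈ B a
      · simp [hx1]
      · by_cases hx2 : x ∈ B a''
        · simp [hx2]
        · have : x ∈ Gd := Finset.mem_filter.2 ⟨hx, hx1, hx2⟩
          simp [this]
    have e2 := Finset.card_le_card e1
    have e3 := Finset.card_union_le (Gd ∪ B a) (B a'')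
    have e4 := Finset.card_union_le Gd (B a)
    have e5 : A1.card ≤ Gd.card + (B a).card + (B a'').card := by omega
    rw [hm]
    exact_mod_cast e5
  have h6 : 3 / 4 * m ≤ (Gd.card : ℝ) := by linarith
  have h7 : (((A ×ˢ A ×ˢ A).filter fun t =>
      G a t.2.1 ∧ G t.1 t.2.1 ∧ G t.1 t.2.2 ∧ G a'' t.2.2).card : ℝ) =
      ∑ a' ∈ A, cod a a' * cod a'' a' := by
    rw [Finset.card_filter, Finset.sum_product]
    push_cast
    refine Finset.sum_congr rfl fun a' _ => ?_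
    have e1 : (∑ q ∈ A ×ˢ A, (if G a q.1 ∧ G a' q.1 ∧ G a' q.2 ∧ G a'' q.2 then (1 : ℝ) else 0)) =
        (((A.filter fun b => G a b ∧ G a' b) ×ˢ (A.filter fun b => G a'' b ∧ G a' b)).card : ℝ) := by
      rw [← Finset.sum_filter, Finset.sum_const, nsmul_eq_mul, mul_one]
      congr 2
      ext q
      simp only [Finset.mem_filter, Finset.mem_product]
      tauto
    rw [hcod]
    rw [Finset.card_product] at e1
    push_cast at e1
    rw [← e1]
  rw [h7]
  have h8 : ∀ a' ∈ Gd, (α ^ 2 / 32 * n) ^ 2 ≤ cod a a' * cod a'' a' := by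
    intro a' ha'
    obtain ⟨q1, q2, q3⟩ := Finset.mem_filter.1 ha'
    have q4 : α ^ 2 / 32 * n ≤ cod a a' := by
      by_contra hlt
      push Not at hlt
      exact q2 (Finset.mem_filter.2 ⟨q1, hlt⟩)
    have q5 : α ^ 2 / 32 * n ≤ cod a'' a' := by
      by_contra hlt
      push Not at hlt
      exact q3 (Finset.mem_filter.2 ⟨q1, hlt⟩)
    rw [sq]
    exact mul_le_mul q4 q5 hT0 (le_trans hT0 q4)
  have h9 : (Gd.card : ℝ) * (α ^ 2 / 32 * n) ^ 2 ≤ ∑ a' ∈ A, cod a a' * cod a'' a' := by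
    calc (Gd.card : ℝ) * (α ^ 2 / 32 * n) ^ 2 = ∑ a' ∈ Gd, (α ^ 2 / 32 * n) ^ 2 := by
          rw [Finset.sum_const, nsmul_eq_mul]
      _ ≤ ∑ a' ∈ Gd, cod a a' * cod a'' a' := Finset.sum_le_sum h8
      _ ≤ _ := by
          refine Finset.sum_le_sum_of_subset_of_nonneg ((Finset.filter_subset _ _).trans hA1) ?_
          intro x _ _
          exact mul_nonneg (Nat.cast_nonneg _) (Nat.cast_nonneg _)
  refine le_trans ?_ h9
  have h10 : 3 / 4 * (α / 2 * n) ≤ (Gd.card : ℝ) := by linarith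
  calc α ^ 5 / 4096 * n ^ 3 ≤ 3 / 4 * (α / 2 * n) * (α ^ 2 / 32 * n) ^ 2 := by
        nlinarith [hT2]
    _ ≤ _ := mul_le_mul_of_nonneg_right h10 hT1

end Pool.H53.NA

end S_NA_Bpa

section S_NA_Bsg

/-!
Row Bsg: the Balog-Szemeredi-Gowers theorem.  PROOF.  `n = |A|`, `r x = |{(a,c) ∈ A² : a - c = x}| ≤ n`
for `x ∈ A - A`.  `E4 A = ∑_x r x ²` (from `a + b = c + d ↔ a - c = d - b`) and `∑_x r x = n²`.  Let
`P = {x ∈ A - A : n/(2K) ≤ r x}`.  `∑_{x ∉ P} r x ² ≤ n/(2K) * n²`, so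
`n * ∑_{x ∈ P} r x ≥ ∑_{x ∈ P} r x ² ≥ n³/K - n³/(2K) = n³/(2K)`.  With `G a b :⇔ a - b ∈ P` the number
of pairs is `∑_{x∈P} r x ≥ α n²`, `α = 1/(2K)`.  Also `|P| * n/(2K) ≤ n²`, `|P| ≤ 2 K n`.  Apply
`bsg_paths`: `A' = A2`.  For `y = a - a'' ∈ A' - A'` each path `(a',b,b')` gives
`(a-b, a'-b, a'-b', a''-b') ∈ P⁴` with `x1 - x2 + x3 - x4 = y`, injectively in `(a',b,b')`
(for `a, a''` fixed).  The quadruples for different `y` are different, so
`|A'-A'| * α⁵ n³/4096 ≤ |P|⁴ ≤ (2Kn)⁴`, i.e. `|A'-A'| ≤ 2^4 K⁴ * 2^12 * 2^5 K⁵ * n = 2^21 K⁹ n`, and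
`n ≤ (4/α)|A'| = 8K|A'|`.
-/


namespace Pool.H53.NA

open scoped Pointwise

theorem bsg {V : Type} [AddCommGroup V] [DecidableEq V] (A : Finset V) (K : ℝ) (hK : 1 ≤ K)
    (hA : A.Nonempty) (hE : (A.card : ℝ) ^ 3 ≤ K * E4 A) :
    ∃ A' : Finset V, A' ⊆ A ∧ A'.Nonempty ∧ (A.card : ℝ) ≤ 8 * K * A'.card ∧
      ((A' - A').card : ℝ) ≤ 2 ^ 24 * K ^ 10 * A'.card := by
  classical
  have hK0 : (0 : ℝ) < K := lt_of_lt_of_le one_pos hK
  have hn : (0 : ℝ) < (A.card : ℝ) := by exact_mod_cast hA.card_pos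
  obtain ⟨r, hr⟩ : ∃ r : V → ℕ, r = fun x => ((A ×ˢ A).filter fun p => p.1 - p.2 = x).card :=
    ⟨_, rfl⟩
  have hr_le : ∀ x, r x ≤ A.card := by
    intro x
    rw [hr]
    refine Finset.card_le_card_of_injOn (fun p => p.2) ?_ ?_
    · intro p hp
      exact (Finset.mem_product.1 (Finset.mem_filter.1 (Finset.mem_coe.1 hp)).1).2
    · intro p hp q hq hpq
      have h1 := (Finset.mem_filter.1 (Finset.mem_coe.1 hp)).2
      have h2 := (Finset.mem_filter.1 (Finset.mem_coe.1 hq)).2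
      dsimp only at hpq
      rw [hpq] at h1
      refine Prod.ext ?_ hpq
      have h3 : p.1 - q.2 = q.1 - q.2 := h1.trans h2.symm
      exact sub_left_injective h3
  have hsum : ∀ T : Finset V, ∑ x ∈ T, r x = ((A ×ˢ A).filter fun p => p.1 - p.2 ∈ T).card := by
    intro T
    rw [hr]
    exact Finset.sum_card_fiberwise_eq_card_filter _ _ _
  have hsum' : ∀ T : Finset V, ∑ x ∈ T, (r x : ℝ) ≤ (A.card : ℝ) ^ 2 := by
    intro T
    have h1 : ∑ x ∈ T, r x ≤ A.card ^ 2 := by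
      rw [hsum]
      refine (Finset.card_filter_le _ _).trans ?_
      rw [Finset.card_product, sq]
    exact_mod_cast h1
  have hE4 : (E4 A : ℝ) ≤ ∑ x ∈ A - A, (r x : ℝ) ^ 2 := by
    have h1 : E4 A ≤ ∑ x ∈ A - A, r x * r x := by
      unfold E4
      rw [Finset.card_eq_sum_card_fiberwise (f := fun t : V × V × V × V => t.1 - t.2.2.1)
        (t := A - A)]
      · refine Finset.sum_le_sum fun x _ => ?_
        rw [hr]
        dsimp only
        rw [← Finset.card_product]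
        refine Finset.card_le_card_of_injOn
          (fun t : V × V × V × V => ((t.1, t.2.2.1), (t.2.2.2, t.2.1))) ?_ ?_
        · rintro ⟨a, b, c, d⟩ ht
          obtain ⟨ht1, ht2⟩ := Finset.mem_filter.1 (Finset.mem_coe.1 ht)
          obtain ⟨ht3, ht4⟩ := Finset.mem_filter.1 ht1
          simp only [Finset.mem_product] at ht3
          dsimp only at ht2 ht4
          simp only [Finset.coe_product, Finset.coe_filter, Set.mem_prod, Set.mem_ofPred_eq,
            Finset.mem_product]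
          refine ⟨⟨⟨ht3.1, ht3.2.2.1⟩, ht2⟩, ⟨⟨ht3.2.2.2, ht3.2.1⟩, ?_⟩⟩
          rw [← ht2]
          have : a + b = c + d := ht4
          rw [sub_eq_sub_iff_add_eq_add]
          rw [add_comm d c, this]
        · rintro ⟨a, b, c, d⟩ _ ⟨a', b', c', d'⟩ _ h
          simp only [Prod.mk.injEq] at h
          obtain ⟨⟨h1, h2⟩, h3, h4⟩ := h
          subst h1 h2 h3 h4
          rfl
      · rintro ⟨a, b, c, d⟩ ht
        have ht3 := (Finset.mem_filter.1 (Finset.mem_coe.1 ht)).1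
        simp only [Finset.mem_product] at ht3
        exact Finset.sub_mem_sub ht3.1 ht3.2.2.1
    calc (E4 A : ℝ) ≤ ((∑ x ∈ A - A, r x * r x : ℕ) : ℝ) := by exact_mod_cast h1
      _ = ∑ x ∈ A - A, (r x : ℝ) ^ 2 := by
        push_cast
        exact Finset.sum_congr rfl fun x _ => (sq _).symm
  obtain ⟨P, hP⟩ : ∃ P : Finset V, P = (A - A).filter fun x => (A.card : ℝ) / (2 * K) ≤ (r x : ℝ) :=
    ⟨_, rfl⟩
  -- mass of `P`
  have hPsum : (A.card : ℝ) ^ 2 / (2 * K) ≤ ∑ x ∈ P, (r x : ℝ) := by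
    have h1 : ∑ x ∈ A - A, (r x : ℝ) ^ 2 =
        ∑ x ∈ P, (r x : ℝ) ^ 2 + ∑ x ∈ (A - A).filter (fun x => ¬ (A.card : ℝ) / (2 * K) ≤ (r x : ℝ)),
          (r x : ℝ) ^ 2 := by
      rw [hP]
      exact (Finset.sum_filter_add_sum_filter_not _ _ _).symm
    have h2 : ∑ x ∈ (A - A).filter (fun x => ¬ (A.card : ℝ) / (2 * K) ≤ (r x : ℝ)), (r x : ℝ) ^ 2 ≤
        (A.card : ℝ) / (2 * K) * (A.card : ℝ) ^ 2 := by
      calc _ ≤ ∑ x ∈ (A - A).filter (fun x => ¬ (A.card : ℝ) / (2 * K) ≤ (r x : ℝ)),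
            (A.card : ℝ) / (2 * K) * (r x : ℝ) := by
            refine Finset.sum_le_sum fun x hx => ?_
            have hx2 := (not_le.1 (Finset.mem_filter.1 hx).2).le
            rw [sq]
            exact mul_le_mul_of_nonneg_right hx2 (Nat.cast_nonneg _)
        _ = (A.card : ℝ) / (2 * K) *
            ∑ x ∈ (A - A).filter (fun x => ¬ (A.card : ℝ) / (2 * K) ≤ (r x : ℝ)), (r x : ℝ) := by
            rw [Finset.mul_sum]
        _ ≤ _ := mul_le_mul_of_nonneg_left (hsum' _) (by positivity)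
    have h3 : ∑ x ∈ P, (r x : ℝ) ^ 2 ≤ (A.card : ℝ) * ∑ x ∈ P, (r x : ℝ) := by
      rw [Finset.mul_sum]
      refine Finset.sum_le_sum fun x _ => ?_
      rw [sq]
      exact mul_le_mul_of_nonneg_right (by exact_mod_cast hr_le x) (Nat.cast_nonneg _)
    have h4 : (A.card : ℝ) ^ 3 / K ≤ ∑ x ∈ A - A, (r x : ℝ) ^ 2 := by
      rw [div_le_iff₀ hK0, mul_comm]
      exact hE.trans (mul_le_mul_of_nonneg_left hE4 hK0.le)
    have h5 : (A.card : ℝ) * ((A.card : ℝ) ^ 2 / (2 * K)) ≤ (A.card : ℝ) * ∑ x ∈ P, (r x : ℝ) := by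
      have h6 : (A.card : ℝ) ^ 3 / K = 2 * ((A.card : ℝ) * ((A.card : ℝ) ^ 2 / (2 * K))) := by
        field_simp
      have h7 : (A.card : ℝ) / (2 * K) * (A.card : ℝ) ^ 2 =
          (A.card : ℝ) * ((A.card : ℝ) ^ 2 / (2 * K)) := by ring
      linarith
    exact le_of_mul_le_mul_left h5 hn
  have hPcard : (P.card : ℝ) ≤ 2 * K * A.card := by
    have h1 : (P.card : ℝ) * ((A.card : ℝ) / (2 * K)) ≤ (A.card : ℝ) ^ 2 := by
      calc (P.card : ℝ) * ((A.card : ℝ) / (2 * K)) = ∑ _x ∈ P, (A.card : ℝ) / (2 * K) := by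
            rw [Finset.sum_const, nsmul_eq_mul]
        _ ≤ ∑ x ∈ P, (r x : ℝ) := by
            refine Finset.sum_le_sum fun x hx => ?_
            rw [hP] at hx
            exact (Finset.mem_filter.1 hx).2
        _ ≤ _ := hsum' P
    have h2 : (P.card : ℝ) * ((A.card : ℝ) / (2 * K)) = (P.card : ℝ) / (2 * K) * A.card := by ring
    rw [h2, sq] at h1
    have h3 := le_of_mul_le_mul_right h1 hn
    rw [div_le_iff₀ (by positivity)] at h3
    linarith
  -- apply the path lemma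
  obtain ⟨A', hA', hbig, hpath⟩ := bsg_paths A (fun a b => a - b ∈ P) (1 / (2 * K))
    (by positivity) hA (by
      have h1 : (((A ×ˢ A).filter fun p => p.1 - p.2 ∈ P).card : ℝ) = ∑ x ∈ P, (r x : ℝ) := by
        rw [← hsum P]
        push_cast
        rfl
      rw [h1]
      calc 1 / (2 * K) * (A.card : ℝ) ^ 2 = (A.card : ℝ) ^ 2 / (2 * K) := by ring
        _ ≤ _ := hPsum)
  have hbig' : (A.card : ℝ) ≤ 8 * K * A'.card := by
    have h1 : 1 / (2 * K) / 4 * (A.card : ℝ) = (A.card : ℝ) / (8 * K) := by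
      field_simp
      ring
    rw [h1, div_le_iff₀ (by positivity)] at hbig
    linarith
  have hne : A'.Nonempty := by
    rw [Finset.nonempty_iff_ne_empty]
    rintro rfl
    rw [Finset.card_empty] at hbig'
    norm_num at hbig'
    exact absurd hbig' (Finset.nonempty_iff_ne_empty.1 hA)
  refine ⟨A', hA', hne, hbig', ?_⟩
  have hmain : ((A' - A').card : ℝ) * ((1 / (2 * K)) ^ 5 / 4096 * (A.card : ℝ) ^ 3) ≤
      (P.card : ℝ) ^ 4 := by
    calc ((A' - A').card : ℝ) * ((1 / (2 * K)) ^ 5 / 4096 * (A.card : ℝ) ^ 3)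
        = ∑ _y ∈ A' - A', ((1 / (2 * K)) ^ 5 / 4096 * (A.card : ℝ) ^ 3) := by
          rw [Finset.sum_const, nsmul_eq_mul]
      _ ≤ ∑ y ∈ A' - A', (((P ×ˢ P ×ˢ P ×ˢ P).filter
            fun q => q.1 - q.2.1 + q.2.2.1 - q.2.2.2 = y).card : ℝ) := by
          refine Finset.sum_le_sum fun y hy => ?_
          obtain ⟨a, ha, a'', ha'', rfl⟩ := Finset.mem_sub.1 hy
          refine (hpath a ha a'' ha'').trans ?_
          have h1 : ((A ×ˢ A ×ˢ A).filter fun t =>
              a - t.2.1 ∈ P ∧ t.1 - t.2.1 ∈ P ∧ t.1 - t.2.2 ∈ P ∧ a'' - t.2.2 ∈ P).card ≤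
              ((P ×ˢ P ×ˢ P ×ˢ P).filter
                fun q => q.1 - q.2.1 + q.2.2.1 - q.2.2.2 = a - a'').card := by
            refine Finset.card_le_card_of_injOn
              (fun t => (a - t.2.1, t.1 - t.2.1, t.1 - t.2.2, a'' - t.2.2)) ?_ ?_
            · intro t ht
              obtain ⟨-, h1, h2, h3, h4⟩ := Finset.mem_filter.1 (Finset.mem_coe.1 ht)
              refine Finset.mem_coe.2 (Finset.mem_filter.2 ⟨?_, ?_⟩)
              · simp only [Finset.mem_product]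
                exact ⟨h1, h2, h3, h4⟩
              · dsimp only
                abel
            · rintro ⟨x, y, z⟩ _ ⟨x', y', z'⟩ _ h
              simp only [Prod.mk.injEq] at h
              obtain ⟨h1, h2, h3, -⟩ := h
              have e1 : y = y' := sub_right_injective h1
              subst e1
              have e2 : x = x' := sub_left_injective h2
              subst e2
              have e3 : z = z' := sub_right_injective h3
              subst e3
              rfl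
          exact_mod_cast h1
      _ = (((P ×ˢ P ×ˢ P ×ˢ P).filter
            fun q => q.1 - q.2.1 + q.2.2.1 - q.2.2.2 ∈ A' - A').card : ℝ) := by
          rw [← Nat.cast_sum]
          congr 1
          exact Finset.sum_card_fiberwise_eq_card_filter _ _ _
      _ ≤ ((P ×ˢ P ×ˢ P ×ˢ P).card : ℝ) := by
          exact_mod_cast Finset.card_filter_le _ _
      _ = (P.card : ℝ) ^ 4 := by
          rw [Finset.card_product, Finset.card_product, Finset.card_product]
          push_cast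
          ring
  have hP4 : (P.card : ℝ) ^ 4 ≤ (2 * K * A.card) ^ 4 :=
    pow_le_pow_left₀ (Nat.cast_nonneg _) hPcard 4
  have h1 : ((A' - A').card : ℝ) ≤ 2 ^ 21 * K ^ 9 * A.card := by
    have h2 : ((A' - A').card : ℝ) * ((1 / (2 * K)) ^ 5 / 4096 * (A.card : ℝ) ^ 3) ≤
        2 ^ 21 * K ^ 9 * A.card * ((1 / (2 * K)) ^ 5 / 4096 * (A.card : ℝ) ^ 3) := by
      refine (hmain.trans hP4).trans (le_of_eq ?_)
      field_simp
      ring
    exact le_of_mul_le_mul_right h2 (by positivity)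
  calc ((A' - A').card : ℝ) ≤ 2 ^ 21 * K ^ 9 * A.card := h1
    _ ≤ 2 ^ 21 * K ^ 9 * (8 * K * A'.card) :=
      mul_le_mul_of_nonneg_left hbig' (by positivity)
    _ = 2 ^ 24 * K ^ 10 * A'.card := by ring

end Pool.H53.NA

end S_NA_Bsg

section S_NA_Yng

/-!
Row Yng: elementary facts on the convolution `cv` on a finite abelian group.

PROOFS.  `cv_comm`: substitute `x ↦ y - x` (`Equiv.subLeft`).  `cv_add_left`, `cv_add_right`: expand.
`sum_cv`: exchange the sums, `∑_y g (y - x) = ∑ g` (`Equiv.subRight`).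
`young`: `(∑_x g x h(y-x))² ≤ (∑_x g x)(∑_x g x h(y-x)²)` (Cauchy-Schwarz with weights,
`Finset.sum_mul_sq_le_sq_mul_sq` or `Finset.inner_mul_le_norm_mul_norm`, writing `g = √g √g`), sum over `y`
and exchange the sums.
`cv_indicator`: if `0 ≤ f ≤ c * 1_A` then `∑_y (cv f f y)² ≤ c⁴ E4 A`: `cv f f y ≤ c² |{(a,b) ∈ A² : a+b=y}|` and
`∑_y |{(a,b) ∈ A² : a + b = y}|² = E4 A`.
-/


namespace Pool.H53.NA

variable {V : Type} [AddCommGroup V] [Fintype V] [DecidableEq V]

theorem cv_comm (f g : V → ℝ) (y : V) : cv f g y = cv g f y := by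
  unfold cv
  rw [← (Equiv.subLeft y).sum_comp (fun x => f x * g (y - x))]
  refine Finset.sum_congr rfl (fun x _ => ?_)
  simp only [Equiv.subLeft_apply, sub_sub_cancel]
  ring

theorem cv_add_left (f g h : V → ℝ) (y : V) : cv (fun x => f x + g x) h y = cv f h y + cv g h y := by
  unfold cv
  rw [← Finset.sum_add_distrib]
  refine Finset.sum_congr rfl (fun x _ => ?_)
  ring

theorem cv_add_right (f g h : V → ℝ) (y : V) : cv f (fun x => g x + h x) y = cv f g y + cv f h y := by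
  unfold cv
  rw [← Finset.sum_add_distrib]
  refine Finset.sum_congr rfl (fun x _ => ?_)
  ring

theorem yng_shift (g : V → ℝ) (x : V) : ∑ y, g (y - x) = ∑ y, g y := by
  have := (Equiv.subRight x).sum_comp g
  simpa using this

theorem sum_cv (f g : V → ℝ) : ∑ y, cv f g y = (∑ x, f x) * ∑ x, g x := by
  unfold cv
  rw [Finset.sum_comm, Finset.sum_mul]
  refine Finset.sum_congr rfl (fun x _ => ?_)
  rw [← Finset.mul_sum, yng_shift]

theorem young (g h : V → ℝ) (hg : ∀ x, 0 ≤ g x) :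
    ∑ y, cv g h y ^ 2 ≤ (∑ x, g x) ^ 2 * ∑ x, h x ^ 2 := by
  have h1 : ∀ y, cv g h y ^ 2 ≤ (∑ x, g x) * ∑ x, g x * h (y - x) ^ 2 := by
    intro y
    unfold cv
    have := Finset.sum_mul_sq_le_sq_mul_sq Finset.univ (fun x => Real.sqrt (g x))
      (fun x => Real.sqrt (g x) * h (y - x))
    have e1 : ∀ x, Real.sqrt (g x) * (Real.sqrt (g x) * h (y - x)) = g x * h (y - x) := by
      intro x
      rw [← mul_assoc, Real.mul_self_sqrt (hg x)]
    have e2 : ∀ x, Real.sqrt (g x) ^ 2 = g x := fun x => Real.sq_sqrt (hg x)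
    have e3 : ∀ x, (Real.sqrt (g x) * h (y - x)) ^ 2 = g x * h (y - x) ^ 2 := by
      intro x
      rw [mul_pow, Real.sq_sqrt (hg x)]
    simp only [e1, e2, e3] at this
    exact this
  calc ∑ y, cv g h y ^ 2 ≤ ∑ y, (∑ x, g x) * ∑ x, g x * h (y - x) ^ 2 :=
        Finset.sum_le_sum (fun y _ => h1 y)
    _ = (∑ x, g x) * ∑ x, g x * ∑ y, h (y - x) ^ 2 := by
        rw [← Finset.mul_sum, Finset.sum_comm]
        congr 1
        exact Finset.sum_congr rfl (fun x _ => by rw [← Finset.mul_sum])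
    _ = (∑ x, g x) * ∑ x, g x * ∑ y, h y ^ 2 := by
        congr 1
        exact Finset.sum_congr rfl (fun x _ => by rw [yng_shift (fun z => h z ^ 2)])
    _ = (∑ x, g x) ^ 2 * ∑ x, h x ^ 2 := by
        rw [← Finset.sum_mul]
        ring

theorem yng_E4 (A : Finset V) :
    ∑ y : V, (∑ a ∈ A, ∑ b ∈ A, if a + b = y then (1 : ℝ) else 0) ^ 2 = E4 A := by
  have h1 : ∀ y : V, (∑ a ∈ A, ∑ b ∈ A, if a + b = y then (1 : ℝ) else 0) ^ 2 =
      ∑ a ∈ A, ∑ b ∈ A, ∑ c ∈ A, ∑ d ∈ A,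
        (if a + b = y then (1 : ℝ) else 0) * (if c + d = y then (1 : ℝ) else 0) := by
    intro y
    rw [pow_two, Finset.sum_mul]
    refine Finset.sum_congr rfl (fun a _ => ?_)
    rw [Finset.sum_mul]
    refine Finset.sum_congr rfl (fun b _ => ?_)
    rw [Finset.mul_sum]
    refine Finset.sum_congr rfl (fun c _ => ?_)
    rw [Finset.mul_sum]
  simp only [h1]
  rw [Finset.sum_comm]
  unfold E4
  rw [Finset.card_filter]
  push_cast
  rw [Finset.sum_product]
  refine Finset.sum_congr rfl (fun a _ => ?_)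
  rw [Finset.sum_comm, Finset.sum_product]
  refine Finset.sum_congr rfl (fun b _ => ?_)
  rw [Finset.sum_comm, Finset.sum_product]
  refine Finset.sum_congr rfl (fun c _ => ?_)
  rw [Finset.sum_comm]
  refine Finset.sum_congr rfl (fun d _ => ?_)
  rw [Finset.sum_eq_single (a + b)]
  · by_cases h : a + b = c + d
    · simp [h]
    · have h' : ¬ (c + d = a + b) := fun h' => h h'.symm
      simp [h, h']
  · intro y _ hy
    rw [if_neg (fun h => hy h.symm), zero_mul]
  · intro h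
    exact absurd (Finset.mem_univ _) h

theorem cv_indicator (f : V → ℝ) (A : Finset V) (c : ℝ) (hf : ∀ x, 0 ≤ f x) (hc : ∀ x ∈ A, f x ≤ c)
    (hz : ∀ x, x ∉ A → f x = 0) (hc0 : 0 ≤ c) : ∑ y, cv f f y ^ 2 ≤ c ^ 4 * E4 A := by
  rw [← yng_E4, Finset.mul_sum]
  refine Finset.sum_le_sum (fun y _ => ?_)
  have h1 : cv f f y ≤ c ^ 2 * ∑ a ∈ A, ∑ b ∈ A, (if a + b = y then (1 : ℝ) else 0) := by
    unfold cv
    have e1 : ∑ x, f x * f (y - x) = ∑ x ∈ A, f x * f (y - x) := by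
      symm
      apply Finset.sum_subset (Finset.subset_univ A)
      intro x _ hx
      rw [hz x hx, zero_mul]
    rw [e1, Finset.mul_sum]
    refine Finset.sum_le_sum (fun a ha => ?_)
    by_cases hb : y - a ∈ A
    · have e2 : ∑ b ∈ A, (if a + b = y then (1 : ℝ) else 0) = 1 := by
        rw [Finset.sum_eq_single (y - a)]
        · rw [if_pos (by abel)]
        · intro b _ hb'
          rw [if_neg]
          intro h
          exact hb' (by rw [← h]; abel)
        · intro h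
          exact absurd hb h
      rw [e2, mul_one, pow_two]
      exact mul_le_mul (hc a ha) (hc _ hb) (hf _) hc0
    · rw [hz _ hb, mul_zero]
      refine mul_nonneg (by positivity) (Finset.sum_nonneg (fun b _ => ?_))
      split_ifs
      · exact zero_le_one
      · exact le_rfl
  have h0 : 0 ≤ cv f f y := Finset.sum_nonneg (fun x _ => mul_nonneg (hf _) (hf _))
  calc cv f f y ^ 2 ≤ (c ^ 2 * ∑ a ∈ A, ∑ b ∈ A, (if a + b = y then (1 : ℝ) else 0)) ^ 2 :=
        pow_le_pow_left₀ h0 h1 2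
    _ = _ := by ring

end Pool.H53.NA

end S_NA_Yng

section S_NA_Lev

/-!
Row Lev: the level set lemma.  PROOF.  `F = ∑ f`, `N = Nf f`, so `∑ f² = F²/N` (`N > 0`).  Put
`lo = F/(48 z N)`, `hi = 5 z F/N`, `A = {lo ≤ f ≤ hi}`, `fm = f 1_A`, `fl = f 1_{f < lo}`,
`fh = f 1_{f > hi}` (note `lo ≤ hi`), `f = fm + fl + fh`.  Then
`∑ fl² ≤ lo ∑ f = F²/(48 z N)` and `∑ fh ≤ (1/hi) ∑ f² = F/(5z)`.
`cv f f = cv fm fm + cv fl (f + fm) + cv fh (f + fm)` (bilinearity and symmetry), so pointwise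
`(cv f f)² ≤ 3 ((cv fm fm)² + (cv fl (f+fm))² + (cv fh (f+fm))²)`.  By `young` (with the roles
`g = f + fm`, `h = fl`, resp. `g = fh`, `h = f + fm`; `∑ (f + fm) ≤ 2F`, `∑ (f+fm)² ≤ 4 F²/N`)
`∑ (cv fl (f+fm))² ≤ 4F² * F²/(48 z N)`, `∑ (cv fh (f+fm))² ≤ (F/(5z))² * 4F²/N`.  The hypothesis says
`∑ (cv f f)² ≥ F⁴/(zN)`; as `12/48 = 1/4` and `12/(25 z²) ≤ 6/(25 z)` (because `z ≥ 2`),
`3 ∑ (cv fm fm)² ≥ F⁴/(zN) (1 - 1/4 - 6/25) ≥ F⁴/(2 z N)`.  By `cv_indicator` with `c = hi`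
`∑ (cv fm fm)² ≤ hi⁴ E4 A`, so `E4 A ≥ F⁴/(6zN) * N⁴/(625 z⁴ F⁴) = N³/(3750 z⁵) ≥ N³/z^17`
(`3750 ≤ 2^12 ≤ z^12`).  Next `lo |A| ≤ F`, so `|A| ≤ 48 z N ≤ z^7 N` (`48 ≤ 64 ≤ z^6`), hence
`|A|³ ≤ z^21 N³ ≤ z^38 E4 A ≤ z^40 E4 A`; and `E4 A ≤ |A|³` (three coordinates determine the fourth), so
`N³ ≤ z^17 |A|³ ≤ (z^6 |A|)³`, `N ≤ z^6 |A| ≤ z^7 |A|`.
-/


namespace Pool.H53.NA

theorem lev_E4_le {V : Type} [AddCommGroup V] [DecidableEq V] (A : Finset V) :
    E4 A ≤ A.card ^ 3 := by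
  unfold E4
  have h : (A ×ˢ A ×ˢ A).card = A.card ^ 3 := by
    rw [Finset.card_product, Finset.card_product]; ring
  rw [← h]
  refine Finset.card_le_card_of_injOn (fun x => (x.1, x.2.1, x.2.2.1)) ?_ ?_
  · rintro ⟨a, b, c, d⟩ hx
    simp only [Finset.coe_filter, Finset.mem_product, Set.mem_ofPred_eq] at hx
    simp only [Finset.coe_product, Set.mem_prod, Finset.mem_coe]
    exact ⟨hx.1.1, hx.1.2.1, hx.1.2.2.1⟩
  · rintro ⟨a, b, c, d⟩ hx ⟨a', b', c', d'⟩ hy hxy
    simp only [Finset.coe_filter, Finset.mem_product, Set.mem_ofPred_eq] at hx hy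
    simp only [Prod.mk.injEq] at hxy
    obtain ⟨rfl, rfl, rfl⟩ := hxy
    have h1 := hx.2
    have h2 := hy.2
    have : d = d' := by
      rw [h1] at h2
      exact add_left_cancel h2
    rw [this]

theorem lev_split {V : Type} [AddCommGroup V] [Fintype V] [DecidableEq V] (f a b c : V → ℝ)
    (h : ∀ x, f x = a x + (b x + c x)) (y : V) :
    cv f f y = cv a a y + cv (fun x => f x + a x) b y + cv c (fun x => f x + a x) y := by
  have hf : f = fun x => a x + (fun x => b x + c x) x := funext h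
  have e0 : cv (fun x => f x + a x) b y = cv b (fun x => f x + a x) y := cv_comm _ _ _
  have e1 : cv b (fun x => f x + a x) y + cv c (fun x => f x + a x) y =
      cv (fun x => b x + c x) (fun x => f x + a x) y := (cv_add_left b c _ y).symm
  have e2 : cv (fun x => b x + c x) (fun x => f x + a x) y =
      cv (fun x => b x + c x) f y + cv (fun x => b x + c x) a y := cv_add_right _ f a y
  have e3 : cv f f y = cv a f y + cv (fun x => b x + c x) f y := by
    have := cv_add_left a (fun x => b x + c x) f y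
    rw [← this]
    congr 1
  have e4 : cv a f y = cv a a y + cv a (fun x => b x + c x) y := by
    have := cv_add_right a a (fun x => b x + c x) y
    rw [← this]
    congr 1
  have e5 : cv a (fun x => b x + c x) y = cv (fun x => b x + c x) a y := cv_comm _ _ _
  have e6 : cv a a y + cv b (fun x => f x + a x) y + cv c (fun x => f x + a x) y =
      cv a a y + (cv b (fun x => f x + a x) y + cv c (fun x => f x + a x) y) := add_assoc _ _ _
  rw [e3, e4, e5, e0, e6, e1, e2]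
  ring

theorem level_set {V : Type} [AddCommGroup V] [Fintype V] [DecidableEq V] (f : V → ℝ)
    (hf : ∀ x, 0 ≤ f x) (hF : 0 < ∑ x, f x) (z : ℝ) (hz : 2 ≤ z)
    (hE : (∑ x, f x) ^ 2 * ∑ x, f x ^ 2 ≤ z * ∑ y, cv f f y ^ 2) :
    ∃ lo hi : ℝ, 0 < lo ∧ (∑ x, f x) ≤ z ^ 7 * Nf f * lo ∧
      ((Finset.univ.filter fun x => lo ≤ f x ∧ f x ≤ hi).card : ℝ) ≤ z ^ 7 * Nf f ∧
      Nf f ≤ z ^ 7 * ((Finset.univ.filter fun x => lo ≤ f x ∧ f x ≤ hi).card : ℝ) ∧
      ((Finset.univ.filter fun x => lo ≤ f x ∧ f x ≤ hi).card : ℝ) ^ 3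
        ≤ z ^ 40 * E4 (Finset.univ.filter fun x => lo ≤ f x ∧ f x ≤ hi) := by
  set F := ∑ x, f x with hFd
  set S := ∑ x, f x ^ 2 with hSd
  have hS : 0 < S := by
    obtain ⟨x, _, hx⟩ := Finset.exists_lt_of_sum_lt (s := Finset.univ) (f := fun _ : V => (0 : ℝ))
      (g := f) (by simpa using hF)
    refine Finset.sum_pos' (fun x _ => sq_nonneg _) ⟨x, Finset.mem_univ _, by positivity⟩
  have hz0 : 0 < z := by linarith
  have hz1 : 1 ≤ z := by linarith
  set lo : ℝ := S / (48 * z * F) with hlo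
  set hi : ℝ := 5 * z * S / F with hhi
  have hlo0 : 0 < lo := by positivity
  have hhi0 : 0 < hi := by positivity
  have hlohi : lo ≤ hi := by
    rw [hlo, hhi, div_le_div_iff₀ (by positivity) hF]
    have h1 : 1 ≤ 5 * z * (48 * z) := by nlinarith
    have h2 : 0 < S * F := by positivity
    nlinarith
  have hN : Nf f = F ^ 2 / S := rfl
  have hN0 : 0 < Nf f := by rw [hN]; positivity
  have hNlo : Nf f * lo = F / (48 * z) := by
    rw [hN, hlo]; field_simp
  set A := Finset.univ.filter fun x => lo ≤ f x ∧ f x ≤ hi with hA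
  have hz6 : (64 : ℝ) ≤ z ^ 6 := by
    calc (64 : ℝ) = 2 ^ 6 := by norm_num
      _ ≤ z ^ 6 := pow_le_pow_left₀ (by norm_num) hz 6
  -- the three pieces
  set a : V → ℝ := fun x => if lo ≤ f x ∧ f x ≤ hi then f x else 0 with ha
  set b : V → ℝ := fun x => if f x < lo then f x else 0 with hb
  set c : V → ℝ := fun x => if hi < f x then f x else 0 with hc
  have hsplit : ∀ x, f x = a x + (b x + c x) := by
    intro x
    simp only [ha, hb, hc]
    by_cases h1 : f x < lo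
    · have h2 : ¬ (lo ≤ f x ∧ f x ≤ hi) := fun h => absurd h.1 (not_le.2 h1)
      have h3 : ¬ hi < f x := not_lt.2 (h1.le.trans hlohi)
      simp [h1, h2, h3]
    · by_cases h3 : hi < f x
      · have h2 : ¬ (lo ≤ f x ∧ f x ≤ hi) := fun h => absurd h.2 (not_le.2 h3)
        simp [h1, h2, h3]
      · simp [h1, h3, not_lt.1 h1, not_lt.1 h3]
  have ha0 : ∀ x, 0 ≤ a x := fun x => by
    simp only [ha]; split_ifs
    · exact hf x
    · exact le_rfl
  have hb0 : ∀ x, 0 ≤ b x := fun x => by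
    simp only [hb]; split_ifs
    · exact hf x
    · exact le_rfl
  have hc0 : ∀ x, 0 ≤ c x := fun x => by
    simp only [hc]; split_ifs
    · exact hf x
    · exact le_rfl
  have hale : ∀ x, a x ≤ f x := fun x => by
    have := hsplit x; have := hb0 x; have := hc0 x; linarith
  have hble : ∀ x, b x ≤ f x := fun x => by
    have := hsplit x; have := ha0 x; have := hc0 x; linarith
  have hcle : ∀ x, c x ≤ f x := fun x => by
    have := hsplit x; have := ha0 x; have := hb0 x; linarith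
  -- estimates
  have hsumg : ∑ x, (f x + a x) ≤ 2 * F := by
    rw [hFd, Finset.mul_sum]
    exact Finset.sum_le_sum fun x _ => by have := hale x; linarith
  have hsumg0 : 0 ≤ ∑ x, (f x + a x) := Finset.sum_nonneg fun x _ => add_nonneg (hf x) (ha0 x)
  have hsumg2 : ∑ x, (f x + a x) ^ 2 ≤ 4 * S := by
    rw [hSd, Finset.mul_sum]
    exact Finset.sum_le_sum fun x _ => by
      have h1 := hale x; have h2 := ha0 x; have h3 := hf x; nlinarith
  have hb2 : ∑ x, b x ^ 2 ≤ lo * F := by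
    rw [hFd, Finset.mul_sum]
    refine Finset.sum_le_sum fun x _ => ?_
    have h1 : b x ≤ lo := by
      simp only [hb]; split_ifs with h
      · exact h.le
      · exact hlo0.le
    have h2 := hb0 x
    have h3 := hble x
    nlinarith
  have hc1 : hi * ∑ x, c x ≤ S := by
    rw [hSd, Finset.mul_sum]
    refine Finset.sum_le_sum fun x _ => ?_
    simp only [hc]
    split_ifs with h
    · have := hf x; nlinarith
    · simp; positivity
  have hcs0 : 0 ≤ ∑ x, c x := Finset.sum_nonneg fun x _ => hc0 x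
  have hc2 : ∑ x, c x ≤ F / (5 * z) := by
    have h1 : ∑ x, c x ≤ S / hi := by
      rw [le_div_iff₀ hhi0]; linarith
    have h2 : S / hi = F / (5 * z) := by
      rw [hhi]; field_simp
    rw [← h2]; exact h1
  have hB : ∑ y, cv (fun x => f x + a x) b y ^ 2 ≤ F ^ 2 * S / (12 * z) := by
    have h1 := young (fun x => f x + a x) b (fun x => add_nonneg (hf x) (ha0 x))
    have h2 : (∑ x, (f x + a x)) ^ 2 ≤ (2 * F) ^ 2 := pow_le_pow_left₀ hsumg0 hsumg 2
    have h3 : 0 ≤ ∑ x, b x ^ 2 := Finset.sum_nonneg fun x _ => sq_nonneg _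
    calc ∑ y, cv (fun x => f x + a x) b y ^ 2 ≤ (∑ x, (f x + a x)) ^ 2 * ∑ x, b x ^ 2 := h1
      _ ≤ (2 * F) ^ 2 * (lo * F) := mul_le_mul h2 hb2 h3 (by positivity)
      _ = F ^ 2 * S / (12 * z) := by
          rw [hlo]; field_simp; norm_num
  have hC : ∑ y, cv c (fun x => f x + a x) y ^ 2 ≤ 4 * F ^ 2 * S / (25 * z ^ 2) := by
    have h1 := young c (fun x => f x + a x) hc0
    have h2 : (∑ x, c x) ^ 2 ≤ (F / (5 * z)) ^ 2 := pow_le_pow_left₀ hcs0 hc2 2
    have h3 : 0 ≤ ∑ x, (f x + a x) ^ 2 := Finset.sum_nonneg fun x _ => sq_nonneg _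
    calc ∑ y, cv c (fun x => f x + a x) y ^ 2 ≤ (∑ x, c x) ^ 2 * ∑ x, (f x + a x) ^ 2 := h1
      _ ≤ (F / (5 * z)) ^ 2 * (4 * S) := mul_le_mul h2 hsumg2 h3 (by positivity)
      _ = 4 * F ^ 2 * S / (25 * z ^ 2) := by
          field_simp; norm_num
  have hT : ∑ y, cv a a y ^ 2 ≤ hi ^ 4 * E4 A := by
    refine cv_indicator a A hi ha0 ?_ ?_ hhi0.le
    · intro x hx
      exact (hale x).trans (Finset.mem_filter.1 hx).2.2
    · intro x hx
      simp only [ha]
      rw [if_neg]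
      intro h
      exact hx (Finset.mem_filter.2 ⟨Finset.mem_univ _, h⟩)
  have hsum : ∑ y, cv f f y ^ 2 ≤ 3 * (∑ y, cv a a y ^ 2) +
      3 * (∑ y, cv (fun x => f x + a x) b y ^ 2) + 3 * ∑ y, cv c (fun x => f x + a x) y ^ 2 := by
    rw [Finset.mul_sum, Finset.mul_sum, Finset.mul_sum, ← Finset.sum_add_distrib,
      ← Finset.sum_add_distrib]
    refine Finset.sum_le_sum fun y _ => ?_
    rw [lev_split f a b c hsplit y]
    nlinarith [sq_nonneg (cv a a y - cv (fun x => f x + a x) b y),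
      sq_nonneg (cv a a y - cv c (fun x => f x + a x) y),
      sq_nonneg (cv (fun x => f x + a x) b y - cv c (fun x => f x + a x) y)]
  have hE4 : 0 ≤ (E4 A : ℝ) := Nat.cast_nonneg _
  -- main inequality
  have hmain : F ^ 2 * S ≤ 6 * z * (hi ^ 4 * E4 A) := by
    have h1 : z * ∑ y, cv f f y ^ 2 ≤ z * (3 * (hi ^ 4 * E4 A) + 3 * (F ^ 2 * S / (12 * z)) +
        3 * (4 * F ^ 2 * S / (25 * z ^ 2))) := by
      apply mul_le_mul_of_nonneg_left _ hz0.le
      linarith
    have h2 : z * (3 * (hi ^ 4 * E4 A) + 3 * (F ^ 2 * S / (12 * z)) +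
        3 * (4 * F ^ 2 * S / (25 * z ^ 2))) =
        3 * z * (hi ^ 4 * E4 A) + F ^ 2 * S / 4 + (12 / 25) * (F ^ 2 * S) / z := by
      field_simp
      ring
    have h3 : (12 / 25) * (F ^ 2 * S) / z ≤ (6 / 25) * (F ^ 2 * S) := by
      rw [div_le_iff₀ hz0]
      have : 0 < F ^ 2 * S := by positivity
      nlinarith
    have h4 : 0 < F ^ 2 * S := by positivity
    linarith
  have hN3 : Nf f ^ 3 ≤ 3750 * z ^ 5 * E4 A := by
    rw [hN, div_pow, div_le_iff₀ (by positivity)]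
    have h1 : hi ^ 4 = 625 * z ^ 4 * S ^ 4 / F ^ 4 := by rw [hhi]; field_simp; norm_num
    rw [h1] at hmain
    have h2 : F ^ 2 * S * F ^ 4 ≤ 6 * z * (625 * z ^ 4 * S ^ 4 * E4 A) := by
      have h3 : 6 * z * (625 * z ^ 4 * S ^ 4 / F ^ 4 * E4 A) * F ^ 4 =
          6 * z * (625 * z ^ 4 * S ^ 4 * E4 A) := by field_simp
      rw [← h3]
      exact mul_le_mul_of_nonneg_right hmain (by positivity)
    have h4 : (F ^ 2) ^ 3 * S ≤ 3750 * z ^ 5 * E4 A * S ^ 3 * S := by nlinarith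
    exact le_of_mul_le_mul_right h4 hS
  have hz12 : (4096 : ℝ) ≤ z ^ 12 := by
    calc (4096 : ℝ) = 2 ^ 12 := by norm_num
      _ ≤ z ^ 12 := pow_le_pow_left₀ (by norm_num) hz 12
  have hN17 : Nf f ^ 3 ≤ z ^ 17 * E4 A := by
    refine hN3.trans ?_
    have h1 : 3750 * z ^ 5 ≤ z ^ 17 := by
      have : z ^ 17 = z ^ 12 * z ^ 5 := by ring
      rw [this]
      have : 0 < z ^ 5 := by positivity
      nlinarith
    exact mul_le_mul_of_nonneg_right h1 hE4
  have hAc : (A.card : ℝ) * lo ≤ F := by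
    have h1 : (A.card : ℝ) * lo = ∑ _x ∈ A, lo := by simp
    rw [h1]
    calc ∑ _x ∈ A, lo ≤ ∑ x ∈ A, f x := Finset.sum_le_sum fun x hx => (Finset.mem_filter.1 hx).2.1
      _ ≤ ∑ x, f x := Finset.sum_le_sum_of_subset_of_nonneg (Finset.filter_subset _ _)
          fun x _ _ => hf x
  have hA7 : (A.card : ℝ) ≤ z ^ 7 * Nf f := by
    have h1 : (A.card : ℝ) * lo ≤ (z ^ 7 * Nf f) * lo := by
      rw [mul_assoc, hNlo]
      refine hAc.trans ?_
      rw [mul_div_assoc', le_div_iff₀ (by positivity)]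
      have : z ^ 7 = z ^ 6 * z := by ring
      rw [this]
      have : 0 < F * z := by positivity
      nlinarith
    exact le_of_mul_le_mul_right h1 hlo0
  have hAc0 : (0 : ℝ) ≤ A.card := Nat.cast_nonneg _
  refine ⟨lo, hi, hlo0, ?_, hA7, ?_, ?_⟩
  · rw [mul_assoc, hNlo, mul_div_assoc', le_div_iff₀ (by positivity)]
    have : z ^ 7 = z ^ 6 * z := by ring
    rw [this]
    have : 0 < F * z := by positivity
    nlinarith
  · have h1 : (E4 A : ℝ) ≤ (A.card : ℝ) ^ 3 := by exact_mod_cast lev_E4_le A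
    have h2 : Nf f ^ 3 ≤ (z ^ 6 * A.card) ^ 3 := by
      refine hN17.trans ?_
      rw [mul_pow, ← pow_mul]
      have h17 : z ^ 17 ≤ z ^ (6 * 3) := pow_le_pow_right₀ hz1 (by omega)
      have hp : (0 : ℝ) ≤ z ^ (6 * 3) := pow_nonneg hz0.le _
      exact mul_le_mul h17 h1 hE4 hp
    have h3 : Nf f ≤ z ^ 6 * A.card :=
      le_of_pow_le_pow_left₀ three_ne_zero (mul_nonneg (pow_nonneg hz0.le 6) hAc0) h2
    refine h3.trans ?_
    have h67 : z ^ 6 ≤ z ^ 7 := pow_le_pow_right₀ hz1 (by omega)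
    exact mul_le_mul_of_nonneg_right h67 hAc0
  · calc (A.card : ℝ) ^ 3 ≤ (z ^ 7 * Nf f) ^ 3 := pow_le_pow_left₀ hAc0 hA7 3
      _ = z ^ 21 * Nf f ^ 3 := by ring
      _ ≤ z ^ 21 * (z ^ 17 * E4 A) := mul_le_mul_of_nonneg_left hN17 (by positivity)
      _ = z ^ 38 * E4 A := by ring
      _ ≤ z ^ 40 * E4 A := by
          have h38 : z ^ 38 ≤ z ^ 40 := pow_le_pow_right₀ hz1 (by omega)
          exact mul_le_mul_of_nonneg_right h38 hE4

end Pool.H53.NA

end S_NA_Lev
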