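import Mathlib
import Pool.Agent.H53.NM.M1

set_option autoImplicit false

/-! Sums of a prime and powers of two, part M2: this file joins several modules to save build time. -/

section S_NA_Hpr

/-!
Row Hpr: many dilates of `A'` meet `A'`.  PROOF.  `t = |H|`, `n' = |A'|`.  For `h ∈ H` `h A' ⊆ A` and
`|h A'| = n'` (`h` is a unit).  `∑_{h,h' ∈ H} |hA' ∩ h'A'| = ∑_{x ∈ A} (#{h ∈ H : x ∈ hA'})² ≥ (t n')²/|A|`
(Cauchy-Schwarz) and `|hA' ∩ h'A'| = |A' ∩ h⁻¹h'A'|`; for fixed `h` the map `h' ↦ h⁻¹h'` permutes `H`, so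
`t ∑_{h ∈ H} |A' ∩ hA'| ≥ t² n'²/|A| ≥ t² n'/L`.  Let `H' = {h ∈ H : |A' ∩ hA'| ≥ n'/(2L)}`.
`∑_h |A' ∩ hA'| ≤ |H'| n' + t n'/(2L)`, so `|H'| ≥ t/(2L)`.  For `h ∈ H'`, `Y = A' ∩ hA'`, the Ruzsa triangle
inequality (`Finset.ruzsa_triangle_inequality_sub_sub_sub`: `|A - C||B| ≤ |A - B||C - B|`) gives
`|A' - hA'| |Y| ≤ |A' - Y| |hA' - Y| ≤ |A' - A'| |hA' - hA'| = |A'-A'|² ≤ L² n'²`, so
`|A' - hA'| ≤ 2 L³ n'`.
-/


namespace Pool.H53.NA

open scoped Pointwise

private theorem hprInj {R : Type} [CommRing R] {H : Finset R} (hH : SGL H) {h : R} (hh : h ∈ H) :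
    Function.Injective (fun x : R => h * x) := by
  obtain ⟨g, _, hg⟩ := hH.inv h hh
  intro x y hxy
  have hxy' : h * x = h * y := hxy
  calc x = g * h * x := by rw [hg, one_mul]
    _ = g * (h * x) := by ring
    _ = g * (h * y) := by rw [hxy']
    _ = g * h * y := by ring
    _ = y := by rw [hg, one_mul]

private theorem hprCard {R : Type} [CommRing R] [DecidableEq R] {H : Finset R} (hH : SGL H) {h : R}
    (hh : h ∈ H) (A' : Finset R) : (dil h A').card = A'.card :=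
  Finset.card_image_of_injective _ (hprInj hH hh)

private theorem hprInter {R : Type} [CommRing R] [DecidableEq R] {H : Finset R} (hH : SGL H)
    {h g h' : R} (hh : h ∈ H) (hg : g ∈ H) (hgh : g * h = 1) (hh' : h' ∈ H) (A' : Finset R) :
    (dil h A' ∩ dil h' A').card = (A' ∩ dil (g * h') A').card := by
  have hinj := hprInj hH hg
  have e : (dil h A' ∩ dil h' A').image (fun x : R => g * x) = A' ∩ dil (g * h') A' := by
    rw [Finset.image_inter _ _ hinj]
    unfold dil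
    rw [Finset.image_image, Finset.image_image]
    have e1 : ((fun x : R => g * x) ∘ fun a : R => h * a) = id := by
      funext x
      show g * (h * x) = x
      rw [← mul_assoc, hgh, one_mul]
    have e2 : ((fun x : R => g * x) ∘ fun a : R => h' * a) = fun a : R => g * h' * a := by
      funext x
      show g * (h' * x) = g * h' * x
      ring
    rw [e1, e2, Finset.image_id]
  rw [← e, Finset.card_image_of_injective _ hinj]

private theorem hprShift {R : Type} [CommRing R] [DecidableEq R] {H : Finset R} (hH : SGL H)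
    {h g : R} (hh : h ∈ H) (hg : g ∈ H) (hgh : g * h = 1) (f : R → ℝ) :
    ∑ h' ∈ H, f (g * h') = ∑ h' ∈ H, f h' := by
  refine Finset.sum_bij' (fun x _ => g * x) (fun x _ => h * x) ?_ ?_ ?_ ?_ ?_
  · intro a ha; exact hH.mul g hg a ha
  · intro a ha; exact hH.mul h hh a ha
  · intro a ha
    show h * (g * a) = a
    rw [← mul_assoc, mul_comm h g, hgh, one_mul]
  · intro a ha
    show g * (h * a) = a
    rw [← mul_assoc, hgh, one_mul]
  · intro a ha; rfl

private theorem hprSum {R : Type} [CommRing R] [DecidableEq R] (H A A' : Finset R)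
    (hH : SGL H) (hinv : ∀ h ∈ H, ∀ x ∈ A, h * x ∈ A) (hsub : A' ⊆ A) :
    (H.card : ℝ) * (A'.card : ℝ) ^ 2 ≤ (A.card : ℝ) * ∑ h ∈ H, ((A' ∩ dil h A').card : ℝ) := by
  classical
  have hdil : ∀ h ∈ H, dil h A' ⊆ A := by
    intro h hh x hx
    obtain ⟨a, ha, rfl⟩ := Finset.mem_image.1 hx
    exact hinv h hh a (hsub ha)
  set r : R → ℝ := fun x => ∑ h ∈ H, if x ∈ dil h A' then (1 : ℝ) else 0 with hr
  have hcnt : ∀ B : Finset R, B ⊆ A → ∑ x ∈ A, (if x ∈ B then (1 : ℝ) else 0) = B.card := by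
    intro B hB
    rw [Finset.sum_ite_mem, Finset.inter_eq_right.2 hB]
    simp
  have s1 : ∑ x ∈ A, r x = (H.card : ℝ) * A'.card := by
    rw [hr]
    simp only
    rw [Finset.sum_comm]
    rw [Finset.sum_congr rfl (fun h hh => hcnt _ (hdil h hh))]
    rw [Finset.sum_congr rfl (fun h hh => by rw [hprCard hH hh A'])]
    rw [Finset.sum_const, nsmul_eq_mul]
  have s2 : ∑ x ∈ A, r x ^ 2 = ∑ h ∈ H, ∑ h' ∈ H, ((dil h A' ∩ dil h' A').card : ℝ) := by
    have e : ∀ x ∈ A, r x ^ 2 = ∑ h ∈ H, ∑ h' ∈ H,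
        (if x ∈ dil h A' ∩ dil h' A' then (1 : ℝ) else 0) := by
      intro x _
      rw [sq, hr]
      simp only
      rw [Finset.sum_mul_sum]
      refine Finset.sum_congr rfl fun h _ => Finset.sum_congr rfl fun h' _ => ?_
      by_cases a : x ∈ dil h A' <;> by_cases b : x ∈ dil h' A' <;> simp [a, b]
    rw [Finset.sum_congr rfl e, Finset.sum_comm]
    refine Finset.sum_congr rfl fun h hh => ?_
    rw [Finset.sum_comm]
    refine Finset.sum_congr rfl fun h' hh' => ?_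
    exact hcnt _ (fun x hx => hdil h hh (Finset.mem_inter.1 hx).1)
  have s3 : ∑ h ∈ H, ∑ h' ∈ H, ((dil h A' ∩ dil h' A').card : ℝ) =
      (H.card : ℝ) * ∑ h ∈ H, ((A' ∩ dil h A').card : ℝ) := by
    have e : ∀ h ∈ H, ∑ h' ∈ H, ((dil h A' ∩ dil h' A').card : ℝ) =
        ∑ h ∈ H, ((A' ∩ dil h A').card : ℝ) := by
      intro h hh
      obtain ⟨g, hg, hgh⟩ := hH.inv h hh
      rw [← hprShift hH hh hg hgh (fun h' => ((A' ∩ dil h' A').card : ℝ))]
      refine Finset.sum_congr rfl fun h' hh' => ?_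
      rw [hprInter hH hh hg hgh hh' A']
    rw [Finset.sum_congr rfl e, Finset.sum_const, nsmul_eq_mul]
  have cs : (∑ x ∈ A, r x) ^ 2 ≤ (A.card : ℝ) * ∑ x ∈ A, r x ^ 2 := sq_sum_le_card_mul_sum_sq
  rw [s1, s2, s3] at cs
  have ht : (0 : ℝ) < H.card := by
    have : 0 < H.card := Finset.card_pos.2 ⟨1, hH.one⟩
    exact_mod_cast this
  have : (H.card : ℝ) * ((H.card : ℝ) * (A'.card : ℝ) ^ 2) ≤
      (H.card : ℝ) * ((A.card : ℝ) * ∑ h ∈ H, ((A' ∩ dil h A').card : ℝ)) := by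
    calc (H.card : ℝ) * ((H.card : ℝ) * (A'.card : ℝ) ^ 2) = ((H.card : ℝ) * A'.card) ^ 2 := by ring
      _ ≤ _ := cs
      _ = _ := by ring
  exact le_of_mul_le_mul_left this ht

private theorem hprDilSub {R : Type} [CommRing R] [DecidableEq R] (h : R) (A' : Finset R) :
    (dil h A' - dil h A').card ≤ (A' - A').card := by
  have e : dil h A' - dil h A' ⊆ (A' - A').image fun a => h * a := by
    intro x hx
    obtain ⟨y, hy, z, hz, rfl⟩ := Finset.mem_sub.1 hx
    obtain ⟨a, ha, rfl⟩ := Finset.mem_image.1 hy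
    obtain ⟨b, hb, rfl⟩ := Finset.mem_image.1 hz
    refine Finset.mem_image.2 ⟨a - b, Finset.sub_mem_sub ha hb, ?_⟩
    ring
  exact (Finset.card_le_card e).trans Finset.card_image_le

theorem hprime {R : Type} [CommRing R] [DecidableEq R] (H A A' : Finset R) (L : ℝ) (hL : 1 ≤ L)
    (hH : SGL H) (hinv : ∀ h ∈ H, ∀ x ∈ A, h * x ∈ A) (hsub : A' ⊆ A) (hne : A'.Nonempty)
    (h1 : (A.card : ℝ) ≤ L * A'.card) (h2 : ((A' - A').card : ℝ) ≤ L * A'.card) :
    ∃ H' : Finset R, H' ⊆ H ∧ (H.card : ℝ) ≤ 2 * L * H'.card ∧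
      ∀ h ∈ H', Xi A' (2 * L ^ 3) h := by
  classical
  have hL0 : 0 < L := by linarith
  have hn : (0 : ℝ) < A'.card := by exact_mod_cast Finset.card_pos.2 hne
  have key := hprSum H A A' hH hinv hsub
  set S : ℝ := ∑ h ∈ H, ((A' ∩ dil h A').card : ℝ) with hS
  have hS0 : 0 ≤ S := Finset.sum_nonneg fun _ _ => Nat.cast_nonneg _
  have k2 : (H.card : ℝ) * A'.card ≤ L * S := by
    have : (A'.card : ℝ) * ((H.card : ℝ) * A'.card) ≤ (A'.card : ℝ) * (L * S) := by
      calc (A'.card : ℝ) * ((H.card : ℝ) * A'.card) = (H.card : ℝ) * (A'.card : ℝ) ^ 2 := by ring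
        _ ≤ (A.card : ℝ) * S := key
        _ ≤ (L * A'.card) * S := mul_le_mul_of_nonneg_right h1 hS0
        _ = _ := by ring
    exact le_of_mul_le_mul_left this hn
  refine ⟨H.filter fun h => (A'.card : ℝ) ≤ 2 * L * (A' ∩ dil h A').card, Finset.filter_subset _ _,
    ?_, ?_⟩
  · set H' := H.filter fun h => (A'.card : ℝ) ≤ 2 * L * (A' ∩ dil h A').card with hH'
    have k3 : 2 * L * S ≤ 2 * L * (H'.card * A'.card) + H.card * A'.card := by
      have e : S = ∑ h ∈ H', ((A' ∩ dil h A').card : ℝ) +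
          ∑ h ∈ H.filter (fun h => ¬ (A'.card : ℝ) ≤ 2 * L * (A' ∩ dil h A').card),
            ((A' ∩ dil h A').card : ℝ) := by
        rw [hS, hH', Finset.sum_filter_add_sum_filter_not]
      have b1 : ∑ h ∈ H', ((A' ∩ dil h A').card : ℝ) ≤ H'.card * A'.card := by
        rw [← nsmul_eq_mul]
        refine Finset.sum_le_card_nsmul _ _ _ fun h _ => ?_
        exact_mod_cast Finset.card_le_card Finset.inter_subset_left
      have b2 : ∑ h ∈ H.filter (fun h => ¬ (A'.card : ℝ) ≤ 2 * L * (A' ∩ dil h A').card),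
            ((A' ∩ dil h A').card : ℝ) ≤ H.card * (A'.card / (2 * L)) := by
        have b3 : ∑ h ∈ H.filter (fun h => ¬ (A'.card : ℝ) ≤ 2 * L * (A' ∩ dil h A').card),
            ((A' ∩ dil h A').card : ℝ) ≤
            ((H.filter (fun h => ¬ (A'.card : ℝ) ≤ 2 * L * (A' ∩ dil h A').card)).card : ℝ) *
              (A'.card / (2 * L)) := by
          rw [← nsmul_eq_mul]
          refine Finset.sum_le_card_nsmul _ _ _ fun h hh => ?_
          have := (Finset.mem_filter.1 hh).2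
          rw [le_div_iff₀ (by positivity)]
          have := not_le.1 this
          linarith
        refine b3.trans (mul_le_mul_of_nonneg_right ?_ (by positivity))
        exact_mod_cast Finset.card_le_card (Finset.filter_subset _ _)
      have b4 : 2 * L * ((H.card : ℝ) * (A'.card / (2 * L))) = H.card * A'.card := by
        field_simp
      have : 2 * L * S ≤ 2 * L * (H'.card * A'.card + H.card * (A'.card / (2 * L))) := by
        refine mul_le_mul_of_nonneg_left ?_ (by positivity)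
        rw [e]
        exact add_le_add b1 b2
      linarith
    have k4 : (A'.card : ℝ) * H.card ≤ A'.card * (2 * L * H'.card) := by
      nlinarith
    exact le_of_mul_le_mul_left k4 hn
  · intro h hh
    obtain ⟨hhH, hh2⟩ := Finset.mem_filter.1 hh
    unfold Xi
    set Y := A' ∩ dil h A' with hY
    have rz := Finset.ruzsa_triangle_inequality_sub_sub_sub A' Y (dil h A')
    have m1 : (A' - Y).card ≤ (A' - A').card :=
      Finset.card_le_card (Finset.sub_subset_sub_left Finset.inter_subset_left)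
    have m2 : (dil h A' - Y).card ≤ (A' - A').card :=
      (Finset.card_le_card (Finset.sub_subset_sub_left Finset.inter_subset_right)).trans
        (hprDilSub h A')
    have m3 : (A' - dil h A').card * Y.card ≤ (A' - A').card * (A' - A').card :=
      rz.trans (Nat.mul_le_mul m1 m2)
    have m4 : ((A' - dil h A').card : ℝ) * Y.card ≤ (A' - A').card * (A' - A').card := by
      exact_mod_cast m3
    have m5 : ((A' - dil h A').card : ℝ) * Y.card ≤ (L * A'.card) * (L * A'.card) :=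
      m4.trans (mul_le_mul h2 h2 (Nat.cast_nonneg _) (by positivity))
    have m6 : (A'.card : ℝ) * ((A' - dil h A').card : ℝ) ≤ A'.card * (2 * L ^ 3 * A'.card) := by
      calc (A'.card : ℝ) * ((A' - dil h A').card : ℝ)
          ≤ (2 * L * Y.card) * ((A' - dil h A').card : ℝ) :=
            mul_le_mul_of_nonneg_right hh2 (Nat.cast_nonneg _)
        _ = 2 * L * (((A' - dil h A').card : ℝ) * Y.card) := by ring
        _ ≤ 2 * L * ((L * A'.card) * (L * A'.card)) :=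
            mul_le_mul_of_nonneg_left m5 (by positivity)
        _ = _ := by ring
    exact le_of_mul_le_mul_left m6 hn

end Pool.H53.NA

end S_NA_Hpr

section S_NA_Xop

/-!
Row Xop: the multipliers `ξ` with `|A - ξA| ≤ x|A|`.

PROOFS.
* `Xi_mul`.  If `b = 0` then `A - dil (b*c) A = A - {0}` has `|A|` elements.  If `b` is a unit: Ruzsa
  (`Finset.ruzsa_triangle_inequality_sub_sub_sub`: `|A - C||B| ≤ |A - B||C - B|`) with `B = bA`, `C = bcA`:
  `|A - bcA||bA| ≤ |A - bA||bcA - bA|`, `|bA| = |A|`, `bcA - bA = b(cA - A)` has `|cA - A| = |A - cA|` elements.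
* `Xi_comb`.  Let `C = A ∪ ⋃ c_i A ∪ ⋃ e_j A`.  `|A - C| ≤ (p+q+1) x |A|` (union bound; `Finset.sub_union` or
  `Finset.sub_biUnion`-like).  `A - dil ξ A ⊆ (q+1)•C - p•C` (an element is
  `a - ∑ c_i a' + ∑ e_j a'`), so Plünnecke-Ruzsa
  (`Finset.pluennecke_ruzsa_inequality_nsmul_sub_nsmul_sub`, in `ℚ≥0`:
  `|m•C - n•C| ≤ (|A - C|/|A|)^(m+n) |A|`) gives the bound `((p+q+1)x)^(p+q+1) |A|`.
* `Xi_quo`.  `|A - wA| = |vA - uA|` (`v` a unit), and by the triangle inequality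
  `|vA - uA||A| ≤ |vA - A||uA - A| ≤ x² |A|²`.
* `Xi_mono` is trivial.
-/


namespace Pool.H53.NA

open scoped Pointwise

variable {R : Type} [CommRing R] [DecidableEq R]

theorem xop_card_comm (X Y : Finset R) : (X - Y).card = (Y - X).card := by
  rw [← Finset.card_neg, neg_sub]

theorem xop_card_dil (b : R) (hb : IsUnit b) (X : Finset R) : (dil b X).card = X.card := by
  unfold dil
  exact Finset.card_image_of_injective _ hb.mul_right_injective

theorem xop_dil_dil (b c : R) (X : Finset R) : dil (b * c) X = dil b (dil c X) := by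
  unfold dil
  rw [Finset.image_image]
  congr 1
  funext a
  simp [mul_assoc]

theorem xop_dil_sub (b : R) (X Y : Finset R) : dil b (X - Y) = dil b X - dil b Y := by
  unfold dil
  ext z
  simp only [Finset.mem_image, Finset.mem_sub]
  constructor
  · rintro ⟨_, ⟨x, hx, y, hy, rfl⟩, rfl⟩
    exact ⟨b * x, ⟨x, hx, rfl⟩, b * y, ⟨y, hy, rfl⟩, (mul_sub b x y).symm⟩
  · rintro ⟨_, ⟨x, hx, rfl⟩, _, ⟨y, hy, rfl⟩, rfl⟩
    exact ⟨x - y, ⟨x, hx, y, hy, rfl⟩, mul_sub b x y⟩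

theorem xop_div (a b c : ℝ) (h : a * c ≤ b * c * c) (ha : c = 0 → a = 0) (hc : 0 ≤ c) : a ≤ b * c := by
  rcases hc.eq_or_lt with h0 | h0
  · rw [ha h0.symm, ← h0, mul_zero]
  · exact le_of_mul_le_mul_right h h0

theorem Xi_mono (A : Finset R) (x y : ℝ) (hxy : x ≤ y) (b : R) (h : Xi A x b) : Xi A y b := by
  unfold Xi at h ⊢
  exact h.trans (mul_le_mul_of_nonneg_right hxy (Nat.cast_nonneg _))

theorem Xi_mul (A : Finset R) (x y : ℝ) (hx : 1 ≤ x) (hy : 1 ≤ y) (b c : R)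
    (hb : b = 0 ∨ IsUnit b) (h1 : Xi A x b) (h2 : Xi A y c) : Xi A (x * y) (b * c) := by
  unfold Xi at *
  rcases hb with rfl | hb
  · have hsub : A - dil (0 * c) A ⊆ A := by
      intro z hz
      rw [Finset.mem_sub] at hz
      obtain ⟨a, ha, w, hw, rfl⟩ := hz
      unfold dil at hw
      rw [Finset.mem_image] at hw
      obtain ⟨a', _, rfl⟩ := hw
      simpa using ha
    have h3 : ((A - dil (0 * c) A).card : ℝ) ≤ A.card := by exact_mod_cast Finset.card_le_card hsub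
    have h4 : (1 : ℝ) ≤ x * y := by nlinarith
    have h5 : (0 : ℝ) ≤ A.card := Nat.cast_nonneg _
    nlinarith
  · have hr := Finset.ruzsa_triangle_inequality_sub_sub_sub A (dil b A) (dil (b * c) A)
    rw [xop_card_dil b hb, xop_dil_dil b c, ← xop_dil_sub, xop_card_dil b hb,
      xop_card_comm (dil c A) A] at hr
    have hr' : ((A - dil b (dil c A)).card : ℝ) * A.card ≤
        ((A - dil b A).card : ℝ) * ((A - dil c A).card : ℝ) := by exact_mod_cast hr
    rw [xop_dil_dil b c]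
    refine xop_div _ _ _ ?_ ?_ (Nat.cast_nonneg _)
    · refine hr'.trans ?_
      have h3 : (0 : ℝ) ≤ ((A - dil c A).card : ℝ) := Nat.cast_nonneg _
      have h4 : (0 : ℝ) ≤ x * A.card := mul_nonneg (by linarith) (Nat.cast_nonneg _)
      calc ((A - dil b A).card : ℝ) * ((A - dil c A).card : ℝ) ≤ (x * A.card) * (y * A.card) :=
            mul_le_mul h1 h2 h3 h4
        _ = x * y * A.card * A.card := by ring
    · intro h0
      have : A = ∅ := Finset.card_eq_zero.1 (by exact_mod_cast h0)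
      subst this
      simp

theorem xop_mem_nsmul (C : Finset R) : ∀ (n : ℕ) (f : Fin n → R), (∀ i, f i ∈ C) →
    ∑ i, f i ∈ n • C := by
  intro n
  induction n with
  | zero => intro f _; simp
  | succ n ih =>
    intro f hf
    rw [Fin.sum_univ_succ, succ_nsmul, add_comm (f 0)]
    exact Finset.add_mem_add (ih (fun i => f i.succ) fun i => hf _) (hf 0)

theorem Xi_comb (A : Finset R) (x : ℝ) (hx : 1 ≤ x) (hAA : ((A - A).card : ℝ) ≤ x * A.card)
    (p q : ℕ) (c : Fin p → R) (e : Fin q → R) (hc : ∀ i, Xi A x (c i)) (he : ∀ j, Xi A x (e j)) :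
    Xi A ((((p + q + 1 : ℕ) : ℝ) * x) ^ (p + q + 1)) (∑ i, c i - ∑ j, e j) := by
  classical
  unfold Xi at *
  rcases A.eq_empty_or_nonempty with rfl | hA
  · simp
  set C : Finset R := A ∪ ((Finset.univ.biUnion fun i => dil (c i) A) ∪
    (Finset.univ.biUnion fun j => dil (e j) A)) with hC
  set ξ : R := ∑ i, c i - ∑ j, e j with hξ
  have hsubset : A - dil ξ A ⊆ (q + 1) • C - p • C := by
    intro z hz
    rw [Finset.mem_sub] at hz
    obtain ⟨a, ha, w, hw, rfl⟩ := hz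
    unfold dil at hw
    rw [Finset.mem_image] at hw
    obtain ⟨a', ha', rfl⟩ := hw
    have h1 : a - ξ * a' = (∑ j, e j * a' + a) - ∑ i, c i * a' := by
      rw [hξ, sub_mul, Finset.sum_mul, Finset.sum_mul]
      ring
    rw [h1]
    refine Finset.sub_mem_sub ?_ ?_
    · rw [succ_nsmul]
      refine Finset.add_mem_add (xop_mem_nsmul C q _ fun j => ?_) ?_
      · refine Finset.mem_union_right _ (Finset.mem_union_right _ ?_)
        exact Finset.mem_biUnion.2 ⟨j, Finset.mem_univ _, Finset.mem_image.2 ⟨a', ha', rfl⟩⟩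
      · exact Finset.mem_union_left _ ha
    · refine xop_mem_nsmul C p _ fun i => ?_
      refine Finset.mem_union_right _ (Finset.mem_union_left _ ?_)
      exact Finset.mem_biUnion.2 ⟨i, Finset.mem_univ _, Finset.mem_image.2 ⟨a', ha', rfl⟩⟩
  have hcardC : ((A - C).card : ℝ) ≤ ((p + q + 1 : ℕ) : ℝ) * x * A.card := by
    have hs : A - C ⊆ (A - A) ∪ ((Finset.univ.biUnion fun i => (A - dil (c i) A)) ∪
        (Finset.univ.biUnion fun j => (A - dil (e j) A))) := by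
      intro z hz
      rw [Finset.mem_sub] at hz
      obtain ⟨a, ha, w, hw, rfl⟩ := hz
      rw [hC, Finset.mem_union, Finset.mem_union, Finset.mem_biUnion, Finset.mem_biUnion] at hw
      rcases hw with hw | ⟨i, hi, hw⟩ | ⟨j, hj, hw⟩
      · exact Finset.mem_union_left _ (Finset.sub_mem_sub ha hw)
      · refine Finset.mem_union_right _ (Finset.mem_union_left _ ?_)
        exact Finset.mem_biUnion.2 ⟨i, hi, Finset.sub_mem_sub ha hw⟩
      · refine Finset.mem_union_right _ (Finset.mem_union_right _ ?_)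
        exact Finset.mem_biUnion.2 ⟨j, hj, Finset.sub_mem_sub ha hw⟩
    have h1 : (A - C).card ≤ (A - A).card + (∑ i, (A - dil (c i) A).card +
        ∑ j, (A - dil (e j) A).card) := by
      refine (Finset.card_le_card hs).trans ((Finset.card_union_le _ _).trans ?_)
      refine Nat.add_le_add_left ((Finset.card_union_le _ _).trans ?_) _
      exact Nat.add_le_add Finset.card_biUnion_le Finset.card_biUnion_le
    have h2 : ((A - C).card : ℝ) ≤ ((A - A).card : ℝ) + (∑ i, ((A - dil (c i) A).card : ℝ) +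
        ∑ j, ((A - dil (e j) A).card : ℝ)) := by exact_mod_cast h1
    have h3 : ∑ i, ((A - dil (c i) A).card : ℝ) ≤ p * (x * A.card) := by
      refine (Finset.sum_le_sum fun i _ => hc i).trans (le_of_eq ?_)
      rw [Finset.sum_const, Finset.card_univ, Fintype.card_fin, nsmul_eq_mul]
    have h4 : ∑ j, ((A - dil (e j) A).card : ℝ) ≤ q * (x * A.card) := by
      refine (Finset.sum_le_sum fun j _ => he j).trans (le_of_eq ?_)
      rw [Finset.sum_const, Finset.card_univ, Fintype.card_fin, nsmul_eq_mul]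
    push_cast
    nlinarith
  have hpr := Finset.pluennecke_ruzsa_inequality_nsmul_sub_nsmul_sub hA C (q + 1) p
  have hpr' : ((((q + 1) • C - p • C).card : ℕ) : ℝ) ≤
      (((A - C).card : ℝ) / (A.card : ℝ)) ^ (q + 1 + p) * (A.card : ℝ) := by
    have h := (NNRat.cast_le (K := ℝ)).2 hpr
    push_cast at h
    exact h
  have hApos : (0 : ℝ) < A.card := by exact_mod_cast hA.card_pos
  have hdiv : ((A - C).card : ℝ) / (A.card : ℝ) ≤ ((p + q + 1 : ℕ) : ℝ) * x := by
    rw [div_le_iff₀ hApos]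
    exact hcardC
  have hdiv0 : (0 : ℝ) ≤ ((A - C).card : ℝ) / (A.card : ℝ) :=
    div_nonneg (Nat.cast_nonneg _) hApos.le
  calc ((A - dil ξ A).card : ℝ) ≤ ((((q + 1) • C - p • C).card : ℕ) : ℝ) := by
        exact_mod_cast Finset.card_le_card hsubset
    _ ≤ (((A - C).card : ℝ) / (A.card : ℝ)) ^ (q + 1 + p) * (A.card : ℝ) := hpr'
    _ ≤ ((((p + q + 1 : ℕ) : ℝ) * x) ^ (p + q + 1)) * A.card := by
        rw [show q + 1 + p = p + q + 1 by ring]
        exact mul_le_mul_of_nonneg_right (pow_le_pow_left₀ hdiv0 hdiv _) hApos.le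

theorem Xi_quo (A : Finset R) (x : ℝ) (u v w : R) (hv : IsUnit v) (hw : w * v = u)
    (h1 : Xi A x u) (h2 : Xi A x v) : Xi A (x ^ 2) w := by
  unfold Xi at *
  have hr := Finset.ruzsa_triangle_inequality_sub_sub_sub (dil v A) A (dil u A)
  have h3 : dil v A - dil u A = dil v (A - dil w A) := by
    rw [xop_dil_sub, ← xop_dil_dil, mul_comm v w, hw]
  rw [h3, xop_card_dil v hv, xop_card_comm (dil v A) A, xop_card_comm (dil u A) A] at hr
  have hr' : ((A - dil w A).card : ℝ) * A.card ≤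
      ((A - dil v A).card : ℝ) * ((A - dil u A).card : ℝ) := by exact_mod_cast hr
  refine xop_div _ _ _ ?_ ?_ (Nat.cast_nonneg _)
  · refine hr'.trans ?_
    have h4 : (0 : ℝ) ≤ ((A - dil u A).card : ℝ) := Nat.cast_nonneg _
    have h5 : (0 : ℝ) ≤ x * A.card := le_trans (Nat.cast_nonneg _) h2
    calc ((A - dil v A).card : ℝ) * ((A - dil u A).card : ℝ) ≤ (x * A.card) * (x * A.card) :=
          mul_le_mul h2 h1 h4 h5
      _ = x ^ 2 * A.card * A.card := by ring
  · intro h0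
    have : A = ∅ := Finset.card_eq_zero.1 (by exact_mod_cast h0)
    subst this
    simp

end Pool.H53.NA

end S_NA_Xop

section S_NA_Cor

/-!
Core of the flattening lemmas (assembly).
-/


namespace Pool.H53.NA

open scoped Pointwise

theorem core {R : Type} [CommRing R] [Fintype R] [DecidableEq R] (H : Finset R) (f : R → ℝ) (z : ℝ)
    (hz : 2 ≤ z) (hH : SGL H) (hf : ∀ x, 0 ≤ f x) (hfH : ∀ h ∈ H, ∀ x, f (h * x) = f x)
    (hF : 0 < ∑ x, f x) (hE : (∑ x, f x) ^ 2 * ∑ x, f x ^ 2 ≤ z * ∑ y, cv f f y ^ 2) :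
    ∃ (A H' : Finset R) (lo : ℝ), A.Nonempty ∧ 0 < lo ∧ ∑ x, f x ≤ z ^ 7 * Nf f * lo ∧
      (∀ x ∈ A, lo ≤ f x) ∧ (A.card : ℝ) ≤ z ^ 7 * Nf f ∧ Nf f ≤ z ^ 50 * A.card ∧
      ((A - A).card : ℝ) ≤ z ^ 1273 * A.card ∧ H' ⊆ H ∧ (H.card : ℝ) ≤ z ^ 425 * H'.card ∧
      ∀ h ∈ H', Xi A (z ^ 1273) h := by
  have hz1 : (1 : ℝ) ≤ z := by linarith
  have hz0 : (0 : ℝ) ≤ z := by linarith
  obtain ⟨lo, hi, hlo, hFlo, hA1, hA2, hA3⟩ := level_set f hf hF z hz hE
  set A := Finset.univ.filter fun x => lo ≤ f x ∧ f x ≤ hi with hAdef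
  have hmem : ∀ x, x ∈ A ↔ lo ≤ f x ∧ f x ≤ hi := by intro x; simp [hAdef]
  have hN : 0 < Nf f := by
    by_contra h
    push Not at h
    have h1 : z ^ 7 * Nf f * lo ≤ 0 := by
      have : z ^ 7 * Nf f ≤ 0 := mul_nonpos_of_nonneg_of_nonpos (by positivity) h
      exact mul_nonpos_of_nonpos_of_nonneg this hlo.le
    linarith
  have hAne : A.Nonempty := by
    rw [Finset.nonempty_iff_ne_empty]
    intro h
    rw [h] at hA2
    simp at hA2
    linarith
  obtain ⟨A', hsub, hne, hc1, hc2⟩ := bsg A (z ^ 40) (one_le_pow₀ hz1) hAne hA3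
  have e1 : (8 : ℝ) ≤ z ^ 3 := by
    calc (8 : ℝ) = 2 ^ 3 := by norm_num
      _ ≤ z ^ 3 := pow_le_pow_left₀ (by norm_num) hz 3
  have e2 : (2 : ℝ) ^ 24 ≤ z ^ 24 := pow_le_pow_left₀ (by norm_num) hz 24
  have hcard : (0 : ℝ) ≤ A'.card := Nat.cast_nonneg _
  have hc1' : (A.card : ℝ) ≤ z ^ 43 * A'.card := by
    refine hc1.trans ?_
    have : 8 * z ^ 40 ≤ z ^ 43 := by
      calc 8 * z ^ 40 ≤ z ^ 3 * z ^ 40 := by gcongr
        _ = z ^ 43 := by rw [← pow_add]
    exact mul_le_mul_of_nonneg_right this hcard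
  have hc2' : ((A' - A').card : ℝ) ≤ z ^ 424 * A'.card := by
    refine hc2.trans ?_
    have : (2 : ℝ) ^ 24 * (z ^ 40) ^ 10 ≤ z ^ 424 := by
      calc (2 : ℝ) ^ 24 * (z ^ 40) ^ 10 ≤ z ^ 24 * (z ^ 40) ^ 10 := by gcongr
        _ = z ^ 424 := by rw [← pow_mul, ← pow_add]
    exact mul_le_mul_of_nonneg_right this hcard
  have hinv : ∀ h ∈ H, ∀ x ∈ A, h * x ∈ A := by
    intro h hh x hx
    rw [hmem] at hx ⊢
    rw [hfH h hh x]
    exact hx
  have hc3 : (A.card : ℝ) ≤ z ^ 424 * A'.card :=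
    hc1'.trans (mul_le_mul_of_nonneg_right (pow_le_pow_right₀ hz1 (by norm_num)) hcard)
  obtain ⟨H', hH'1, hH'2, hH'3⟩ := hprime H A A' (z ^ 424) (one_le_pow₀ hz1) hH hinv hsub hne hc3 hc2'
  refine ⟨A', H', lo, hne, hlo, hFlo, fun x hx => ((hmem x).mp (hsub hx)).1, ?_, ?_, ?_, hH'1, ?_, ?_⟩
  · refine le_trans ?_ hA1
    exact_mod_cast Finset.card_le_card hsub
  · calc Nf f ≤ z ^ 7 * A.card := hA2
      _ ≤ z ^ 7 * (z ^ 43 * A'.card) := by gcongr
      _ = z ^ 50 * A'.card := by ring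
  · exact hc2'.trans (mul_le_mul_of_nonneg_right (pow_le_pow_right₀ hz1 (by norm_num)) hcard)
  · refine hH'2.trans ?_
    have : 2 * z ^ 424 ≤ z ^ 425 := by
      calc 2 * z ^ 424 ≤ z * z ^ 424 := by gcongr
        _ = z ^ 425 := by rw [← pow_succ']
    exact mul_le_mul_of_nonneg_right this (Nat.cast_nonneg _)
  · intro h hh
    refine Xi_mono _ _ _ ?_ _ (hH'3 h hh)
    calc 2 * (z ^ 424) ^ 3 ≤ z * (z ^ 424) ^ 3 := by gcongr
      _ = z ^ 1273 := by rw [← pow_mul, ← pow_succ']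

end Pool.H53.NA

end S_NA_Cor

section S_NA_Gro

/-!
Row Gro: growth of the set of multipliers.  PROOF.  `P w :⇔ ∃ b1 b2 b3 b4 ∈ B, b3 ≠ b4 ∧ w (b3 - b4) = b1 - b2`.
`P 0` holds (`|B| ≥ 2`).
Case 1: `∀ w, P w → P (w + 1)`.  Then `P w` for all `w` (`w = (n : ZMod Q)`, induction on `n`;
`ZMod.natCast_zmod_val`).  Take `S = univ` (`Q` elements).  For `w`: by `Xi_comb` with `p = q = 1`
`Xi A ((3x)^3) (b1 - b2)` and `Xi A ((3x)^3) (b3 - b4)`, `b3 - b4` is a unit, so `Xi A (((3x)^3)^2) w` by `Xi_quo`;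
`(3x)^6 ≤ (7x²)^7`.
Case 2: there is `w` with `P w` (by `b1,…,b4`) and not `P (w+1)`.  Let
`S = {(b3 - b4) x + (b1 - b2 + b3 - b4) y : x, y ∈ B}`.  The map `(x,y) ↦ …` is injective on `B × B`:
if two values agree, then (`b1 - b2 = w (b3 - b4)`, `b3 - b4` a unit)
`x - x' = (w + 1)(y' - y)`; if `y ≠ y'` then `P (w+1)` holds, contradiction; so `y = y'`, `x = x'`.  Hence
`|S| = |B|²`.  The element equals `(b3 x + b1 y + b3 y) - (b4 x + b2 y + b4 y)`, products of two elements of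
`B`, each satisfying `Xi A (x²)` by `Xi_mul`; so `Xi A ((7x²)^7)` by `Xi_comb` with `p = q = 3`.
-/


namespace Pool.H53.NA

open scoped Pointwise

private lemma Gro_num (x : ℝ) (hx : 1 ≤ x) :
    (((3 : ℝ) * x) ^ 3) ^ 2 ≤ (7 * x ^ 2) ^ 7 := by
  have h1 : x ^ 6 ≤ x ^ 14 := pow_le_pow_right₀ hx (by norm_num)
  have h0 : (0 : ℝ) ≤ x ^ 6 := by positivity
  have e1 : (((3 : ℝ) * x) ^ 3) ^ 2 = 729 * x ^ 6 := by ring
  have e2 : ((7 : ℝ) * x ^ 2) ^ 7 = 823543 * x ^ 14 := by ring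
  rw [e1, e2]
  nlinarith

theorem grow (Q : ℕ) [NeZero Q] (A B : Finset (ZMod Q)) (x : ℝ) (hx : 1 ≤ x)
    (hAA : ((A - A).card : ℝ) ≤ x * A.card) (hB : 2 ≤ B.card)
    (hd : ∀ b ∈ B, ∀ b' ∈ B, b ≠ b' → IsUnit (b - b')) (hu : ∀ b ∈ B, b = 0 ∨ IsUnit b)
    (hX : ∀ b ∈ B, Xi A x b) :
    ∃ S : Finset (ZMod Q), (∀ ξ ∈ S, Xi A ((7 * x ^ 2) ^ 7) ξ) ∧ min Q (B.card ^ 2) ≤ S.card := by
  classical
  let P : ZMod Q → Prop := fun w =>
    ∃ b1 ∈ B, ∃ b2 ∈ B, ∃ b3 ∈ B, ∃ b4 ∈ B, b3 ≠ b4 ∧ w * (b3 - b4) = b1 - b2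
  have P0 : P 0 := by
    obtain ⟨a, ha, b, hb, hab⟩ := Finset.one_lt_card.1 (by omega : 1 < B.card)
    exact ⟨a, ha, a, ha, a, ha, b, hb, hab, by simp⟩
  by_cases hc : ∀ w, P w → P (w + 1)
  · have hall : ∀ w, P w := by
      intro w
      have hn : ∀ n : ℕ, P (n : ZMod Q) := by
        intro n
        induction n with
        | zero => simpa using P0
        | succ n ih => simpa using hc _ ih
      have := hn w.val
      rwa [ZMod.natCast_zmod_val] at this
    refine ⟨Finset.univ, ?_, ?_⟩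
    · intro w _
      obtain ⟨b1, h1, b2, h2, b3, h3, b4, h4, h34, he⟩ := hall w
      have key : ∀ u ∈ B, ∀ v ∈ B, Xi A ((3 * x) ^ 3) (u - v) := by
        intro u hu' v hv'
        have := Xi_comb A x hx hAA 1 1 (fun _ => u) (fun _ => v) (fun _ => hX u hu')
          (fun _ => hX v hv')
        have e : (((1 + 1 + 1 : ℕ) : ℝ) * x) ^ (1 + 1 + 1) = (3 * x) ^ 3 := by norm_num
        rw [e] at this
        simpa using this
      have hq := Xi_quo A ((3 * x) ^ 3) (b1 - b2) (b3 - b4) w (hd b3 h3 b4 h4 h34) he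
        (key b1 h1 b2 h2) (key b3 h3 b4 h4)
      exact Xi_mono A _ _ (Gro_num x hx) w hq
    · rw [Finset.card_univ, ZMod.card]
      exact min_le_left _ _
  · push Not at hc
    obtain ⟨w, ⟨b1, h1, b2, h2, b3, h3, b4, h4, h34, he⟩, hw⟩ := hc
    have hunit := hd b3 h3 b4 h4 h34
    let f : ZMod Q × ZMod Q → ZMod Q := fun p => (b3 - b4) * p.1 + (b1 - b2 + b3 - b4) * p.2
    have hinj : Set.InjOn f (B ×ˢ B : Finset (ZMod Q × ZMod Q)) := by
      rintro ⟨p, q⟩ hpq ⟨p', q'⟩ hpq' hf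
      have hpq1 := Finset.mem_product.1 (Finset.mem_coe.1 hpq)
      have hpq2 := Finset.mem_product.1 (Finset.mem_coe.1 hpq')
      simp only [f] at hf
      have h5 : (b3 - b4) * (p - p') = (b3 - b4) * ((w + 1) * (q' - q)) := by
        have : b1 - b2 = w * (b3 - b4) := he.symm
        have h6 : b1 - b2 + b3 - b4 = (w + 1) * (b3 - b4) := by
          rw [show b1 - b2 + b3 - b4 = (b1 - b2) + (b3 - b4) by ring, this]; ring
        rw [h6] at hf
        linear_combination hf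
      have h7 : p - p' = (w + 1) * (q' - q) := hunit.mul_left_cancel h5
      by_cases hqq : q = q'
      · subst hqq
        have : p - p' = 0 := by rw [h7]; ring
        rw [sub_eq_zero] at this
        simp [this]
      · exfalso
        exact hw ⟨p, hpq1.1, p', hpq2.1, q', hpq2.2, q, hpq1.2, fun h => hqq h.symm, h7.symm⟩
    refine ⟨(B ×ˢ B).image f, ?_, ?_⟩
    · intro ξ hξ
      obtain ⟨⟨p, q⟩, hpq, rfl⟩ := Finset.mem_image.1 hξ
      have hpq1 := Finset.mem_product.1 hpq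
      have hx2 : (1 : ℝ) ≤ x ^ 2 := one_le_pow₀ hx
      have hAA2 : ((A - A).card : ℝ) ≤ x ^ 2 * A.card := by
        refine hAA.trans ?_
        have : x ≤ x ^ 2 := by nlinarith
        exact mul_le_mul_of_nonneg_right this (by positivity)
      have hm : ∀ u ∈ B, ∀ v ∈ B, Xi A (x ^ 2) (u * v) := by
        intro u hu' v hv'
        have := Xi_mul A x x hx hx u v (hu u hu') (hX u hu') (hX v hv')
        rwa [← sq] at this
      have := Xi_comb A (x ^ 2) hx2 hAA2 3 3 ![b3 * p, b1 * q, b3 * q] ![b4 * p, b2 * q, b4 * q]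
        (by
          intro i
          fin_cases i
          · exact hm _ h3 _ hpq1.1
          · exact hm _ h1 _ hpq1.2
          · exact hm _ h3 _ hpq1.2)
        (by
          intro i
          fin_cases i
          · exact hm _ h4 _ hpq1.1
          · exact hm _ h2 _ hpq1.2
          · exact hm _ h4 _ hpq1.2)
      have e : (((3 + 3 + 1 : ℕ) : ℝ) * x ^ 2) ^ (3 + 3 + 1) = (7 * x ^ 2) ^ 7 := by norm_num
      rw [e] at this
      convert this using 1
      simp only [f, Fin.sum_univ_three, Matrix.cons_val_zero, Matrix.cons_val_one,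
        Matrix.cons_val_two, Matrix.head_cons, Matrix.tail_cons]
      ring
    · rw [Finset.card_image_of_injOn hinj, Finset.card_product, ← sq]
      exact min_le_right _ _

end Pool.H53.NA

end S_NA_Gro

section S_NA_Avp

/-!
Row Avp: averaging over multipliers, prime case.  PROOF.  `n = |A| > 0`.  For `ξ ∈ S` the number of
`(a1,a2,a3,a4) ∈ A⁴` with `a1 - ξ a2 = a3 - ξ a4` is `≥ (n²)²/|A - ξA| ≥ n⁴/(y n) = n³/y` (Cauchy-Schwarz for the map
`(a1,a2) ↦ a1 - ξ a2` from `A²` to `A - dil ξ A`).  Sum over `ξ ∈ S`.  Quadruples with `a2 = a4` (then `a1 = a3`):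
`n²` for each `ξ`.  Quadruples with `a2 ≠ a4`: `ξ = (a1 - a3)/(a2 - a4)` is determined, so at most `n⁴` in total.
`|S| n³/y ≤ |S| n² + n⁴`.  As `n ≥ 2y`, `n² ≤ n³/(2y)`, so `|S| n³/(2y) ≤ n⁴`.
-/


namespace Pool.H53.NA

open scoped Pointwise

/-- quadruples with equal `a1 - ξ a2`. -/
def avp_Q {R : Type} [CommRing R] [DecidableEq R] (A : Finset R) (ξ : R) :
    Finset ((R × R) × (R × R)) :=
  ((A ×ˢ A) ×ˢ (A ×ˢ A)).filter fun w => w.1.1 - ξ * w.1.2 = w.2.1 - ξ * w.2.2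

/-- Cauchy-Schwarz. -/
theorem avp_cs {R : Type} [CommRing R] [DecidableEq R] (A : Finset R) (ξ : R) :
    (A.card ^ 2) ^ 2 ≤ (A - dil ξ A).card * (avp_Q A ξ).card := by
  set f : R × R → R := fun a => a.1 - ξ * a.2 with hf
  have hmap : ∀ x ∈ A ×ˢ A, f x ∈ A - dil ξ A := by
    intro x hx
    rw [Finset.mem_product] at hx
    exact Finset.sub_mem_sub hx.1 (Finset.mem_image_of_mem _ hx.2)
  have h1 := Finset.card_eq_sum_card_fiberwise hmap
  rw [Finset.card_product, ← sq] at h1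
  have h2 : (avp_Q A ξ).card = ∑ z ∈ A - dil ξ A, ((A ×ˢ A).filter (fun x => f x = z)).card ^ 2 := by
    have hmap2 : ∀ w ∈ avp_Q A ξ, f w.1 ∈ A - dil ξ A := by
      intro w hw
      unfold avp_Q at hw
      rw [Finset.mem_filter, Finset.mem_product] at hw
      exact hmap _ hw.1.1
    rw [Finset.card_eq_sum_card_fiberwise hmap2]
    refine Finset.sum_congr rfl fun z _ => ?_
    rw [sq, ← Finset.card_product]
    congr 1
    ext w
    unfold avp_Q
    simp only [Finset.mem_filter, Finset.mem_product, hf]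
    constructor
    · rintro ⟨⟨⟨ha, hb⟩, hc⟩, hd⟩
      exact ⟨⟨ha, hd⟩, hb, by rw [← hc, hd]⟩
    · rintro ⟨⟨ha, hd⟩, hb, hc⟩
      exact ⟨⟨⟨ha, hb⟩, by rw [hc, hd]⟩, hd⟩
  rw [h1, h2]
  exact sq_sum_le_card_mul_sum_sq

theorem avgP (q : ℕ) [Fact q.Prime] (A S : Finset (ZMod q)) (y : ℝ) (hy : 0 < y)
    (hA : 2 * y ≤ A.card) (hS : ∀ ξ ∈ S, Xi A y ξ) : (S.card : ℝ) ≤ 2 * y * A.card := by
  have hn : (0 : ℝ) < A.card := by linarith
  -- upper bound for the number of quadruples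
  have hup : ∑ ξ ∈ S, (avp_Q A ξ).card ≤ A.card ^ 2 * S.card + (A.card ^ 2) ^ 2 := by
    have h1 : ∀ ξ ∈ S, (avp_Q A ξ).card = ∑ w ∈ (A ×ˢ A) ×ˢ (A ×ˢ A),
        if w.1.1 - ξ * w.1.2 = w.2.1 - ξ * w.2.2 then 1 else 0 := by
      intro ξ _
      unfold avp_Q
      rw [Finset.card_filter]
    rw [Finset.sum_congr rfl h1, Finset.sum_comm]
    have h2 : ∀ w ∈ (A ×ˢ A) ×ˢ (A ×ˢ A),
        (∑ ξ ∈ S, if w.1.1 - ξ * w.1.2 = w.2.1 - ξ * w.2.2 then 1 else 0) ≤
          (if w.1 = w.2 then S.card else 0) + 1 := by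
      intro w _
      rw [← Finset.card_filter]
      by_cases hw : w.1 = w.2
      · rw [if_pos hw]
        exact (Finset.card_filter_le _ _).trans (Nat.le_succ _)
      · rw [if_neg hw, zero_add, Finset.card_le_one]
        intro a ha b hb
        rw [Finset.mem_filter] at ha hb
        have hne : w.1.2 - w.2.2 ≠ 0 := by
          intro h0
          have e2 : w.1.2 = w.2.2 := sub_eq_zero.1 h0
          have e1 : w.1.1 = w.2.1 := by
            have := ha.2
            rw [e2] at this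
            exact sub_left_injective this
          exact hw (Prod.ext e1 e2)
        have e3 : a * (w.1.2 - w.2.2) = b * (w.1.2 - w.2.2) := by
          have h3 := ha.2
          have h4 := hb.2
          linear_combination h4 - h3
        exact mul_right_cancel₀ hne e3
    refine (Finset.sum_le_sum h2).trans ?_
    rw [Finset.sum_add_distrib]
    refine Nat.add_le_add ?_ ?_
    · rw [← Finset.sum_filter, Finset.sum_const, smul_eq_mul]
      refine Nat.mul_le_mul_right _ ?_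
      have : (((A ×ˢ A) ×ˢ (A ×ˢ A)).filter fun w => w.1 = w.2).card ≤ (A ×ˢ A).card := by
        refine Finset.card_le_card_of_injOn (fun w => w.1) (fun w hw => ?_) ?_
        · rw [Finset.mem_coe, Finset.mem_filter, Finset.mem_product] at hw
          exact hw.1.1
        · intro w hw w' hw' h
          rw [Finset.mem_coe, Finset.mem_filter] at hw hw'
          exact Prod.ext h (by rw [← hw.2, ← hw'.2]; exact h)
      rw [Finset.card_product, ← sq] at this
      exact this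
    · rw [Finset.sum_const, smul_eq_mul, mul_one, Finset.card_product, Finset.card_product, ← sq, ← sq]
  -- lower bound
  have hlow : ∀ ξ ∈ S, (A.card : ℝ) ^ 3 ≤ y * ((avp_Q A ξ).card : ℝ) := by
    intro ξ hξ
    have h1 := avp_cs A ξ
    have h2 : ((A.card : ℝ) ^ 2) ^ 2 ≤ ((A - dil ξ A).card : ℝ) * ((avp_Q A ξ).card : ℝ) := by
      exact_mod_cast h1
    have h3 := hS ξ hξ
    unfold Xi at h3
    have h4 : ((A.card : ℝ) ^ 2) ^ 2 ≤ (y * A.card) * ((avp_Q A ξ).card : ℝ) :=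
      h2.trans (mul_le_mul_of_nonneg_right h3 (Nat.cast_nonneg _))
    have h5 : (A.card : ℝ) * (A.card : ℝ) ^ 3 ≤ A.card * (y * ((avp_Q A ξ).card : ℝ)) := by
      nlinarith [h4]
    exact le_of_mul_le_mul_left h5 hn
  have hsum : (S.card : ℝ) * (A.card : ℝ) ^ 3 ≤ y * (A.card ^ 2 * S.card + (A.card ^ 2) ^ 2 : ℝ) := by
    have h1 := Finset.sum_le_sum hlow
    rw [Finset.sum_const, nsmul_eq_mul, ← Finset.mul_sum] at h1
    refine h1.trans (mul_le_mul_of_nonneg_left ?_ hy.le)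
    exact_mod_cast hup
  have h6 : (S.card : ℝ) * A.card ≤ y * (S.card + (A.card : ℝ) ^ 2) := by
    have hn2 : (0 : ℝ) < (A.card : ℝ) ^ 2 := by positivity
    refine le_of_mul_le_mul_left ?_ hn2
    calc (A.card : ℝ) ^ 2 * (S.card * A.card) = S.card * (A.card : ℝ) ^ 3 := by ring
      _ ≤ y * (A.card ^ 2 * S.card + (A.card ^ 2) ^ 2 : ℝ) := hsum
      _ = (A.card : ℝ) ^ 2 * (y * (S.card + (A.card : ℝ) ^ 2)) := by ring
  have h7 : y * (S.card : ℝ) ≤ (A.card : ℝ) / 2 * S.card :=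
    mul_le_mul_of_nonneg_right (by linarith) (Nat.cast_nonneg _)
  have h8 : (A.card : ℝ) * (S.card : ℝ) ≤ A.card * (2 * y * A.card) := by nlinarith [h6, h7]
  exact le_of_mul_le_mul_left h8 hn

end Pool.H53.NA

end S_NA_Avp

section S_NA_FlP

/-!
Flattening in a prime field (assembly).
-/


namespace Pool.H53.NA

open scoped Pointwise

theorem grow_pow (q : ℕ) [Fact q.Prime] (A B : Finset (ZMod q)) (z : ℝ) (hz : 2 ≤ z) (e : ℕ)
    (hAA : ((A - A).card : ℝ) ≤ z ^ e * A.card) (hB : 2 ≤ B.card)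
    (hX : ∀ b ∈ B, Xi A (z ^ e) b) :
    ∃ S : Finset (ZMod q), (∀ ξ ∈ S, Xi A (z ^ (14 * e + 21)) ξ) ∧ min q (B.card ^ 2) ≤ S.card ∧
      ((A - A).card : ℝ) ≤ z ^ (14 * e + 21) * A.card ∧ 2 ≤ S.card := by
  have hz1 : (1 : ℝ) ≤ z := by linarith
  have hz0 : (0 : ℝ) ≤ z := by linarith
  obtain ⟨S, hS1, hS2⟩ := grow q A B (z ^ e) (one_le_pow₀ hz1) hAA hB
    (fun b _ b' _ h => (sub_ne_zero.mpr h).isUnit)
    (fun b _ => by
      by_cases h : b = 0
      · exact Or.inl h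
      · exact Or.inr (Ne.isUnit h)) hX
  have h7 : (7 : ℝ) ≤ z ^ 3 := by
    calc (7 : ℝ) ≤ 2 ^ 3 := by norm_num
      _ ≤ z ^ 3 := pow_le_pow_left₀ (by norm_num) hz 3
  refine ⟨S, fun ξ hξ => Xi_mono _ _ _ ?_ _ (hS1 ξ hξ), hS2, ?_, ?_⟩
  · calc (7 * (z ^ e) ^ 2) ^ 7 ≤ (z ^ 3 * (z ^ e) ^ 2) ^ 7 := by gcongr
      _ = z ^ (14 * e + 21) := by
        rw [← pow_mul, ← pow_add, ← pow_mul]; congr 1; ring
  · exact hAA.trans (mul_le_mul_of_nonneg_right (pow_le_pow_right₀ hz1 (by omega))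
      (Nat.cast_nonneg _))
  · have hq : 2 ≤ q := (Fact.out : q.Prime).two_le
    have : 2 ≤ min q (B.card ^ 2) := by
      rw [le_min_iff]
      exact ⟨hq, by nlinarith⟩
    omega

theorem flatP_aux (e0 e1 e2 e3 C : ℕ) (he0 : e0 = 1273) (he1 : e1 = 14 * e0 + 21)
    (he2 : e2 = 14 * e1 + 21) (he3 : e3 = 14 * e2 + 21) (hC : e3 + 5000 ≤ C)
    (q : ℕ) [Fact q.Prime] (H : Finset (ZMod q)) (f : ZMod q → ℝ)
    (z : ℝ) (hz : 2 ≤ z) (hH : SGL H) (hf : ∀ x, 0 ≤ f x) (hfH : ∀ h ∈ H, ∀ x, f (h * x) = f x)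
    (hF : 0 < ∑ x, f x) (hE : (∑ x, f x) ^ 2 * ∑ x, f x ^ 2 ≤ z * ∑ y, cv f f y ^ 2)
    (hC1 : z ^ C ≤ H.card) (hN : (H.card : ℝ) ≤ Nf f) :
    min (q : ℝ) ((H.card : ℝ) ^ 6) ≤ z ^ C * Nf f := by
  have hz1 : (1 : ℝ) ≤ z := by linarith
  have hz0 : (0 : ℝ) < z := by linarith
  obtain ⟨A, H', lo, hAne, hlo, h1, h2, h3, h4, h5, h6, h7, h8⟩ := core H f z hz hH hf hfH hF hE
  rw [← he0] at h5 h8
  have ht0 : (0 : ℝ) < H.card := lt_of_lt_of_le (by positivity) hC1
  have hA0 : (0 : ℝ) < A.card := by exact_mod_cast hAne.card_pos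
  have hH'2 : (2 : ℝ) ≤ H'.card := by
    have h9 : z ^ 425 * z ≤ z ^ 425 * H'.card := by
      calc z ^ 425 * z = z ^ 426 := by rw [← pow_succ]
        _ ≤ z ^ C := pow_le_pow_right₀ hz1 (by omega)
        _ ≤ H.card := hC1
        _ ≤ _ := h7
    have := le_of_mul_le_mul_left h9 (by positivity)
    linarith
  have hH'2n : 2 ≤ H'.card := by exact_mod_cast hH'2
  obtain ⟨S1, a1, b1, c1, d1⟩ := grow_pow q A H' z hz e0 h5 hH'2n h8
  rw [← he1] at a1 c1
  obtain ⟨S2, a2, b2, c2, d2⟩ := grow_pow q A S1 z hz e1 c1 d1 a1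
  rw [← he2] at a2 c2
  obtain ⟨S3, a3, b3, c3, d3⟩ := grow_pow q A S2 z hz e2 c2 d2 a2
  rw [← he3] at a3 c3
  have hA2 : 2 * z ^ e3 ≤ A.card := by
    have h9 : z ^ 50 * (z * z ^ e3) ≤ z ^ 50 * A.card := by
      calc z ^ 50 * (z * z ^ e3) = z ^ (e3 + 51) := by rw [← pow_succ', ← pow_add]; congr 1; omega
        _ ≤ z ^ C := pow_le_pow_right₀ hz1 (by omega)
        _ ≤ H.card := hC1
        _ ≤ Nf f := hN
        _ ≤ _ := h4
    have h10 := le_of_mul_le_mul_left h9 (by positivity)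
    refine le_trans ?_ h10
    gcongr
  have h11 := avgP q A S3 (z ^ e3) (by positivity) hA2 a3
  have h12 : min q (H'.card ^ 8) ≤ S3.card := by
    have hq : q ≤ q ^ 2 := by nlinarith [(Fact.out : q.Prime).two_le]
    have : min q (H'.card ^ 8) ≤ min q (S2.card ^ 2) := by
      rcases le_total q (S2.card ^ 2) with h | h
      · simp [h]
      · rw [min_eq_right h]
        have hb2 : min q (S1.card ^ 2) ≤ S2.card := b2
        rcases le_total q (S1.card ^ 2) with h' | h'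
        · rw [min_eq_left h'] at hb2
          calc min q (H'.card ^ 8) ≤ q := min_le_left _ _
            _ ≤ q ^ 2 := hq
            _ ≤ S2.card ^ 2 := Nat.pow_le_pow_left hb2 2
        · rw [min_eq_right h'] at hb2
          have hb1 : min q (H'.card ^ 2) ≤ S1.card := b1
          rcases le_total q (H'.card ^ 2) with h'' | h''
          · rw [min_eq_left h''] at hb1
            calc min q (H'.card ^ 8) ≤ q := min_le_left _ _
              _ ≤ q ^ 2 := hq
              _ ≤ S1.card ^ 2 := Nat.pow_le_pow_left hb1 2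
              _ ≤ S2.card := hb2
              _ ≤ S2.card ^ 2 := by nlinarith
          · rw [min_eq_right h''] at hb1
            calc min q (H'.card ^ 8) ≤ H'.card ^ 8 := min_le_right _ _
              _ = ((H'.card ^ 2) ^ 2) ^ 2 := by ring
              _ ≤ (S1.card ^ 2) ^ 2 := Nat.pow_le_pow_left (Nat.pow_le_pow_left hb1 2) 2
              _ ≤ S2.card ^ 2 := Nat.pow_le_pow_left hb2 2
    exact this.trans b3
  have h13 : ((H.card : ℝ)) ^ 6 ≤ (H'.card : ℝ) ^ 8 := by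
    have h14 : (H.card : ℝ) ^ 8 ≤ (z ^ 425) ^ 8 * (H'.card : ℝ) ^ 8 := by
      rw [← mul_pow]; exact pow_le_pow_left₀ ht0.le h7 8
    have h15 : (z ^ 425) ^ 8 ≤ (H.card : ℝ) ^ 2 := by
      calc (z ^ 425) ^ 8 = (z ^ 1700) ^ 2 := by rw [← pow_mul, ← pow_mul]
        _ ≤ (H.card : ℝ) ^ 2 := by
          refine pow_le_pow_left₀ (by positivity) ?_ 2
          exact (pow_le_pow_right₀ hz1 (by omega)).trans hC1
    have h16 : (H.card : ℝ) ^ 2 * (H.card : ℝ) ^ 6 ≤ (H.card : ℝ) ^ 2 * (H'.card : ℝ) ^ 8 := by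
      calc (H.card : ℝ) ^ 2 * (H.card : ℝ) ^ 6 = (H.card : ℝ) ^ 8 := by ring
        _ ≤ (z ^ 425) ^ 8 * (H'.card : ℝ) ^ 8 := h14
        _ ≤ _ := by gcongr
    exact le_of_mul_le_mul_left h16 (by positivity)
  calc min (q : ℝ) ((H.card : ℝ) ^ 6) ≤ min (q : ℝ) ((H'.card : ℝ) ^ 8) := min_le_min le_rfl h13
    _ = ((min q (H'.card ^ 8) : ℕ) : ℝ) := by push_cast; rfl
    _ ≤ S3.card := by exact_mod_cast h12
    _ ≤ 2 * z ^ e3 * A.card := h11
    _ ≤ 2 * z ^ e3 * (z ^ 7 * Nf f) := by gcongr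
    _ ≤ z * z ^ e3 * (z ^ 7 * Nf f) := by
      have : 0 ≤ Nf f := by
        have := hN; linarith
      gcongr
    _ = z ^ (e3 + 8) * Nf f := by
      rw [show e3 + 8 = (e3 + 1) + 7 by ring, pow_add z (e3 + 1) 7, pow_succ' z e3]; ring
    _ ≤ z ^ C * Nf f := by
      have h0 : 0 ≤ Nf f := by linarith
      have : z ^ (e3 + 8) ≤ z ^ C := pow_le_pow_right₀ hz1 (by omega)
      exact mul_le_mul_of_nonneg_right this h0

theorem flatP : ∃ C : ℕ, ∀ (q : ℕ) [Fact q.Prime] (H : Finset (ZMod q)) (f : ZMod q → ℝ)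
    (z : ℝ), 2 ≤ z → SGL H → (∀ x, 0 ≤ f x) → (∀ h ∈ H, ∀ x, f (h * x) = f x) →
    0 < ∑ x, f x → (∑ x, f x) ^ 2 * ∑ x, f x ^ 2 ≤ z * ∑ y, cv f f y ^ 2 →
    z ^ C ≤ H.card → (H.card : ℝ) ≤ Nf f →
    min (q : ℝ) ((H.card : ℝ) ^ 6) ≤ z ^ C * Nf f := by
  refine ⟨14 * (14 * (14 * 1273 + 21) + 21) + 21 + 5000, ?_⟩
  intro q _ H f z hz hH hf hfH hF hE hC hN
  exact flatP_aux 1273 (14 * 1273 + 21) (14 * (14 * 1273 + 21) + 21)
    (14 * (14 * (14 * 1273 + 21) + 21) + 21) _ rfl rfl rfl rfl le_rfl q H f z hz hH hf hfH hF hE hC hN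

end Pool.H53.NA

end S_NA_FlP

section S_NA_RpA

/-!
Row RpA: the counting functions `rep`.  PROOFS.
* `rep_sum`: every `k : Fin s → Fin D` has exactly one sum; `Fintype.card (Fin s → Fin D) = D^s`
  (`Finset.card_eq_sum_card_fiberwise`).
* `rep_conv`: split `k : Fin (s+u) → Fin D` into its first `s` and last `u` entries (`Fin.appendEquiv` or
  `Fin.append`, `Fin.sum_univ_add`), and sort by the value of the first partial sum.
* `card_pw`: `k ↦ 2^k` is injective on `range (orderOf 2)` (`pow_injOn_Iio_orderOf`).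
* `sgl_pw`: `2` has finite order `t > 0` (`orderOf_pos_iff`/`isOfFinOrder_iff_pow_eq_one`); `2^i 2^j = 2^((i+j) % t)`
  (`pow_mod_orderOf`); the inverse of `2^i` is `2^((t - i) % t)`.
* `rep_inv`: for `h = 2^j` the map `k ↦ (k + j) % D` in each coordinate is a bijection of `Fin D` and multiplies
  `2^k` by `2^j` (because `2^D = 1`; `pow_mod`-like: `2^(m % D) = 2^m`, `pow_eq_pow_mod`).
* `exps_card`: `t = orderOf 2` divides `D`; each `2^i`, `i < t`, is `2^k` for exactly `D/t` of the `k < D`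
  (`Nat.count_modEq_card` or a bijection `Fin D ≃ Fin (D/t) × Fin t`).
* `en_one`: `rep N D 1 y = D/t` if `y ∈ pw N`, else `0` (from `exps_card` with one-element sets).
-/


namespace Pool.H53.NA

theorem rep_sum (N D s : ℕ) [NeZero N] : ∑ y, rep N D s y = D ^ s := by
  unfold rep
  rw [← Finset.card_eq_sum_card_fiberwise (f := fun k : Fin s → Fin D =>
    ∑ i, (2 : ZMod N) ^ (k i : ℕ)) (t := Finset.univ) (fun _ _ => Finset.mem_coe.mpr (Finset.mem_univ _))]
  simp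

theorem rep_conv (N D s u : ℕ) [NeZero N] (y : ZMod N) :
    rep N D (s + u) y = ∑ x, rep N D s x * rep N D u (y - x) := by
  have e1 : rep N D (s + u) y = ((Finset.univ : Finset ((Fin s → Fin D) × (Fin u → Fin D))).filter
      fun k => ∑ i, (2 : ZMod N) ^ (k.1 i : ℕ) + ∑ i, (2 : ZMod N) ^ (k.2 i : ℕ) = y).card := by
    unfold rep
    symm
    apply Finset.card_equiv (Fin.appendEquiv s u)
    intro k
    simp only [Finset.mem_filter, Finset.mem_univ, true_and, Fin.sum_univ_add]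
    simp [Fin.appendEquiv]
  rw [e1, Finset.card_eq_sum_card_fiberwise (f := fun k : (Fin s → Fin D) × (Fin u → Fin D) =>
    ∑ i, (2 : ZMod N) ^ (k.1 i : ℕ)) (t := Finset.univ) (fun _ _ => Finset.mem_coe.mpr (Finset.mem_univ _))]
  apply Finset.sum_congr rfl
  intro x _
  unfold rep
  rw [← Finset.card_product]
  congr 1
  ext k
  simp only [Finset.mem_filter, Finset.mem_univ, true_and, Finset.mem_product]
  constructor
  · rintro ⟨h1, h2⟩
    refine ⟨h2, ?_⟩
    rw [← h1, h2]; ring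
  · rintro ⟨h1, h2⟩
    refine ⟨?_, h1⟩
    rw [h1, h2]; ring

theorem card_pw (N : ℕ) : (pw N).card = orderOf (2 : ZMod N) := by
  unfold pw
  rw [Finset.card_image_of_injOn, Finset.card_range]
  intro a ha b hb h
  exact pow_injOn_Iio_orderOf (by simpa using ha) (by simpa using hb) h

theorem rpa_pos (N D : ℕ) (hD : 0 < D) (h2 : (2 : ZMod N) ^ D = 1) : 0 < orderOf (2 : ZMod N) :=
  orderOf_pos_iff.mpr (isOfFinOrder_iff_pow_eq_one.mpr ⟨D, hD, h2⟩)

theorem rpa_mem (N D : ℕ) (hD : 0 < D) (h2 : (2 : ZMod N) ^ D = 1) (k : ℕ) :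
    (2 : ZMod N) ^ k ∈ pw N := by
  unfold pw
  rw [Finset.mem_image]
  exact ⟨k % orderOf (2 : ZMod N), Finset.mem_range.mpr (Nat.mod_lt _ (rpa_pos N D hD h2)),
    pow_mod_orderOf _ _⟩

theorem rpa_iff (N D : ℕ) (hD : 0 < D) (h2 : (2 : ZMod N) ^ D = 1) (k j : ℕ) :
    (2 : ZMod N) ^ k = (2 : ZMod N) ^ j ↔ k ≡ j [MOD orderOf (2 : ZMod N)] := by
  have hpos := rpa_pos N D hD h2
  rw [← pow_mod_orderOf (2 : ZMod N) k, ← pow_mod_orderOf (2 : ZMod N) j]
  constructor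
  · intro h
    exact pow_injOn_Iio_orderOf (Nat.mod_lt _ hpos) (Nat.mod_lt _ hpos) h
  · intro h
    rw [h]

theorem sgl_pw (N D : ℕ) (hD : 0 < D) (h2 : (2 : ZMod N) ^ D = 1) : SGL (pw N) := by
  have hpos := rpa_pos N D hD h2
  refine ⟨?_, ?_, ?_⟩
  · have := rpa_mem N D hD h2 0
    rwa [pow_zero] at this
  · intro g hg h hh
    unfold pw at hg hh
    rw [Finset.mem_image] at hg hh
    obtain ⟨i, _, rfl⟩ := hg
    obtain ⟨j, _, rfl⟩ := hh
    rw [← pow_add]
    exact rpa_mem N D hD h2 _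
  · intro h hh
    unfold pw at hh
    rw [Finset.mem_image] at hh
    obtain ⟨j, hj, rfl⟩ := hh
    rw [Finset.mem_range] at hj
    refine ⟨2 ^ (orderOf (2 : ZMod N) - j), rpa_mem N D hD h2 _, ?_⟩
    rw [← pow_add, Nat.sub_add_cancel hj.le, pow_orderOf_eq_one]

theorem rep_inv (N D s : ℕ) (hD : 0 < D) (h2 : (2 : ZMod N) ^ D = 1) (h : ZMod N) (hh : h ∈ pw N)
    (y : ZMod N) : rep N D s (h * y) = rep N D s y := by
  unfold pw at hh
  rw [Finset.mem_image] at hh
  obtain ⟨j, _, rfl⟩ := hh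
  have : NeZero D := ⟨hD.ne'⟩
  have hpow : ∀ m : ℕ, (2 : ZMod N) ^ (m % D) = (2 : ZMod N) ^ m := by
    intro m
    conv_rhs => rw [← Nat.mod_add_div m D, pow_add, pow_mul, h2, one_pow, mul_one]
  have hu : ∀ a b : ZMod N, (2 : ZMod N) ^ j * a = (2 : ZMod N) ^ j * b → a = b := by
    intro a b hab
    have h3 : (2 : ZMod N) ^ (D * j - j) * (2 : ZMod N) ^ j = 1 := by
      rw [← pow_add, Nat.sub_add_cancel (Nat.le_mul_of_pos_left j hD), pow_mul, h2, one_pow]
    calc a = ((2 : ZMod N) ^ (D * j - j) * (2 : ZMod N) ^ j) * a := by rw [h3, one_mul]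
      _ = (2 : ZMod N) ^ (D * j - j) * ((2 : ZMod N) ^ j * a) := by ring
      _ = (2 : ZMod N) ^ (D * j - j) * ((2 : ZMod N) ^ j * b) := by rw [hab]
      _ = ((2 : ZMod N) ^ (D * j - j) * (2 : ZMod N) ^ j) * b := by ring
      _ = b := by rw [h3, one_mul]
  unfold rep
  symm
  apply Finset.card_equiv (Equiv.piCongrRight fun _ : Fin s => Equiv.addRight (Fin.ofNat D j))
  intro k
  simp only [Finset.mem_filter, Finset.mem_univ, true_and]
  have key : ∑ i, (2 : ZMod N) ^ (((Equiv.piCongrRight fun _ : Fin s =>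
      Equiv.addRight (Fin.ofNat D j)) k i : Fin D) : ℕ)
      = (2 : ZMod N) ^ j * ∑ i, (2 : ZMod N) ^ (k i : ℕ) := by
    rw [Finset.mul_sum]
    apply Finset.sum_congr rfl
    intro i _
    simp only [Equiv.piCongrRight_apply, Pi.map_apply, Equiv.coe_addRight, Fin.val_add, Fin.val_ofNat]
    rw [Nat.add_mod_mod, hpow, pow_add, mul_comm]
  rw [key]
  exact ⟨fun h => by rw [h], fun h => hu _ _ h⟩

theorem rpa_count (N D : ℕ) (hD : 0 < D) (h2 : (2 : ZMod N) ^ D = 1) (h : ZMod N) (hh : h ∈ pw N) :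
    ((Finset.univ : Finset (Fin D)).filter fun k : Fin D => (2 : ZMod N) ^ (k : ℕ) = h).card
      = D / orderOf (2 : ZMod N) := by
  have hpos := rpa_pos N D hD h2
  have hdvd : orderOf (2 : ZMod N) ∣ D := orderOf_dvd_of_pow_eq_one h2
  unfold pw at hh
  rw [Finset.mem_image] at hh
  obtain ⟨j, _, rfl⟩ := hh
  have e1 : ((Finset.univ : Finset (Fin D)).filter fun k : Fin D =>
      (2 : ZMod N) ^ (k : ℕ) = (2 : ZMod N) ^ j).card
      = ((Finset.range D).filter fun k : ℕ => k ≡ j [MOD orderOf (2 : ZMod N)]).card := by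
    apply Finset.card_bij (fun (k : Fin D) _ => (k : ℕ))
    · intro k hk
      simp only [Finset.mem_filter, Finset.mem_univ, true_and] at hk
      simp only [Finset.mem_filter, Finset.mem_range]
      exact ⟨k.isLt, (rpa_iff N D hD h2 _ _).mp hk⟩
    · intro a _ b _ hab
      exact Fin.ext hab
    · intro k hk
      simp only [Finset.mem_filter, Finset.mem_range] at hk
      refine ⟨⟨k, hk.1⟩, ?_, rfl⟩
      simp only [Finset.mem_filter, Finset.mem_univ, true_and]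
      exact (rpa_iff N D hD h2 _ _).mpr hk.2
  rw [e1, ← Nat.count_eq_card_filter_range, Nat.count_modEq_card _ hpos]
  rw [Nat.mod_eq_zero_of_dvd hdvd]
  simp

theorem exps_card (N D : ℕ) (hD : 0 < D) (h2 : (2 : ZMod N) ^ D = 1) (H : Finset (ZMod N))
    (hH : H ⊆ pw N) :
    ((Finset.univ : Finset (Fin D)).filter fun k : Fin D => (2 : ZMod N) ^ (k : ℕ) ∈ H).card
      * orderOf (2 : ZMod N) = D * H.card := by
  have hdvd : orderOf (2 : ZMod N) ∣ D := orderOf_dvd_of_pow_eq_one h2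
  rw [Finset.card_eq_sum_card_fiberwise (f := fun k : Fin D => (2 : ZMod N) ^ (k : ℕ)) (t := H)
    (fun k hk => by simpa using hk)]
  have e1 : ∀ h ∈ H, (((Finset.univ : Finset (Fin D)).filter fun k : Fin D =>
      (2 : ZMod N) ^ (k : ℕ) ∈ H).filter fun k : Fin D => (2 : ZMod N) ^ (k : ℕ) = h).card
      = D / orderOf (2 : ZMod N) := by
    intro h hh
    rw [← rpa_count N D hD h2 h (hH hh)]
    congr 1
    ext k
    simp only [Finset.mem_filter, Finset.mem_univ, true_and]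
    constructor
    · rintro ⟨_, h3⟩; exact h3
    · intro h3; exact ⟨by rw [h3]; exact hh, h3⟩
  rw [Finset.sum_congr rfl e1, Finset.sum_const, smul_eq_mul, mul_assoc, Nat.div_mul_cancel hdvd,
    mul_comm]

theorem en_one (N D : ℕ) [NeZero N] (hD : 0 < D) (h2 : (2 : ZMod N) ^ D = 1) :
    en N D 1 * orderOf (2 : ZMod N) = D ^ 2 := by
  have hdvd : orderOf (2 : ZMod N) ∣ D := orderOf_dvd_of_pow_eq_one h2
  have hrep : ∀ y : ZMod N, rep N D 1 y
      = if y ∈ pw N then D / orderOf (2 : ZMod N) else 0 := by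
    intro y
    have e1 : rep N D 1 y = ((Finset.univ : Finset (Fin D)).filter fun k : Fin D =>
        (2 : ZMod N) ^ (k : ℕ) = y).card := by
      unfold rep
      apply Finset.card_equiv (Equiv.funUnique (Fin 1) (Fin D))
      intro k
      simp
    split_ifs with h
    · rw [e1, rpa_count N D hD h2 y h]
    · rw [e1, Finset.card_eq_zero, Finset.filter_eq_empty_iff]
      intro k _ hk
      exact h (hk ▸ rpa_mem N D hD h2 _)
  unfold en
  simp only [hrep]
  have e2 : ∑ y : ZMod N, (if y ∈ pw N then D / orderOf (2 : ZMod N) else 0) ^ 2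
      = (pw N).card * (D / orderOf (2 : ZMod N)) ^ 2 := by
    have : ∀ y : ZMod N, (if y ∈ pw N then D / orderOf (2 : ZMod N) else 0) ^ 2
        = if y ∈ pw N then (D / orderOf (2 : ZMod N)) ^ 2 else 0 := by
      intro y; split_ifs <;> simp
    simp only [this]
    rw [Finset.sum_ite_mem, Finset.univ_inter, Finset.sum_const, smul_eq_mul]
  rw [e2, card_pw]
  calc orderOf (2 : ZMod N) * (D / orderOf (2 : ZMod N)) ^ 2 * orderOf (2 : ZMod N)
      = (D / orderOf (2 : ZMod N) * orderOf (2 : ZMod N)) ^ 2 := by ring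
    _ = D ^ 2 := by rw [Nat.div_mul_cancel hdvd]

end Pool.H53.NA

end S_NA_RpA

section S_NA_Fou

/-!
Row Fou: exponential sums.  `e = ZMod.stdAddChar`, `S a = SS N D a = ∑_{k<D} e(a 2^k)`.
PROOFS.
* `SS_pow`: `S a ^ s = ∑_y rep N D s y e(a y)` (expand the power, `Finset.prod_univ_sum` / `Finset.sum_pow'`, or
  induction on `s` with `rep_conv`; `e(x + y) = e x e y`, `AddChar.map_add_eq_mul`).
* `sum_SS`: Parseval: `∑_a |∑_y r y e(a y)|² = N ∑ r y²` by the orthogonality relation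
  (`AddChar.sum_mulShift`, `ZMod.isPrimitive_stdAddChar`): `∑_a e(a (y - y')) = N` if `y = y'`, else `0`.
* `rep_le_SS`: `N rep y = ∑_a S a ^ s e(-a y) ≤ ∑ |S a|^s` (`‖e x‖ = 1`).
* `SS_inv`: for `h = 2^j` and `2^D = 1` the sum over `k < D` is a sum over residues modulo `D`; shifting by `j` permutes.
* `SS_zero`: `e 0 = 1`.
* `SS_le`: `‖S a‖ ≤ D`.
* `SS_orbit`: `q` prime, `a ≠ 0`: the `t` elements `a h`, `h ∈ pw q`, are distinct, nonzero, and
  `‖S (a h)‖ = ‖S a‖`; so `t ‖S a‖^m ≤ ∑_{b ≠ 0} ‖S b‖^m`.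
-/


namespace Pool.H53.NA

theorem fou_range (N D : ℕ) [NeZero N] (a : ZMod N) :
    SS N D a = ∑ k : Fin D, (ZMod.stdAddChar (N := N) (a * 2 ^ (k : ℕ)) : ℂ) := by
  rw [SS, Finset.sum_range]

theorem fou_prod (N : ℕ) [NeZero N] (s : ℕ) (f : Fin s → ZMod N) :
    ∏ i, (ZMod.stdAddChar (N := N) (f i) : ℂ) = ZMod.stdAddChar (N := N) (∑ i, f i) := by
  induction s with
  | zero => simp
  | succ s ih =>
    rw [Fin.prod_univ_succ, Fin.sum_univ_succ, AddChar.map_add_eq_mul, ih]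

theorem SS_pow (N D s : ℕ) [NeZero N] (a : ZMod N) :
    SS N D a ^ s = ∑ y : ZMod N, (rep N D s y : ℂ) * ZMod.stdAddChar (N := N) (a * y) := by
  rw [fou_range, Fintype.sum_pow]
  have h1 : ∀ p : Fin s → Fin D, ∏ i, (ZMod.stdAddChar (N := N) (a * 2 ^ (p i : ℕ)) : ℂ) =
      ZMod.stdAddChar (N := N) (a * ∑ i, 2 ^ (p i : ℕ)) := by
    intro p
    rw [fou_prod, Finset.mul_sum]
  rw [Finset.sum_congr rfl (fun p _ => h1 p)]
  rw [← Finset.sum_fiberwise' (Finset.univ : Finset (Fin s → Fin D))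
    (fun p => ∑ i, (2 : ZMod N) ^ (p i : ℕ)) (fun y => (ZMod.stdAddChar (N := N) (a * y) : ℂ))]
  apply Finset.sum_congr rfl
  intro y _
  rw [Finset.sum_const, nsmul_eq_mul]
  rfl

theorem fou_norm (N : ℕ) [NeZero N] (x : ZMod N) : ‖(ZMod.stdAddChar (N := N) x : ℂ)‖ = 1 :=
  AddChar.norm_apply _ _

theorem fou_orth (N : ℕ) [NeZero N] (b : ZMod N) :
    ∑ a : ZMod N, (ZMod.stdAddChar (N := N) (a * b) : ℂ) = if b = 0 then (N : ℂ) else 0 := by
  have h := AddChar.sum_mulShift (R' := ℂ) b (ZMod.isPrimitive_stdAddChar N)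
  rw [ZMod.card] at h
  rw [h]
  split_ifs <;> simp

theorem sum_SS (N D s : ℕ) [NeZero N] :
    ∑ a : ZMod N, ‖SS N D a‖ ^ (2 * s) = (N : ℝ) * en N D s := by
  have h1 : ∀ a : ZMod N, ((‖SS N D a‖ ^ (2 * s) : ℝ) : ℂ) =
      ∑ y : ZMod N, ∑ y' : ZMod N, ((rep N D s y : ℂ) * (rep N D s y' : ℂ)) *
        ZMod.stdAddChar (N := N) (a * (y - y')) := by
    intro a
    have h2 : ((‖SS N D a‖ ^ (2 * s) : ℝ) : ℂ) = (SS N D a ^ s) *
        (starRingEnd ℂ) (SS N D a ^ s) := by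
      rw [Complex.mul_conj, Complex.normSq_eq_norm_sq, norm_pow, ← pow_mul, mul_comm s 2]
    rw [h2, SS_pow, map_sum, Finset.sum_mul_sum]
    apply Finset.sum_congr rfl
    intro y _
    apply Finset.sum_congr rfl
    intro y' _
    rw [map_mul (starRingEnd ℂ) (rep N D s y' : ℂ), Complex.conj_natCast,
      ← AddChar.map_neg_eq_conj]
    have h3 : a * (y - y') = a * y + -(a * y') := by ring
    rw [h3, AddChar.map_add_eq_mul]
    ring
  have h4 : ((∑ a : ZMod N, ‖SS N D a‖ ^ (2 * s) : ℝ) : ℂ) = ((N : ℝ) * en N D s : ℝ) := by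
    rw [Complex.ofReal_sum, Finset.sum_congr rfl (fun a _ => h1 a), Finset.sum_comm]
    have h5 : ∀ y : ZMod N, ∑ a : ZMod N, ∑ y' : ZMod N, ((rep N D s y : ℂ) * (rep N D s y' : ℂ)) *
        ZMod.stdAddChar (N := N) (a * (y - y')) = (N : ℂ) * (rep N D s y : ℂ) ^ 2 := by
      intro y
      rw [Finset.sum_comm]
      have h6 : ∀ y' : ZMod N, ∑ a : ZMod N, ((rep N D s y : ℂ) * (rep N D s y' : ℂ)) *
          ZMod.stdAddChar (N := N) (a * (y - y')) =
          if y' = y then (N : ℂ) * (rep N D s y : ℂ) ^ 2 else 0 := by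
        intro y'
        rw [← Finset.mul_sum, fou_orth]
        by_cases h : y' = y
        · subst h
          rw [if_pos (sub_self _), if_pos rfl]
          ring
        · rw [if_neg (fun h' => h (sub_eq_zero.1 h').symm), if_neg h, mul_zero]
      rw [Finset.sum_congr rfl (fun y' _ => h6 y'), Finset.sum_ite_eq', if_pos (Finset.mem_univ _)]
    rw [Finset.sum_congr rfl (fun y _ => h5 y), ← Finset.mul_sum, en]
    push_cast
    rfl
  exact Complex.ofReal_injective h4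

theorem rep_le_SS (N D s : ℕ) [NeZero N] (y : ZMod N) :
    (N : ℝ) * rep N D s y ≤ ∑ a : ZMod N, ‖SS N D a‖ ^ s := by
  have h1 : ∑ a : ZMod N, SS N D a ^ s * ZMod.stdAddChar (N := N) (-(a * y)) =
      (N : ℂ) * rep N D s y := by
    have h2 : ∀ a : ZMod N, SS N D a ^ s * ZMod.stdAddChar (N := N) (-(a * y)) =
        ∑ z : ZMod N, (rep N D s z : ℂ) * ZMod.stdAddChar (N := N) (a * (z - y)) := by
      intro a
      rw [SS_pow, Finset.sum_mul]
      apply Finset.sum_congr rfl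
      intro z _
      have h3 : a * (z - y) = a * z + -(a * y) := by ring
      rw [h3, AddChar.map_add_eq_mul]
      ring
    rw [Finset.sum_congr rfl (fun a _ => h2 a), Finset.sum_comm]
    have h6 : ∀ z : ZMod N, ∑ a : ZMod N, (rep N D s z : ℂ) *
        ZMod.stdAddChar (N := N) (a * (z - y)) =
        if z = y then (N : ℂ) * (rep N D s y : ℂ) else 0 := by
      intro z
      rw [← Finset.mul_sum, fou_orth]
      by_cases h : z = y
      · subst h
        rw [if_pos (sub_self _), if_pos rfl]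
        ring
      · rw [if_neg (fun h' => h (sub_eq_zero.1 h')), if_neg h, mul_zero]
    rw [Finset.sum_congr rfl (fun z _ => h6 z), Finset.sum_ite_eq', if_pos (Finset.mem_univ _)]
  have h7 : (N : ℝ) * rep N D s y = ‖(N : ℂ) * rep N D s y‖ := by
    rw [norm_mul, Complex.norm_natCast, Complex.norm_natCast]
  rw [h7, ← h1]
  refine (norm_sum_le _ _).trans (Finset.sum_le_sum fun a _ => ?_)
  rw [norm_mul, fou_norm, mul_one, norm_pow]

theorem SS_inv (N D : ℕ) [NeZero N] (hD : 0 < D) (h2 : (2 : ZMod N) ^ D = 1) (h : ZMod N)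
    (hh : h ∈ pw N) (a : ZMod N) : SS N D (a * h) = SS N D a := by
  unfold pw at hh
  rw [Finset.mem_image] at hh
  obtain ⟨j, hj, rfl⟩ := hh
  clear hj
  induction j with
  | zero => rw [pow_zero, mul_one]
  | succ j ih =>
    rw [← ih]
    obtain ⟨D', rfl⟩ : ∃ D', D = D' + 1 := ⟨D - 1, by omega⟩
    rw [SS, SS, Finset.sum_range_succ, Finset.sum_range_succ']
    congr 1
    · apply Finset.sum_congr rfl
      intro k _
      congr 1
      ring
    · congr 1
      have h3 : a * 2 ^ (j + 1) * 2 ^ D' = a * 2 ^ j * 2 ^ (D' + 1) := by ring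
      rw [h3, h2, pow_zero]

theorem SS_zero (N D : ℕ) [NeZero N] : SS N D 0 = D := by
  rw [SS]
  simp

theorem SS_le (N D : ℕ) [NeZero N] (a : ZMod N) : ‖SS N D a‖ ≤ D := by
  rw [SS]
  refine (norm_sum_le _ _).trans ?_
  rw [Finset.sum_congr rfl (fun k _ => fou_norm N (a * 2 ^ k))]
  simp

theorem SS_orbit (q D : ℕ) [Fact q.Prime] (hD : 0 < D) (h2 : (2 : ZMod q) ^ D = 1) (m : ℕ)
    (a : ZMod q) (ha : a ≠ 0) :
    (orderOf (2 : ZMod q) : ℝ) * ‖SS q D a‖ ^ m
      ≤ ∑ b ∈ (Finset.univ : Finset (ZMod q)).erase 0, ‖SS q D b‖ ^ m := by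
  have h20 : (2 : ZMod q) ≠ 0 := by
    intro h
    rw [h, zero_pow hD.ne'] at h2
    exact zero_ne_one h2
  have hinj : Function.Injective (fun h : ZMod q => a * h) := mul_right_injective₀ ha
  have hsub : (pw q).image (fun h => a * h) ⊆ (Finset.univ : Finset (ZMod q)).erase 0 := by
    intro x hx
    rw [Finset.mem_image] at hx
    obtain ⟨h, hh, rfl⟩ := hx
    refine Finset.mem_erase.2 ⟨mul_ne_zero ha ?_, Finset.mem_univ _⟩
    unfold pw at hh
    rw [Finset.mem_image] at hh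
    obtain ⟨j, _, rfl⟩ := hh
    exact pow_ne_zero _ h20
  calc (orderOf (2 : ZMod q) : ℝ) * ‖SS q D a‖ ^ m
      = ∑ b ∈ (pw q).image (fun h => a * h), ‖SS q D b‖ ^ m := by
        rw [Finset.sum_image (fun x _ y _ h => hinj h)]
        rw [Finset.sum_congr rfl (fun h hh => by rw [SS_inv q D hD h2 h hh a])]
        rw [Finset.sum_const, card_pw, nsmul_eq_mul]
    _ ≤ _ := Finset.sum_le_sum_of_subset_of_nonneg hsub (fun b _ _ => by positivity)

end Pool.H53.NA

end S_NA_Fou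

section S_NA_RpB

/-!
Row RpB: consequences of `rep_sum`, `rep_conv`.  PROOFS.
* `cv_rep`: cast of `rep_conv`.
* `rep_two_le`: `rep (2s) y = ∑_x rep s x rep s (y - x) ≤ ∑ rep s x²` (Cauchy-Schwarz / `2ab ≤ a² + b²` and
  the substitution `x ↦ y - x`).
* `rep_add_le`: `rep_conv`, `rep s x ≤ m` after exchanging the roles, `rep_sum`.
* `en_add_le`: `young` (row Yng) for `g = rep u`, `h = rep s`, with `∑ g = D^u`.
* `en_le_max`: `∑ rep² ≤ m ∑ rep`.
* `en_pos`: `∑ rep = D^s > 0`, so some `rep` is nonzero.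
* `Nf_rep`: `Nf (rep s) = D^(2s)/en s`.
-/


namespace Pool.H53.NA

theorem cv_rep (N D s u : ℕ) [NeZero N] (y : ZMod N) :
    cv (fun x => (rep N D s x : ℝ)) (fun x => (rep N D u x : ℝ)) y = rep N D (s + u) y := by
  rw [rep_conv]
  unfold cv
  push_cast
  rfl

theorem rep_two_le (N D s : ℕ) [NeZero N] (y : ZMod N) : rep N D (2 * s) y ≤ en N D s := by
  rw [two_mul, rep_conv]
  have h1 : ∀ x : ZMod N, 2 * (rep N D s x * rep N D s (y - x))
      ≤ rep N D s x ^ 2 + rep N D s (y - x) ^ 2 := by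
    intro x
    have := two_mul_le_add_sq (rep N D s x) (rep N D s (y - x))
    calc 2 * (rep N D s x * rep N D s (y - x)) = 2 * rep N D s x * rep N D s (y - x) := by ring
      _ ≤ _ := this
  have h2 : ∑ x : ZMod N, rep N D s (y - x) ^ 2 = ∑ x : ZMod N, rep N D s x ^ 2 :=
    Equiv.sum_comp (Equiv.subLeft y) (fun x => rep N D s x ^ 2)
  have h3 : 2 * ∑ x : ZMod N, rep N D s x * rep N D s (y - x)
      ≤ 2 * ∑ x : ZMod N, rep N D s x ^ 2 := by
    calc 2 * ∑ x : ZMod N, rep N D s x * rep N D s (y - x)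
        = ∑ x : ZMod N, 2 * (rep N D s x * rep N D s (y - x)) := by rw [Finset.mul_sum]
      _ ≤ ∑ x : ZMod N, (rep N D s x ^ 2 + rep N D s (y - x) ^ 2) :=
          Finset.sum_le_sum fun x _ => h1 x
      _ = 2 * ∑ x : ZMod N, rep N D s x ^ 2 := by
          rw [Finset.sum_add_distrib, h2]; ring
  unfold en
  omega

theorem rep_add_le (N D s u : ℕ) [NeZero N] (m : ℝ) (hm : ∀ y, (rep N D s y : ℝ) ≤ m)
    (y : ZMod N) : (rep N D (s + u) y : ℝ) ≤ m * D ^ u := by
  rw [rep_conv]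
  push_cast
  have h2 : ∑ x : ZMod N, (rep N D u (y - x) : ℝ) = (D : ℝ) ^ u := by
    have h3 : ∑ x : ZMod N, (rep N D u (y - x) : ℝ) = ∑ x : ZMod N, (rep N D u x : ℝ) :=
      Equiv.sum_comp (Equiv.subLeft y) (fun x => (rep N D u x : ℝ))
    rw [h3, ← Nat.cast_sum, rep_sum]
    push_cast
    rfl
  calc ∑ x : ZMod N, (rep N D s x : ℝ) * rep N D u (y - x)
      ≤ ∑ x : ZMod N, m * rep N D u (y - x) :=
        Finset.sum_le_sum fun x _ => mul_le_mul_of_nonneg_right (hm x) (Nat.cast_nonneg _)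
    _ = m * (D : ℝ) ^ u := by rw [← Finset.mul_sum, h2]

theorem en_add_le (N D s u : ℕ) [NeZero N] : en N D (s + u) ≤ D ^ (2 * u) * en N D s := by
  have h := young (V := ZMod N) (fun x => (rep N D u x : ℝ)) (fun x => (rep N D s x : ℝ))
    (fun x => Nat.cast_nonneg _)
  have h1 : ∀ y : ZMod N, cv (fun x => (rep N D u x : ℝ)) (fun x => (rep N D s x : ℝ)) y
      = (rep N D (s + u) y : ℝ) := by
    intro y
    rw [cv_rep, add_comm u s]
  have h2 : ∑ x : ZMod N, (rep N D u x : ℝ) = (D : ℝ) ^ u := by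
    rw [← Nat.cast_sum, rep_sum]
    push_cast
    rfl
  simp only [h1, h2] at h
  have h3 : (en N D (s + u) : ℝ) ≤ ((D ^ (2 * u) * en N D s : ℕ) : ℝ) := by
    unfold en
    push_cast
    calc ∑ y : ZMod N, (rep N D (s + u) y : ℝ) ^ 2
        ≤ ((D : ℝ) ^ u) ^ 2 * ∑ x : ZMod N, (rep N D s x : ℝ) ^ 2 := h
      _ = (D : ℝ) ^ (2 * u) * ∑ x : ZMod N, (rep N D s x : ℝ) ^ 2 := by
          rw [← pow_mul, mul_comm u 2]
  exact_mod_cast h3

theorem en_le_max (N D s : ℕ) [NeZero N] (m : ℝ) (hm : ∀ y, (rep N D s y : ℝ) ≤ m) :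
    (en N D s : ℝ) ≤ m * D ^ s := by
  have h2 : ∑ x : ZMod N, (rep N D s x : ℝ) = (D : ℝ) ^ s := by
    rw [← Nat.cast_sum, rep_sum]
    push_cast
    rfl
  unfold en
  push_cast
  calc ∑ y : ZMod N, (rep N D s y : ℝ) ^ 2
      ≤ ∑ y : ZMod N, m * rep N D s y := by
        apply Finset.sum_le_sum
        intro y _
        rw [sq]
        exact mul_le_mul_of_nonneg_right (hm y) (Nat.cast_nonneg _)
    _ = m * (D : ℝ) ^ s := by rw [← Finset.mul_sum, h2]

theorem en_pos (N D s : ℕ) [NeZero N] (hD : 0 < D) : 0 < en N D s := by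
  by_contra h
  have h0 : en N D s = 0 := by omega
  unfold en at h0
  rw [Finset.sum_eq_zero_iff] at h0
  have h1 : ∑ y : ZMod N, rep N D s y = 0 := by
    apply Finset.sum_eq_zero
    intro y hy
    exact pow_eq_zero_iff (two_ne_zero) |>.mp (h0 y hy)
  rw [rep_sum] at h1
  have : 0 < D ^ s := Nat.pow_pos hD
  omega

theorem Nf_rep (N D s : ℕ) [NeZero N] :
    Nf (fun x => (rep N D s x : ℝ)) = (D : ℝ) ^ (2 * s) / en N D s := by
  have h2 : ∑ x : ZMod N, (rep N D s x : ℝ) = (D : ℝ) ^ s := by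
    rw [← Nat.cast_sum, rep_sum]
    push_cast
    rfl
  unfold Nf
  rw [h2]
  unfold en
  push_cast
  rw [← pow_mul, mul_comm s 2]

end Pool.H53.NA

end S_NA_RpB

section S_NA_Nt1

/-!
Equidistribution of sums of powers of two modulo a prime (assembly).
-/


namespace Pool.H53.NA

/-- effective support size -/
noncomputable def NN (N D s : ℕ) [NeZero N] : ℝ := (D : ℝ) ^ (2 * s) / en N D s

theorem NN_pos (N D s : ℕ) [NeZero N] (hD : 0 < D) : 0 < NN N D s := by
  have := en_pos N D s hD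
  have hDR : (0 : ℝ) < D := by exact_mod_cast hD
  unfold NN
  positivity

theorem NN_mono (N D s u : ℕ) [NeZero N] (hD : 0 < D) : NN N D s ≤ NN N D (s + u) := by
  have h1 : (0 : ℝ) < en N D s := by exact_mod_cast en_pos N D s hD
  have h2 : (0 : ℝ) < en N D (s + u) := by exact_mod_cast en_pos N D (s + u) hD
  unfold NN
  rw [div_le_div_iff₀ h1 h2]
  have h3 : (en N D (s + u) : ℝ) ≤ (D : ℝ) ^ (2 * u) * en N D s := by
    exact_mod_cast en_add_le N D s u
  calc (D : ℝ) ^ (2 * s) * en N D (s + u) ≤ (D : ℝ) ^ (2 * s) * ((D : ℝ) ^ (2 * u) * en N D s) := by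
        gcongr
    _ = _ := by rw [mul_add, pow_add]; ring

theorem NN_one (N D : ℕ) [NeZero N] (hD : 0 < D) (h2 : (2 : ZMod N) ^ D = 1) :
    NN N D 1 = orderOf (2 : ZMod N) := by
  have h1 : (0 : ℝ) < en N D 1 := by exact_mod_cast en_pos N D 1 hD
  unfold NN
  rw [div_eq_iff h1.ne']
  have := en_one N D hD h2
  have h3 : (en N D 1 : ℝ) * orderOf (2 : ZMod N) = (D : ℝ) ^ 2 := by exact_mod_cast this
  rw [mul_one, ← h3]; ring

/-- one step of the iteration -/
theorem step_prime (C : ℕ) (hC : ∀ (q : ℕ) [Fact q.Prime] (H : Finset (ZMod q)) (f : ZMod q → ℝ)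
    (z : ℝ), 2 ≤ z → SGL H → (∀ x, 0 ≤ f x) → (∀ h ∈ H, ∀ x, f (h * x) = f x) →
    0 < ∑ x, f x → (∑ x, f x) ^ 2 * ∑ x, f x ^ 2 ≤ z * ∑ y, cv f f y ^ 2 →
    z ^ C ≤ H.card → (H.card : ℝ) ≤ Nf f →
    min (q : ℝ) ((H.card : ℝ) ^ 6) ≤ z ^ C * Nf f)
    (q D s : ℕ) [Fact q.Prime] (hs : 1 ≤ s) (hD : 0 < D) (h2 : (2 : ZMod q) ^ D = 1) (z : ℝ)
    (hz : 2 ≤ z) (hzt : z ^ C ≤ orderOf (2 : ZMod q)) :
    min (q : ℝ) ((orderOf (2 : ZMod q) : ℝ) ^ 6) ≤ z ^ C * NN q D s ∨
      z * NN q D s ≤ NN q D (2 * s) := by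
  by_cases h : z * NN q D s ≤ NN q D (2 * s)
  · exact Or.inr h
  left
  push Not at h
  have h1 : (0 : ℝ) < en q D s := by exact_mod_cast en_pos q D s hD
  have h1' : (0 : ℝ) < en q D (2 * s) := by exact_mod_cast en_pos q D (2 * s) hD
  have hDR : (0 : ℝ) < D := by exact_mod_cast hD
  have hE : (D : ℝ) ^ (2 * s) * en q D s ≤ z * en q D (2 * s) := by
    unfold NN at h
    rw [mul_div_assoc', div_lt_div_iff₀ h1' h1] at h
    have e1 : (D : ℝ) ^ (2 * (2 * s)) = (D : ℝ) ^ (2 * s) * (D : ℝ) ^ (2 * s) := by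
      rw [← pow_add]; congr 1; ring
    rw [e1] at h
    have hp : (0 : ℝ) < (D : ℝ) ^ (2 * s) := by positivity
    have : (D : ℝ) ^ (2 * s) * ((D : ℝ) ^ (2 * s) * en q D s)
        ≤ (D : ℝ) ^ (2 * s) * (z * en q D (2 * s)) := by nlinarith
    exact le_of_mul_le_mul_left this hp
  have hsum : ∑ x, (rep q D s x : ℝ) = (D : ℝ) ^ s := by exact_mod_cast rep_sum q D s
  have hsum2 : ∑ x, (rep q D s x : ℝ) ^ 2 = (en q D s : ℝ) := by
    simp only [en]; push_cast; rfl
  have hcv : ∑ y, cv (fun x => (rep q D s x : ℝ)) (fun x => (rep q D s x : ℝ)) y ^ 2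
      = (en q D (2 * s) : ℝ) := by
    simp only [en, cv_rep]; push_cast; rw [two_mul]
  have key := hC q (pw q) (fun x => (rep q D s x : ℝ)) z hz (sgl_pw q D hD h2)
    (fun x => Nat.cast_nonneg _)
    (fun h hh x => by exact_mod_cast rep_inv q D s hD h2 h hh x)
    (by rw [hsum]; positivity)
    (by rw [hsum, hsum2, hcv, ← pow_mul, mul_comm s 2]; exact hE)
    (by rw [card_pw]; exact hzt)
    (by
      rw [card_pw, ← NN_one q D hD h2, Nf_rep]
      have := NN_mono q D 1 (s - 1) hD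
      rw [show 1 + (s - 1) = s by omega] at this
      exact this)
  rw [card_pw, Nf_rep] at key
  exact key

theorem nt_en : ∃ s t1 : ℕ, 1 ≤ s ∧ ∀ (q D : ℕ) [Fact q.Prime], 0 < D → (2 : ZMod q) ^ D = 1 →
    t1 ≤ orderOf (2 : ZMod q) →
    min (q : ℝ) ((orderOf (2 : ZMod q) : ℝ) ^ 6) * en q D s
      ≤ Real.sqrt (orderOf (2 : ZMod q)) * (D : ℝ) ^ (2 * s) := by
  obtain ⟨C0, hC0⟩ := flatP
  -- enlarge the constant to be at least 1
  set C : ℕ := C0 + 1 with hCdef
  have hC : ∀ (q : ℕ) [Fact q.Prime] (H : Finset (ZMod q)) (f : ZMod q → ℝ)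
    (z : ℝ), 2 ≤ z → SGL H → (∀ x, 0 ≤ f x) → (∀ h ∈ H, ∀ x, f (h * x) = f x) →
    0 < ∑ x, f x → (∑ x, f x) ^ 2 * ∑ x, f x ^ 2 ≤ z * ∑ y, cv f f y ^ 2 →
    z ^ C ≤ H.card → (H.card : ℝ) ≤ Nf f →
    min (q : ℝ) ((H.card : ℝ) ^ 6) ≤ z ^ C * Nf f := by
    intro q _ H f z hz a1 a2 a3 a4 a5 a6 a7
    have hz1 : (1 : ℝ) ≤ z := by linarith
    have h1 : z ^ C0 ≤ z ^ C := pow_le_pow_right₀ hz1 (by omega)
    have h2 : 0 ≤ Nf f := le_trans (Nat.cast_nonneg _) a7
    exact (hC0 q H f z hz a1 a2 a3 a4 a5 (h1.trans a6) a7).trans (mul_le_mul_of_nonneg_right h1 h2)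
  refine ⟨2 ^ (10 * C + 1), 2 ^ (2 * C), Nat.one_le_two_pow, ?_⟩
  intro q D _ hD h2 ht
  set t : ℝ := (orderOf (2 : ZMod q) : ℝ) with htdef
  have ht' : (2 : ℝ) ^ (2 * C) ≤ t := by rw [htdef]; exact_mod_cast ht
  have ht0 : 0 < t := lt_of_lt_of_le (by positivity) ht'
  have ht1 : 1 ≤ t := le_trans (one_le_pow₀ (by norm_num)) ht'
  have hCR : (0 : ℝ) < (2 * C : ℕ) := by exact_mod_cast (by omega : 0 < 2 * C)
  set z : ℝ := t ^ ((1 : ℝ) / (2 * C : ℕ)) with hz
  have hzpow : z ^ (2 * C) = t := by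
    rw [hz, ← Real.rpow_natCast, ← Real.rpow_mul ht0.le]
    rw [one_div, inv_mul_cancel₀ hCR.ne', Real.rpow_one]
  have hz0 : 0 < z := Real.rpow_pos_of_pos ht0 _
  have hz2 : 2 ≤ z := by
    by_contra hcon
    push Not at hcon
    have : z ^ (2 * C) < 2 ^ (2 * C) := pow_lt_pow_left₀ hcon hz0.le (by omega)
    linarith [hzpow]
  have hz1 : 1 ≤ z := by linarith
  have hzC : z ^ C = Real.sqrt t := by
    rw [← hzpow, mul_comm 2 C, pow_mul, Real.sqrt_sq (by positivity)]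
  have hzCt : z ^ C ≤ t := by
    rw [hzC]
    calc Real.sqrt t ≤ Real.sqrt (t ^ 2) := Real.sqrt_le_sqrt (by nlinarith)
      _ = t := Real.sqrt_sq ht0.le
  -- the iteration
  have hN1 : NN q D 1 = t := NN_one q D hD h2
  have hNpos : ∀ s, 0 < NN q D s := fun s => NN_pos q D s hD
  have key : ∀ j : ℕ, j ≤ 10 * C + 1 →
      (min (q : ℝ) (t ^ 6) ≤ z ^ C * NN q D (2 ^ (10 * C + 1))) ∨ z ^ j * t ≤ NN q D (2 ^ j) := by
    intro j
    induction j with
    | zero => intro _; right; rw [pow_zero, one_mul, pow_zero, hN1]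
    | succ j ih =>
      intro hj
      rcases ih (by omega) with h | h
      · exact Or.inl h
      rcases step_prime C hC q D (2 ^ j) Nat.one_le_two_pow hD h2 z hz2 hzCt with h' | h'
      · left
        refine h'.trans ?_
        have : NN q D (2 ^ j) ≤ NN q D (2 ^ (10 * C + 1)) := by
          have hle : 2 ^ j ≤ 2 ^ (10 * C + 1) := Nat.pow_le_pow_right (by norm_num) (by omega)
          have := NN_mono q D (2 ^ j) (2 ^ (10 * C + 1) - 2 ^ j) hD
          rwa [Nat.add_sub_cancel' hle] at this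
        gcongr
      · right
        calc z ^ (j + 1) * t = z * (z ^ j * t) := by ring
          _ ≤ z * NN q D (2 ^ j) := by gcongr
          _ ≤ NN q D (2 * 2 ^ j) := h'
          _ = NN q D (2 ^ (j + 1)) := by rw [pow_succ']
  have hfin : min (q : ℝ) (t ^ 6) ≤ z ^ C * NN q D (2 ^ (10 * C + 1)) := by
    rcases key (10 * C + 1) le_rfl with h | h
    · exact h
    · have h5 : t ^ 5 ≤ z ^ (10 * C + 1) := by
        calc t ^ 5 = z ^ (2 * C * 5) := by rw [pow_mul, hzpow]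
          _ ≤ _ := pow_le_pow_right₀ hz1 (by omega)
      calc min (q : ℝ) (t ^ 6) ≤ t ^ 6 := min_le_right _ _
        _ = t ^ 5 * t := by ring
        _ ≤ z ^ (10 * C + 1) * t := by gcongr
        _ ≤ NN q D (2 ^ (10 * C + 1)) := h
        _ = 1 * NN q D (2 ^ (10 * C + 1)) := by ring
        _ ≤ z ^ C * NN q D (2 ^ (10 * C + 1)) := by
          have := one_le_pow₀ hz1 (n := C)
          exact mul_le_mul_of_nonneg_right this (hNpos _).le
  have hen : (0 : ℝ) < en q D (2 ^ (10 * C + 1)) := by exact_mod_cast en_pos q D _ hD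
  rw [hzC] at hfin
  unfold NN at hfin
  calc min (q : ℝ) (t ^ 6) * en q D (2 ^ (10 * C + 1))
      ≤ (Real.sqrt t * ((D : ℝ) ^ (2 * 2 ^ (10 * C + 1)) / en q D (2 ^ (10 * C + 1))))
          * en q D (2 ^ (10 * C + 1)) := by gcongr
    _ = _ := by field_simp

end Pool.H53.NA

end S_NA_Nt1

section S_NA_Nt2

/-!
Equidistribution of sums of powers of two modulo a prime, part 2 (assembly).
-/


namespace Pool.H53.NA

/-- the good case -/
theorem good_prime (q D s : ℕ) [Fact q.Prime] (hD : 0 < D) (h2 : (2 : ZMod q) ^ D = 1)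
    (ht : 1 ≤ orderOf (2 : ZMod q))
    (hen : (q : ℝ) * en q D s ≤ Real.sqrt (orderOf (2 : ZMod q)) * (D : ℝ) ^ (2 * s)) :
    (∀ y, (rep q D (4 * s) y : ℝ) ≤ 2 / q * (D : ℝ) ^ (4 * s)) ∧
      ∑ b ∈ (Finset.univ : Finset (ZMod q)).erase 0, ‖SS q D b‖ ^ (4 * s) ≤ (D : ℝ) ^ (4 * s) := by
  set t : ℝ := (orderOf (2 : ZMod q) : ℝ) with htdef
  have ht1 : (1 : ℝ) ≤ t := by rw [htdef]; exact_mod_cast ht
  have hDR : (0 : ℝ) < D := by exact_mod_cast hD
  have hq0 : (0 : ℝ) < q := by exact_mod_cast (Fact.out : q.Prime).pos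
  have hsum := sum_SS q D s
  set c := Real.sqrt t with hc
  have hc2 : c * c = t := Real.mul_self_sqrt (by linarith)
  have hc0 : 0 ≤ c := Real.sqrt_nonneg _
  have hsum' : ∑ b ∈ (Finset.univ : Finset (ZMod q)).erase 0, ‖SS q D b‖ ^ (2 * s)
      ≤ c * (D : ℝ) ^ (2 * s) := by
    calc ∑ b ∈ (Finset.univ : Finset (ZMod q)).erase 0, ‖SS q D b‖ ^ (2 * s)
        ≤ ∑ b : ZMod q, ‖SS q D b‖ ^ (2 * s) :=
          Finset.sum_le_sum_of_subset_of_nonneg (Finset.erase_subset _ _)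
            (fun _ _ _ => by positivity)
      _ = q * en q D s := hsum
      _ ≤ _ := hen
  have hmax : ∀ a ∈ (Finset.univ : Finset (ZMod q)).erase 0, t * ‖SS q D a‖ ^ (2 * s)
      ≤ c * (D : ℝ) ^ (2 * s) := by
    intro a ha
    exact (SS_orbit q D hD h2 (2 * s) a (Finset.ne_of_mem_erase ha)).trans hsum'
  have h4 : ∑ b ∈ (Finset.univ : Finset (ZMod q)).erase 0, ‖SS q D b‖ ^ (4 * s)
      ≤ (D : ℝ) ^ (4 * s) := by
    have h5 : t * ∑ b ∈ (Finset.univ : Finset (ZMod q)).erase 0, ‖SS q D b‖ ^ (4 * s)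
        ≤ t * (D : ℝ) ^ (4 * s) := by
      rw [Finset.mul_sum]
      calc ∑ b ∈ (Finset.univ : Finset (ZMod q)).erase 0, t * ‖SS q D b‖ ^ (4 * s)
          ≤ ∑ b ∈ (Finset.univ : Finset (ZMod q)).erase 0,
              (c * (D : ℝ) ^ (2 * s)) * ‖SS q D b‖ ^ (2 * s) := by
            apply Finset.sum_le_sum
            intro b hb
            have : ‖SS q D b‖ ^ (4 * s) = ‖SS q D b‖ ^ (2 * s) * ‖SS q D b‖ ^ (2 * s) := by
              rw [← pow_add]; congr 1; ring
            rw [this, ← mul_assoc]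
            exact mul_le_mul_of_nonneg_right (hmax b hb) (by positivity)
        _ = (c * (D : ℝ) ^ (2 * s)) * ∑ b ∈ (Finset.univ : Finset (ZMod q)).erase 0,
              ‖SS q D b‖ ^ (2 * s) := by rw [Finset.mul_sum]
        _ ≤ (c * (D : ℝ) ^ (2 * s)) * (c * (D : ℝ) ^ (2 * s)) := by gcongr
        _ = (c * c) * ((D : ℝ) ^ (2 * s) * (D : ℝ) ^ (2 * s)) := by ring
        _ = t * (D : ℝ) ^ (4 * s) := by
          rw [hc2, ← pow_add]; congr 2; ring
    exact le_of_mul_le_mul_left h5 (by linarith)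
  refine ⟨fun y => ?_, h4⟩
  have h6 := rep_le_SS q D (4 * s) y
  have h7 : ∑ a : ZMod q, ‖SS q D a‖ ^ (4 * s) = (D : ℝ) ^ (4 * s)
      + ∑ b ∈ (Finset.univ : Finset (ZMod q)).erase 0, ‖SS q D b‖ ^ (4 * s) := by
    rw [← Finset.add_sum_erase _ _ (Finset.mem_univ (0 : ZMod q)), SS_zero]
    simp
  rw [div_mul_eq_mul_div, le_div_iff₀ hq0]
  nlinarith

theorem nt1 : ∃ s t1 : ℕ, 1 ≤ s ∧ 1 ≤ t1 ∧ ∀ (q D : ℕ) [Fact q.Prime], 0 < D →
    (2 : ZMod q) ^ D = 1 → t1 ≤ orderOf (2 : ZMod q) →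
    (q ≤ orderOf (2 : ZMod q) ^ 5 → (∀ y, (rep q D s y : ℝ) ≤ 2 / q * (D : ℝ) ^ s) ∧
      ∑ b ∈ (Finset.univ : Finset (ZMod q)).erase 0, ‖SS q D b‖ ^ s ≤ (D : ℝ) ^ s) ∧
    (orderOf (2 : ZMod q) ^ 5 < q → ∀ y, (rep q D s y : ℝ)
      ≤ (D : ℝ) ^ s / (orderOf (2 : ZMod q) : ℝ) ^ 4) := by
  obtain ⟨s, t1, hs, h⟩ := nt_en
  refine ⟨4 * s, max t1 1, by omega, le_max_right _ _, ?_⟩
  intro q D _ hD h2 ht
  have ht1 : 1 ≤ orderOf (2 : ZMod q) := (le_max_right _ _).trans ht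
  have hen := h q D hD h2 ((le_max_left _ _).trans ht)
  have htR : (1 : ℝ) ≤ (orderOf (2 : ZMod q) : ℝ) := by exact_mod_cast ht1
  have hDR : (0 : ℝ) < D := by exact_mod_cast hD
  constructor
  · intro hq
    apply good_prime q D s hD h2 ht1
    have : min (q : ℝ) ((orderOf (2 : ZMod q) : ℝ) ^ 6) = q := by
      apply min_eq_left
      calc (q : ℝ) ≤ (orderOf (2 : ZMod q) : ℝ) ^ 5 := by exact_mod_cast hq
        _ ≤ (orderOf (2 : ZMod q) : ℝ) ^ 6 := pow_le_pow_right₀ htR (by norm_num)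
    rwa [this] at hen
  · intro hq y
    set t : ℝ := (orderOf (2 : ZMod q) : ℝ) with htdef
    have h5 : t ^ 5 ≤ min (q : ℝ) (t ^ 6) := by
      apply le_min
      · rw [htdef]; exact_mod_cast hq.le
      · exact pow_le_pow_right₀ htR (by norm_num)
    have h6 : t ^ 4 * (en q D s : ℝ) ≤ (D : ℝ) ^ (2 * s) := by
      have h7 : t ^ 5 * (en q D s : ℝ) ≤ t * (D : ℝ) ^ (2 * s) := by
        calc t ^ 5 * (en q D s : ℝ) ≤ min (q : ℝ) (t ^ 6) * en q D s := by gcongr
          _ ≤ Real.sqrt t * (D : ℝ) ^ (2 * s) := hen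
          _ ≤ t * (D : ℝ) ^ (2 * s) := by
            gcongr
            calc Real.sqrt t ≤ Real.sqrt (t ^ 2) := Real.sqrt_le_sqrt (by nlinarith)
              _ = t := Real.sqrt_sq (by linarith)
      have : t * (t ^ 4 * (en q D s : ℝ)) ≤ t * (D : ℝ) ^ (2 * s) := by
        calc t * (t ^ 4 * (en q D s : ℝ)) = t ^ 5 * (en q D s : ℝ) := by ring
          _ ≤ _ := h7
      exact le_of_mul_le_mul_left this (by linarith)
    have h8 := rep_add_le q D (2 * s) (2 * s) (en q D s : ℝ)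
      (fun y => by exact_mod_cast rep_two_le q D s y) y
    rw [show 2 * s + 2 * s = 4 * s by ring] at h8
    rw [le_div_iff₀ (by positivity)]
    calc (rep q D (4 * s) y : ℝ) * t ^ 4 ≤ ((en q D s : ℝ) * (D : ℝ) ^ (2 * s)) * t ^ 4 := by gcongr
      _ = (t ^ 4 * (en q D s : ℝ)) * (D : ℝ) ^ (2 * s) := by ring
      _ ≤ (D : ℝ) ^ (2 * s) * (D : ℝ) ^ (2 * s) := by gcongr
      _ = (D : ℝ) ^ (4 * s) := by rw [← pow_add]; congr 1; ring

end Pool.H53.NA

end S_NA_Nt2
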