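import Mathlib
import Pool.Agent.H53.NM.M1
import Pool.Agent.H53.NM.M2

set_option autoImplicit false

/-! Sums of a prime and powers of two, part M3: this file joins several modules to save build time. -/

section S_NA_Mat

/-!
Row Mat: a large matching.  PROOF.  Let `B ⊆ U` be of maximal cardinality among the subsets of `U` on which both `p1`
and `p2` are injective (`∅` is one).  For every `x ∈ U` `p1 x ∈ p1 B` or `p2 x ∈ p2 B` (if `x ∈ B` clear; else
`insert x B` would be larger).  So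
`∑_{x ∈ U} w x ≤ ∑_{y ∈ p1 B} ∑_{x ∈ U, p1 x = y} w x + ∑_{y ∈ p2 B} ∑_{x ∈ U, p2 x = y} w x ≤ |B| m1 + |B| m2`.
-/


namespace Pool.H53.NA

theorem matching {X Y1 Y2 : Type} [DecidableEq X] [DecidableEq Y1] [DecidableEq Y2] (U : Finset X)
    (w : X → ℝ) (hw : ∀ x ∈ U, 0 ≤ w x) (p1 : X → Y1) (p2 : X → Y2) (m1 m2 : ℝ)
    (h1 : ∀ y, ∑ x ∈ U.filter (fun x => p1 x = y), w x ≤ m1)
    (h2 : ∀ y, ∑ x ∈ U.filter (fun x => p2 x = y), w x ≤ m2) :
    ∃ B : Finset X, B ⊆ U ∧ Set.InjOn p1 (B : Set X) ∧ Set.InjOn p2 (B : Set X) ∧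
      ∑ x ∈ U, w x ≤ B.card * (m1 + m2) := by
  classical
  -- a subset of maximal cardinality
  obtain ⟨B, hB, hmax⟩ := Finset.exists_max_image
    (U.powerset.filter fun B : Finset X =>
      Set.InjOn p1 ((B : Finset X) : Set X) ∧ Set.InjOn p2 ((B : Finset X) : Set X))
    (fun B : Finset X => B.card) ⟨∅, by simp⟩
  rw [Finset.mem_filter, Finset.mem_powerset] at hB
  obtain ⟨hBU, hi1, hi2⟩ := hB
  refine ⟨B, hBU, hi1, hi2, ?_⟩
  have hcov : ∀ x ∈ U, p1 x ∈ B.image p1 ∨ p2 x ∈ B.image p2 := by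
    intro x hx
    by_contra hcon
    rw [not_or] at hcon
    obtain ⟨hc1, hc2⟩ := hcon
    have hxB : x ∉ B := fun h => hc1 (Finset.mem_image_of_mem _ h)
    have hm := hmax (insert x B) (by
      rw [Finset.mem_filter, Finset.mem_powerset]
      refine ⟨Finset.insert_subset hx hBU, ?_, ?_⟩
      · rw [Finset.coe_insert, Set.injOn_insert (by simpa using hxB)]
        refine ⟨hi1, ?_⟩
        rintro ⟨b, hb, hbe⟩
        exact hc1 (Finset.mem_image.mpr ⟨b, by simpa using hb, hbe⟩)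
      · rw [Finset.coe_insert, Set.injOn_insert (by simpa using hxB)]
        refine ⟨hi2, ?_⟩
        rintro ⟨b, hb, hbe⟩
        exact hc2 (Finset.mem_image.mpr ⟨b, by simpa using hb, hbe⟩))
    rw [Finset.card_insert_of_notMem hxB] at hm
    omega
  have hs1 : ∑ x ∈ U.filter (fun x => p1 x ∈ B.image p1), w x ≤ B.card * m1 := by
    rw [← Finset.sum_fiberwise_of_maps_to (s := U.filter (fun x => p1 x ∈ B.image p1))
      (t := B.image p1) (g := p1) (fun x hx => (Finset.mem_filter.mp hx).2)]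
    calc ∑ y ∈ B.image p1, ∑ x ∈ (U.filter (fun x => p1 x ∈ B.image p1)).filter
          (fun x => p1 x = y), w x
        ≤ ∑ y ∈ B.image p1, m1 := by
          apply Finset.sum_le_sum
          intro y _
          refine le_trans ?_ (h1 y)
          apply Finset.sum_le_sum_of_subset_of_nonneg
          · exact Finset.filter_subset_filter _ (Finset.filter_subset _ _)
          · intro x hx _
            exact hw x (Finset.mem_filter.mp hx).1
      _ = B.card * m1 := by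
          rw [Finset.sum_const, nsmul_eq_mul, Finset.card_image_of_injOn hi1]
  have hs2 : ∑ x ∈ U.filter (fun x => p2 x ∈ B.image p2), w x ≤ B.card * m2 := by
    rw [← Finset.sum_fiberwise_of_maps_to (s := U.filter (fun x => p2 x ∈ B.image p2))
      (t := B.image p2) (g := p2) (fun x hx => (Finset.mem_filter.mp hx).2)]
    calc ∑ y ∈ B.image p2, ∑ x ∈ (U.filter (fun x => p2 x ∈ B.image p2)).filter
          (fun x => p2 x = y), w x
        ≤ ∑ y ∈ B.image p2, m2 := by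
          apply Finset.sum_le_sum
          intro y _
          refine le_trans ?_ (h2 y)
          apply Finset.sum_le_sum_of_subset_of_nonneg
          · exact Finset.filter_subset_filter _ (Finset.filter_subset _ _)
          · intro x hx _
            exact hw x (Finset.mem_filter.mp hx).1
      _ = B.card * m2 := by
          rw [Finset.sum_const, nsmul_eq_mul, Finset.card_image_of_injOn hi2]
  have hU : U = U.filter (fun x => p1 x ∈ B.image p1) ∪ U.filter (fun x => p2 x ∈ B.image p2) := by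
    ext x
    simp only [Finset.mem_union, Finset.mem_filter]
    constructor
    · intro hx
      rcases hcov x hx with h | h
      · exact Or.inl ⟨hx, h⟩
      · exact Or.inr ⟨hx, h⟩
    · rintro (h | h)
      · exact h.1
      · exact h.1
  calc ∑ x ∈ U, w x
      = ∑ x ∈ U.filter (fun x => p1 x ∈ B.image p1) ∪ U.filter (fun x => p2 x ∈ B.image p2), w x := by
        rw [← hU]
    _ ≤ ∑ x ∈ U.filter (fun x => p1 x ∈ B.image p1), w x
        + ∑ x ∈ U.filter (fun x => p2 x ∈ B.image p2), w x := by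
        rw [← Finset.sum_union_inter]
        have : 0 ≤ ∑ x ∈ U.filter (fun x => p1 x ∈ B.image p1)
            ∩ U.filter (fun x => p2 x ∈ B.image p2), w x := by
          apply Finset.sum_nonneg
          intro x hx
          exact hw x (Finset.mem_filter.mp (Finset.mem_inter.mp hx).1).1
        linarith
    _ ≤ B.card * (m1 + m2) := by
        rw [mul_add]
        exact add_le_add hs1 hs2

end Pool.H53.NA

end S_NA_Mat

section S_NA_RpC

/-!
Row RpC: reduction to a divisor `M` of the modulus.  PROOFS.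
* `rep_proj`: the ring homomorphism `ZMod.castHom` maps `∑ 2^(k i)` to `∑ 2^(k i)`; sort the `k` counted by
  `rep M D s y` by the value of their sum in `ZMod N`.
* `en_pairs`: `en M D s = ∑_y (∑_{x ↦ y} rep N x)²`, expand the square.
* `en_proj`: keep only the terms `x = x'` of `en_pairs`.
* `coll_le`: keep only the terms `(x, x') ∈ A²`, each with `rep x rep x' ≥ lo²`.
* `isUnit_pq`: `x : ZMod (q1 q2)` with nonzero images is a unit (`ZMod.isUnit_iff_coprime` with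
  `x = (x.val : ZMod _)`, `ZMod.natCast_eq_zero_iff`, `Nat.Coprime.mul_right`).
* `castHom_inj_pq`: if both images of `x` vanish then `x = 0`.
-/


namespace Pool.H53.NA

theorem rpc_cast (M N D s : ℕ) (h : M ∣ N) (k : Fin s → Fin D) :
    ZMod.castHom h (ZMod M) (∑ i, (2 : ZMod N) ^ (k i : ℕ)) = ∑ i, (2 : ZMod M) ^ (k i : ℕ) := by
  rw [map_sum]
  apply Finset.sum_congr rfl
  intro i _
  rw [map_pow, map_ofNat]

theorem rep_proj (M N D s : ℕ) [NeZero N] (h : M ∣ N) (y : ZMod M) :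
    rep M D s y = ∑ x ∈ (Finset.univ : Finset (ZMod N)).filter
      (fun x => ZMod.castHom h (ZMod M) x = y), rep N D s x := by
  unfold rep
  rw [Finset.card_eq_sum_card_fiberwise (f := fun k : Fin s → Fin D =>
    ∑ i, (2 : ZMod N) ^ (k i : ℕ)) (t := (Finset.univ : Finset (ZMod N)).filter
      (fun x => ZMod.castHom h (ZMod M) x = y))]
  · apply Finset.sum_congr rfl
    intro x hx
    rw [Finset.mem_filter] at hx
    congr 1
    ext k
    simp only [Finset.mem_filter, Finset.mem_univ, true_and]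
    constructor
    · rintro ⟨_, h2⟩; exact h2
    · intro h2
      refine ⟨?_, h2⟩
      rw [← rpc_cast M N D s h k, h2]
      exact hx.2
  · intro k hk
    simp only [Finset.coe_filter, Finset.mem_univ, true_and, Set.mem_ofPred_eq] at hk ⊢
    rw [rpc_cast M N D s h k]
    exact hk

theorem en_pairs (M N D s : ℕ) [NeZero N] [NeZero M] (h : M ∣ N) :
    (∑ x : ZMod N, ∑ x' : ZMod N, if ZMod.castHom h (ZMod M) x = ZMod.castHom h (ZMod M) x'
      then rep N D s x * rep N D s x' else 0) = en M D s := by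
  unfold en
  have e1 : ∀ y : ZMod M, rep M D s y ^ 2
      = ∑ x : ZMod N, ∑ x' : ZMod N, if ZMod.castHom h (ZMod M) x = y ∧
        ZMod.castHom h (ZMod M) x' = y then rep N D s x * rep N D s x' else 0 := by
    intro y
    rw [rep_proj M N D s h y, sq, Finset.sum_mul_sum, Finset.sum_filter]
    apply Finset.sum_congr rfl
    intro x _
    by_cases hx : ZMod.castHom h (ZMod M) x = y
    · rw [if_pos hx, Finset.sum_filter]
      apply Finset.sum_congr rfl
      intro x' _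
      simp only [hx, true_and]
    · rw [if_neg hx]
      symm
      apply Finset.sum_eq_zero
      intro x' _
      simp only [hx, false_and, if_false]
  simp only [e1]
  symm
  rw [Finset.sum_comm]
  apply Finset.sum_congr rfl
  intro x _
  rw [Finset.sum_comm]
  apply Finset.sum_congr rfl
  intro x' _
  rw [Finset.sum_eq_single (ZMod.castHom h (ZMod M) x)]
  · by_cases hx : ZMod.castHom h (ZMod M) x = ZMod.castHom h (ZMod M) x'
    · rw [if_pos hx, if_pos ⟨rfl, hx.symm⟩]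
    · rw [if_neg hx, if_neg]
      rintro ⟨_, h2⟩
      exact hx h2.symm
  · intro y _ hy
    rw [if_neg]
    rintro ⟨h1, _⟩
    exact hy h1.symm
  · intro h1
    exact absurd (Finset.mem_univ _) h1

theorem en_proj (M N D s : ℕ) [NeZero N] [NeZero M] (h : M ∣ N) : en N D s ≤ en M D s := by
  rw [← en_pairs M N D s h]
  unfold en
  apply Finset.sum_le_sum
  intro x _
  have := Finset.single_le_sum (f := fun x' : ZMod N =>
    if ZMod.castHom h (ZMod M) x = ZMod.castHom h (ZMod M) x'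
      then rep N D s x * rep N D s x' else 0) (fun _ _ => Nat.zero_le _) (Finset.mem_univ x)
  simp only [if_true] at this
  rw [sq]
  exact this

theorem coll_le (M N D s : ℕ) [NeZero N] [NeZero M] (h : M ∣ N) (A : Finset (ZMod N)) (lo : ℝ)
    (hlo : 0 < lo) (hA : ∀ x ∈ A, lo ≤ (rep N D s x : ℝ)) :
    lo ^ 2 * ((A ×ˢ A).filter fun p => ZMod.castHom h (ZMod M) p.1
      = ZMod.castHom h (ZMod M) p.2).card ≤ (en M D s : ℝ) := by
  rw [← en_pairs M N D s h]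
  push_cast
  rw [← Finset.sum_product' (f := fun x x' : ZMod N =>
    if ZMod.castHom h (ZMod M) x = ZMod.castHom h (ZMod M) x'
      then (rep N D s x : ℝ) * (rep N D s x' : ℝ) else 0)]
  rw [← Finset.sum_filter]
  calc lo ^ 2 * ((A ×ˢ A).filter fun p => ZMod.castHom h (ZMod M) p.1
      = ZMod.castHom h (ZMod M) p.2).card
      = ∑ p ∈ (A ×ˢ A).filter (fun p => ZMod.castHom h (ZMod M) p.1
        = ZMod.castHom h (ZMod M) p.2), lo ^ 2 := by
        rw [Finset.sum_const, nsmul_eq_mul, mul_comm]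
    _ ≤ ∑ p ∈ (A ×ˢ A).filter (fun p => ZMod.castHom h (ZMod M) p.1
        = ZMod.castHom h (ZMod M) p.2), (rep N D s p.1 : ℝ) * (rep N D s p.2 : ℝ) := by
        apply Finset.sum_le_sum
        intro p hp
        rw [Finset.mem_filter, Finset.mem_product] at hp
        rw [sq]
        exact mul_le_mul (hA _ hp.1.1) (hA _ hp.1.2) hlo.le (Nat.cast_nonneg _)
    _ ≤ _ := by
        apply Finset.sum_le_sum_of_subset_of_nonneg
        · apply Finset.filter_subset_filter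
          exact Finset.subset_univ _
        · intro _ _ _
          positivity

theorem isUnit_pq (q1 q2 : ℕ) [Fact q1.Prime] [Fact q2.Prime] (x : ZMod (q1 * q2))
    (h1 : ZMod.castHom (dvd_mul_right q1 q2) (ZMod q1) x ≠ 0)
    (h2 : ZMod.castHom (dvd_mul_left q2 q1) (ZMod q2) x ≠ 0) : IsUnit x := by
  have hx : ((x.val : ℕ) : ZMod (q1 * q2)) = x := ZMod.natCast_zmod_val x
  rw [← hx] at h1 h2 ⊢
  rw [map_natCast] at h1 h2
  rw [ZMod.isUnit_iff_coprime]
  rw [Ne, ZMod.natCast_eq_zero_iff] at h1 h2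
  apply Nat.Coprime.mul_right
  · exact ((Nat.Prime.coprime_iff_not_dvd Fact.out).mpr h1).symm
  · exact ((Nat.Prime.coprime_iff_not_dvd Fact.out).mpr h2).symm

theorem castHom_inj_pq (q1 q2 : ℕ) [Fact q1.Prime] [Fact q2.Prime] (hne : q1 ≠ q2)
    (x : ZMod (q1 * q2)) (h1 : ZMod.castHom (dvd_mul_right q1 q2) (ZMod q1) x = 0)
    (h2 : ZMod.castHom (dvd_mul_left q2 q1) (ZMod q2) x = 0) : x = 0 := by
  have hx : ((x.val : ℕ) : ZMod (q1 * q2)) = x := ZMod.natCast_zmod_val x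
  rw [← hx] at h1 h2 ⊢
  rw [map_natCast] at h1 h2
  rw [ZMod.natCast_eq_zero_iff] at h1 h2 ⊢
  exact Nat.Coprime.mul_dvd_of_dvd_of_dvd
    ((Nat.coprime_primes Fact.out Fact.out).mpr hne) h1 h2

end Pool.H53.NA

end S_NA_RpC

section S_NA_FqA

/-!
Row FqA: a large set of multipliers with distinct images modulo both primes.

PROOF.  `t = orderOf 2` in `ZMod Q`, `Q = q1 q2`, `Ex = {k : Fin D | 2^k ∈ H'}`; by `exps_card`
`|Ex| t = D |H'|` and `|H'| ≥ t/z^425` (`card_pw`), so `|Ex| z^425 ≥ D`.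
For `x : ZMod Q` let `w x` be the number of `k : Fin s → Fin D` with all `k i ∈ Ex` and `∑ 2^(k i) = x`, and let
`U = {x | w x > 0}`.  `∑_{x ∈ U} w x = |Ex|^s`, and for `y : ZMod q1` `∑_{x ∈ U, x ↦ y} w x ≤ rep q1 D s y ≤ 2/q1 D^s`
(the number of ALL `k` whose sum maps to `y`).  `matching` gives `B ⊆ U`, injective modulo `q1` and modulo `q2`, with
`|Ex|^s ≤ |B| (2/q1 + 2/q2) D^s`, hence `min(q1,q2) ≤ 4 z^(425 s) |B|`.  Every `b ∈ B` is a sum of `s` elements of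
`H'`, so `Xi A (((s+1) z^1273)^(s+1)) b` by `Xi_comb` (`p = s`, `q = 0`).  Remove from `B` the at most two
elements whose image modulo `q1` or modulo `q2` is `0`: the result `B'` has `|B| ≤ |B'| + 2`.  Its elements are
units and the differences of distinct elements are units (`isUnit_pq`).
-/


namespace Pool.H53.NA

open scoped Pointwise

theorem fqa_exp (Q D : ℕ) (z : ℝ) (hz : 2 ≤ z) (hD : 0 < D) (h2 : (2 : ZMod Q) ^ D = 1)
    (H' : Finset (ZMod Q)) (hH' : H' ⊆ pw Q)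
    (hc : ((pw Q).card : ℝ) ≤ z ^ 425 * H'.card) :
    (D : ℝ) ≤ z ^ 425 *
      ((Finset.univ : Finset (Fin D)).filter fun k : Fin D => (2 : ZMod Q) ^ (k : ℕ) ∈ H').card := by
  set Ex := (Finset.univ : Finset (Fin D)).filter fun k : Fin D => (2 : ZMod Q) ^ (k : ℕ) ∈ H' with hEx
  have h := exps_card Q D hD h2 H' hH'
  rw [card_pw] at hc
  have ht : 0 < orderOf (2 : ZMod Q) := orderOf_pos_iff.2 (isOfFinOrder_iff_pow_eq_one.2 ⟨D, hD, h2⟩)
  have htr : (0 : ℝ) < (orderOf (2 : ZMod Q) : ℝ) := by exact_mod_cast ht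
  have h' : ((Ex.card : ℝ)) * (orderOf (2 : ZMod Q) : ℝ) = D * H'.card := by
    have := congrArg (fun n : ℕ => (n : ℝ)) h
    simpa only [Nat.cast_mul] using this
  have hDr : (0 : ℝ) ≤ D := Nat.cast_nonneg D
  have h3 : (D : ℝ) * (orderOf (2 : ZMod Q) : ℝ) ≤ (z ^ 425 * Ex.card) * (orderOf (2 : ZMod Q) : ℝ) := by
    calc (D : ℝ) * (orderOf (2 : ZMod Q) : ℝ) ≤ D * (z ^ 425 * H'.card) :=
          mul_le_mul_of_nonneg_left hc hDr
      _ = z ^ 425 * (D * H'.card) := by ring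
      _ = z ^ 425 * (Ex.card * (orderOf (2 : ZMod Q) : ℝ)) := by rw [h']
      _ = _ := by ring
  exact le_of_mul_le_mul_right h3 htr

theorem fqa_fib (q Q D s : ℕ) (h : q ∣ Q) (K : Finset (Fin s → Fin D)) (y : ZMod q) :
    ∑ x ∈ (K.image fun k => ∑ i, (2 : ZMod Q) ^ (k i : ℕ)).filter
      (fun x => ZMod.castHom h (ZMod q) x = y),
      ((K.filter fun k => ∑ i, (2 : ZMod Q) ^ (k i : ℕ) = x).card : ℝ) ≤ (rep q D s y : ℝ) := by
  rw [← Nat.cast_sum]
  refine Nat.cast_le.2 ?_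
  set T := (K.image fun k => ∑ i, (2 : ZMod Q) ^ (k i : ℕ)).filter
      (fun x => ZMod.castHom h (ZMod q) x = y) with hT
  set K1 := K.filter (fun k => ∑ i, (2 : ZMod Q) ^ (k i : ℕ) ∈ T) with hK1
  have h1 : K1.card = ∑ x ∈ T, (K1.filter fun k => ∑ i, (2 : ZMod Q) ^ (k i : ℕ) = x).card := by
    refine Finset.card_eq_sum_card_fiberwise (fun k hk => ?_)
    exact (Finset.mem_filter.1 hk).2
  have h2 : ∀ x ∈ T, (K1.filter fun k => ∑ i, (2 : ZMod Q) ^ (k i : ℕ) = x).card =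
      (K.filter fun k => ∑ i, (2 : ZMod Q) ^ (k i : ℕ) = x).card := by
    intro x hx
    congr 1
    ext k
    simp only [hK1, Finset.mem_filter]
    constructor
    · rintro ⟨⟨a, b⟩, c⟩; exact ⟨a, c⟩
    · rintro ⟨a, c⟩; exact ⟨⟨a, by rw [c]; exact hx⟩, c⟩
  rw [← Finset.sum_congr rfl h2, ← h1]
  unfold rep
  refine Finset.card_le_card (fun k hk => ?_)
  have hk2 := (Finset.mem_filter.1 hk).2
  have hk3 := (Finset.mem_filter.1 hk2).2
  refine Finset.mem_filter.2 ⟨Finset.mem_univ _, ?_⟩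
  rw [← hk3, map_sum]
  refine Finset.sum_congr rfl (fun i _ => ?_)
  rw [map_pow, map_ofNat]

theorem fq_set (s q1 q2 D : ℕ) [Fact q1.Prime] [Fact q2.Prime] (z : ℝ) (hz : 2 ≤ z) (hne : q1 ≠ q2)
    (hD : 0 < D) (h2 : (2 : ZMod (q1 * q2)) ^ D = 1)
    (hr1 : ∀ y, (rep q1 D s y : ℝ) ≤ 2 / q1 * (D : ℝ) ^ s)
    (hr2 : ∀ y, (rep q2 D s y : ℝ) ≤ 2 / q2 * (D : ℝ) ^ s)
    (A H' : Finset (ZMod (q1 * q2))) (hA : A.Nonempty)
    (hAA : ((A - A).card : ℝ) ≤ z ^ 1273 * A.card) (hH' : H' ⊆ pw (q1 * q2))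
    (hc : ((pw (q1 * q2)).card : ℝ) ≤ z ^ 425 * H'.card) (hX : ∀ h ∈ H', Xi A (z ^ 1273) h) :
    ∃ B : Finset (ZMod (q1 * q2)), (min q1 q2 : ℝ) ≤ 4 * z ^ (425 * s) * (B.card + 2) ∧
      (∀ b ∈ B, IsUnit b) ∧ (∀ b ∈ B, ∀ b' ∈ B, b ≠ b' → IsUnit (b - b')) ∧
      ∀ b ∈ B, Xi A ((((s + 1 : ℕ) : ℝ) * z ^ 1273) ^ (s + 1)) b := by
  classical
  have hq1 : (0 : ℝ) < q1 := by exact_mod_cast (Fact.out : q1.Prime).pos
  have hq2 : (0 : ℝ) < q2 := by exact_mod_cast (Fact.out : q2.Prime).pos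
  have hz0 : (0 : ℝ) < z := by linarith
  have hEx := fqa_exp (q1 * q2) D z hz hD h2 H' hH' hc
  set Ex := (Finset.univ : Finset (Fin D)).filter
    fun k : Fin D => (2 : ZMod (q1 * q2)) ^ (k : ℕ) ∈ H' with hExd
  have hDr : (0 : ℝ) < D := by exact_mod_cast hD
  have hEx0 : (0 : ℝ) < Ex.card := by
    by_contra hcon
    have h0 : (Ex.card : ℝ) = 0 := le_antisymm (not_lt.1 hcon) (Nat.cast_nonneg _)
    rw [h0, mul_zero] at hEx
    linarith
  set K : Finset (Fin s → Fin D) := Fintype.piFinset (fun _ => Ex) with hK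
  have hKc : K.card = Ex.card ^ s := by
    rw [hK, Fintype.card_piFinset_const]
  set σ : (Fin s → Fin D) → ZMod (q1 * q2) := fun k => ∑ i, (2 : ZMod (q1 * q2)) ^ (k i : ℕ) with hσ
  set U := K.image σ with hU
  set w : ZMod (q1 * q2) → ℝ := fun x => ((K.filter fun k => σ k = x).card : ℝ) with hw
  obtain ⟨B, hBU, hi1, hi2, hBs⟩ := matching U w (fun x _ => Nat.cast_nonneg _)
    (fun x => ZMod.castHom (dvd_mul_right q1 q2) (ZMod q1) x)
    (fun x => ZMod.castHom (dvd_mul_left q2 q1) (ZMod q2) x)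
    (2 / q1 * (D : ℝ) ^ s) (2 / q2 * (D : ℝ) ^ s)
    (fun y => (fqa_fib q1 (q1 * q2) D s (dvd_mul_right q1 q2) K y).trans (hr1 y))
    (fun y => (fqa_fib q2 (q1 * q2) D s (dvd_mul_left q2 q1) K y).trans (hr2 y))
  have hUs : ∑ x ∈ U, w x = (Ex.card : ℝ) ^ s := by
    have h1 : K.card = ∑ x ∈ U, (K.filter fun k => σ k = x).card :=
      Finset.card_eq_sum_card_fiberwise (fun k hk => Finset.mem_image_of_mem σ hk)
    simp only [hw]
    rw [← Nat.cast_sum, ← h1, hKc]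
    push_cast
    rfl
  have hmin : (min (q1 : ℝ) q2) ≤ 4 * z ^ (425 * s) * B.card := by
    set m : ℝ := min (q1 : ℝ) q2 with hm
    have hm0 : 0 < m := lt_min hq1 hq2
    have e1 : 2 / (q1 : ℝ) ≤ 2 / m := div_le_div_of_nonneg_left (by norm_num) hm0 (min_le_left _ _)
    have e2 : 2 / (q2 : ℝ) ≤ 2 / m := div_le_div_of_nonneg_left (by norm_num) hm0 (min_le_right _ _)
    have hDs : (D : ℝ) ^ s ≤ z ^ (425 * s) * (Ex.card : ℝ) ^ s := by
      calc (D : ℝ) ^ s ≤ (z ^ 425 * Ex.card) ^ s := pow_le_pow_left₀ hDr.le hEx s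
        _ = _ := by rw [mul_pow, ← pow_mul]
    have hB0 : (0 : ℝ) ≤ B.card := Nat.cast_nonneg _
    have hDs0 : (0 : ℝ) ≤ (D : ℝ) ^ s := by positivity
    have hEs : (0 : ℝ) < (Ex.card : ℝ) ^ s := by positivity
    have h5 : (Ex.card : ℝ) ^ s * m ≤ (4 * z ^ (425 * s) * B.card) * (Ex.card : ℝ) ^ s := by
      rw [hUs] at hBs
      have h6 : (Ex.card : ℝ) ^ s ≤ B.card * (4 / m * (D : ℝ) ^ s) := by
        refine hBs.trans (mul_le_mul_of_nonneg_left ?_ hB0)
        have : (2 / (q1 : ℝ) * (D : ℝ) ^ s + 2 / q2 * (D : ℝ) ^ s) ≤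
            2 / m * (D : ℝ) ^ s + 2 / m * (D : ℝ) ^ s :=
          add_le_add (mul_le_mul_of_nonneg_right e1 hDs0) (mul_le_mul_of_nonneg_right e2 hDs0)
        refine this.trans (le_of_eq ?_)
        ring
      calc (Ex.card : ℝ) ^ s * m ≤ B.card * (4 / m * (D : ℝ) ^ s) * m :=
            mul_le_mul_of_nonneg_right h6 hm0.le
        _ = 4 * B.card * (D : ℝ) ^ s := by field_simp
        _ ≤ 4 * B.card * (z ^ (425 * s) * (Ex.card : ℝ) ^ s) :=
            mul_le_mul_of_nonneg_left hDs (by positivity)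
        _ = _ := by ring
    have h7 : m * (Ex.card : ℝ) ^ s ≤ (4 * z ^ (425 * s) * B.card) * (Ex.card : ℝ) ^ s := by
      rw [mul_comm m]; exact h5
    exact le_of_mul_le_mul_right h7 hEs
  set B' := B.filter (fun b => ZMod.castHom (dvd_mul_right q1 q2) (ZMod q1) b ≠ 0 ∧
    ZMod.castHom (dvd_mul_left q2 q1) (ZMod q2) b ≠ 0) with hB'
  have hcard : B.card ≤ B'.card + 2 := by
    have h1 : (B.filter (fun b => ZMod.castHom (dvd_mul_right q1 q2) (ZMod q1) b = 0)).card ≤ 1 := by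
      rw [Finset.card_le_one]
      intro a ha b hb
      rw [Finset.mem_filter] at ha hb
      exact hi1 (Finset.mem_coe.2 ha.1) (Finset.mem_coe.2 hb.1) (ha.2.trans hb.2.symm)
    have h2' : (B.filter (fun b => ZMod.castHom (dvd_mul_left q2 q1) (ZMod q2) b = 0)).card ≤ 1 := by
      rw [Finset.card_le_one]
      intro a ha b hb
      rw [Finset.mem_filter] at ha hb
      exact hi2 (Finset.mem_coe.2 ha.1) (Finset.mem_coe.2 hb.1) (ha.2.trans hb.2.symm)
    have h3 : B ⊆ B' ∪ ((B.filter (fun b => ZMod.castHom (dvd_mul_right q1 q2) (ZMod q1) b = 0)) ∪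
        (B.filter (fun b => ZMod.castHom (dvd_mul_left q2 q1) (ZMod q2) b = 0))) := by
      intro b hb
      simp only [Finset.mem_union, hB', Finset.mem_filter]
      by_cases c1 : ZMod.castHom (dvd_mul_right q1 q2) (ZMod q1) b = 0
      · right; left; exact ⟨hb, c1⟩
      · by_cases c2 : ZMod.castHom (dvd_mul_left q2 q1) (ZMod q2) b = 0
        · right; right; exact ⟨hb, c2⟩
        · left; exact ⟨hb, c1, c2⟩
    have h4 := Finset.card_le_card h3
    have h5 := Finset.card_union_le B'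
      ((B.filter (fun b => ZMod.castHom (dvd_mul_right q1 q2) (ZMod q1) b = 0)) ∪
        (B.filter (fun b => ZMod.castHom (dvd_mul_left q2 q1) (ZMod q2) b = 0)))
    have h6 := Finset.card_union_le
      (B.filter (fun b => ZMod.castHom (dvd_mul_right q1 q2) (ZMod q1) b = 0))
      (B.filter (fun b => ZMod.castHom (dvd_mul_left q2 q1) (ZMod q2) b = 0))
    omega
  refine ⟨B', ?_, ?_, ?_, ?_⟩
  · refine hmin.trans (mul_le_mul_of_nonneg_left ?_ (by positivity))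
    exact_mod_cast hcard
  · intro b hb
    have := (Finset.mem_filter.1 hb).2
    exact isUnit_pq q1 q2 b this.1 this.2
  · intro b hb b' hb' hbb
    have hb1 := (Finset.mem_filter.1 hb).1
    have hb1' := (Finset.mem_filter.1 hb').1
    refine isUnit_pq q1 q2 (b - b') ?_ ?_
    · intro h0
      rw [map_sub, sub_eq_zero] at h0
      exact hbb (hi1 (Finset.mem_coe.2 hb1) (Finset.mem_coe.2 hb1') h0)
    · intro h0
      rw [map_sub, sub_eq_zero] at h0
      exact hbb (hi2 (Finset.mem_coe.2 hb1) (Finset.mem_coe.2 hb1') h0)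
  · intro b hb
    have hb1 := (Finset.mem_filter.1 hb).1
    have hbU := hBU hb1
    rw [hU, Finset.mem_image] at hbU
    obtain ⟨k, hk, rfl⟩ := hbU
    rw [hK, Fintype.mem_piFinset] at hk
    have hx1 : (1 : ℝ) ≤ z ^ 1273 := one_le_pow₀ (by linarith)
    have hXi := Xi_comb A (z ^ 1273) hx1 hAA s 0 (fun i => (2 : ZMod (q1 * q2)) ^ (k i : ℕ))
      (fun j => j.elim0) (fun i => hX _ (Finset.mem_filter.1 (hk i)).2) (fun j => j.elim0)
    simpa using hXi

end Pool.H53.NA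

end S_NA_FqA

section S_NA_Avq

/-!
Row Avq: averaging over multipliers, two primes.  PROOF.  `n = |A| > 0`, `Q = q1 q2`.  For `ξ ∈ S` the number of
`(a1,a2,a3,a4) ∈ A⁴` with `a1 - ξ a2 = a3 - ξ a4` is `≥ n³/y` (Cauchy-Schwarz, see row Avp).  Sum over `ξ ∈ S`:
* `a2 = a4` (then `a1 = a3`): `≤ |S| n²`;
* `a2 - a4` a unit: `ξ` is determined by the quadruple: `≤ n⁴`;
* `a2 ≡ a4` mod `q1`, `a2 ≢ a4` mod `q2`: then `a1 ≡ a3` mod `q1` and `ξ` mod `q2` is determined by the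
  quadruple; at most `q1` elements `ξ` of `ZMod Q` have a given image in `ZMod q2`.  So `≤ coll1² q1 ≤ n⁴/2`;
* symmetric: `≤ coll2² q2 ≤ n⁴/2`.
(If `a2 ≡ a4` modulo both primes then `a2 = a4`, and `x : ZMod Q` is a unit iff both images are nonzero:
`ZMod.chineseRemainder` or `ZMod.isUnit_iff_coprime`.)  So `|S| n³/y ≤ |S| n² + 2 n⁴`, `n² ≤ n³/(2y)`, hence
`|S| ≤ 4 y n`.
-/


namespace Pool.H53.NA

open scoped Pointwise

section gen

variable {R F1 F2 : Type} [CommRing R] [DecidableEq R] [Field F1] [Field F2] [Fintype F1]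
  [Fintype F2] [DecidableEq F1] [DecidableEq F2]

/-- the quadruples -/
def avq_B (A : Finset R) (ξ : R) : Finset ((R × R) × (R × R)) :=
  ((A ×ˢ A) ×ˢ (A ×ˢ A)).filter fun x => x.1.1 - ξ * x.1.2 = x.2.1 - ξ * x.2.2

theorem avq_cs (A : Finset R) (ξ : R) (y : ℝ) (hy : 0 < y) (hn : 0 < A.card) (h : Xi A y ξ) :
    (A.card : ℝ) ^ 3 / y ≤ ((avq_B A ξ).card : ℝ) := by
  classical
  set D : Finset R := A - dil ξ A with hD
  set c : R → ℕ := fun z => ((A ×ˢ A).filter fun p => p.1 - ξ * p.2 = z).card with hc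
  have hmaps : ∀ p ∈ A ×ˢ A, p.1 - ξ * p.2 ∈ D := by
    intro p hp
    rw [Finset.mem_product] at hp
    exact Finset.sub_mem_sub hp.1 (Finset.mem_image_of_mem _ hp.2)
  have h1 : ((A ×ˢ A).card : ℕ) = ∑ z ∈ D, c z := Finset.card_eq_sum_card_fiberwise hmaps
  have h2 : (avq_B A ξ).card = ∑ z ∈ D, c z ^ 2 := by
    have h3 : ∀ x ∈ avq_B A ξ, x.1.1 - ξ * x.1.2 ∈ D := by
      intro x hx
      exact hmaps x.1 (Finset.mem_product.1 (Finset.mem_filter.1 hx).1).1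
    rw [Finset.card_eq_sum_card_fiberwise h3]
    refine Finset.sum_congr rfl fun z _ => ?_
    rw [sq, hc, ← Finset.card_product]
    congr 1
    ext x
    simp only [avq_B, Finset.mem_filter, Finset.mem_product]
    constructor
    · rintro ⟨⟨⟨a, b⟩, e1⟩, e2⟩
      exact ⟨⟨a, e2⟩, ⟨b, e1 ▸ e2⟩⟩
    · rintro ⟨⟨a, e1⟩, ⟨b, e2⟩⟩
      exact ⟨⟨⟨a, b⟩, e1.trans e2.symm⟩, e1⟩
  have h4 : ((∑ z ∈ D, (c z : ℝ)) ^ 2) ≤ (D.card : ℝ) * ∑ z ∈ D, (c z : ℝ) ^ 2 :=
    sq_sum_le_card_mul_sum_sq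
  have h5 : (∑ z ∈ D, (c z : ℝ)) = (A.card : ℝ) ^ 2 := by
    rw [Finset.card_product] at h1
    have : ((∑ z ∈ D, c z : ℕ) : ℝ) = (A.card : ℝ) ^ 2 := by
      rw [← h1]; push_cast; ring
    rw [← this]; push_cast; rfl
  have h6 : (∑ z ∈ D, (c z : ℝ) ^ 2) = ((avq_B A ξ).card : ℝ) := by
    rw [h2]; push_cast; rfl
  rw [h5, h6] at h4
  have h7 : (D.card : ℝ) ≤ y * A.card := h
  have hn' : (0 : ℝ) < A.card := by exact_mod_cast hn
  have h8 : ((A.card : ℝ) ^ 2) ^ 2 ≤ y * A.card * ((avq_B A ξ).card : ℝ) :=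
    h4.trans (mul_le_mul_of_nonneg_right h7 (by positivity))
  rw [div_le_iff₀ hy]
  have h9 : (A.card : ℝ) * (A.card : ℝ) ^ 3 ≤ A.card * (((avq_B A ξ).card : ℝ) * y) := by
    nlinarith [h8]
  exact le_of_mul_le_mul_left h9 hn'

omit [DecidableEq F1] [DecidableEq F2] [Fintype F2] in
theorem avq_fib (φ1 : R →+* F1) (φ2 : R →+* F2) (hinj : ∀ z, φ1 z = 0 → φ2 z = 0 → z = 0)
    (T : Finset R) (hT : ∀ ξ ∈ T, ∀ η ∈ T, φ2 ξ = φ2 η) : T.card ≤ Fintype.card F1 := by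
  classical
  refine Finset.card_le_card_of_injOn (t := Finset.univ) (fun ξ => φ1 ξ) (fun _ _ => Finset.mem_coe.2 (Finset.mem_univ _)) ?_
  intro ξ hξ η hη h
  have h1 : φ1 (ξ - η) = 0 := by rw [map_sub, sub_eq_zero]; exact h
  have h2 : φ2 (ξ - η) = 0 := by rw [map_sub, sub_eq_zero]; exact hT ξ hξ η hη
  exact sub_eq_zero.1 (hinj _ h1 h2)

theorem avq_pt (φ1 : R →+* F1) (φ2 : R →+* F2) (hinj : ∀ z, φ1 z = 0 → φ2 z = 0 → z = 0)
    (S : Finset R) (a1 a2 a3 a4 : R) :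
    (S.filter fun ξ => a1 - ξ * a2 = a3 - ξ * a4).card ≤
      (if a1 = a3 ∧ a2 = a4 then S.card else 0) + 1 +
      (if φ1 a1 = φ1 a3 ∧ φ1 a2 = φ1 a4 then Fintype.card F1 else 0) +
      (if φ2 a1 = φ2 a3 ∧ φ2 a2 = φ2 a4 then Fintype.card F2 else 0) := by
  classical
  set T := S.filter fun ξ => a1 - ξ * a2 = a3 - ξ * a4 with hT
  have hTm : ∀ ξ ∈ T, a1 - a3 = ξ * (a2 - a4) := by
    intro ξ hξ
    have := (Finset.mem_filter.1 hξ).2
    linear_combination this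
  by_cases h24 : a2 = a4
  · by_cases h13 : a1 = a3
    · rw [if_pos ⟨h13, h24⟩]
      have : T.card ≤ S.card := Finset.card_le_card (Finset.filter_subset _ _)
      omega
    · have : T = ∅ := by
        rw [Finset.eq_empty_iff_forall_notMem]
        intro ξ hξ
        have h1 := hTm ξ hξ
        rw [h24, sub_self, mul_zero] at h1
        exact h13 (sub_eq_zero.1 h1)
      rw [this]; simp
  · rcases T.eq_empty_or_nonempty with hE | ⟨ξ0, hξ0⟩
    · rw [hE]; simp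
    · have hd : a2 - a4 ≠ 0 := sub_ne_zero.2 h24
      by_cases hd1 : φ1 (a2 - a4) = 0
      · have hd2 : φ2 (a2 - a4) ≠ 0 := fun h => hd (hinj _ hd1 h)
        have h1 : φ1 a1 = φ1 a3 ∧ φ1 a2 = φ1 a4 := by
          constructor
          · have h3 := congrArg φ1 (hTm ξ0 hξ0)
            rw [map_mul, hd1, mul_zero, map_sub] at h3
            exact sub_eq_zero.1 h3
          · rw [map_sub] at hd1; exact sub_eq_zero.1 hd1
        rw [if_pos h1]
        have h2 : T.card ≤ Fintype.card F1 := by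
          refine avq_fib φ1 φ2 hinj T ?_
          intro ξ hξ η hη
          have e1 := congrArg φ2 (hTm ξ hξ)
          have e2 := congrArg φ2 (hTm η hη)
          rw [map_mul] at e1 e2
          exact mul_right_cancel₀ hd2 (e1.symm.trans e2)
        omega
      · by_cases hd2 : φ2 (a2 - a4) = 0
        · have h1 : φ2 a1 = φ2 a3 ∧ φ2 a2 = φ2 a4 := by
            constructor
            · have h3 := congrArg φ2 (hTm ξ0 hξ0)
              rw [map_mul, hd2, mul_zero, map_sub] at h3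
              exact sub_eq_zero.1 h3
            · rw [map_sub] at hd2; exact sub_eq_zero.1 hd2
          rw [if_pos h1]
          have h2 : T.card ≤ Fintype.card F2 := by
            refine avq_fib φ2 φ1 (fun z hz1 hz2 => hinj z hz2 hz1) T ?_
            intro ξ hξ η hη
            have e1 := congrArg φ1 (hTm ξ hξ)
            have e2 := congrArg φ1 (hTm η hη)
            rw [map_mul] at e1 e2
            exact mul_right_cancel₀ hd1 (e1.symm.trans e2)
          omega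
        · have h1 : T.card ≤ 1 := by
            rw [Finset.card_le_one]
            intro ξ hξ η hη
            have e1 := congrArg φ2 (hTm ξ hξ)
            have e2 := congrArg φ2 (hTm η hη)
            rw [map_mul] at e1 e2
            have f1 := congrArg φ1 (hTm ξ hξ)
            have f2 := congrArg φ1 (hTm η hη)
            rw [map_mul] at f1 f2
            have g1 := mul_right_cancel₀ hd2 (e1.symm.trans e2)
            have g2 := mul_right_cancel₀ hd1 (f1.symm.trans f2)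
            refine sub_eq_zero.1 (hinj _ ?_ ?_)
            · rw [map_sub, g2, sub_self]
            · rw [map_sub, g1, sub_self]
          omega

theorem avq_coll {F : Type} [DecidableEq F] (A : Finset R) (φ : R → F) :
    (((A ×ˢ A) ×ˢ (A ×ˢ A)).filter fun x => φ x.1.1 = φ x.2.1 ∧ φ x.1.2 = φ x.2.2).card ≤
      ((A ×ˢ A).filter fun p => φ p.1 = φ p.2).card ^ 2 := by
  classical
  rw [sq, ← Finset.card_product]
  refine Finset.card_le_card_of_injOn (fun x => ((x.1.1, x.2.1), (x.1.2, x.2.2))) ?_ ?_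
  · intro x hx
    simp only [Finset.coe_filter, Finset.mem_product, Set.mem_setOf_eq] at hx
    simp only [Finset.coe_product, Finset.coe_filter, Set.mem_prod, Set.mem_setOf_eq,
      Finset.mem_product]
    tauto
  · rintro ⟨⟨a, b⟩, ⟨c, d⟩⟩ _ ⟨⟨a', b'⟩, ⟨c', d'⟩⟩ _ h
    simp only [Prod.mk.injEq] at h ⊢
    tauto

theorem avq_main (φ1 : R →+* F1) (φ2 : R →+* F2) (hinj : ∀ z, φ1 z = 0 → φ2 z = 0 → z = 0)
    (A S : Finset R) (y : ℝ) (hy : 0 < y)
    (hA : 2 * y ≤ A.card) (hS : ∀ ξ ∈ S, Xi A y ξ)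
    (h1 : (((A ×ˢ A).filter fun p => φ1 p.1 = φ1 p.2).card : ℝ) ^ 2 * (Fintype.card F1 : ℝ) * 2
      ≤ (A.card : ℝ) ^ 4)
    (h2 : (((A ×ˢ A).filter fun p => φ2 p.1 = φ2 p.2).card : ℝ) ^ 2 * (Fintype.card F2 : ℝ) * 2
      ≤ (A.card : ℝ) ^ 4) :
    (S.card : ℝ) ≤ 4 * y * A.card := by
  classical
  have hn' : (0 : ℝ) < A.card := by linarith
  have hn : 0 < A.card := by exact_mod_cast hn'
  set X := (A ×ˢ A) ×ˢ (A ×ˢ A) with hX
  set C1 := (X.filter fun x => φ1 x.1.1 = φ1 x.2.1 ∧ φ1 x.1.2 = φ1 x.2.2).card with hC1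
  set C2 := (X.filter fun x => φ2 x.1.1 = φ2 x.2.1 ∧ φ2 x.1.2 = φ2 x.2.2).card with hC2
  have hXc : X.card = A.card ^ 4 := by
    rw [hX, Finset.card_product, Finset.card_product]; ring
  have hdiag : (X.filter fun x => x.1.1 = x.2.1 ∧ x.1.2 = x.2.2).card ≤ A.card ^ 2 := by
    have : (A ×ˢ A).card = A.card ^ 2 := by rw [Finset.card_product]; ring
    rw [← this]
    refine Finset.card_le_card_of_injOn (fun x => x.1) ?_ ?_
    · intro x hx
      simp only [hX, Finset.coe_filter, Finset.mem_product, Set.mem_setOf_eq] at hx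
      simp only [Finset.coe_product, Set.mem_prod, Finset.mem_coe]
      tauto
    · rintro ⟨⟨a, b⟩, ⟨c, d⟩⟩ h ⟨⟨a', b'⟩, ⟨c', d'⟩⟩ h' e
      simp only [Finset.coe_filter, Set.mem_setOf_eq] at h h'
      simp only [Prod.mk.injEq] at e ⊢
      obtain ⟨_, e1, e2⟩ := h
      obtain ⟨_, e3, e4⟩ := h'
      refine ⟨e, ?_, ?_⟩
      · rw [← e1, ← e3, e.1]
      · rw [← e2, ← e4, e.2]
  have hsum : ∑ ξ ∈ S, (avq_B A ξ).card ≤ S.card * A.card ^ 2 + A.card ^ 4 +
      C1 * Fintype.card F1 + C2 * Fintype.card F2 := by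
    have e1 : ∑ ξ ∈ S, (avq_B A ξ).card =
        ∑ x ∈ X, (S.filter fun ξ => x.1.1 - ξ * x.1.2 = x.2.1 - ξ * x.2.2).card := by
      simp only [avq_B, Finset.card_filter]
      rw [Finset.sum_comm]
    rw [e1]
    calc ∑ x ∈ X, (S.filter fun ξ => x.1.1 - ξ * x.1.2 = x.2.1 - ξ * x.2.2).card
        ≤ ∑ x ∈ X, ((if x.1.1 = x.2.1 ∧ x.1.2 = x.2.2 then S.card else 0) + 1 +
          (if φ1 x.1.1 = φ1 x.2.1 ∧ φ1 x.1.2 = φ1 x.2.2 then Fintype.card F1 else 0) +
          (if φ2 x.1.1 = φ2 x.2.1 ∧ φ2 x.1.2 = φ2 x.2.2 then Fintype.card F2 else 0)) :=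
          Finset.sum_le_sum fun x _ => avq_pt φ1 φ2 hinj S _ _ _ _
      _ = (X.filter fun x => x.1.1 = x.2.1 ∧ x.1.2 = x.2.2).card * S.card + X.card +
          C1 * Fintype.card F1 + C2 * Fintype.card F2 := by
          simp only [Finset.sum_add_distrib, ← Finset.sum_filter, Finset.sum_const, smul_eq_mul,
            mul_one, hC1, hC2]
      _ ≤ _ := by
          rw [hXc]
          have := Nat.mul_le_mul_right S.card hdiag
          nlinarith [this]
  have hlow : (S.card : ℝ) * ((A.card : ℝ) ^ 3 / y) ≤ ∑ ξ ∈ S, ((avq_B A ξ).card : ℝ) := by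
    rw [← nsmul_eq_mul, ← Finset.sum_const]
    exact Finset.sum_le_sum fun ξ hξ => avq_cs A ξ y hy hn (hS ξ hξ)
  have hsum' : ∑ ξ ∈ S, ((avq_B A ξ).card : ℝ) ≤ S.card * (A.card : ℝ) ^ 2 + (A.card : ℝ) ^ 4 +
      C1 * Fintype.card F1 + C2 * Fintype.card F2 := by exact_mod_cast hsum
  have c1 : (C1 : ℝ) * Fintype.card F1 ≤ (A.card : ℝ) ^ 4 / 2 := by
    have h3 : (C1 : ℝ) ≤ (((A ×ˢ A).filter fun p => φ1 p.1 = φ1 p.2).card : ℝ) ^ 2 := by
      exact_mod_cast avq_coll A φ1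
    have h4 := mul_le_mul_of_nonneg_right h3 (Nat.cast_nonneg (α := ℝ) (Fintype.card F1))
    linarith
  have c2 : (C2 : ℝ) * Fintype.card F2 ≤ (A.card : ℝ) ^ 4 / 2 := by
    have h3 : (C2 : ℝ) ≤ (((A ×ˢ A).filter fun p => φ2 p.1 = φ2 p.2).card : ℝ) ^ 2 := by
      exact_mod_cast avq_coll A φ2
    have h4 := mul_le_mul_of_nonneg_right h3 (Nat.cast_nonneg (α := ℝ) (Fintype.card F2))
    linarith
  have hfin : (S.card : ℝ) * ((A.card : ℝ) ^ 3 / y) ≤ S.card * (A.card : ℝ) ^ 2 +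
      2 * (A.card : ℝ) ^ 4 := by linarith
  have hhalf : (A.card : ℝ) ^ 2 ≤ ((A.card : ℝ) ^ 3 / y) / 2 := by
    rw [le_div_iff₀ (by norm_num), le_div_iff₀ hy]
    have : (A.card : ℝ) ^ 3 = (A.card : ℝ) ^ 2 * A.card := by ring
    rw [this]
    have h3 : 0 ≤ (A.card : ℝ) ^ 2 := by positivity
    nlinarith
  have h5 : (S.card : ℝ) * ((A.card : ℝ) ^ 3 / y) ≤ 4 * (A.card : ℝ) ^ 4 := by
    have := mul_le_mul_of_nonneg_left hhalf (Nat.cast_nonneg (α := ℝ) S.card)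
    linarith
  rw [← mul_div_assoc, div_le_iff₀ hy] at h5
  have h6 : (A.card : ℝ) ^ 3 * S.card ≤ (A.card : ℝ) ^ 3 * (4 * y * A.card) := by nlinarith
  exact le_of_mul_le_mul_left h6 (by positivity)

end gen

theorem avq_inj (q1 q2 : ℕ) [Fact q1.Prime] [Fact q2.Prime] (hne : q1 ≠ q2)
    (z : ZMod (q1 * q2)) (h1 : ZMod.castHom (dvd_mul_right q1 q2) (ZMod q1) z = 0)
    (h2 : ZMod.castHom (dvd_mul_left q2 q1) (ZMod q2) z = 0) : z = 0 := by
  have p1 : q1.Prime := Fact.out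
  have p2 : q2.Prime := Fact.out
  have : NeZero (q1 * q2) := ⟨Nat.mul_ne_zero p1.ne_zero p2.ne_zero⟩
  obtain ⟨m, rfl⟩ := ZMod.natCast_zmod_surjective z
  rw [map_natCast, ZMod.natCast_eq_zero_iff] at h1 h2
  rw [ZMod.natCast_eq_zero_iff]
  exact (Nat.Coprime.mul_dvd_of_dvd_of_dvd ((Nat.coprime_primes p1 p2).2 hne) h1 h2)

theorem avgQ (q1 q2 : ℕ) [Fact q1.Prime] [Fact q2.Prime] (hne : q1 ≠ q2)
    (A S : Finset (ZMod (q1 * q2))) (y : ℝ) (hy : 0 < y)
    (hA : 2 * y ≤ A.card) (hS : ∀ ξ ∈ S, Xi A y ξ)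
    (h1 : (((A ×ˢ A).filter fun p => ZMod.castHom (dvd_mul_right q1 q2) (ZMod q1) p.1
        = ZMod.castHom (dvd_mul_right q1 q2) (ZMod q1) p.2).card : ℝ) ^ 2 * q1 * 2 ≤ (A.card : ℝ) ^ 4)
    (h2 : (((A ×ˢ A).filter fun p => ZMod.castHom (dvd_mul_left q2 q1) (ZMod q2) p.1
        = ZMod.castHom (dvd_mul_left q2 q1) (ZMod q2) p.2).card : ℝ) ^ 2 * q2 * 2 ≤ (A.card : ℝ) ^ 4) :
    (S.card : ℝ) ≤ 4 * y * A.card := by
  refine avq_main (ZMod.castHom (dvd_mul_right q1 q2) (ZMod q1))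
    (ZMod.castHom (dvd_mul_left q2 q1) (ZMod q2)) (fun z hz1 hz2 => avq_inj q1 q2 hne z hz1 hz2)
    A S y hy hA hS ?_ ?_
  · rw [ZMod.card]; exact h1
  · rw [ZMod.card]; exact h2

end Pool.H53.NA

end S_NA_Avq

section S_NA_FlQ

/-!
Flattening modulo a product of two primes (assembly).
-/


namespace Pool.H53.NA

open scoped Pointwise

theorem flatQ_aux (s e1 e2 C : ℕ) (he1 : e1 = (s + 1 + 1273) * (s + 1)) (he2 : e2 = 14 * e1 + 21)
    (hC : C = 2 * e2 + 850 * s + 400) (q1 q2 D : ℕ) [Fact q1.Prime] [Fact q2.Prime] (z : ℝ)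
    (hz : 2 ≤ z) (hne : q1 ≠ q2) (hD : 0 < D) (h2 : (2 : ZMod (q1 * q2)) ^ D = 1)
    (hr1 : ∀ y, (rep q1 D s y : ℝ) ≤ 2 / q1 * (D : ℝ) ^ s)
    (hr2 : ∀ y, (rep q2 D s y : ℝ) ≤ 2 / q2 * (D : ℝ) ^ s)
    (hE : (D : ℝ) ^ (2 * s) * en (q1 * q2) D s ≤ z * en (q1 * q2) D (2 * s))
    (hq1 : z ^ C ≤ q1) (hq2 : z ^ C ≤ q2) :
    (min q1 q2 : ℝ) ^ 2 ≤ z ^ C * ((D : ℝ) ^ (2 * s) / en (q1 * q2) D s) := by
  have hz1 : (1 : ℝ) ≤ z := by linarith
  have hz0 : (0 : ℝ) < z := by linarith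
  have hDR : (0 : ℝ) < D := by exact_mod_cast hD
  have hen : (0 : ℝ) < en (q1 * q2) D s := by exact_mod_cast en_pos (q1 * q2) D s hD
  set f : ZMod (q1 * q2) → ℝ := fun x => (rep (q1 * q2) D s x : ℝ) with hf
  have hsum : ∑ x, f x = (D : ℝ) ^ s := by
    have := rep_sum (q1 * q2) D s
    simp only [hf]
    exact_mod_cast this
  have hsum2 : ∑ x, f x ^ 2 = (en (q1 * q2) D s : ℝ) := by
    simp only [hf, en]
    push_cast
    rfl
  have hcv : ∑ y, cv f f y ^ 2 = (en (q1 * q2) D (2 * s) : ℝ) := by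
    simp only [hf, en, cv_rep]
    push_cast
    rw [two_mul]
  have hNf : Nf f = (D : ℝ) ^ (2 * s) / en (q1 * q2) D s := Nf_rep (q1 * q2) D s
  obtain ⟨A, H', lo, hAne, hlo, h1, h2', h3, h4, h5, h6, h7, h8⟩ := core (pw (q1 * q2)) f z hz
    (sgl_pw (q1 * q2) D hD h2) (fun x => by simp [hf])
    (fun h hh x => by simp only [hf]; exact_mod_cast rep_inv (q1 * q2) D s hD h2 h hh x)
    (by rw [hsum]; positivity)
    (by rw [hsum, hsum2, hcv, ← pow_mul, mul_comm s 2]; exact hE)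
  obtain ⟨B, b1, b2, b3, b4⟩ := fq_set s q1 q2 D z hz hne hD h2 hr1 hr2 A H' hAne h5 h6 h7 h8
  rw [← hNf]
  set N := Nf f with hN
  have hN0 : 0 < N := by rw [hNf]; positivity
  -- lower bound for `N`
  have hNq : (q1 : ℝ) ≤ 2 * N := by
    have e1 : (en (q1 * q2) D s : ℝ) ≤ 2 / q1 * (D : ℝ) ^ (2 * s) := by
      have a1 : (en (q1 * q2) D s : ℝ) ≤ en q1 D s := by
        exact_mod_cast en_proj q1 (q1 * q2) D s (dvd_mul_right q1 q2)
      have a2 := en_le_max q1 D s _ hr1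
      calc (en (q1 * q2) D s : ℝ) ≤ 2 / q1 * (D : ℝ) ^ s * (D : ℝ) ^ s := a1.trans a2
        _ = _ := by rw [two_mul, pow_add]; ring
    have hq0 : (0 : ℝ) < q1 := by exact_mod_cast (Fact.out : q1.Prime).pos
    have : (q1 : ℝ) * en (q1 * q2) D s ≤ 2 * (D : ℝ) ^ (2 * s) := by
      calc (q1 : ℝ) * en (q1 * q2) D s ≤ q1 * (2 / q1 * (D : ℝ) ^ (2 * s)) := by gcongr
        _ = _ := by field_simp
    rw [hNf, mul_div_assoc', le_div_iff₀ hen]
    exact this
  have hq0 : (0 : ℝ) < q1 := by exact_mod_cast (Fact.out : q1.Prime).pos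
  have hq0' : (0 : ℝ) < q2 := by exact_mod_cast (Fact.out : q2.Prime).pos
  have hA0 : (0 : ℝ) < A.card := by exact_mod_cast hAne.card_pos
  -- collisions
  have hcoll : ∀ (q : ℕ) [Fact q.Prime] (hd : q ∣ q1 * q2), z ^ C ≤ q →
      (∀ y, (rep q D s y : ℝ) ≤ 2 / q * (D : ℝ) ^ s) →
      (((A ×ˢ A).filter fun p => ZMod.castHom hd (ZMod q) p.1
        = ZMod.castHom hd (ZMod q) p.2).card : ℝ) ^ 2 * q * 2 ≤ (A.card : ℝ) ^ 4 := by
    intro q _ hd hq hr
    have hqp : (0 : ℝ) < q := by exact_mod_cast (Fact.out : q.Prime).pos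
    have c1 := coll_le q (q1 * q2) D s hd A lo hlo h2'
    set cl : ℝ := (((A ×ˢ A).filter fun p => ZMod.castHom hd (ZMod q) p.1
        = ZMod.castHom hd (ZMod q) p.2).card : ℝ) with hcl
    have c2 : (en q D s : ℝ) ≤ 2 / q * (D : ℝ) ^ (2 * s) := by
      have a2 := en_le_max q D s _ hr
      calc (en q D s : ℝ) ≤ 2 / q * (D : ℝ) ^ s * (D : ℝ) ^ s := a2
        _ = _ := by rw [two_mul, pow_add]; ring
    have hcl0 : 0 ≤ cl := by positivity
    rw [hsum] at h1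
    have c3 : (D : ℝ) ^ (2 * s) ≤ z ^ 14 * N ^ 2 * lo ^ 2 := by
      calc (D : ℝ) ^ (2 * s) = ((D : ℝ) ^ s) ^ 2 := by rw [mul_comm, pow_mul]
        _ ≤ (z ^ 7 * N * lo) ^ 2 := pow_le_pow_left₀ (by positivity) h1 2
        _ = _ := by ring
    have c4 : lo ^ 2 * (cl * q) ≤ lo ^ 2 * (2 * z ^ 114 * (A.card : ℝ) ^ 2) := by
      calc lo ^ 2 * (cl * q) = (lo ^ 2 * cl) * q := by ring
        _ ≤ (2 / q * (D : ℝ) ^ (2 * s)) * q := mul_le_mul_of_nonneg_right (c1.trans c2) hqp.le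
        _ = 2 * (D : ℝ) ^ (2 * s) := by field_simp
        _ ≤ 2 * (z ^ 14 * N ^ 2 * lo ^ 2) := by gcongr
        _ ≤ 2 * (z ^ 14 * (z ^ 50 * A.card) ^ 2 * lo ^ 2) := by gcongr
        _ = _ := by ring
    have c5 : cl * q ≤ 2 * z ^ 114 * (A.card : ℝ) ^ 2 := le_of_mul_le_mul_left c4 (by positivity)
    have c6 : (cl ^ 2 * q * 2) * q ≤ (A.card : ℝ) ^ 4 * q := by
      calc (cl ^ 2 * q * 2) * q = 2 * (cl * q) ^ 2 := by ring
        _ ≤ 2 * (2 * z ^ 114 * (A.card : ℝ) ^ 2) ^ 2 := by gcongr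
        _ = (2 ^ 3 * z ^ 228) * (A.card : ℝ) ^ 4 := by ring
        _ ≤ (z ^ 3 * z ^ 228) * (A.card : ℝ) ^ 4 := by gcongr
        _ ≤ z ^ C * (A.card : ℝ) ^ 4 := by
          gcongr
          rw [← pow_add]
          exact pow_le_pow_right₀ hz1 (by omega)
        _ ≤ q * (A.card : ℝ) ^ 4 := by gcongr
        _ = _ := by ring
    exact le_of_mul_le_mul_right c6 hqp
  -- the multipliers
  set x : ℝ := (((s + 1 : ℕ) : ℝ) * z ^ 1273) ^ (s + 1) with hx
  have hx1 : 1 ≤ x := by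
    apply one_le_pow₀
    have : (1 : ℝ) ≤ ((s + 1 : ℕ) : ℝ) := by exact_mod_cast Nat.succ_le_succ (Nat.zero_le s)
    nlinarith [one_le_pow₀ hz1 (n := 1273)]
  have hxe : x ≤ z ^ e1 := by
    have a1 : ((s + 1 : ℕ) : ℝ) ≤ z ^ (s + 1) := by
      calc ((s + 1 : ℕ) : ℝ) ≤ ((2 ^ (s + 1) : ℕ) : ℝ) := by
            exact_mod_cast (Nat.lt_two_pow_self (n := s + 1)).le
        _ = 2 ^ (s + 1) := by push_cast; rfl
        _ ≤ z ^ (s + 1) := pow_le_pow_left₀ (by norm_num) hz _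
    calc x ≤ (z ^ (s + 1) * z ^ 1273) ^ (s + 1) := by rw [hx]; gcongr
      _ = z ^ e1 := by rw [← pow_add, ← pow_mul, he1]
  have hxe' : z ^ 1273 ≤ x := by
    rw [hx]
    have : z ^ 1273 ≤ ((s + 1 : ℕ) : ℝ) * z ^ 1273 := by
      have : (1 : ℝ) ≤ ((s + 1 : ℕ) : ℝ) := by exact_mod_cast Nat.succ_le_succ (Nat.zero_le s)
      nlinarith [pow_pos hz0 1273]
    refine this.trans ?_
    exact le_self_pow₀ ((one_le_pow₀ hz1).trans this) (by omega)
  have hm : z ^ C ≤ (min q1 q2 : ℝ) := le_min hq1 hq2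
  set m : ℝ := (min q1 q2 : ℝ) with hmdef
  have hB2 : (2 : ℝ) ≤ B.card := by
    by_contra hcon
    push Not at hcon
    have : m ≤ 4 * z ^ (425 * s) * 4 := b1.trans (by gcongr; linarith)
    have h16 : (16 : ℝ) < z ^ 5 := by
      calc (16 : ℝ) < 2 ^ 5 := by norm_num
        _ ≤ z ^ 5 := pow_le_pow_left₀ (by norm_num) hz 5
    have h17 : 4 * z ^ (425 * s) * 4 < z ^ C := by
      calc 4 * z ^ (425 * s) * 4 = 16 * z ^ (425 * s) := by ring
        _ < z ^ 5 * z ^ (425 * s) := by gcongr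
        _ = z ^ (5 + 425 * s) := by rw [← pow_add]
        _ ≤ z ^ C := pow_le_pow_right₀ hz1 (by omega)
    linarith
  have hB2n : 2 ≤ B.card := by exact_mod_cast hB2
  obtain ⟨S, s1, s2⟩ := grow (q1 * q2) A B x hx1
    (h5.trans (mul_le_mul_of_nonneg_right hxe' hA0.le)) hB2n b3 (fun b hb => Or.inr (b2 b hb)) b4
  set y : ℝ := (7 * x ^ 2) ^ 7 with hy
  have hy0 : 0 < y := by positivity
  have hye : y ≤ z ^ e2 := by
    have h7 : (7 : ℝ) ≤ z ^ 3 := by
      calc (7 : ℝ) ≤ 2 ^ 3 := by norm_num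
        _ ≤ z ^ 3 := pow_le_pow_left₀ (by norm_num) hz 3
    calc y ≤ (z ^ 3 * (z ^ e1) ^ 2) ^ 7 := by rw [hy]; gcongr
      _ = z ^ e2 := by
        rw [← pow_mul, ← pow_add, ← pow_mul, he2]; congr 1; ring
  have hA2 : 2 * y ≤ A.card := by
    have a1 : z ^ 50 * (2 * z ^ e2) ≤ z ^ 50 * A.card := by
      have : z ^ C ≤ 2 * (z ^ 50 * A.card) := by
        calc z ^ C ≤ q1 := hq1
          _ ≤ 2 * N := hNq
          _ ≤ _ := by gcongr
      have a2 : 4 * (z ^ 50 * z ^ e2) ≤ z ^ C := by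
        have h4 : (4 : ℝ) ≤ z ^ 2 := by
          calc (4 : ℝ) = 2 ^ 2 := by norm_num
            _ ≤ z ^ 2 := pow_le_pow_left₀ (by norm_num) hz 2
        calc 4 * (z ^ 50 * z ^ e2) ≤ z ^ 2 * (z ^ 50 * z ^ e2) := by gcongr
          _ = z ^ (2 + (50 + e2)) := by rw [← pow_add, ← pow_add]
          _ ≤ z ^ C := pow_le_pow_right₀ hz1 (by omega)
      nlinarith
    have a3 := le_of_mul_le_mul_left a1 (by positivity)
    refine le_trans ?_ a3
    gcongr
  have hS := avgQ q1 q2 hne A S y hy0 hA2 s1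
    (hcoll q1 (dvd_mul_right q1 q2) hq1 hr1) (hcoll q2 (dvd_mul_left q2 q1) hq2 hr2)
  -- final comparison
  have hm2 : m ^ 2 ≤ 64 * z ^ (850 * s) * S.card := by
    have hmm : m ^ 2 ≤ 64 * z ^ (850 * s) * (B.card : ℝ) ^ 2 := by
      have : m ≤ 8 * z ^ (425 * s) * B.card := by
        refine b1.trans ?_
        have : (B.card : ℝ) + 2 ≤ 2 * B.card := by linarith
        calc 4 * z ^ (425 * s) * (B.card + 2) ≤ 4 * z ^ (425 * s) * (2 * B.card) := by gcongr
          _ = _ := by ring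
      have hm0 : 0 ≤ m := le_trans (by positivity) hm
      calc m ^ 2 ≤ (8 * z ^ (425 * s) * B.card) ^ 2 := pow_le_pow_left₀ hm0 this 2
        _ = 64 * (z ^ (425 * s)) ^ 2 * (B.card : ℝ) ^ 2 := by ring
        _ = _ := by rw [← pow_mul]; congr 3; ring
    have hmQ : m ^ 2 ≤ ((q1 * q2 : ℕ) : ℝ) := by
      push_cast
      rw [sq]
      exact mul_le_mul (min_le_left _ _) (min_le_right _ _) (le_trans (by positivity) hm) hq0.le
    have h64 : (1 : ℝ) ≤ 64 * z ^ (850 * s) := by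
      have := one_le_pow₀ hz1 (n := 850 * s)
      linarith
    rcases le_total (q1 * q2) (B.card ^ 2) with h | h
    · rw [min_eq_left h] at s2
      calc m ^ 2 ≤ ((q1 * q2 : ℕ) : ℝ) := hmQ
        _ ≤ S.card := by exact_mod_cast s2
        _ = 1 * S.card := by ring
        _ ≤ _ := by gcongr
    · rw [min_eq_right h] at s2
      calc m ^ 2 ≤ 64 * z ^ (850 * s) * (B.card : ℝ) ^ 2 := hmm
        _ ≤ 64 * z ^ (850 * s) * S.card := by gcongr; exact_mod_cast s2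
  calc m ^ 2 ≤ 64 * z ^ (850 * s) * S.card := hm2
    _ ≤ 64 * z ^ (850 * s) * (4 * z ^ e2 * (z ^ 7 * N)) := by
      gcongr
      calc (S.card : ℝ) ≤ 4 * y * A.card := hS
        _ ≤ 4 * z ^ e2 * (z ^ 7 * N) := by gcongr
    _ = 2 ^ 8 * (z ^ (850 * s) * z ^ e2 * z ^ 7) * N := by ring
    _ ≤ z ^ 8 * (z ^ (850 * s) * z ^ e2 * z ^ 7) * N := by gcongr
    _ = z ^ (8 + (850 * s + e2 + 7)) * N := by rw [← pow_add, ← pow_add, ← pow_add]
    _ ≤ z ^ C * N := by
      exact mul_le_mul_of_nonneg_right (pow_le_pow_right₀ hz1 (by omega)) hN0.le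

theorem flatQ (s : ℕ) : ∃ C : ℕ, ∀ (q1 q2 D : ℕ) [Fact q1.Prime] [Fact q2.Prime] (z : ℝ),
    2 ≤ z → q1 ≠ q2 → 0 < D → (2 : ZMod (q1 * q2)) ^ D = 1 →
    (∀ y, (rep q1 D s y : ℝ) ≤ 2 / q1 * (D : ℝ) ^ s) →
    (∀ y, (rep q2 D s y : ℝ) ≤ 2 / q2 * (D : ℝ) ^ s) →
    (D : ℝ) ^ (2 * s) * en (q1 * q2) D s ≤ z * en (q1 * q2) D (2 * s) →
    z ^ C ≤ q1 → z ^ C ≤ q2 →
    (min q1 q2 : ℝ) ^ 2 ≤ z ^ C * ((D : ℝ) ^ (2 * s) / en (q1 * q2) D s) :=
  ⟨_, fun q1 q2 D _ _ z hz hne hD h2 hr1 hr2 hE hq1 hq2 =>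
    flatQ_aux s _ _ _ rfl rfl rfl q1 q2 D z hz hne hD h2 hr1 hr2 hE hq1 hq2⟩

end Pool.H53.NA

end S_NA_FlQ

section S_NA_Bil

/-!
Row Bil: the bilinear bound.  PROOF.  `S = SS Q D`, `r = rep Q D s`, `e = ZMod.stdAddChar`.  Let
`g y = ∑_x r x r (x - y)` (number of pairs with difference of sums `y`), so `g ≥ 0`, `∑ g = D^(2s)`,
`∑ g² ≤ (∑ r)² ∑ r² = D^(2s) en s` (`young` for `x ↦ r (-x)` and `r`; `g` is a convolution with a reflection), and
`‖S b‖^(2s) = ‖∑ r y e(b y)‖² = ∑_y g y e(b y)` for all `b` (`SS_pow`).  Sum over `b = a 2^k`, `k < D`: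
`D ‖S a‖^(2s) = ∑_y g y S(a y)` (`SS_inv` for the left side).  By Hölder
(`Real.inner_le_Lp_mul_Lq`, or `inner_le_nnorm_mul_nnorm`, or `Finset.inner...`; simplest: Jensen
`(∑ g u)^(2s) ≤ (∑ g)^(2s-1) ∑ g u^(2s)`, `inner_le...`/`Real.pow_arith_mean_le_arith_mean_pow`)
`(D ‖S a‖^(2s))^(2s) ≤ D^(2s(2s-1)) ∑_y g y ‖S(a y)‖^(2s) = D^(2s(2s-1)) ∑_{y,y'} g y g y' e(a y y')`.  For a unit `a`
`|∑_y g y ∑_{y'} g y' e(a y y')| ≤ (∑ g²)^(1/2) (∑_y |∑_{y'} g y' e(a y y')|²)^(1/2) = (∑ g²)^(1/2) (Q ∑ g²)^(1/2)`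
(Cauchy-Schwarz, `y ↦ a y` is a bijection, Parseval as in `sum_SS`).  So
`D^(2s) ‖S a‖^(4s²) ≤ D^(4s² - 2s) √Q D^(2s) en s`.
-/


namespace Pool.H53.NA

/-- the number of pairs with difference `y` -/
private noncomputable def bil_g (Q D s : ℕ) [NeZero Q] (y : ZMod Q) : ℝ :=
  cv (fun x => (rep Q D s (-x) : ℝ)) (fun x => (rep Q D s x : ℝ)) y

private theorem bil_g_eq (Q D s : ℕ) [NeZero Q] (y : ZMod Q) :
    bil_g Q D s y = ∑ x, (rep Q D s x : ℝ) * (rep Q D s (x + y) : ℝ) := by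
  unfold bil_g cv
  rw [← Equiv.sum_comp (Equiv.neg (ZMod Q))]
  refine Finset.sum_congr rfl fun x _ => ?_
  simp only [Equiv.neg_apply, neg_neg, sub_neg_eq_add]
  rw [add_comm y x]

private theorem bil_g_nonneg (Q D s : ℕ) [NeZero Q] (y : ZMod Q) : 0 ≤ bil_g Q D s y := by
  rw [bil_g_eq]
  exact Finset.sum_nonneg fun x _ => by positivity

private theorem bil_rep_sum (Q D s : ℕ) [NeZero Q] : ∑ y, (rep Q D s y : ℝ) = (D : ℝ) ^ s := by
  have := rep_sum Q D s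
  exact_mod_cast this

private theorem bil_rep_sum' (Q D s : ℕ) [NeZero Q] : ∑ y, (rep Q D s (-y) : ℝ) = (D : ℝ) ^ s := by
  rw [← bil_rep_sum Q D s, ← Equiv.sum_comp (Equiv.neg (ZMod Q)) (fun y => (rep Q D s y : ℝ))]
  rfl

private theorem bil_g_sum (Q D s : ℕ) [NeZero Q] : ∑ y, bil_g Q D s y = (D : ℝ) ^ (2 * s) := by
  unfold bil_g
  rw [sum_cv, bil_rep_sum', bil_rep_sum]
  ring

private theorem bil_g_sq (Q D s : ℕ) [NeZero Q] :
    ∑ y, bil_g Q D s y ^ 2 ≤ (D : ℝ) ^ (2 * s) * en Q D s := by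
  unfold bil_g
  refine (young _ _ fun x => by positivity).trans (le_of_eq ?_)
  rw [bil_rep_sum']
  have : ((en Q D s : ℕ) : ℝ) = ∑ x, (rep Q D s x : ℝ) ^ 2 := by
    unfold en
    push_cast
    rfl
  rw [this]
  ring

private theorem bil_norm (Q D s : ℕ) [NeZero Q] (b : ZMod Q) :
    ((‖SS Q D b‖ ^ (2 * s) : ℝ) : ℂ) =
      ∑ y, (bil_g Q D s y : ℂ) * ZMod.stdAddChar (N := Q) (b * y) := by
  have h1 : ((‖SS Q D b‖ ^ (2 * s) : ℝ) : ℂ) =
      (SS Q D b) ^ s * (starRingEnd ℂ) ((SS Q D b) ^ s) := by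
    rw [Complex.mul_conj, Complex.normSq_eq_norm_sq, norm_pow]
    congr 1
    ring
  rw [h1, SS_pow, map_sum]
  simp only [map_mul, Complex.conj_natCast, ← AddChar.map_neg_eq_conj]
  rw [Finset.sum_mul_sum, Finset.sum_comm]
  have h2 : ∀ x : ZMod Q, ∑ u : ZMod Q,
      (rep Q D s u : ℂ) * ZMod.stdAddChar (N := Q) (b * u) *
        ((rep Q D s x : ℂ) * ZMod.stdAddChar (N := Q) (-(b * x))) =
      ∑ y : ZMod Q, ((rep Q D s x : ℂ) * (rep Q D s (x + y) : ℂ)) *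
        ZMod.stdAddChar (N := Q) (b * y) := by
    intro x
    rw [← Equiv.sum_comp (Equiv.addLeft x)]
    refine Finset.sum_congr rfl fun y _ => ?_
    simp only [Equiv.coe_addLeft]
    have h3 : ZMod.stdAddChar (N := Q) (b * (x + y)) * ZMod.stdAddChar (N := Q) (-(b * x)) =
        ZMod.stdAddChar (N := Q) (b * y) := by
      rw [← AddChar.map_add_eq_mul]
      congr 1
      ring
    rw [← h3]
    ring
  rw [Finset.sum_congr rfl fun x _ => h2 x, Finset.sum_comm]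
  refine Finset.sum_congr rfl fun y _ => ?_
  rw [bil_g_eq]
  push_cast
  rw [Finset.sum_mul]

private theorem bil_avg (Q D s : ℕ) [NeZero Q] (hD : 0 < D) (h2 : (2 : ZMod Q) ^ D = 1)
    (a : ZMod Q) :
    (D : ℝ) * ‖SS Q D a‖ ^ (2 * s) ≤ ∑ y, bil_g Q D s y * ‖SS Q D (a * y)‖ := by
  have h1 : (((D : ℝ) * ‖SS Q D a‖ ^ (2 * s) : ℝ) : ℂ) =
      ∑ y, (bil_g Q D s y : ℂ) * SS Q D (a * y) := by
    have h3 : ∀ k ∈ Finset.range D, ((‖SS Q D (a * 2 ^ k)‖ ^ (2 * s) : ℝ) : ℂ) =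
        ((‖SS Q D a‖ ^ (2 * s) : ℝ) : ℂ) := by
      intro k _
      rw [SS_inv Q D hD h2 _ (rpa_mem Q D hD h2 k)]
    have h4 : (((D : ℝ) * ‖SS Q D a‖ ^ (2 * s) : ℝ) : ℂ) =
        ∑ k ∈ Finset.range D, ((‖SS Q D (a * 2 ^ k)‖ ^ (2 * s) : ℝ) : ℂ) := by
      rw [Finset.sum_congr rfl h3, Finset.sum_const, Finset.card_range, nsmul_eq_mul]
      push_cast
      ring
    rw [h4]
    simp only [bil_norm]
    rw [Finset.sum_comm]
    refine Finset.sum_congr rfl fun y _ => ?_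
    rw [SS, Finset.mul_sum]
    refine Finset.sum_congr rfl fun k _ => ?_
    congr 2
    ring
  have h5 : (D : ℝ) * ‖SS Q D a‖ ^ (2 * s) = ‖(((D : ℝ) * ‖SS Q D a‖ ^ (2 * s) : ℝ) : ℂ)‖ := by
    rw [Complex.norm_real, Real.norm_eq_abs, abs_of_nonneg (by positivity)]
  rw [h5, h1]
  refine (norm_sum_le _ _).trans (le_of_eq ?_)
  refine Finset.sum_congr rfl fun y _ => ?_
  rw [norm_mul, Complex.norm_real, Real.norm_eq_abs, abs_of_nonneg (bil_g_nonneg Q D s y)]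

theorem bilin (Q D s : ℕ) [NeZero Q] (hs : 1 ≤ s) (hD : 0 < D) (h2 : (2 : ZMod Q) ^ D = 1)
    (a : ZMod Q) (ha : IsUnit a) :
    ‖SS Q D a‖ ^ (4 * s ^ 2) * (D : ℝ) ^ (2 * s)
      ≤ (D : ℝ) ^ (4 * s ^ 2) * (Real.sqrt Q * en Q D s) := by
  have hDr : (0 : ℝ) < D := by exact_mod_cast hD
  set M : ℝ := (D : ℝ) ^ (2 * s) with hM
  have hMpos : 0 < M := by positivity
  set e : ℝ := (en Q D s : ℝ) with he
  have he0 : 0 ≤ e := by positivity
  -- Jensen
  have hJ : (∑ y, bil_g Q D s y * ‖SS Q D (a * y)‖) ^ (2 * s) ≤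
      M ^ (2 * s - 1) * ∑ y, bil_g Q D s y * ‖SS Q D (a * y)‖ ^ (2 * s) := by
    have h3 := Real.pow_arith_mean_le_arith_mean_pow Finset.univ
      (fun y => bil_g Q D s y / M) (fun y => ‖SS Q D (a * y)‖)
      (fun y _ => div_nonneg (bil_g_nonneg Q D s y) hMpos.le)
      (by rw [← Finset.sum_div, bil_g_sum, div_self hMpos.ne']) (fun y _ => norm_nonneg _) (2 * s)
    have h4 : ∑ y, bil_g Q D s y / M * ‖SS Q D (a * y)‖ =
        (∑ y, bil_g Q D s y * ‖SS Q D (a * y)‖) / M := by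
      rw [Finset.sum_div]
      refine Finset.sum_congr rfl fun y _ => ?_
      ring
    have h5 : ∑ y, bil_g Q D s y / M * ‖SS Q D (a * y)‖ ^ (2 * s) =
        (∑ y, bil_g Q D s y * ‖SS Q D (a * y)‖ ^ (2 * s)) / M := by
      rw [Finset.sum_div]
      refine Finset.sum_congr rfl fun y _ => ?_
      ring
    rw [h4, h5, div_pow, div_le_div_iff₀ (by positivity) hMpos] at h3
    have h6 : M ^ (2 * s) = M ^ (2 * s - 1) * M := by
      rw [← pow_succ]
      congr 1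
      omega
    rw [h6] at h3
    have h7 : (∑ y, bil_g Q D s y * ‖SS Q D (a * y)‖) ^ (2 * s) * M ≤
        (M ^ (2 * s - 1) * ∑ y, bil_g Q D s y * ‖SS Q D (a * y)‖ ^ (2 * s)) * M := by
      linarith
    exact le_of_mul_le_mul_right h7 hMpos
  -- Cauchy-Schwarz
  have hbij : ∑ y : ZMod Q, (‖SS Q D (a * y)‖ ^ (2 * s)) ^ 2 =
      ∑ b : ZMod Q, ‖SS Q D b‖ ^ (2 * (2 * s)) := by
    obtain ⟨u, rfl⟩ := ha
    have h3 := Equiv.sum_comp (Units.mulLeft u) (fun b : ZMod Q => ‖SS Q D b‖ ^ (2 * (2 * s)))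
    rw [← h3]
    refine Finset.sum_congr rfl fun y _ => ?_
    rw [← pow_mul]
    simp only [Units.mulLeft_apply]
    congr 1
    ring
  have hsum2 : ∑ y : ZMod Q, (‖SS Q D (a * y)‖ ^ (2 * s)) ^ 2 ≤ (Q : ℝ) * (M * e) := by
    rw [hbij, sum_SS]
    have h3 := en_add_le Q D s s
    have h4 : (en Q D (2 * s) : ℝ) ≤ M * e := by
      rw [two_mul]
      rw [hM, he]
      exact_mod_cast h3
    gcongr
  have hCS : ∑ y, bil_g Q D s y * ‖SS Q D (a * y)‖ ^ (2 * s) ≤ Real.sqrt Q * (M * e) := by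
    have h3 := Finset.sum_mul_sq_le_sq_mul_sq Finset.univ (fun y => bil_g Q D s y)
      (fun y => ‖SS Q D (a * y)‖ ^ (2 * s))
    have h4 : (∑ y, bil_g Q D s y * ‖SS Q D (a * y)‖ ^ (2 * s)) ^ 2 ≤
        (Real.sqrt Q * (M * e)) ^ 2 := by
      refine h3.trans ?_
      have h5 : (∑ y, bil_g Q D s y ^ 2) * ∑ y : ZMod Q, (‖SS Q D (a * y)‖ ^ (2 * s)) ^ 2 ≤
          (M * e) * ((Q : ℝ) * (M * e)) := by
        have h6 := bil_g_sq Q D s
        have h7 : 0 ≤ ∑ y : ZMod Q, (‖SS Q D (a * y)‖ ^ (2 * s)) ^ 2 :=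
          Finset.sum_nonneg fun y _ => by positivity
        exact mul_le_mul h6 hsum2 h7 (by positivity)
      refine h5.trans (le_of_eq ?_)
      rw [mul_pow, Real.sq_sqrt (by positivity)]
      ring
    exact le_of_sq_le_sq h4 (by positivity)
  have h8 := bil_avg Q D s hD h2 a
  have h9 : ((D : ℝ) * ‖SS Q D a‖ ^ (2 * s)) ^ (2 * s) ≤ M ^ (2 * s - 1) * (Real.sqrt Q * (M * e)) :=
    (pow_le_pow_left₀ (by positivity) h8 _).trans (hJ.trans (by gcongr))
  have h10 : ((D : ℝ) * ‖SS Q D a‖ ^ (2 * s)) ^ (2 * s) =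
      ‖SS Q D a‖ ^ (4 * s ^ 2) * (D : ℝ) ^ (2 * s) := by
    rw [mul_pow, ← pow_mul, mul_comm]
    congr 2
    ring
  have h11 : M ^ (2 * s - 1) * (Real.sqrt Q * (M * e)) =
      (D : ℝ) ^ (4 * s ^ 2) * (Real.sqrt Q * e) := by
    have h12 : M ^ (2 * s - 1) * M = (D : ℝ) ^ (4 * s ^ 2) := by
      rw [← pow_succ, hM, ← pow_mul]
      congr 1
      have : 2 * s - 1 + 1 = 2 * s := by omega
      rw [this]
      ring
    rw [← h12]
    ring
  rw [h10, h11] at h9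
  exact h9

end Pool.H53.NA

end S_NA_Bil

section S_NA_Spl

/-!
Row Spl: splitting the sum over frequencies modulo `q1 q2`.  PROOF.  `Q = q1 q2`.  Every `a : ZMod Q` is `0`, or a
unit, or `a = q2 * b` with `0 < b < q1`, or `a = q1 * b` with `0 < b < q2` (look at `a.val`: it is divisible by
`q1` or `q2` if `a` is not a unit, `ZMod.isUnit_iff_coprime`).  For `a = (q2 * b : ℕ)` and any natural number `u`
`stdAddChar (N := Q) (q2 b u) = stdAddChar (N := q1) (b u)` (both are `exp(2πi b u/q1)`,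
`ZMod.stdAddChar_coe`), so `SS Q D (q2 * b) = SS q1 D b`.  Hence the nonunits `≠ 0` contribute at most
`∑_{b ≠ 0} ‖SS q1 D b‖^r + ∑_{b ≠ 0} ‖SS q2 D b‖^r`, and `a = 0` contributes `D^r`.
-/


namespace Pool.H53.NA

theorem Spl_union {X : Type} [DecidableEq X] (s t : Finset X) (f : X → ℝ) (hf : ∀ x, 0 ≤ f x) :
    ∑ x ∈ s ∪ t, f x ≤ ∑ x ∈ s, f x + ∑ x ∈ t, f x := by
  rw [← Finset.sum_union_inter]
  have : 0 ≤ ∑ x ∈ s ∩ t, f x := Finset.sum_nonneg fun x _ => hf x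
  linarith

theorem Spl_image {X Z : Type} [DecidableEq X] [DecidableEq Z] (s : Finset Z) (g : Z → X)
    (f : X → ℝ) (hf : ∀ x, 0 ≤ f x) : ∑ x ∈ s.image g, f x ≤ ∑ z ∈ s, f (g z) := by
  induction s using Finset.induction_on with
  | empty => simp
  | insert a s ha ih =>
    rw [Finset.image_insert, Finset.sum_insert ha, Finset.insert_eq]
    refine (Spl_union _ _ f hf).trans ?_
    rw [Finset.sum_singleton]
    linarith

theorem Spl_char (q1 q2 : ℕ) [NeZero q1] [NeZero q2] (u : ℕ) :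
    ZMod.stdAddChar (N := q1 * q2) (((q2 * u : ℕ) : ZMod (q1 * q2))) =
      ZMod.stdAddChar (N := q1) ((u : ℕ) : ZMod q1) := by
  have h1 := ZMod.stdAddChar_coe (N := q1 * q2) ((q2 * u : ℕ) : ℤ)
  have h2 := ZMod.stdAddChar_coe (N := q1) ((u : ℕ) : ℤ)
  rw [Int.cast_natCast] at h1 h2
  rw [h1, h2]
  congr 1
  have hq1 : (q1 : ℂ) ≠ 0 := by exact_mod_cast NeZero.ne q1
  have hq2 : (q2 : ℂ) ≠ 0 := by exact_mod_cast NeZero.ne q2
  push_cast
  field_simp

theorem Spl_SS (q1 q2 D : ℕ) [NeZero q1] [NeZero q2] (b : ZMod q1) :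
    SS (q1 * q2) D (((q2 * b.val : ℕ) : ZMod (q1 * q2))) = SS q1 D b := by
  unfold SS
  refine Finset.sum_congr rfl fun k _ => ?_
  have h1 : ((q2 * b.val : ℕ) : ZMod (q1 * q2)) * 2 ^ k =
      ((q2 * (b.val * 2 ^ k) : ℕ) : ZMod (q1 * q2)) := by
    push_cast
    ring
  have h2 : b * 2 ^ k = ((b.val * 2 ^ k : ℕ) : ZMod q1) := by
    push_cast
    rw [ZMod.natCast_zmod_val]
  rw [h1, Spl_char, h2]

theorem Spl_SS' (q1 q2 D : ℕ) [NeZero q1] [NeZero q2] (b : ZMod q2) :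
    SS (q1 * q2) D (((q1 * b.val : ℕ) : ZMod (q1 * q2))) = SS q2 D b := by
  have h := Spl_SS q2 q1 D b
  have hcomm : q2 * q1 = q1 * q2 := mul_comm _ _
  have key : ∀ (N : ℕ) [NeZero N], N = q2 * q1 →
      SS N D (((q1 * b.val : ℕ) : ZMod N)) = SS q2 D b := by
    intro N _ hN
    subst hN
    exact h
  exact key (q1 * q2) hcomm.symm

theorem Spl_cov (q1 q2 : ℕ) [Fact q1.Prime] [Fact q2.Prime] (a : ZMod (q1 * q2))
    (ha : ¬ IsUnit a) (h0 : a ≠ 0) :
    (∃ b : ZMod q1, b ≠ 0 ∧ ((q2 * b.val : ℕ) : ZMod (q1 * q2)) = a) ∨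
      ∃ b : ZMod q2, b ≠ 0 ∧ ((q1 * b.val : ℕ) : ZMod (q1 * q2)) = a := by
  have hp1 : q1.Prime := Fact.out
  have hp2 : q2.Prime := Fact.out
  have hav : ((a.val : ℕ) : ZMod (q1 * q2)) = a := ZMod.natCast_zmod_val a
  have hlt : a.val < q1 * q2 := ZMod.val_lt a
  have hv0 : a.val ≠ 0 := by
    intro h
    apply h0
    rw [← hav, h, Nat.cast_zero]
  rw [← hav, ZMod.isUnit_iff_coprime] at ha
  have hdvd : q2 ∣ a.val ∨ q1 ∣ a.val := by
    by_contra hcon
    push Not at hcon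
    apply ha
    exact Nat.Coprime.mul_right
      ((Nat.coprime_comm.1 ((Nat.Prime.coprime_iff_not_dvd hp1).2 hcon.2)))
      ((Nat.coprime_comm.1 ((Nat.Prime.coprime_iff_not_dvd hp2).2 hcon.1)))
  rcases hdvd with ⟨c, hc⟩ | ⟨c, hc⟩
  · left
    have hc0 : c ≠ 0 := by
      rintro rfl
      exact hv0 (by rw [hc, mul_zero])
    have hclt : c < q1 := by
      rw [hc, mul_comm q1 q2] at hlt
      exact lt_of_mul_lt_mul_left hlt (Nat.zero_le _)
    have hval : ((c : ℕ) : ZMod q1).val = c := ZMod.val_natCast_of_lt hclt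
    refine ⟨(c : ZMod q1), ?_, ?_⟩
    · intro h
      rw [h, ZMod.val_zero] at hval
      exact hc0 hval.symm
    · rw [hval, ← hc, hav]
  · right
    have hc0 : c ≠ 0 := by
      rintro rfl
      exact hv0 (by rw [hc, mul_zero])
    have hclt : c < q2 := by
      rw [hc] at hlt
      exact lt_of_mul_lt_mul_left hlt (Nat.zero_le _)
    have hval : ((c : ℕ) : ZMod q2).val = c := ZMod.val_natCast_of_lt hclt
    refine ⟨(c : ZMod q2), ?_, ?_⟩
    · intro h
      rw [h, ZMod.val_zero] at hval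
      exact hc0 hval.symm
    · rw [hval, ← hc, hav]

open Classical in
theorem SS_split (q1 q2 D r : ℕ) [Fact q1.Prime] [Fact q2.Prime] (hne : q1 ≠ q2) :
    ∑ a : ZMod (q1 * q2), ‖SS (q1 * q2) D a‖ ^ r ≤ (D : ℝ) ^ r
      + ∑ b ∈ (Finset.univ : Finset (ZMod q1)).erase 0, ‖SS q1 D b‖ ^ r
      + ∑ b ∈ (Finset.univ : Finset (ZMod q2)).erase 0, ‖SS q2 D b‖ ^ r
      + ∑ a ∈ (Finset.univ : Finset (ZMod (q1 * q2))).filter (fun a => IsUnit a),
          ‖SS (q1 * q2) D a‖ ^ r := by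
  have hf : ∀ a : ZMod (q1 * q2), 0 ≤ ‖SS (q1 * q2) D a‖ ^ r := fun a => by positivity
  have hsub : (Finset.univ : Finset (ZMod (q1 * q2))) ⊆
      (({0} ∪ ((Finset.univ : Finset (ZMod q1)).erase 0).image
          (fun b => ((q2 * b.val : ℕ) : ZMod (q1 * q2)))) ∪
        ((Finset.univ : Finset (ZMod q2)).erase 0).image
          (fun b => ((q1 * b.val : ℕ) : ZMod (q1 * q2)))) ∪
      (Finset.univ : Finset (ZMod (q1 * q2))).filter (fun a => IsUnit a) := by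
    intro a _
    by_cases hu : IsUnit a
    · exact Finset.mem_union_right _ (Finset.mem_filter.2 ⟨Finset.mem_univ _, hu⟩)
    · refine Finset.mem_union_left _ ?_
      by_cases h0 : a = 0
      · exact Finset.mem_union_left _ (Finset.mem_union_left _ (Finset.mem_singleton.2 h0))
      · rcases Spl_cov q1 q2 a hu h0 with ⟨b, hb, hba⟩ | ⟨b, hb, hba⟩
        · exact Finset.mem_union_left _ (Finset.mem_union_right _ (Finset.mem_image.2
            ⟨b, Finset.mem_erase.2 ⟨hb, Finset.mem_univ _⟩, hba⟩))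
        · exact Finset.mem_union_right _ (Finset.mem_image.2
            ⟨b, Finset.mem_erase.2 ⟨hb, Finset.mem_univ _⟩, hba⟩)
  refine (Finset.sum_le_sum_of_subset_of_nonneg hsub fun a _ _ => hf a).trans ?_
  refine (Spl_union _ _ _ hf).trans (add_le_add_left ?_ _)
  refine (Spl_union _ _ _ hf).trans ?_
  refine add_le_add ?_ ?_
  · refine (Spl_union _ _ _ hf).trans ?_
    refine add_le_add ?_ ?_
    · rw [Finset.sum_singleton, SS_zero]
      simp
    · refine (Spl_image _ _ _ hf).trans (le_of_eq ?_)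
      refine Finset.sum_congr rfl fun b _ => ?_
      rw [Spl_SS]
  · refine (Spl_image _ _ _ hf).trans (le_of_eq ?_)
    refine Finset.sum_congr rfl fun b _ => ?_
    rw [Spl_SS']

end Pool.H53.NA

end S_NA_Spl
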