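import Mathlib
import Pool.Agent.H53.NM.M1
import Pool.Agent.H53.NM.M2
import Pool.Agent.H53.NM.M3

set_option autoImplicit false

/-! Sums of a prime and powers of two, part M4: this file joins several modules to save build time. -/

section S_NA_Nt3

/-!
Equidistribution of sums of powers of two modulo a product of two primes (assembly).
-/


namespace Pool.H53.NA

theorem order_pos (N D : ℕ) (hD : 0 < D) (h2 : (2 : ZMod N) ^ D = 1) :
    0 < orderOf (2 : ZMod N) :=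
  orderOf_pos_iff.mpr (isOfFinOrder_iff_pow_eq_one.mpr ⟨D, hD, h2⟩)

theorem two_pow_proj (M N D : ℕ) (h : M ∣ N) (h2 : (2 : ZMod N) ^ D = 1) : (2 : ZMod M) ^ D = 1 := by
  have := congrArg (ZMod.castHom h (ZMod M)) h2
  rwa [map_pow, map_one, map_ofNat] at this

theorem order_le (q : ℕ) [Fact q.Prime] : orderOf (2 : ZMod q) ≤ q := by
  rw [← card_pw]
  calc (pw q).card ≤ (Finset.univ : Finset (ZMod q)).card := Finset.card_le_card (Finset.subset_univ _)
    _ = q := by rw [Finset.card_univ, ZMod.card]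

/-- lower bound for the energy of order `2 s` modulo `q1 q2` -/
theorem pair_en (s C : ℕ) (hC0 : 1 ≤ C)
    (hC : ∀ (q1 q2 D : ℕ) [Fact q1.Prime] [Fact q2.Prime] (z : ℝ),
      2 ≤ z → q1 ≠ q2 → 0 < D → (2 : ZMod (q1 * q2)) ^ D = 1 →
      (∀ y, (rep q1 D s y : ℝ) ≤ 2 / q1 * (D : ℝ) ^ s) →
      (∀ y, (rep q2 D s y : ℝ) ≤ 2 / q2 * (D : ℝ) ^ s) →
      (D : ℝ) ^ (2 * s) * en (q1 * q2) D s ≤ z * en (q1 * q2) D (2 * s) →
      z ^ C ≤ q1 → z ^ C ≤ q2 →
      (min q1 q2 : ℝ) ^ 2 ≤ z ^ C * ((D : ℝ) ^ (2 * s) / en (q1 * q2) D s))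
    (q1 q2 D : ℕ) [Fact q1.Prime] [Fact q2.Prime] (hlt : q2 < q1) (hD : 0 < D)
    (h2 : (2 : ZMod (q1 * q2)) ^ D = 1)
    (hr1 : ∀ y, (rep q1 D s y : ℝ) ≤ 2 / q1 * (D : ℝ) ^ s)
    (hr2 : ∀ y, (rep q2 D s y : ℝ) ≤ 2 / q2 * (D : ℝ) ^ s)
    (z : ℝ) (hz : 2 ≤ z) (hzq : z ^ (20 * C) = q1) :
    Real.sqrt ((q1 * q2 : ℕ) : ℝ) * en (q1 * q2) D (2 * s) ≤ 2 / z * (D : ℝ) ^ (2 * (2 * s)) := by
  have hz1 : (1 : ℝ) ≤ z := by linarith
  have hz0 : (0 : ℝ) < z := by linarith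
  have hDR : (0 : ℝ) < D := by exact_mod_cast hD
  have hq1 : (0 : ℝ) < q1 := by exact_mod_cast (Fact.out : q1.Prime).pos
  have hq2 : (0 : ℝ) < q2 := by exact_mod_cast (Fact.out : q2.Prime).pos
  have hne : q1 ≠ q2 := hlt.ne'
  have hN1 : (q1 : ℝ) / 2 ≤ NN (q1 * q2) D s := by
    have e1 : (en (q1 * q2) D s : ℝ) ≤ 2 / q1 * (D : ℝ) ^ (2 * s) := by
      have a1 : (en (q1 * q2) D s : ℝ) ≤ en q1 D s := by
        exact_mod_cast en_proj q1 (q1 * q2) D s (dvd_mul_right q1 q2)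
      have a2 := en_le_max q1 D s _ hr1
      calc (en (q1 * q2) D s : ℝ) ≤ 2 / q1 * (D : ℝ) ^ s * (D : ℝ) ^ s := a1.trans a2
        _ = _ := by rw [two_mul, pow_add]; ring
    have hen : (0 : ℝ) < en (q1 * q2) D s := by exact_mod_cast en_pos (q1 * q2) D s hD
    unfold NN
    rw [div_le_div_iff₀ (by norm_num) hen]
    calc (q1 : ℝ) * en (q1 * q2) D s ≤ q1 * (2 / q1 * (D : ℝ) ^ (2 * s)) := by gcongr
      _ = _ := by field_simp
  have hmono : NN (q1 * q2) D s ≤ NN (q1 * q2) D (2 * s) := by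
    have := NN_mono (q1 * q2) D s s hD
    rwa [← two_mul] at this
  -- it is enough to bound `√Q / NN`
  have hsq0 : 0 ≤ Real.sqrt ((q1 * q2 : ℕ) : ℝ) := Real.sqrt_nonneg _
  suffices hgoal : z * Real.sqrt ((q1 * q2 : ℕ) : ℝ) ≤ 2 * NN (q1 * q2) D (2 * s) by
    have hen : (0 : ℝ) < en (q1 * q2) D (2 * s) := by exact_mod_cast en_pos (q1 * q2) D (2 * s) hD
    unfold NN at hgoal
    rw [mul_div_assoc', le_div_iff₀ hen] at hgoal
    rw [div_mul_eq_mul_div, le_div_iff₀ hz0]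
    linarith
  have hsqrt : Real.sqrt ((q1 * q2 : ℕ) : ℝ) ≤ q1 := by
    rw [Real.sqrt_le_left hq1.le]
    push_cast
    have : (q2 : ℝ) ≤ q1 := by exact_mod_cast hlt.le
    nlinarith
  by_cases hcmp : (q2 : ℝ) ^ 10 ≤ (q1 : ℝ) ^ 9
  · -- not comparable
    have h1 : z * Real.sqrt ((q1 * q2 : ℕ) : ℝ) ≤ q1 := by
      have h3 : z ^ 2 * (q2 : ℝ) ≤ q1 := by
        by_contra hcon
        push Not at hcon
        have h4 : (q1 : ℝ) ^ 10 < (z ^ 2 * q2) ^ 10 := pow_lt_pow_left₀ hcon hq1.le (by norm_num)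
        have h5 : (z ^ 2 * (q2 : ℝ)) ^ 10 ≤ z ^ 20 * (q1 : ℝ) ^ 9 := by
          calc (z ^ 2 * (q2 : ℝ)) ^ 10 = z ^ 20 * (q2 : ℝ) ^ 10 := by ring
            _ ≤ _ := by gcongr
        have h6 : z ^ 20 ≤ (q1 : ℝ) := by
          rw [← hzq]; exact pow_le_pow_right₀ hz1 (by omega)
        have h7 : z ^ 20 * (q1 : ℝ) ^ 9 ≤ (q1 : ℝ) ^ 10 := by
          calc z ^ 20 * (q1 : ℝ) ^ 9 ≤ q1 * (q1 : ℝ) ^ 9 := by gcongr
            _ = _ := by ring
        linarith
      have h8 : z * Real.sqrt ((q1 * q2 : ℕ) : ℝ) = Real.sqrt (z ^ 2 * ((q1 * q2 : ℕ) : ℝ)) := by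
        rw [Real.sqrt_mul (by positivity), Real.sqrt_sq hz0.le]
      rw [h8, Real.sqrt_le_left hq1.le]
      push_cast
      nlinarith
    linarith
  · push Not at hcmp
    by_cases hg : (D : ℝ) ^ (2 * s) * en (q1 * q2) D s ≤ z * en (q1 * q2) D (2 * s)
    · -- no growth
      have hzq2 : z ^ C ≤ q2 := by
        by_contra hcon
        push Not at hcon
        have h4 : (q2 : ℝ) ^ 10 < (z ^ C) ^ 10 := pow_lt_pow_left₀ hcon hq2.le (by norm_num)
        have h5 : (z ^ C) ^ 10 ≤ (q1 : ℝ) ^ 9 := by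
          calc (z ^ C) ^ 10 = z ^ (10 * C) := by rw [← pow_mul]; congr 1; ring
            _ ≤ z ^ (20 * C) := pow_le_pow_right₀ hz1 (by omega)
            _ = q1 := hzq
            _ ≤ (q1 : ℝ) ^ 9 := by
              apply le_self_pow₀ _ (by norm_num)
              exact_mod_cast (Fact.out : q1.Prime).one_lt.le
        linarith
      have hzq1 : z ^ C ≤ q1 := by
        rw [← hzq]; exact pow_le_pow_right₀ hz1 (by omega)
      have h9 := hC q1 q2 D z hz hne hD h2 hr1 hr2 hg hzq1 hzq2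
      have hmin : (min q1 q2 : ℝ) = q2 := min_eq_right (by exact_mod_cast hlt.le)
      rw [hmin] at h9
      change (q2 : ℝ) ^ 2 ≤ z ^ C * NN (q1 * q2) D s at h9
      have h10 : z * q1 ≤ NN (q1 * q2) D s := by
        -- `(z^C)^... `
        have h11 : z ^ C * (z * q1) ≤ (q2 : ℝ) ^ 2 := by
          by_contra hcon
          push Not at hcon
          have h12 : ((q2 : ℝ) ^ 2) ^ 5 < (z ^ C * (z * q1)) ^ 5 :=
            pow_lt_pow_left₀ hcon (by positivity) (by norm_num)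
          have h13 : (z ^ C * (z * q1)) ^ 5 ≤ (q1 : ℝ) ^ 9 := by
            calc (z ^ C * (z * q1)) ^ 5 = z ^ (5 * C + 5) * (q1 : ℝ) ^ 5 := by
                  rw [mul_pow, mul_pow, ← pow_mul, pow_add]; ring
              _ ≤ z ^ (20 * C) * (q1 : ℝ) ^ 5 :=
                  mul_le_mul_of_nonneg_right (pow_le_pow_right₀ hz1 (by omega)) (by positivity)
              _ = q1 * (q1 : ℝ) ^ 5 := by rw [hzq]
              _ = (q1 : ℝ) ^ 6 := by ring
              _ ≤ (q1 : ℝ) ^ 9 := by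
                apply pow_le_pow_right₀ _ (by norm_num)
                exact_mod_cast (Fact.out : q1.Prime).one_lt.le
          have h14 : (q2 : ℝ) ^ 10 = ((q2 : ℝ) ^ 2) ^ 5 := by ring
          linarith
        exact le_of_mul_le_mul_left (h11.trans h9) (by positivity)
      have : z * Real.sqrt ((q1 * q2 : ℕ) : ℝ) ≤ z * q1 := by gcongr
      have hNpos := NN_pos (q1 * q2) D (2 * s) hD
      linarith
    · push Not at hg
      have h1 : (0 : ℝ) < en (q1 * q2) D s := by exact_mod_cast en_pos (q1 * q2) D s hD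
      have h1' : (0 : ℝ) < en (q1 * q2) D (2 * s) := by
        exact_mod_cast en_pos (q1 * q2) D (2 * s) hD
      have h15 : z * NN (q1 * q2) D s ≤ NN (q1 * q2) D (2 * s) := by
        unfold NN
        rw [mul_div_assoc', div_le_div_iff₀ h1 h1']
        have e1 : (D : ℝ) ^ (2 * (2 * s)) = (D : ℝ) ^ (2 * s) * (D : ℝ) ^ (2 * s) := by
          rw [← pow_add]; congr 1; ring
        rw [e1]
        have hp : (0 : ℝ) < (D : ℝ) ^ (2 * s) := by positivity
        nlinarith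
      have : z * Real.sqrt ((q1 * q2 : ℕ) : ℝ) ≤ z * q1 := by gcongr
      have h16 : z * (q1 / 2) ≤ z * NN (q1 * q2) D s := by gcongr
      linarith

/-- the sum over the frequencies is at most `4 D^r` -/
theorem nt2_lt : ∃ r t1 : ℕ, 1 ≤ r ∧ 1 ≤ t1 ∧ ∀ (q1 q2 D : ℕ) [Fact q1.Prime] [Fact q2.Prime],
    q2 < q1 → 0 < D → (2 : ZMod (q1 * q2)) ^ D = 1 →
    t1 ≤ orderOf (2 : ZMod q1) → t1 ≤ orderOf (2 : ZMod q2) →
    q1 ≤ orderOf (2 : ZMod q1) ^ 5 → q2 ≤ orderOf (2 : ZMod q2) ^ 5 →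
    ∑ a : ZMod (q1 * q2), ‖SS (q1 * q2) D a‖ ^ r ≤ 4 * (D : ℝ) ^ r := by
  obtain ⟨s, t1, hs, ht1, h1⟩ := nt1
  obtain ⟨C0, hC0⟩ := flatQ s
  set C : ℕ := C0 + 1 with hCdef
  have hC : ∀ (q1 q2 D : ℕ) [Fact q1.Prime] [Fact q2.Prime] (z : ℝ),
      2 ≤ z → q1 ≠ q2 → 0 < D → (2 : ZMod (q1 * q2)) ^ D = 1 →
      (∀ y, (rep q1 D s y : ℝ) ≤ 2 / q1 * (D : ℝ) ^ s) →
      (∀ y, (rep q2 D s y : ℝ) ≤ 2 / q2 * (D : ℝ) ^ s) →
      (D : ℝ) ^ (2 * s) * en (q1 * q2) D s ≤ z * en (q1 * q2) D (2 * s) →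
      z ^ C ≤ q1 → z ^ C ≤ q2 →
      (min q1 q2 : ℝ) ^ 2 ≤ z ^ C * ((D : ℝ) ^ (2 * s) / en (q1 * q2) D s) := by
    intro q1 q2 D _ _ z hz a1 a2 a3 a4 a5 a6 a7 a8
    have hz1 : (1 : ℝ) ≤ z := by linarith
    have h1 : z ^ C0 ≤ z ^ C := pow_le_pow_right₀ hz1 (by omega)
    refine (hC0 q1 q2 D z hz a1 a2 a3 a4 a5 a6 (h1.trans a7) (h1.trans a8)).trans ?_
    exact mul_le_mul_of_nonneg_right h1 (by positivity)
  set w : ℕ := 80 * C with hw
  refine ⟨4 * (2 * s) ^ 2 * w, max t1 (4 ^ (20 * C)), ?_, ?_, ?_⟩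
  · have : 1 ≤ (2 * s) ^ 2 := Nat.one_le_pow _ _ (by omega)
    have : 1 ≤ w := by omega
    nlinarith
  · exact ht1.trans (le_max_left _ _)
  intro q1 q2 D _ _ hlt hD h2 ht1' ht2' hg1 hg2
  have hDR : (0 : ℝ) < D := by exact_mod_cast hD
  have h21 : (2 : ZMod q1) ^ D = 1 := two_pow_proj q1 (q1 * q2) D (dvd_mul_right q1 q2) h2
  have h22 : (2 : ZMod q2) ^ D = 1 := two_pow_proj q2 (q1 * q2) D (dvd_mul_left q2 q1) h2
  obtain ⟨hr1, hS1⟩ := (h1 q1 D hD h21 ((le_max_left _ _).trans ht1')).1 hg1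
  obtain ⟨hr2, hS2⟩ := (h1 q2 D hD h22 ((le_max_left _ _).trans ht2')).1 hg2
  have hq1 : (0 : ℝ) < q1 := by exact_mod_cast (Fact.out : q1.Prime).pos
  have hq2 : (0 : ℝ) < q2 := by exact_mod_cast (Fact.out : q2.Prime).pos
  have hbig : 4 ^ (20 * C) ≤ q1 := ((le_max_right _ _).trans ht1').trans (order_le q1)
  have hbigR : (4 : ℝ) ^ (20 * C) ≤ q1 := by exact_mod_cast hbig
  have hCR : (0 : ℝ) < (20 * C : ℕ) := by exact_mod_cast (by omega : 0 < 20 * C)
  set z : ℝ := (q1 : ℝ) ^ ((1 : ℝ) / (20 * C : ℕ)) with hz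
  have hzpow : z ^ (20 * C) = q1 := by
    rw [hz, ← Real.rpow_natCast, ← Real.rpow_mul hq1.le]
    rw [one_div, inv_mul_cancel₀ hCR.ne', Real.rpow_one]
  have hz0 : 0 < z := Real.rpow_pos_of_pos hq1 _
  have hz4 : 4 ≤ z := by
    by_contra hcon
    push Not at hcon
    have : z ^ (20 * C) < 4 ^ (20 * C) := pow_lt_pow_left₀ hcon hz0.le (by omega)
    linarith [hzpow]
  have hpe := pair_en s C (by omega) hC q1 q2 D hlt hD h2 hr1 hr2 z (by linarith) hzpow
  -- pointwise bound for units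
  have hunit : ∀ a : ZMod (q1 * q2), IsUnit a →
      ‖SS (q1 * q2) D a‖ ^ (4 * (2 * s) ^ 2) ≤ 2 / z * (D : ℝ) ^ (4 * (2 * s) ^ 2) := by
    intro a ha
    have hb := bilin (q1 * q2) D (2 * s) (by omega) hD h2 a ha
    have hp : (0 : ℝ) < (D : ℝ) ^ (2 * (2 * s)) := by positivity
    have : ‖SS (q1 * q2) D a‖ ^ (4 * (2 * s) ^ 2) * (D : ℝ) ^ (2 * (2 * s))
        ≤ (2 / z * (D : ℝ) ^ (4 * (2 * s) ^ 2)) * (D : ℝ) ^ (2 * (2 * s)) := by
      calc ‖SS (q1 * q2) D a‖ ^ (4 * (2 * s) ^ 2) * (D : ℝ) ^ (2 * (2 * s))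
          ≤ (D : ℝ) ^ (4 * (2 * s) ^ 2) * (Real.sqrt ((q1 * q2 : ℕ) : ℝ)
              * en (q1 * q2) D (2 * s)) := hb
        _ ≤ (D : ℝ) ^ (4 * (2 * s) ^ 2) * (2 / z * (D : ℝ) ^ (2 * (2 * s))) := by gcongr
        _ = _ := by ring
    exact le_of_mul_le_mul_right this hp
  set R0 : ℕ := 4 * (2 * s) ^ 2 with hR0
  have hR0s : s ≤ R0 * w := by
    have h3 : 1 ≤ w := by omega
    have h4 : s ≤ R0 := by
      rw [hR0]; nlinarith
    nlinarith
  have hunits : ∑ a ∈ (Finset.univ : Finset (ZMod (q1 * q2))).filter (fun a => IsUnit a),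
      ‖SS (q1 * q2) D a‖ ^ (R0 * w) ≤ (D : ℝ) ^ (R0 * w) := by
    have hpt : ∀ a ∈ (Finset.univ : Finset (ZMod (q1 * q2))).filter (fun a => IsUnit a),
        ‖SS (q1 * q2) D a‖ ^ (R0 * w) ≤ (2 / z) ^ w * (D : ℝ) ^ (R0 * w) := by
      intro a ha
      rw [Finset.mem_filter] at ha
      calc ‖SS (q1 * q2) D a‖ ^ (R0 * w) = (‖SS (q1 * q2) D a‖ ^ R0) ^ w := by rw [pow_mul]
        _ ≤ (2 / z * (D : ℝ) ^ R0) ^ w := pow_le_pow_left₀ (by positivity) (hunit a ha.2) w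
        _ = _ := by rw [mul_pow, ← pow_mul (D : ℝ)]
    have hcard : (((Finset.univ : Finset (ZMod (q1 * q2))).filter (fun a => IsUnit a)).card : ℝ)
        ≤ z ^ (40 * C) := by
      calc (((Finset.univ : Finset (ZMod (q1 * q2))).filter (fun a => IsUnit a)).card : ℝ)
          ≤ ((Finset.univ : Finset (ZMod (q1 * q2))).card : ℝ) := by
            exact_mod_cast Finset.card_le_card (Finset.filter_subset _ _)
        _ = (q1 : ℝ) * q2 := by rw [Finset.card_univ, ZMod.card]; push_cast; rfl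
        _ ≤ q1 * q1 := by gcongr
        _ = z ^ (20 * C) * z ^ (20 * C) := by rw [hzpow]
        _ = z ^ (40 * C) := by rw [← pow_add]; congr 1; ring
    have hsmall : z ^ (40 * C) * (2 / z) ^ w ≤ 1 := by
      have h5 : (2 / z) ^ 2 ≤ 1 / z := by
        rw [div_pow, div_le_div_iff₀ (by positivity) hz0]
        nlinarith
      calc z ^ (40 * C) * (2 / z) ^ w = z ^ (40 * C) * ((2 / z) ^ 2) ^ (40 * C) := by
            rw [← pow_mul, hw]; congr 2; ring
        _ ≤ z ^ (40 * C) * (1 / z) ^ (40 * C) := by gcongr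
        _ = 1 := by rw [← mul_pow, mul_one_div_cancel hz0.ne', one_pow]
    calc ∑ a ∈ (Finset.univ : Finset (ZMod (q1 * q2))).filter (fun a => IsUnit a),
          ‖SS (q1 * q2) D a‖ ^ (R0 * w)
        ≤ ∑ a ∈ (Finset.univ : Finset (ZMod (q1 * q2))).filter (fun a => IsUnit a),
          (2 / z) ^ w * (D : ℝ) ^ (R0 * w) := Finset.sum_le_sum hpt
      _ = (((Finset.univ : Finset (ZMod (q1 * q2))).filter (fun a => IsUnit a)).card : ℝ)
          * ((2 / z) ^ w * (D : ℝ) ^ (R0 * w)) := by rw [Finset.sum_const, nsmul_eq_mul]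
      _ ≤ z ^ (40 * C) * ((2 / z) ^ w * (D : ℝ) ^ (R0 * w)) := by gcongr
      _ = (z ^ (40 * C) * (2 / z) ^ w) * (D : ℝ) ^ (R0 * w) := by ring
      _ ≤ 1 * (D : ℝ) ^ (R0 * w) := by gcongr
      _ = _ := one_mul _
  -- the primes
  have hprime : ∀ (q : ℕ) [Fact q.Prime],
      ∑ b ∈ (Finset.univ : Finset (ZMod q)).erase 0, ‖SS q D b‖ ^ s ≤ (D : ℝ) ^ s →
      ∑ b ∈ (Finset.univ : Finset (ZMod q)).erase 0, ‖SS q D b‖ ^ (R0 * w)
        ≤ (D : ℝ) ^ (R0 * w) := by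
    intro q _ hS
    calc ∑ b ∈ (Finset.univ : Finset (ZMod q)).erase 0, ‖SS q D b‖ ^ (R0 * w)
        ≤ ∑ b ∈ (Finset.univ : Finset (ZMod q)).erase 0,
          ‖SS q D b‖ ^ s * (D : ℝ) ^ (R0 * w - s) := by
          apply Finset.sum_le_sum
          intro b _
          calc ‖SS q D b‖ ^ (R0 * w) = ‖SS q D b‖ ^ s * ‖SS q D b‖ ^ (R0 * w - s) := by
                rw [← pow_add]; congr 1; omega
            _ ≤ _ := by
              gcongr
              exact SS_le q D b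
      _ = (∑ b ∈ (Finset.univ : Finset (ZMod q)).erase 0, ‖SS q D b‖ ^ s)
          * (D : ℝ) ^ (R0 * w - s) := by rw [Finset.sum_mul]
      _ ≤ (D : ℝ) ^ s * (D : ℝ) ^ (R0 * w - s) := by gcongr
      _ = (D : ℝ) ^ (R0 * w) := by rw [← pow_add]; congr 1; omega
  have hsplit := SS_split q1 q2 D (R0 * w) hlt.ne'
  have hp1 := hprime q1 hS1
  have hp2 := hprime q2 hS2
  have hunits' : ∑ a ∈ @Finset.filter _ (fun a : ZMod (q1 * q2) => IsUnit a)
      (Classical.decPred _) Finset.univ, ‖SS (q1 * q2) D a‖ ^ (R0 * w) ≤ (D : ℝ) ^ (R0 * w) := by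
    convert hunits
  linarith

end Pool.H53.NA

end S_NA_Nt3

section S_NA_Nt4

/-!
Equidistribution of sums of powers of two: the final form (assembly).
-/


namespace Pool.H53.NA

/-- reduction of the order of a product of two factors -/
theorem sum_SS_comm (q1 q2 D r : ℕ) [Fact q1.Prime] [Fact q2.Prime] (y : ZMod (q1 * q2))
    (h : ∑ a : ZMod (q1 * q2), ‖SS (q1 * q2) D a‖ ^ r ≤ 4 * (D : ℝ) ^ r) :
    (rep (q1 * q2) D r y : ℝ) ≤ 4 / ((q1 : ℝ) * q2) * (D : ℝ) ^ r := by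
  have hq1 : (0 : ℝ) < q1 := by exact_mod_cast (Fact.out : q1.Prime).pos
  have hq2 : (0 : ℝ) < q2 := by exact_mod_cast (Fact.out : q2.Prime).pos
  have h1 := rep_le_SS (q1 * q2) D r y
  rw [div_mul_eq_mul_div, le_div_iff₀ (by positivity)]
  push_cast at h1
  nlinarith

/-- `rep` depends only on the modulus -/
theorem rep_cast (M N D s : ℕ) (h : M = N) (y : ZMod M) :
    rep M D s y = rep N D s (h ▸ y) := by
  subst h; rfl

theorem nt_final : ∃ s0 t1 : ℕ, 1 ≤ s0 ∧ 1 ≤ t1 ∧ ∀ s D : ℕ, s0 ≤ s → 0 < D →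
    (∀ (q : ℕ) [Fact q.Prime], (2 : ZMod q) ^ D = 1 → t1 ≤ orderOf (2 : ZMod q) →
      (q ≤ orderOf (2 : ZMod q) ^ 5 → ∀ y, (rep q D s y : ℝ) ≤ 2 / q * (D : ℝ) ^ s) ∧
      (orderOf (2 : ZMod q) ^ 5 < q → ∀ y, (rep q D s y : ℝ)
        ≤ (D : ℝ) ^ s / (orderOf (2 : ZMod q) : ℝ) ^ 4)) ∧
    (∀ (q1 q2 : ℕ) [Fact q1.Prime] [Fact q2.Prime], q1 ≠ q2 → (2 : ZMod (q1 * q2)) ^ D = 1 →
      t1 ≤ orderOf (2 : ZMod q1) → t1 ≤ orderOf (2 : ZMod q2) →
      q1 ≤ orderOf (2 : ZMod q1) ^ 5 → q2 ≤ orderOf (2 : ZMod q2) ^ 5 →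
      ∀ y, (rep (q1 * q2) D s y : ℝ) ≤ 4 / ((q1 : ℝ) * q2) * (D : ℝ) ^ s) := by
  obtain ⟨s, t1, hs, ht1, h1⟩ := nt1
  obtain ⟨r, t2, hr, ht2, h2⟩ := nt2_lt
  refine ⟨max s r, max t1 t2, le_trans hs (le_max_left _ _), le_trans ht1 (le_max_left _ _), ?_⟩
  intro s' D hs' hD
  have hDR : (0 : ℝ) < D := by exact_mod_cast hD
  have e1 : s' = s + (s' - s) := by have := le_max_left s r; omega
  have e2 : s' = r + (s' - r) := by have := le_max_right s r; omega
  constructor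
  · intro q _ h2q ht
    obtain ⟨a, b⟩ := h1 q D hD h2q ((le_max_left _ _).trans ht)
    constructor
    · intro hq y
      have := rep_add_le q D s (s' - s) _ (a hq).1 y
      rw [← e1] at this
      calc (rep q D s' y : ℝ) ≤ 2 / q * (D : ℝ) ^ s * (D : ℝ) ^ (s' - s) := this
        _ = 2 / q * (D : ℝ) ^ s' := by rw [mul_assoc, ← pow_add, ← e1]
    · intro hq y
      have := rep_add_le q D s (s' - s) _ (b hq) y
      rw [← e1] at this
      calc (rep q D s' y : ℝ) ≤ (D : ℝ) ^ s / (orderOf (2 : ZMod q) : ℝ) ^ 4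
            * (D : ℝ) ^ (s' - s) := this
        _ = (D : ℝ) ^ s' / (orderOf (2 : ZMod q) : ℝ) ^ 4 := by
          rw [div_mul_eq_mul_div, ← pow_add, ← e1]
  · -- pairs
    have hlt : ∀ (q1 q2 : ℕ) [Fact q1.Prime] [Fact q2.Prime], q2 < q1 →
        (2 : ZMod (q1 * q2)) ^ D = 1 →
        max t1 t2 ≤ orderOf (2 : ZMod q1) → max t1 t2 ≤ orderOf (2 : ZMod q2) →
        q1 ≤ orderOf (2 : ZMod q1) ^ 5 → q2 ≤ orderOf (2 : ZMod q2) ^ 5 →
        ∀ y, (rep (q1 * q2) D s' y : ℝ) ≤ 4 / ((q1 : ℝ) * q2) * (D : ℝ) ^ s' := by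
      intro q1 q2 _ _ hlt h2' a b c d y
      have hS := h2 q1 q2 D hlt hD h2' ((le_max_right _ _).trans a) ((le_max_right _ _).trans b) c d
      have hS' := fun y => sum_SS_comm q1 q2 D r y hS
      have := rep_add_le (q1 * q2) D r (s' - r) _ hS' y
      rw [← e2] at this
      calc (rep (q1 * q2) D s' y : ℝ)
          ≤ 4 / ((q1 : ℝ) * q2) * (D : ℝ) ^ r * (D : ℝ) ^ (s' - r) := this
        _ = 4 / ((q1 : ℝ) * q2) * (D : ℝ) ^ s' := by rw [mul_assoc, ← pow_add, ← e2]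
    intro q1 q2 _ _ hne h2' a b c d y
    rcases lt_or_gt_of_ne hne with h | h
    · have hcomm : q1 * q2 = q2 * q1 := mul_comm _ _
      have h2'' : (2 : ZMod (q2 * q1)) ^ D = 1 := by
        rw [← hcomm]; exact h2'
      have := hlt q2 q1 h h2'' b a d c (hcomm ▸ y)
      rw [rep_cast (q1 * q2) (q2 * q1) D s' hcomm y]
      calc _ ≤ 4 / ((q2 : ℝ) * q1) * (D : ℝ) ^ s' := this
        _ = _ := by rw [mul_comm (q2 : ℝ) q1]
    · exact hlt q1 q2 h h2' a b c d y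

end Pool.H53.NA

end S_NA_Nt4

section S_NA_Mix

/-!
Row Mix: for a fixed odd modulus the sums of many powers of two are equidistributed.  PROOF.  `t = orderOf 2` in `ZMod N`.
If `N = 1` then `rep = D^s`.  Let `N ≥ 3`, so `t ≥ 2`, `t ∣ D`.  By periodicity `SS N D a = (D/t) SS N t a`.  For `a ≠ 0`
`‖SS N t a‖ ≤ t - 2 + ‖e a + e(2a)‖ = t - 2 + ‖1 + e a‖` and `e a ≠ 1` (`ZMod.injective_stdAddChar`, `‖e a‖ = 1`), so
`‖1 + e a‖ < 2`.  So there is `ρ < 1` (the maximum over the finitely many `a ≠ 0`) with `‖SS N D a‖ ≤ ρ D` for all `a ≠ 0` and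
all `D`.  As `N rep y = ∑_a S a ^ s e(-a y)` (see `SS_pow` and orthogonality) `N rep y ≥ D^s - N ρ^s D^s`.  Choose `s1` with
`N ρ^s ≤ ε` for `s ≥ s1`.
-/


namespace Pool.H53.NA

open Filter Topology

private theorem mix_inv (N D s : ℕ) [NeZero N] (y : ZMod N) :
    (N : ℂ) * rep N D s y = ∑ a : ZMod N, SS N D a ^ s * ZMod.stdAddChar (N := N) (-(a * y)) := by
  simp only [SS_pow, Finset.sum_mul]
  rw [Finset.sum_comm]
  have h1 : ∀ y' : ZMod N, ∑ a : ZMod N, (rep N D s y' : ℂ) * ZMod.stdAddChar (N := N) (a * y') *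
      ZMod.stdAddChar (N := N) (-(a * y)) =
      if y' = y then (N : ℂ) * rep N D s y else 0 := by
    intro y'
    have h2 : ∀ a : ZMod N, (rep N D s y' : ℂ) * ZMod.stdAddChar (N := N) (a * y') *
        ZMod.stdAddChar (N := N) (-(a * y)) =
        (rep N D s y' : ℂ) * ZMod.stdAddChar (N := N) (a * (y' - y)) := by
      intro a
      rw [mul_assoc, ← AddChar.map_add_eq_mul]
      congr 2
      ring
    rw [Finset.sum_congr rfl fun a _ => h2 a, ← Finset.mul_sum,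
      AddChar.sum_mulShift _ (ZMod.isPrimitive_stdAddChar N)]
    by_cases h : y' = y
    · subst h
      simp [ZMod.card]
      ring
    · rw [if_neg (sub_ne_zero.2 h), if_neg h]
      simp
  rw [Finset.sum_congr rfl fun y' _ => h1 y']
  simp

private theorem mix_per (N t m : ℕ) [NeZero N] (ht : (2 : ZMod N) ^ t = 1) (a : ZMod N) :
    SS N (t * m) a = m * SS N t a := by
  induction m with
  | zero => simp [SS]
  | succ m ih =>
    have h1 : SS N (t * (m + 1)) a = SS N (t * m) a + SS N t a := by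
      unfold SS
      rw [Nat.mul_succ, Finset.sum_range_add]
      congr 1
      refine Finset.sum_congr rfl fun k _ => ?_
      rw [pow_add, pow_mul, ht, one_pow, one_mul]
    rw [h1, ih]
    push_cast
    ring

private theorem mix_lt (N : ℕ) [NeZero N] (t : ℕ) (ht2 : 2 ≤ t) (a : ZMod N) (ha : a ≠ 0) :
    ‖SS N t a‖ < t := by
  obtain ⟨m, rfl⟩ : ∃ m, t = m + 2 := ⟨t - 2, by omega⟩
  have h1 : SS N (m + 2) a = (ZMod.stdAddChar (N := N) a + ZMod.stdAddChar (N := N) (a * 2)) +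
      ∑ k ∈ Finset.range m, (ZMod.stdAddChar (N := N) (a * 2 ^ (k + 2)) : ℂ) := by
    unfold SS
    rw [Finset.sum_range_succ', Finset.sum_range_succ']
    simp only [pow_zero, mul_one, zero_add, pow_one]
    ring
  have hn : ∀ b : ZMod N, ‖(ZMod.stdAddChar (N := N) b : ℂ)‖ = 1 := fun b => AddChar.norm_apply _ _
  have h2 : ‖ZMod.stdAddChar (N := N) a + ZMod.stdAddChar (N := N) (a * 2)‖ < 2 := by
    have h3 : ZMod.stdAddChar (N := N) a + ZMod.stdAddChar (N := N) (a * 2) =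
        ZMod.stdAddChar (N := N) a * (1 + ZMod.stdAddChar (N := N) a) := by
      rw [mul_two, AddChar.map_add_eq_mul]
      ring
    rw [h3, norm_mul, hn, one_mul]
    set z : ℂ := ZMod.stdAddChar (N := N) a with hz
    have hz1 : ‖z‖ = 1 := hn a
    have hzne : z ≠ 1 := by
      intro h
      apply ha
      have := ZMod.injective_stdAddChar (N := N)
      apply this
      rw [← hz, h, AddChar.map_zero_eq_one]
    by_contra hge
    push Not at hge
    have h4 : Complex.normSq z = 1 := by rw [Complex.normSq_eq_norm_sq, hz1, one_pow]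
    have h5 : 4 ≤ Complex.normSq (1 + z) := by
      rw [Complex.normSq_eq_norm_sq]
      nlinarith
    rw [Complex.normSq_apply] at h4 h5
    simp only [Complex.add_re, Complex.one_re, Complex.add_im, Complex.one_im, zero_add] at h5
    have hre : 1 ≤ z.re := by nlinarith
    have him : z.im = 0 := by
      have : z.im * z.im ≤ 0 := by nlinarith
      exact mul_self_eq_zero.1 (le_antisymm this (mul_self_nonneg _))
    have hre1 : z.re = 1 := by
      rw [him] at h4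
      nlinarith
    apply hzne
    apply Complex.ext
    · rw [hre1, Complex.one_re]
    · rw [him, Complex.one_im]
  have h6 : ‖∑ k ∈ Finset.range m, (ZMod.stdAddChar (N := N) (a * 2 ^ (k + 2)) : ℂ)‖ ≤ m := by
    refine (norm_sum_le _ _).trans ?_
    simp [hn]
  rw [h1]
  refine (norm_add_le _ _).trans_lt ?_
  push_cast
  linarith

private theorem mix_rho (N : ℕ) [NeZero N] (hN : Odd N) : ∃ ρ : ℝ, 0 ≤ ρ ∧ ρ < 1 ∧
    ∀ a : ZMod N, a ≠ 0 → ∀ D : ℕ, (2 : ZMod N) ^ D = 1 → ‖SS N D a‖ ≤ ρ * D := by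
  classical
  set t : ℕ := orderOf (2 : ZMod N) with ht
  have hunit : IsUnit (2 : ZMod N) := by
    have h1 : Nat.Coprime 2 N := (Nat.coprime_two_left).2 hN
    have := (ZMod.unitOfCoprime 2 h1).isUnit
    simpa using this
  have hfin : IsOfFinOrder (2 : ZMod N) := by
    obtain ⟨u, hu⟩ := hunit
    rw [← hu]
    exact isOfFinOrder_iff_pow_eq_one.mpr ⟨orderOf u, orderOf_pos u, by
      rw [← Units.val_pow_eq_pow_val, pow_orderOf_eq_one, Units.val_one]⟩
  have htpos : 0 < t := hfin.orderOf_pos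
  have ht1 : (2 : ZMod N) ^ t = 1 := pow_orderOf_eq_one _
  have hlt : ∀ a : ZMod N, a ≠ 0 → ‖SS N t a‖ < t := by
    intro a ha
    refine mix_lt N t ?_ a ha
    by_contra hlt
    have ht' : t = 1 := by omega
    rw [ht', pow_one] at ht1
    apply ha
    have h10 : (1 : ZMod N) = 0 := by
      have : (2 : ZMod N) - 1 = 0 := sub_eq_zero.2 ht1
      have h2 : (2 : ZMod N) - 1 = 1 := by ring
      rwa [h2] at this
    calc a = a * 1 := (mul_one a).symm
      _ = 0 := by rw [h10, mul_zero]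
  have htr : (0 : ℝ) < t := by exact_mod_cast htpos
  obtain ⟨ρ, h0, h1, hρ⟩ : ∃ ρ : ℝ, 0 ≤ ρ ∧ ρ < 1 ∧ ∀ a : ZMod N, a ≠ 0 → ‖SS N t a‖ ≤ ρ * t := by
    rcases (Finset.univ.filter fun a : ZMod N => a ≠ 0).eq_empty_or_nonempty with h | h
    · refine ⟨0, le_rfl, one_pos, fun a ha => ?_⟩
      have : a ∈ (Finset.univ.filter fun a : ZMod N => a ≠ 0) :=
        Finset.mem_filter.2 ⟨Finset.mem_univ _, ha⟩
      rw [h] at this
      exact absurd this (Finset.notMem_empty _)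
    · obtain ⟨b, hb, hmax⟩ := Finset.exists_max_image _ (fun a : ZMod N => ‖SS N t a‖) h
      have hb0 := (Finset.mem_filter.1 hb).2
      refine ⟨‖SS N t b‖ / t, by positivity, ?_, fun a ha => ?_⟩
      · rw [div_lt_one htr]
        exact hlt b hb0
      · rw [div_mul_cancel₀ _ htr.ne']
        exact hmax a (Finset.mem_filter.2 ⟨Finset.mem_univ _, ha⟩)
  refine ⟨ρ, h0, h1, fun a ha D hD => ?_⟩
  obtain ⟨m, rfl⟩ := orderOf_dvd_of_pow_eq_one hD
  rw [← ht, mix_per N t m ht1, norm_mul, Complex.norm_natCast]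
  push_cast
  calc (m : ℝ) * ‖SS N t a‖ ≤ m * (ρ * t) := by
        gcongr
        exact hρ a ha
    _ = ρ * (t * m) := by ring

theorem mixing (N : ℕ) [NeZero N] (hN : Odd N) (ε : ℝ) (hε : 0 < ε) : ∃ s1 : ℕ, ∀ s : ℕ, s1 ≤ s →
    ∀ D : ℕ, 0 < D → (2 : ZMod N) ^ D = 1 → ∀ y : ZMod N,
    (1 - ε) * (D : ℝ) ^ s ≤ N * (rep N D s y : ℝ) := by
  classical
  obtain ⟨ρ, h0, h1, hρ⟩ := mix_rho N hN
  have hlim : Tendsto (fun s : ℕ => (N : ℝ) * ρ ^ s) atTop (𝓝 0) := by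
    have := (tendsto_pow_atTop_nhds_zero_of_lt_one h0 h1).const_mul (N : ℝ)
    simpa using this
  obtain ⟨s1, hs1⟩ := eventually_atTop.1 (hlim.eventually (gt_mem_nhds hε))
  refine ⟨s1, fun s hs D hD h2 y => ?_⟩
  have hε' : (N : ℝ) * ρ ^ s < ε := hs1 s hs
  have h3 := mix_inv N D s y
  rw [← Finset.add_sum_erase _ _ (Finset.mem_univ (0 : ZMod N)), SS_zero, zero_mul, neg_zero,
    AddChar.map_zero_eq_one, mul_one] at h3
  set Z : ℂ := ∑ a ∈ Finset.univ.erase (0 : ZMod N),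
    SS N D a ^ s * ZMod.stdAddChar (N := N) (-(a * y)) with hZ
  have hZn : ‖Z‖ ≤ N * ρ ^ s * (D : ℝ) ^ s := by
    rw [hZ]
    refine (norm_sum_le _ _).trans ?_
    have h4 : ∀ a ∈ Finset.univ.erase (0 : ZMod N),
        ‖SS N D a ^ s * ZMod.stdAddChar (N := N) (-(a * y))‖ ≤ (ρ * D) ^ s := by
      intro a ha
      rw [norm_mul, AddChar.norm_apply, mul_one, norm_pow]
      exact pow_le_pow_left₀ (norm_nonneg _) (hρ a (Finset.ne_of_mem_erase ha) D h2) s
    refine (Finset.sum_le_sum h4).trans ?_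
    rw [Finset.sum_const, nsmul_eq_mul, mul_pow, ← mul_assoc]
    have h5 : ((Finset.univ.erase (0 : ZMod N)).card : ℝ) ≤ N := by
      have : (Finset.univ.erase (0 : ZMod N)).card ≤ N := by
        refine (Finset.card_erase_le).trans ?_
        rw [Finset.card_univ, ZMod.card]
      exact_mod_cast this
    gcongr
  have h6 : ((N : ℝ) * rep N D s y : ℝ) = (D : ℝ) ^ s + Z.re := by
    have := congrArg Complex.re h3
    rw [Complex.add_re] at this
    have e1 : ((N : ℂ) * (rep N D s y : ℂ)).re = (N : ℝ) * rep N D s y := by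
      rw [← Complex.ofReal_natCast, ← Complex.ofReal_natCast, ← Complex.ofReal_mul,
        Complex.ofReal_re]
    have e2 : (((D : ℂ)) ^ s).re = (D : ℝ) ^ s := by
      rw [← Complex.ofReal_natCast, ← Complex.ofReal_pow, Complex.ofReal_re]
    rw [e1, e2] at this
    exact this
  have h7 : -‖Z‖ ≤ Z.re := (abs_le.1 (Complex.abs_re_le_norm Z)).1
  have h8 : (N : ℝ) * ρ ^ s * (D : ℝ) ^ s ≤ ε * (D : ℝ) ^ s :=
    mul_le_mul_of_nonneg_right hε'.le (by positivity)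
  rw [h6]
  linarith

end Pool.H53.NA

end S_NA_Mix

section S_NA_Df2

/-!
Definitions for the sieve part.
-/


namespace Pool.H53.NA

/-- the largest prime factor (`0` for `d ≤ 1`) -/
def gpf (d : ℕ) : ℕ := d.primeFactors.sup id

/-- `d` without the power of its largest prime factor -/
def mpt (d : ℕ) : ℕ := d / gpf d ^ d.factorization (gpf d)

/-- the weight `(8/7)^ω` -/
noncomputable def ow (m : ℕ) : ℝ := (8 / 7 : ℝ) ^ m.primeFactors.card

/-- the weight of a pair of moduli -/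
noncomputable def wt (d e : ℕ) : ℝ :=
  if gpf d = gpf e then ow (mpt d) * ow (mpt e) * (Nat.gcd (mpt d) (mpt e) : ℝ) / (d * e) else 0

/-- the part of `D` composed of the primes `≤ l` -/
def spart (D l : ℕ) : ℕ := ∏ p ∈ D.primeFactors.filter (fun p => p ≤ l), p ^ D.factorization p

/-- the order of `2` modulo `q` -/
noncomputable def tq (q : ℕ) : ℕ := orderOf (2 : ZMod q)

end Pool.H53.NA

end S_NA_Df2

section S_NA_Cnt

/-!
Row Cnt: counting exponent vectors.  PROOFS.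
* `cnt_pw`: sort by the value `h ∈ pw q`: `n - ∑ 2^(κ i) = h` iff `∑ 2^(κ i) = n - h`, counted by `rep q D s (n - h) ≤ m`; `|pw q| ≤ tq q`
  (image of `range (orderOf 2)`).
* `cnt_pw2`: sort by the values `(h1,h2) ∈ pw q1 × pw q2`; by the Chinese remainder theorem the two conditions
  `∑ 2^(κ i) = n1 - h1` in `ZMod q1` and `∑ 2^(κ i) = n2 - h2` in `ZMod q2` are one condition in `ZMod (q1 q2)`
  (`ZMod.chineseRemainder`; `ZMod.castHom`).
* `cnt_unit`: `N = ∏ q ∈ F`, `F` a set of primes.  `x : ZMod N` (`x` the class of an integer `u`) is a unit iff `u` is not divisible by any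
  `q ∈ F`.  The number of `k` with `n - ∑ 2^(k i)` a unit is `∑_{y, n - y unit} rep y ≥ φ(N) m`, and `φ(N) = N ∏ (1 - 1/q)`
  (`Nat.totient_eq_mul_prod_factors`; `ZMod.card_units_eq_totient`).
-/


namespace Pool.H53.NA

theorem cnt_pwcard (q : ℕ) : (pw q).card ≤ tq q := by
  unfold pw tq
  exact Finset.card_image_le.trans (by simp)

theorem cnt_pw (q D s : ℕ) [Fact q.Prime] (m : ℝ) (hm : ∀ y, (rep q D s y : ℝ) ≤ m) (n : ZMod q) :
    (((Finset.univ : Finset (Fin s → Fin D)).filter fun k : Fin s → Fin D =>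
      n - ∑ i, (2 : ZMod q) ^ (k i : ℕ) ∈ pw q).card : ℝ) ≤ tq q * m := by
  have hm0 : 0 ≤ m := le_trans (Nat.cast_nonneg _) (hm 0)
  have hH := Finset.card_eq_sum_card_fiberwise
    (s := (Finset.univ : Finset (Fin s → Fin D)).filter fun k : Fin s → Fin D =>
      n - ∑ i, (2 : ZMod q) ^ (k i : ℕ) ∈ pw q)
    (t := pw q) (f := fun k : Fin s → Fin D => n - ∑ i, (2 : ZMod q) ^ (k i : ℕ))
    (by intro k hk; simpa using hk)
  rw [hH]
  push_cast
  calc (∑ h ∈ pw q, (((((Finset.univ : Finset (Fin s → Fin D)).filter fun k : Fin s → Fin D =>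
      n - ∑ i, (2 : ZMod q) ^ (k i : ℕ) ∈ pw q).filter fun k : Fin s → Fin D =>
        n - ∑ i, (2 : ZMod q) ^ (k i : ℕ) = h).card : ℕ) : ℝ))
      ≤ ∑ h ∈ pw q, m := by
        apply Finset.sum_le_sum
        intro h _
        refine le_trans ?_ (hm (n - h))
        unfold rep
        refine Nat.cast_le.mpr (Finset.card_le_card ?_)
        intro k hk
        simp only [Finset.mem_filter, Finset.mem_univ, true_and] at hk ⊢
        rw [← hk.2]; ring
    _ = (pw q).card * m := by rw [Finset.sum_const, nsmul_eq_mul]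
    _ ≤ tq q * m := by
        apply mul_le_mul_of_nonneg_right _ hm0
        exact_mod_cast cnt_pwcard q

theorem cnt_pw2 (q1 q2 D s : ℕ) [Fact q1.Prime] [Fact q2.Prime] (hne : q1 ≠ q2) (m : ℝ)
    (hm : ∀ y, (rep (q1 * q2) D s y : ℝ) ≤ m) (n1 : ZMod q1) (n2 : ZMod q2) :
    (((Finset.univ : Finset (Fin s → Fin D)).filter fun k : Fin s → Fin D =>
      n1 - ∑ i, (2 : ZMod q1) ^ (k i : ℕ) ∈ pw q1 ∧ n2 - ∑ i, (2 : ZMod q2) ^ (k i : ℕ) ∈ pw q2).card : ℝ)
      ≤ tq q1 * tq q2 * m := by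
  have hm0 : 0 ≤ m := le_trans (Nat.cast_nonneg _) (hm 0)
  have hco : q1.Coprime q2 := (Nat.coprime_primes Fact.out Fact.out).mpr hne
  have hH := Finset.card_eq_sum_card_fiberwise
    (s := (Finset.univ : Finset (Fin s → Fin D)).filter fun k : Fin s → Fin D =>
      n1 - ∑ i, (2 : ZMod q1) ^ (k i : ℕ) ∈ pw q1 ∧ n2 - ∑ i, (2 : ZMod q2) ^ (k i : ℕ) ∈ pw q2)
    (t := pw q1 ×ˢ pw q2) (f := fun k : Fin s → Fin D =>
      ((n1 - ∑ i, (2 : ZMod q1) ^ (k i : ℕ), n2 - ∑ i, (2 : ZMod q2) ^ (k i : ℕ)) : ZMod q1 × ZMod q2))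
    (by intro k hk; simpa using hk)
  rw [hH]
  push_cast
  calc (∑ h ∈ pw q1 ×ˢ pw q2, (((((Finset.univ : Finset (Fin s → Fin D)).filter fun k : Fin s → Fin D =>
      n1 - ∑ i, (2 : ZMod q1) ^ (k i : ℕ) ∈ pw q1 ∧ n2 - ∑ i, (2 : ZMod q2) ^ (k i : ℕ) ∈ pw q2).filter
        fun k : Fin s → Fin D =>
        ((n1 - ∑ i, (2 : ZMod q1) ^ (k i : ℕ), n2 - ∑ i, (2 : ZMod q2) ^ (k i : ℕ)) : ZMod q1 × ZMod q2) = h).card : ℕ) : ℝ))
      ≤ ∑ h ∈ pw q1 ×ˢ pw q2, m := by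
        apply Finset.sum_le_sum
        intro h _
        refine le_trans ?_ (hm ((ZMod.chineseRemainder hco).symm (n1 - h.1, n2 - h.2)))
        unfold rep
        refine Nat.cast_le.mpr (Finset.card_le_card ?_)
        intro k hk
        simp only [Finset.mem_filter, Finset.mem_univ, true_and] at hk ⊢
        have h2 : ZMod.chineseRemainder hco 2 = 2 := map_ofNat (ZMod.chineseRemainder hco) 2
        rw [RingEquiv.eq_symm_apply, map_sum, ← hk.2]
        ext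
        · simp [Prod.fst_sum, h2]
        · simp [Prod.snd_sum, h2]
    _ = ((pw q1 ×ˢ pw q2).card : ℝ) * m := by rw [Finset.sum_const, nsmul_eq_mul]
    _ ≤ tq q1 * tq q2 * m := by
        apply mul_le_mul_of_nonneg_right _ hm0
        rw [Finset.card_product]
        exact_mod_cast Nat.mul_le_mul (cnt_pwcard q1) (cnt_pwcard q2)

theorem cnt_unit_iff (F : Finset ℕ) (D s : ℕ) (n : ℤ) (k : Fin s → Fin D) :
    (∀ q ∈ F, ((n : ZMod q) - ∑ i, (2 : ZMod q) ^ (k i : ℕ)) ≠ 0) ↔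
      ∀ q ∈ F, ¬ ((q : ℤ) ∣ n - ∑ i, (2 : ℤ) ^ (k i : ℕ)) := by
  apply forall₂_congr
  intro q _
  rw [not_iff_not, ← ZMod.intCast_zmod_eq_zero_iff_dvd]
  push_cast
  rfl

theorem cnt_unit_unit (F : Finset ℕ) (hF : ∀ q ∈ F, q.Prime) (u : ℤ) :
    (∀ q ∈ F, ¬ ((q : ℤ) ∣ u)) ↔ IsUnit ((u : ℤ) : ZMod (∏ q ∈ F, q)) := by
  rw [ZMod.coe_int_isUnit_iff_isCoprime]
  push_cast
  rw [IsCoprime.prod_left_iff]
  apply forall₂_congr
  intro q hq
  rw [Prime.coprime_iff_not_dvd (Nat.prime_iff_prime_int.mp (hF q hq))]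

theorem cnt_unit (F : Finset ℕ) (hF : ∀ q ∈ F, q.Prime) [NeZero (∏ q ∈ F, q)] (D s : ℕ) (m : ℝ)
    (hm : ∀ y, m ≤ (∏ q ∈ F, (q : ℝ)) * (rep (∏ q ∈ F, q) D s y : ℝ)) (hm0 : 0 ≤ m) (n : ℤ) :
    (∏ q ∈ F, (1 - (1 : ℝ) / q)) * m ≤
    (((Finset.univ : Finset (Fin s → Fin D)).filter fun k : Fin s → Fin D =>
      ∀ q ∈ F, ((n : ZMod q) - ∑ i, (2 : ZMod q) ^ (k i : ℕ)) ≠ 0).card : ℝ) := by
  classical
  set N := ∏ q ∈ F, q with hN
  have hNpos : (0 : ℝ) < N := by exact_mod_cast Nat.pos_of_ne_zero (NeZero.ne N)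
  have hNr : (∏ q ∈ F, (q : ℝ)) = (N : ℝ) := by rw [hN]; push_cast; rfl
  have htot : ((Nat.totient N : ℕ) : ℝ) = N * ∏ q ∈ F, (1 - (1 : ℝ) / q) := by
    have h1 := Nat.totient_eq_mul_prod_factors N
    have h2 : N.primeFactors = F := by rw [hN]; exact Nat.primeFactors_prod hF
    rw [h2] at h1
    have h3 : (((Nat.totient N : ℚ)) : ℝ) = ((N * ∏ p ∈ F, (1 - (p : ℚ)⁻¹) : ℚ) : ℝ) := by rw [h1]
    push_cast at h3
    rw [h3]
    congr 1
    apply Finset.prod_congr rfl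
    intro q _
    rw [one_div]
  have hcard : ((Finset.univ : Finset (ZMod N)).filter fun x => IsUnit x).card = Nat.totient N := by
    rw [← ZMod.card_units_eq_totient N]
    rw [← Finset.card_univ (α := (ZMod N)ˣ)]
    rw [← Finset.card_image_of_injective (Finset.univ : Finset (ZMod N)ˣ) (f := fun u : (ZMod N)ˣ => (u : ZMod N))
      Units.val_injective]
    congr 1
    ext x
    simp only [Finset.mem_filter, Finset.mem_univ, true_and, Finset.mem_image]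
    exact Iff.rfl
  have hsum : (∑ x ∈ (Finset.univ : Finset (ZMod N)).filter (fun x => IsUnit x),
      rep N D s ((n : ZMod N) - x)) ≤ ((Finset.univ : Finset (Fin s → Fin D)).filter fun k : Fin s → Fin D =>
      ∀ q ∈ F, ((n : ZMod q) - ∑ i, (2 : ZMod q) ^ (k i : ℕ)) ≠ 0).card := by
    rw [Finset.card_eq_sum_card_fiberwise
      (s := (Finset.univ : Finset (Fin s → Fin D)).filter fun k : Fin s → Fin D =>
        ∀ q ∈ F, ((n : ZMod q) - ∑ i, (2 : ZMod q) ^ (k i : ℕ)) ≠ 0)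
      (t := (Finset.univ : Finset (ZMod N)).filter (fun x => IsUnit x))
      (f := fun k : Fin s → Fin D => (n : ZMod N) - ∑ i, (2 : ZMod N) ^ (k i : ℕ))]
    · apply Finset.sum_le_sum
      intro x hx
      unfold rep
      apply Finset.card_le_card
      intro k hk
      simp only [Finset.mem_filter, Finset.mem_univ, true_and] at hk hx ⊢
      have hk' : (n : ZMod N) - ∑ i, (2 : ZMod N) ^ (k i : ℕ) = x := by rw [hk]; ring
      refine ⟨?_, hk'⟩
      rw [cnt_unit_iff, cnt_unit_unit F hF]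
      have : (((n - ∑ i, (2 : ℤ) ^ (k i : ℕ) : ℤ)) : ZMod N) = x := by
        push_cast; exact hk'
      rw [← hN, this]
      exact hx
    · intro k hk
      simp only [Finset.coe_filter, Finset.mem_univ, true_and, Set.mem_ofPred_eq] at hk ⊢
      rw [cnt_unit_iff, cnt_unit_unit F hF] at hk
      have : (((n - ∑ i, (2 : ℤ) ^ (k i : ℕ) : ℤ)) : ZMod N) = (n : ZMod N) - ∑ i, (2 : ZMod N) ^ (k i : ℕ) := by
        push_cast; rfl
      rw [← hN, this] at hk
      exact hk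
  calc (∏ q ∈ F, (1 - (1 : ℝ) / q)) * m = (Nat.totient N : ℝ) * (m / N) := by
        rw [htot]; field_simp
    _ = ∑ x ∈ (Finset.univ : Finset (ZMod N)).filter (fun x => IsUnit x), m / N := by
        rw [Finset.sum_const, nsmul_eq_mul, hcard]
    _ ≤ ∑ x ∈ (Finset.univ : Finset (ZMod N)).filter (fun x => IsUnit x),
        (rep N D s ((n : ZMod N) - x) : ℝ) := by
        apply Finset.sum_le_sum
        intro x _
        rw [div_le_iff₀ hNpos, mul_comm, ← hNr]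
        exact hm _
    _ ≤ _ := by exact_mod_cast hsum

end Pool.H53.NA

end S_NA_Cnt
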