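import Mathlib
import Pool.Agent.H75.EK.Mert
import Pool.Agent.H53.NM.M4

set_option autoImplicit false

/-! Sums of a prime and powers of two, part M5: this file joins several modules to save build time. -/

section S_NA_Smo

/-!
Row Smo: sums over smooth numbers.  `σ = 1/log l`.  `fl l m = (4/3)^Ω(m) m^(-1+2σ)`.
PROOF of `smooth_sum`.  `fl l` is completely multiplicative (`ArithmeticFunction.cardFactors_mul`), `fl l 1 = 1`; as a monoid
homomorphism `ℕ →* ℝ` (value `0` at `0`: for `l ≥ 3000` the exponent is `≠ 0` so `0^(...) = 0`).  For `l ≥ 3000` (`log l ≥ 8`) and a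
prime `p < l`: `fl l p = (4/3) p^(-1) p^(2σ)`, `p^(2σ) ≤ e² ≤ 7.39`, so `fl l p ≤ 10/p`; and for every prime `p`
`fl l p ≤ (4/3) p^(-3/4) ≤ (4/3) 2^(-3/4) ≤ 4/5`.  By the Euler product for smooth numbers
(`EulerProduct.summable_and_hasSum_smoothNumbers_prod_primesBelow_geometric`) `∑_{m ∈ T} fl l m ≤ ∏_{p<l} (1 - fl l p)⁻¹`, and
`(1 - x)⁻¹ ≤ exp(5 x)` for `0 ≤ x ≤ 4/5` (`exp(-y) ≤ 1/(1+y)`, or `1 - x ≥ exp(-5x)` by convexity: equality at `0`, and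
`exp(-4) ≤ 1/5`).  So the product is `≤ exp(50 ∑_{p<l} 1/p) ≤ exp(50 (log log l + C)) = e^{50C} (log l)^50 ≤ C' l^(1/40)`
(`mert5` of `Pool.Agent.H75.EK.Mert`; `log l ≤ 2000 l^(1/2000)`, `Real.log_le_rpow_div`).
-/


namespace Pool.H53.NA

/-- the weight `(4/3)^Ω(m) m^(-1 + 2/log l)` -/
noncomputable def fl (l m : ℕ) : ℝ :=
  (4 / 3 : ℝ) ^ (ArithmeticFunction.cardFactors m) * (m : ℝ) ^ (-1 + 2 / Real.log l)

theorem smo_log (l : ℕ) (hl : 3000 ≤ l) : 8 ≤ Real.log l := by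
  rw [Real.le_log_iff_exp_le (by exact_mod_cast (by omega : 0 < l))]
  have h1 : Real.exp 8 = Real.exp 1 ^ 8 := by
    rw [← Real.exp_nat_mul]; norm_num
  have h2 : Real.exp 1 ^ 8 ≤ (2.7182818286 : ℝ) ^ 8 :=
    pow_le_pow_left₀ (Real.exp_pos 1).le Real.exp_one_lt_d9.le 8
  have h3 : (2.7182818286 : ℝ) ^ 8 ≤ 3000 := by norm_num
  have h4 : (3000 : ℝ) ≤ l := by exact_mod_cast hl
  linarith

theorem smo_fl_prime (l p : ℕ) (hp : p.Prime) :
    fl l p = 4 / 3 * (p : ℝ) ^ (-1 + 2 / Real.log l) := by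
  unfold fl
  rw [ArithmeticFunction.cardFactors_apply_prime hp, pow_one]

theorem smo_fl_nonneg (l m : ℕ) : 0 ≤ fl l m := by
  unfold fl; positivity

theorem smo_fl_small (l p : ℕ) (hl : 3000 ≤ l) (hp : p.Prime) : fl l p ≤ 4 / 5 := by
  have hlog := smo_log l hl
  rw [smo_fl_prime l p hp]
  have h2 : 2 / Real.log l ≤ 1 / 4 := by
    rw [div_le_iff₀ (by linarith)]; linarith
  have hp2 : (2 : ℝ) ≤ p := by exact_mod_cast hp.two_le
  have h3 : (p : ℝ) ^ (-1 + 2 / Real.log l) ≤ (p : ℝ) ^ (-(3 / 4) : ℝ) :=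
    Real.rpow_le_rpow_of_exponent_le (by linarith) (by linarith)
  have h4 : (p : ℝ) ^ (-(3 / 4) : ℝ) ≤ (2 : ℝ) ^ (-(3 / 4) : ℝ) :=
    Real.rpow_le_rpow_of_nonpos (by norm_num) hp2 (by norm_num)
  have h5 : (2 : ℝ) ^ (-(3 / 4) : ℝ) ≤ 3 / 5 := by
    rw [Real.rpow_neg (by norm_num)]
    have h6 : (5 / 3 : ℝ) ≤ (2 : ℝ) ^ (3 / 4 : ℝ) := by
      have h7 : ((5 / 3 : ℝ) ^ (4 : ℕ)) ^ (1 / 4 : ℝ) ≤ ((2 : ℝ) ^ (3 : ℕ)) ^ (1 / 4 : ℝ) :=
        Real.rpow_le_rpow (by positivity) (by norm_num) (by norm_num)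
      rw [← Real.rpow_natCast, ← Real.rpow_natCast, ← Real.rpow_mul (by norm_num),
        ← Real.rpow_mul (by norm_num)] at h7
      norm_num at h7
      convert h7 using 2
    calc ((2 : ℝ) ^ (3 / 4 : ℝ))⁻¹ ≤ (5 / 3 : ℝ)⁻¹ := inv_anti₀ (by norm_num) h6
      _ = 3 / 5 := by norm_num
  linarith

theorem smo_fl_lt (l p : ℕ) (hl : 3000 ≤ l) (hp : p.Prime) (hpl : p < l) :
    fl l p ≤ 10 * (1 / (p : ℝ)) := by
  have hlog := smo_log l hl
  rw [smo_fl_prime l p hp]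
  have hp2 : (2 : ℝ) ≤ p := by exact_mod_cast hp.two_le
  have hp0 : (0 : ℝ) < p := by linarith
  rw [Real.rpow_add hp0, Real.rpow_neg_one]
  have h1 : (p : ℝ) ^ (2 / Real.log l) ≤ Real.exp 2 := by
    rw [Real.rpow_def_of_pos hp0]
    apply Real.exp_le_exp.2
    rw [mul_div_assoc', div_le_iff₀ (by linarith)]
    have : Real.log p ≤ Real.log l := Real.log_le_log hp0 (by exact_mod_cast hpl.le)
    linarith
  have h2 : Real.exp 2 ≤ 7.4 := by
    have h3 : Real.exp 2 = Real.exp 1 ^ 2 := by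
      rw [← Real.exp_nat_mul]; norm_num
    have h4 : Real.exp 1 ^ 2 ≤ (2.7182818286 : ℝ) ^ 2 :=
      pow_le_pow_left₀ (Real.exp_pos 1).le Real.exp_one_lt_d9.le 2
    have h5 : (2.7182818286 : ℝ) ^ 2 ≤ 7.4 := by norm_num
    linarith
  have h6 : (0 : ℝ) < (p : ℝ)⁻¹ := by positivity
  have h7 : (p : ℝ)⁻¹ * (p : ℝ) ^ (2 / Real.log l) ≤ (p : ℝ)⁻¹ * 7.4 :=
    mul_le_mul_of_nonneg_left (h1.trans h2) h6.le
  rw [one_div]
  linarith

/-- `fl l` as a monoid homomorphism -/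
noncomputable def smo_hom (l : ℕ) (hl : 3000 ≤ l) : ℕ →* ℝ where
  toFun := fl l
  map_one' := by simp [fl]
  map_mul' := by
    intro m n
    have hlog := smo_log l hl
    have h2 : 2 / Real.log l ≤ 1 / 4 := by
      rw [div_le_iff₀ (by linarith)]; linarith
    have hne : -1 + 2 / Real.log l ≠ 0 := by intro h; linarith
    have h0 : fl l 0 = 0 := by
      unfold fl
      rw [Nat.cast_zero, Real.zero_rpow hne, mul_zero]
    rcases Nat.eq_zero_or_pos m with rfl | hm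
    · rw [zero_mul, h0, zero_mul]
    rcases Nat.eq_zero_or_pos n with rfl | hn
    · rw [mul_zero, h0, mul_zero]
    unfold fl
    rw [ArithmeticFunction.cardFactors_mul hm.ne' hn.ne', pow_add, Nat.cast_mul,
      Real.mul_rpow (Nat.cast_nonneg _) (Nat.cast_nonneg _)]
    ring

theorem smo_inv (x : ℝ) (h0 : 0 ≤ x) (h1 : x ≤ 4 / 5) : (1 - x)⁻¹ ≤ Real.exp (5 * x) := by
  have hconv := convexOn_exp.2 (Set.mem_univ (0 : ℝ)) (Set.mem_univ (-4 : ℝ))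
    (show 0 ≤ 1 - 5 / 4 * x by linarith) (show 0 ≤ 5 / 4 * x by linarith) (by ring)
  simp only [smul_eq_mul, mul_zero, zero_add, Real.exp_zero, mul_one] at hconv
  have h2 : (5 / 4 * x * (-4) : ℝ) = -(5 * x) := by ring
  rw [h2] at hconv
  have h3 : Real.exp (-4) ≤ 1 / 5 := by
    rw [Real.exp_neg, one_div]
    apply inv_anti₀ (by norm_num)
    have := Real.add_one_le_exp (4 : ℝ)
    linarith
  have h4 : Real.exp (-(5 * x)) ≤ 1 - x := by
    nlinarith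
  rw [← one_div, div_le_iff₀ (by linarith)]
  calc (1 : ℝ) = Real.exp (5 * x) * Real.exp (-(5 * x)) := by
        rw [← Real.exp_add]; simp
    _ ≤ Real.exp (5 * x) * (1 - x) := mul_le_mul_of_nonneg_left h4 (Real.exp_pos _).le

theorem smooth_sum : ∃ C : ℝ, 0 < C ∧ ∃ L : ℕ, 3000 ≤ L ∧ ∀ l : ℕ, L ≤ l → ∀ T : Finset ℕ,
    (∀ m ∈ T, m ≠ 0 ∧ ∀ p, p.Prime → p ∣ m → p < l) →
    ∑ m ∈ T, fl l m ≤ C * (l : ℝ) ^ ((1 : ℝ) / 40) := by
  obtain ⟨C, hC⟩ := EK75.mert5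
  refine ⟨Real.exp (50 * C) * 2000 ^ 50, by positivity, 3000, le_rfl, ?_⟩
  intro l hl T hT
  have hlog := smo_log l hl
  have hl0 : (0 : ℝ) < l := by exact_mod_cast (by omega : 0 < l)
  have hnorm : ∀ {p : ℕ}, p.Prime → ‖smo_hom l hl p‖ < 1 := by
    intro p hp
    change ‖fl l p‖ < 1
    rw [Real.norm_of_nonneg (smo_fl_nonneg l p)]
    have := smo_fl_small l p hl hp
    linarith
  obtain ⟨-, hs⟩ := EulerProduct.summable_and_hasSum_smoothNumbers_prod_primesBelow_geometric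
    (f := smo_hom l hl) hnorm l
  have hTm : ∀ m ∈ T, m ∈ Nat.smoothNumbers l := by
    intro m hm
    obtain ⟨h1, h2⟩ := hT m hm
    rw [Nat.mem_smoothNumbers]
    exact ⟨h1, fun p hp => h2 p (Nat.prime_of_mem_primeFactorsList hp)
      (Nat.dvd_of_mem_primeFactorsList hp)⟩
  have hle : ∑ m ∈ T, fl l m ≤ ∏ p ∈ l.primesBelow, (1 - fl l p)⁻¹ := by
    have h1 := sum_le_hasSum (T.subtype (fun m => m ∈ Nat.smoothNumbers l))
      (fun m _ => smo_fl_nonneg l m) hs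
    have h2 : ∑ m ∈ T.subtype (fun m => m ∈ Nat.smoothNumbers l), fl l m
        = ∑ m ∈ T, fl l m := Finset.sum_subtype_of_mem (s := T) (fun m => fl l m) hTm
    rw [h2] at h1
    exact h1
  have hprod : ∏ p ∈ l.primesBelow, (1 - fl l p)⁻¹
      ≤ Real.exp (50 * ∑ p ∈ EK75.prLe l, (1 : ℝ) / p) := by
    have hsub : l.primesBelow ⊆ EK75.prLe (l : ℝ) := by
      intro p hp
      rw [Nat.mem_primesBelow] at hp
      simp only [EK75.prLe, Nat.floor_natCast, Finset.mem_filter, Finset.mem_range]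
      exact ⟨by omega, hp.2⟩
    have h3 : ∏ p ∈ l.primesBelow, (1 - fl l p)⁻¹
        ≤ ∏ p ∈ l.primesBelow, Real.exp (50 * ((1 : ℝ) / p)) := by
      refine Finset.prod_le_prod ?_ ?_
      · intro p hp
        rw [Nat.mem_primesBelow] at hp
        have := smo_fl_small l p hl hp.2
        exact inv_nonneg.2 (by linarith)
      · intro p hp
        rw [Nat.mem_primesBelow] at hp
        have h1 := smo_fl_small l p hl hp.2
        have h2 := smo_fl_lt l p hl hp.2 hp.1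
        refine (smo_inv _ (smo_fl_nonneg l p) h1).trans (Real.exp_le_exp.2 ?_)
        linarith
    refine h3.trans ?_
    rw [← Real.exp_sum, ← Finset.mul_sum]
    refine Real.exp_le_exp.2 (mul_le_mul_of_nonneg_left ?_ (by norm_num))
    exact Finset.sum_le_sum_of_subset_of_nonneg hsub fun p _ _ => by positivity
  have hm := hC l (by linarith [show (3000 : ℝ) ≤ l by exact_mod_cast hl])
  have hm2 : ∑ p ∈ EK75.prLe l, (1 : ℝ) / p ≤ Real.log (Real.log l) + C := by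
    have := (abs_le.1 hm).2
    linarith
  have hlog0 : 0 < Real.log l := by linarith
  calc ∑ m ∈ T, fl l m ≤ Real.exp (50 * ∑ p ∈ EK75.prLe l, (1 : ℝ) / p) := hle.trans hprod
    _ ≤ Real.exp (50 * (Real.log (Real.log l) + C)) := by
        apply Real.exp_le_exp.2; linarith
    _ = Real.exp (50 * C) * (Real.log l) ^ 50 := by
        rw [mul_add, Real.exp_add, mul_comm (Real.exp _)]
        congr 1
        rw [show (50 : ℝ) = ((50 : ℕ) : ℝ) by norm_num, Real.exp_nat_mul, Real.exp_log hlog0]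
    _ ≤ Real.exp (50 * C) * (2000 * (l : ℝ) ^ ((1 : ℝ) / 2000)) ^ 50 := by
        refine mul_le_mul_of_nonneg_left ?_ (Real.exp_pos _).le
        refine pow_le_pow_left₀ hlog0.le ?_ 50
        have := Real.log_le_rpow_div hl0.le (show (0 : ℝ) < 1 / 2000 by norm_num)
        linarith
    _ = Real.exp (50 * C) * 2000 ^ 50 * (l : ℝ) ^ ((1 : ℝ) / 40) := by
        rw [mul_pow, ← Real.rpow_natCast ((l : ℝ) ^ ((1 : ℝ) / 2000)) 50, ← Real.rpow_mul hl0.le]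
        norm_num
        ring

end Pool.H53.NA

end S_NA_Smo

section S_NA_Sma

/-!
Row Sma: tails of sums over smooth numbers.  PROOF of `tail_smooth`.  `C`, `L` from `smooth_sum`, `l = l0 + 1`,
`σ = 1/log l`.  For `d ∈ T` all primes of `d` are `≤ gpf d ≤ l0 < l`.  `1 + log d ≤ (log l) d^σ` (`1 + x ≤ e^x`, `x = σ log d`, and
`log l ≥ 1`), and `d > y` gives `d^σ ≤ y^(-σ) d^(2σ)`.  So
`(1 + log d)/d ≤ (log l) y^(-σ) d^(-1+2σ) ≤ (log l) y^(-σ) fl l d`; sum and use `smooth_sum`.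
-/


namespace Pool.H53.NA

private lemma Sma_one (L y d : ℝ) (hL : 1 ≤ L) (hy : 1 ≤ y) (hd : y < d) :
    (1 + Real.log d) / d ≤ L * y ^ (-1 / L) * d ^ (-1 + 2 / L) := by
  have hd0 : 0 < d := by linarith
  have hy0 : 0 < y := by linarith
  have hL0 : 0 < L := by linarith
  have h1 : 1 + Real.log d ≤ L * d ^ (1 / L) := by
    have h2 := Real.add_one_le_exp (Real.log d * (1 / L))
    rw [Real.rpow_def_of_pos hd0]
    have h3 : Real.log d = L * (Real.log d * (1 / L)) := by field_simp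
    calc 1 + Real.log d ≤ L + L * (Real.log d * (1 / L)) := by
          rw [← h3]; linarith
      _ = L * (Real.log d * (1 / L) + 1) := by ring
      _ ≤ L * Real.exp (Real.log d * (1 / L)) := mul_le_mul_of_nonneg_left h2 hL0.le
  have h4 : d ^ (1 / L) ≤ y ^ (-1 / L) * d ^ (2 / L) := by
    have h5 : d ^ (2 / L) = d ^ (1 / L) * d ^ (1 / L) := by
      rw [← Real.rpow_add hd0]; congr 1; ring
    have h6 : (1 : ℝ) ≤ y ^ (-1 / L) * d ^ (1 / L) := by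
      have h7 : y ^ (1 / L) ≤ d ^ (1 / L) := Real.rpow_le_rpow hy0.le hd.le (by positivity)
      have h8 : y ^ (-1 / L) * y ^ (1 / L) = 1 := by
        rw [← Real.rpow_add hy0]
        rw [show -1 / L + 1 / L = 0 by ring, Real.rpow_zero]
      have h9 : 0 ≤ y ^ (-1 / L) := by positivity
      calc (1 : ℝ) = y ^ (-1 / L) * y ^ (1 / L) := h8.symm
        _ ≤ y ^ (-1 / L) * d ^ (1 / L) := mul_le_mul_of_nonneg_left h7 h9
    have h10 : 0 ≤ d ^ (1 / L) := by positivity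
    rw [h5]
    nlinarith
  have h11 : d ^ (-1 + 2 / L) = d ^ (2 / L) / d := by
    rw [Real.rpow_add hd0, Real.rpow_neg_one]; ring
  rw [h11, div_le_iff₀ hd0]
  calc 1 + Real.log d ≤ L * d ^ (1 / L) := h1
    _ ≤ L * (y ^ (-1 / L) * d ^ (2 / L)) := mul_le_mul_of_nonneg_left h4 hL0.le
    _ = L * y ^ (-1 / L) * (d ^ (2 / L) / d) * d := by field_simp

theorem tail_smooth : ∃ C : ℝ, 0 < C ∧ ∃ L : ℕ, 3000 ≤ L ∧ ∀ l0 : ℕ, L ≤ l0 → ∀ y : ℝ, 1 ≤ y →
    ∀ T : Finset ℕ, (∀ d ∈ T, d ≠ 0 ∧ gpf d ≤ l0 ∧ y < d) →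
    ∑ d ∈ T, (1 + Real.log d) / d
      ≤ C * Real.log (l0 + 1) * y ^ (-1 / Real.log (l0 + 1)) * ((l0 : ℝ) + 1) ^ ((1 : ℝ) / 40) := by
  obtain ⟨C, hC, L, hL, h⟩ := smooth_sum
  refine ⟨C, hC, L, hL, ?_⟩
  intro l0 hl0 y hy T hT
  have hlog : 1 ≤ Real.log ((l0 : ℝ) + 1) := by
    rw [Real.le_log_iff_exp_le (by positivity)]
    have h1 : (3000 : ℝ) ≤ l0 := by exact_mod_cast hL.trans hl0
    have h2 := Real.exp_one_lt_d9
    linarith
  have hs := h (l0 + 1) (by omega) T (by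
    intro m hm
    obtain ⟨h1, h2, _⟩ := hT m hm
    refine ⟨h1, fun p hp hpm => ?_⟩
    have h3 : p ≤ gpf m :=
      Finset.le_sup (f := id) (Nat.mem_primeFactors.2 ⟨hp, hpm, h1⟩)
    omega)
  have hcast : (((l0 + 1 : ℕ)) : ℝ) = (l0 : ℝ) + 1 := by push_cast; ring
  rw [hcast] at hs
  have hterm : ∀ d ∈ T, (1 + Real.log d) / d ≤
      Real.log ((l0 : ℝ) + 1) * y ^ (-1 / Real.log ((l0 : ℝ) + 1)) * fl (l0 + 1) d := by
    intro d hd
    obtain ⟨h1, _, h3⟩ := hT d hd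
    have h4 := Sma_one _ y d hlog hy h3
    refine h4.trans ?_
    have h5 : (0 : ℝ) ≤ Real.log ((l0 : ℝ) + 1) * y ^ (-1 / Real.log ((l0 : ℝ) + 1)) := by
      have : (0 : ℝ) < y := by linarith
      positivity
    refine mul_le_mul_of_nonneg_left ?_ h5
    unfold fl
    rw [hcast]
    have h6 : (1 : ℝ) ≤ (4 / 3 : ℝ) ^ (ArithmeticFunction.cardFactors d) :=
      one_le_pow₀ (by norm_num)
    have h7 : (0 : ℝ) ≤ (d : ℝ) ^ (-1 + 2 / Real.log ((l0 : ℝ) + 1)) := by positivity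
    nlinarith
  calc ∑ d ∈ T, (1 + Real.log d) / d
      ≤ ∑ d ∈ T, Real.log ((l0 : ℝ) + 1) * y ^ (-1 / Real.log ((l0 : ℝ) + 1)) * fl (l0 + 1) d :=
        Finset.sum_le_sum hterm
    _ = Real.log ((l0 : ℝ) + 1) * y ^ (-1 / Real.log ((l0 : ℝ) + 1)) * ∑ d ∈ T, fl (l0 + 1) d := by
        rw [Finset.mul_sum]
    _ ≤ Real.log ((l0 : ℝ) + 1) * y ^ (-1 / Real.log ((l0 : ℝ) + 1)) *
          (C * ((l0 : ℝ) + 1) ^ ((1 : ℝ) / 40)) := by
        refine mul_le_mul_of_nonneg_left hs ?_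
        have : (0 : ℝ) < y := by linarith
        positivity
    _ = _ := by ring

end Pool.H53.NA

end S_NA_Sma

section S_NA_Ord

/-!
Row Ord: primes with a given order of two.  PROOFS.
* `ord_dvd`: `q ∣ 2 ^ tq q - 1` (`ZMod.natCast_eq_zero_iff`/`pow_orderOf_eq_one`) and `tq q ∣ q - 1`
  (`ZMod.orderOf_dvd_card_sub_one`/`orderOf_dvd_of_pow_eq_one` with Fermat `ZMod.pow_card_sub_one_eq_one`); `2 ≤ tq q` for an odd prime `q`
  (`2 ^ 1 ≠ 1`).  `q < 2 ^ tq q`.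
* `ord_card`: the distinct primes `q ∈ P` with `tq q = d` divide `2^d - 1`, so their product does
  (`Finset.prod_primes_dvd`), and `2 ^ card ≤ ∏ q ≤ 2^d - 1`.
* `ord_recip`: `q = j d + 1` with `j = (q-1)/d ≥ 1`, injective in `q`; so `∑ 1/q ≤ (1/d) ∑_{j ∈ J} 1/j` with `J` a set of at
  most `d` positive integers, `∑_{j∈J} 1/j ≤ ∑_{j ≤ d} 1/j ≤ 1 + log d` (`harmonic_le_one_add_log`).
* `bad_sum`: `∑ 1/(tq q)^3 = ∑_{d > l0} #{q : tq q = d}/d^3 ≤ ∑_{d > l0} 1/d^2 ≤ 1/l0` (`1/d² ≤ 1/(d-1) - 1/d`).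
-/


namespace Pool.H53.NA

theorem ord_dvd (q : ℕ) (hq : q.Prime) (h2 : q ≠ 2) :
    q ∣ 2 ^ tq q - 1 ∧ tq q ∣ q - 1 ∧ 2 ≤ tq q ∧ q < 2 ^ tq q := by
  have : Fact q.Prime := ⟨hq⟩
  have h20 : (2 : ZMod q) ≠ 0 := by
    intro h
    have h3 : ((2 : ℕ) : ZMod q) = 0 := by exact_mod_cast h
    rw [ZMod.natCast_eq_zero_iff] at h3
    exact h2 ((Nat.prime_dvd_prime_iff_eq hq Nat.prime_two).1 h3)
  have h3 : tq q ∣ q - 1 := ZMod.orderOf_dvd_card_sub_one h20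
  have hq1 : 0 < q - 1 := by
    have := hq.two_le
    omega
  have h4 : 0 < tq q := Nat.pos_of_dvd_of_pos h3 hq1
  have h5 : tq q ≠ 1 := by
    intro h
    have h6 : (2 : ZMod q) = 1 := orderOf_eq_one_iff.1 h
    have h7 : (1 : ZMod q) = 0 := by
      have : (2 : ZMod q) - 1 = 1 - 1 := by rw [h6]
      rw [sub_self] at this
      have h8 : (2 : ZMod q) - 1 = 1 := by ring
      rw [← this, h8]
    exact one_ne_zero h7
  have h6 : q ∣ 2 ^ tq q - 1 := by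
    rw [← ZMod.natCast_eq_zero_iff, Nat.cast_sub Nat.one_le_two_pow]
    push_cast
    rw [tq, pow_orderOf_eq_one, sub_self]
  have h7 : 2 ≤ tq q := by omega
  have h8 : 2 ^ 1 < 2 ^ tq q := Nat.pow_lt_pow_right (by norm_num) (by omega)
  have h9 : q ≤ 2 ^ tq q - 1 := Nat.le_of_dvd (by omega) h6
  exact ⟨h6, h3, h7, by omega⟩

theorem ord_card (P : Finset ℕ) (hP : ∀ q ∈ P, q.Prime ∧ q ≠ 2) (d : ℕ) :
    (P.filter fun q => tq q = d).card ≤ d := by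
  rcases (P.filter fun q => tq q = d).eq_empty_or_nonempty with he | ⟨q0, hq0⟩
  · rw [he]
    exact Nat.zero_le _
  · have hd : 2 ≤ d := by
      obtain ⟨h1, h2⟩ := Finset.mem_filter.1 hq0
      rw [← h2]
      exact (ord_dvd q0 (hP q0 h1).1 (hP q0 h1).2).2.2.1
    have h1 : ∏ q ∈ P.filter (fun q => tq q = d), q ∣ 2 ^ d - 1 := by
      apply Finset.prod_primes_dvd
      · intro q hq
        exact (hP q (Finset.mem_filter.1 hq).1).1.prime
      · intro q hq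
        obtain ⟨h1, h2⟩ := Finset.mem_filter.1 hq
        rw [← h2]
        exact (ord_dvd q (hP q h1).1 (hP q h1).2).1
    have h2 : 2 ^ (P.filter fun q => tq q = d).card ≤ ∏ q ∈ P.filter (fun q => tq q = d), q := by
      rw [← Finset.prod_const]
      exact Finset.prod_le_prod' fun q hq => (hP q (Finset.mem_filter.1 hq).1).1.two_le
    have h3 : 2 ^ 1 ≤ 2 ^ d := Nat.pow_le_pow_right (by norm_num) (by omega)
    have h4 := Nat.le_of_dvd (by omega) h1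
    have h5 : 2 ^ (P.filter fun q => tq q = d).card < 2 ^ d := by omega
    exact ((Nat.pow_lt_pow_iff_right (by norm_num)).1 h5).le

theorem ord_harm (J : Finset ℕ) (d : ℕ) (hd : 1 ≤ d) (h0 : ∀ j ∈ J, 1 ≤ j) (hJ : J.card ≤ d) :
    ∑ j ∈ J, ((j : ℝ))⁻¹ ≤ 1 + Real.log d := by
  have h1 : ∑ j ∈ J, ((j : ℝ))⁻¹ ≤ ∑ j ∈ Finset.Icc 1 d, ((j : ℝ))⁻¹ := by
    have hd0 : (0 : ℝ) < d := by exact_mod_cast hd
    rw [← Finset.sum_inter_add_sum_sdiff J (Finset.Icc 1 d) (fun j => ((j : ℝ))⁻¹),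
      ← Finset.sum_inter_add_sum_sdiff (Finset.Icc 1 d) J (fun j => ((j : ℝ))⁻¹),
      Finset.inter_comm J]
    have h2 : ∑ j ∈ J \ Finset.Icc 1 d, ((j : ℝ))⁻¹ ≤ (J \ Finset.Icc 1 d).card • ((d : ℝ))⁻¹ := by
      apply Finset.sum_le_card_nsmul
      intro j hj
      rw [Finset.mem_sdiff, Finset.mem_Icc] at hj
      have h3 := h0 j hj.1
      have h4 : d ≤ j := by
        by_contra h
        exact hj.2 ⟨h3, by omega⟩
      exact inv_anti₀ hd0 (by exact_mod_cast h4)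
    have h3 : (Finset.Icc 1 d \ J).card • ((d : ℝ))⁻¹ ≤ ∑ j ∈ Finset.Icc 1 d \ J, ((j : ℝ))⁻¹ := by
      apply Finset.card_nsmul_le_sum
      intro j hj
      rw [Finset.mem_sdiff, Finset.mem_Icc] at hj
      have h5 : (0 : ℝ) < j := by exact_mod_cast hj.1.1
      exact inv_anti₀ h5 (by exact_mod_cast hj.1.2)
    have h4 : (J \ Finset.Icc 1 d).card ≤ (Finset.Icc 1 d \ J).card := by
      have h5 := Finset.card_sdiff_add_card_inter J (Finset.Icc 1 d)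
      have h6 := Finset.card_sdiff_add_card_inter (Finset.Icc 1 d) J
      rw [Finset.inter_comm] at h6
      have h7 : (Finset.Icc 1 d).card = d := by simp
      omega
    have h5 : (J \ Finset.Icc 1 d).card • ((d : ℝ))⁻¹ ≤
        (Finset.Icc 1 d \ J).card • ((d : ℝ))⁻¹ := by
      rw [nsmul_eq_mul, nsmul_eq_mul]
      exact mul_le_mul_of_nonneg_right (by exact_mod_cast h4) (by positivity)
    linarith
  have h2 := harmonic_le_one_add_log d
  rw [harmonic_eq_sum_Icc] at h2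
  push_cast at h2
  exact h1.trans h2

theorem ord_recip (P : Finset ℕ) (hP : ∀ q ∈ P, q.Prime ∧ q ≠ 2) (d : ℕ) (hd : 1 ≤ d) :
    ∑ q ∈ P.filter (fun q => tq q = d), (1 : ℝ) / q ≤ (1 + Real.log d) / d := by
  have hd0 : (0 : ℝ) < d := by exact_mod_cast hd
  set F := P.filter (fun q => tq q = d) with hF
  have hdiv : ∀ q ∈ F, d ∣ q - 1 := by
    intro q hq
    obtain ⟨h1, h2⟩ := Finset.mem_filter.1 hq
    rw [← h2]
    exact (ord_dvd q (hP q h1).1 (hP q h1).2).2.1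
  have h2le : ∀ q ∈ F, 2 ≤ q := fun q hq => (hP q (Finset.mem_filter.1 hq).1).1.two_le
  have hmul : ∀ q ∈ F, d * ((q - 1) / d) = q - 1 := fun q hq => Nat.mul_div_cancel' (hdiv q hq)
  have hinj : Set.InjOn (fun q => (q - 1) / d) (F : Set ℕ) := by
    intro q hq q' hq' h
    have h1 := hmul q hq
    have h2 := hmul q' hq'
    have h3 := h2le q hq
    have h4 := h2le q' hq'
    have h5 : (q - 1) / d = (q' - 1) / d := h
    rw [h5] at h1
    omega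
  have hpos : ∀ q ∈ F, 1 ≤ (q - 1) / d := by
    intro q hq
    have h1 := hmul q hq
    have h3 := h2le q hq
    rcases Nat.eq_zero_or_pos ((q - 1) / d) with h4 | h4
    · rw [h4] at h1
      omega
    · exact h4
  have hJ := ord_harm (F.image fun q => (q - 1) / d) d hd (by
    intro j hj
    obtain ⟨q, hq, rfl⟩ := Finset.mem_image.1 hj
    exact hpos q hq) (Finset.card_image_le.trans (ord_card P hP d))
  rw [Finset.sum_image hinj] at hJ
  have h6 : ∑ q ∈ F, (1 : ℝ) / q ≤ (∑ q ∈ F, (((q - 1) / d : ℕ) : ℝ)⁻¹) / d := by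
    rw [Finset.sum_div]
    apply Finset.sum_le_sum
    intro q hq
    have h1 := hmul q hq
    have h2 := hpos q hq
    have h3 := h2le q hq
    have h4 : (0 : ℝ) < (((q - 1) / d : ℕ) : ℝ) := by exact_mod_cast h2
    have h5 : (d : ℝ) * (((q - 1) / d : ℕ) : ℝ) ≤ q := by
      have : d * ((q - 1) / d) ≤ q := by omega
      exact_mod_cast this
    rw [one_div, div_eq_mul_inv, ← mul_inv, mul_comm]
    exact inv_anti₀ (by positivity) h5
  exact h6.trans (div_le_div_of_nonneg_right hJ hd0.le)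

theorem bad_sum (P : Finset ℕ) (hP : ∀ q ∈ P, q.Prime ∧ q ≠ 2) (l0 : ℕ) (hl : 1 ≤ l0)
    (hg : ∀ q ∈ P, l0 < tq q) : ∑ q ∈ P, (1 : ℝ) / (tq q : ℝ) ^ 3 ≤ 1 / l0 := by
  rw [Finset.sum_comp (fun d : ℕ => (1 : ℝ) / (d : ℝ) ^ 3) tq]
  set T := P.image tq with hT
  have hTl : ∀ d ∈ T, l0 < d := by
    intro d hd
    obtain ⟨q, hq, rfl⟩ := Finset.mem_image.1 hd
    exact hg q hq
  have h1 : ∑ d ∈ T, (P.filter fun q => tq q = d).card • ((1 : ℝ) / (d : ℝ) ^ 3) ≤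
      ∑ d ∈ T, ((d : ℝ) ^ 2)⁻¹ := by
    apply Finset.sum_le_sum
    intro d hd
    have h2 := hTl d hd
    have h3 : (0 : ℝ) < d := by exact_mod_cast (by omega : 0 < d)
    have h4 : ((P.filter fun q => tq q = d).card : ℝ) ≤ d := by exact_mod_cast ord_card P hP d
    rw [nsmul_eq_mul]
    calc ((P.filter fun q => tq q = d).card : ℝ) * (1 / (d : ℝ) ^ 3)
        ≤ (d : ℝ) * (1 / (d : ℝ) ^ 3) := mul_le_mul_of_nonneg_right h4 (by positivity)
      _ = ((d : ℝ) ^ 2)⁻¹ := by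
        field_simp
  have h5 : T ⊆ Finset.Ioc l0 (T.sup id + l0) := by
    intro d hd
    rw [Finset.mem_Ioc]
    have h6 : d ≤ T.sup id := Finset.le_sup (f := id) hd
    exact ⟨hTl d hd, by omega⟩
  have h7 : ∑ d ∈ T, ((d : ℝ) ^ 2)⁻¹ ≤ ∑ d ∈ Finset.Ioc l0 (T.sup id + l0), ((d : ℝ) ^ 2)⁻¹ :=
    Finset.sum_le_sum_of_subset_of_nonneg h5 (fun d _ _ => by positivity)
  have h8 := sum_Ioc_inv_sq_le_sub (α := ℝ) (k := l0) (n := T.sup id + l0) (by omega) (by omega)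
  have h9 : (0 : ℝ) ≤ ((T.sup id + l0 : ℕ) : ℝ)⁻¹ := by positivity
  rw [one_div]
  linarith

end Pool.H53.NA

end S_NA_Ord

section S_NA_Smb

/-!
Row Smb: primes `q` for which the order of two is smooth.  PROOF of `smooth_recip`.  `y = exp((log (l0+1))²)`.
The `q ∈ F` with `tq q > y`: grouping by `d = tq q`, `∑ 1/q ≤ ∑_d (1 + log d)/d` (`ord_recip`) over a set of `d > y` with
`gpf d ≤ l0`, so by `tail_smooth` it is `≤ C log(l0+1) e^{-log(l0+1)} (l0+1)^(1/40) ≤ C'`.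
The `q ∈ F` with `tq q ≤ y`: there are at most `∑_{d≤y} d ≤ y(y+1) ≤ 2 y²` of them (`ord_card`); those with `q > y²` contribute at most `2`,
the others at most `∑_{p ≤ y²} 1/p ≤ log log(y²) + C = log 2 + 2 log log (l0+1) + C` (`mert5` of `Pool.Agent.H75.EK.Mert`), and
`log log(l0+1) ≤ log log l0 + 1`.
-/


namespace Pool.H53.NA

open Finset in
/-- the primes with a large order. -/
theorem smb_large (C : ℝ) (hC : 0 < C) (l0 : ℕ) (hl : 3000 ≤ l0)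
    (h : ∀ y : ℝ, 1 ≤ y →
    ∀ T : Finset ℕ, (∀ d ∈ T, d ≠ 0 ∧ gpf d ≤ l0 ∧ y < d) →
    ∑ d ∈ T, (1 + Real.log d) / d
      ≤ C * Real.log (l0 + 1) * y ^ (-1 / Real.log (l0 + 1)) * ((l0 : ℝ) + 1) ^ ((1 : ℝ) / 40))
    (F : Finset ℕ)
    (hF : ∀ q ∈ F, q.Prime ∧ q ≠ 2 ∧ gpf (tq q) ≤ l0 ∧
      Real.exp (Real.log (l0 + 1) ^ 2) < tq q) :
    ∑ q ∈ F, (1 : ℝ) / q ≤ 2 * C := by
  obtain ⟨x, hx⟩ : ∃ x : ℝ, x = Real.log (l0 + 1) := ⟨_, rfl⟩
  have hl1 : (1 : ℝ) < (l0 : ℝ) + 1 := by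
    have : (3000 : ℝ) ≤ l0 := by exact_mod_cast hl
    linarith
  have hx0 : 0 < x := by
    rw [hx]
    exact Real.log_pos hl1
  have hxe : Real.exp x = (l0 : ℝ) + 1 := by
    rw [hx]
    exact Real.exp_log (by linarith)
  have h1 : ∑ q ∈ F, (1 : ℝ) / q ≤ ∑ d ∈ F.image tq, (1 + Real.log d) / d := by
    rw [← Finset.sum_fiberwise_of_maps_to (fun q hq => Finset.mem_image_of_mem tq hq)]
    refine Finset.sum_le_sum (fun d hd => ?_)
    refine ord_recip F (fun q hq => ⟨(hF q hq).1, (hF q hq).2.1⟩) d ?_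
    obtain ⟨q, hq, rfl⟩ := Finset.mem_image.mp hd
    have := (ord_dvd q (hF q hq).1 (hF q hq).2.1).2.2.1
    omega
  refine h1.trans ?_
  have h2 := h (Real.exp (x ^ 2)) (Real.one_le_exp (sq_nonneg x)) (F.image tq) (by
    intro d hd
    obtain ⟨q, hq, rfl⟩ := Finset.mem_image.mp hd
    have h3 := (ord_dvd q (hF q hq).1 (hF q hq).2.1).2.2.1
    refine ⟨by omega, (hF q hq).2.2.1, ?_⟩
    rw [hx]
    exact (hF q hq).2.2.2)
  refine h2.trans ?_
  rw [← hx, ← hxe, ← Real.exp_mul, ← Real.exp_mul]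
  have h4 : x ^ 2 * (-1 / x) = -x := by
    field_simp
  rw [h4]
  have h5 : x ≤ 2 * Real.exp (x / 2) := by
    have := Real.add_one_le_exp (x / 2)
    linarith
  have h6 : C * x * Real.exp (-x) * Real.exp (x * (1 / 40)) ≤
      C * (2 * Real.exp (x / 2)) * Real.exp (-x) * Real.exp (x * (1 / 40)) := by
    have := Real.exp_pos (-x)
    have := Real.exp_pos (x * (1 / 40))
    gcongr
  refine h6.trans ?_
  have h7 : C * (2 * Real.exp (x / 2)) * Real.exp (-x) * Real.exp (x * (1 / 40)) =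
      2 * C * Real.exp (x / 2 + -x + x * (1 / 40)) := by
    rw [Real.exp_add, Real.exp_add]
    ring
  rw [h7]
  have h8 : Real.exp (x / 2 + -x + x * (1 / 40)) ≤ 1 := by
    rw [Real.exp_le_one_iff]
    linarith
  have h9 : 0 ≤ 2 * C := by linarith
  calc 2 * C * Real.exp (x / 2 + -x + x * (1 / 40)) ≤ 2 * C * 1 :=
        mul_le_mul_of_nonneg_left h8 h9
    _ = 2 * C := mul_one _

open Finset in
theorem smb_card (y : ℝ) (hy : 1 ≤ y) (F : Finset ℕ)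
    (hF : ∀ q ∈ F, q.Prime ∧ q ≠ 2 ∧ (tq q : ℝ) ≤ y) : (F.card : ℝ) ≤ 2 * y ^ 2 := by
  have h1 : F.card ≤ ∑ d ∈ range (⌊y⌋₊ + 1), d := by
    rw [Finset.card_eq_sum_card_fiberwise (f := tq) (t := range (⌊y⌋₊ + 1))]
    · exact Finset.sum_le_sum (fun d _ =>
        ord_card F (fun q hq => ⟨(hF q hq).1, (hF q hq).2.1⟩) d)
    · intro q hq
      have := Nat.le_floor (hF q hq).2.2
      simp only [Finset.coe_range, Set.mem_Iio]
      omega
  have h2 : ∑ d ∈ range (⌊y⌋₊ + 1), d ≤ (⌊y⌋₊ + 1) * ⌊y⌋₊ := by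
    calc ∑ d ∈ range (⌊y⌋₊ + 1), d ≤ ∑ d ∈ range (⌊y⌋₊ + 1), ⌊y⌋₊ :=
          Finset.sum_le_sum (fun d hd => by
            rw [Finset.mem_range] at hd
            omega)
      _ = (⌊y⌋₊ + 1) * ⌊y⌋₊ := by
          rw [Finset.sum_const, Finset.card_range, smul_eq_mul]
  have h3 : (F.card : ℝ) ≤ ((⌊y⌋₊ : ℝ) + 1) * ⌊y⌋₊ := by exact_mod_cast h1.trans h2
  have h4 : (⌊y⌋₊ : ℝ) ≤ y := Nat.floor_le (by linarith)
  have h5 : (0 : ℝ) ≤ ⌊y⌋₊ := Nat.cast_nonneg _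
  nlinarith

open Finset in
theorem smb_small (C : ℝ) (hC : ∀ x : ℝ, 2 ≤ x →
    |∑ p ∈ EK75.prLe x, (1 : ℝ) / p - Real.log (Real.log x)| ≤ C) (y : ℝ) (hy : 2 ≤ y)
    (F : Finset ℕ) (hF : ∀ q ∈ F, q.Prime ∧ q ≠ 2 ∧ (tq q : ℝ) ≤ y) :
    ∑ q ∈ F, (1 : ℝ) / q ≤ 2 + Real.log (Real.log (y ^ 2)) + C := by
  rw [← Finset.sum_filter_add_sum_filter_not F (fun q : ℕ => (q : ℝ) ≤ y ^ 2)]
  have hy2 : 0 < y ^ 2 := by positivity
  have h1 : ∑ q ∈ F.filter (fun q : ℕ => (q : ℝ) ≤ y ^ 2), (1 : ℝ) / q ≤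
      ∑ p ∈ EK75.prLe (y ^ 2), (1 : ℝ) / p := by
    refine Finset.sum_le_sum_of_subset_of_nonneg ?_ (fun p _ _ => by positivity)
    intro q hq
    rw [Finset.mem_filter] at hq
    unfold EK75.prLe
    rw [Finset.mem_filter, Finset.mem_range]
    refine ⟨?_, (hF q hq.1).1⟩
    have := Nat.le_floor hq.2
    omega
  have h2 := (abs_le.mp (hC (y ^ 2) (by nlinarith))).2
  have h3 : ∑ q ∈ F.filter (fun q : ℕ => ¬ (q : ℝ) ≤ y ^ 2), (1 : ℝ) / q ≤ 2 := by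
    calc ∑ q ∈ F.filter (fun q : ℕ => ¬ (q : ℝ) ≤ y ^ 2), (1 : ℝ) / q
        ≤ ∑ q ∈ F.filter (fun q : ℕ => ¬ (q : ℝ) ≤ y ^ 2), 1 / y ^ 2 := by
          refine Finset.sum_le_sum (fun q hq => ?_)
          rw [Finset.mem_filter, not_le] at hq
          exact one_div_le_one_div_of_le hy2 hq.2.le
      _ = ((F.filter (fun q : ℕ => ¬ (q : ℝ) ≤ y ^ 2)).card : ℝ) * (1 / y ^ 2) := by
          rw [Finset.sum_const, nsmul_eq_mul]
      _ ≤ (F.card : ℝ) * (1 / y ^ 2) := by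
          refine mul_le_mul_of_nonneg_right ?_ (by positivity)
          exact_mod_cast Finset.card_filter_le _ _
      _ ≤ (2 * y ^ 2) * (1 / y ^ 2) :=
          mul_le_mul_of_nonneg_right (smb_card y (by linarith) F hF) (by positivity)
      _ = 2 := by
          field_simp
  linarith

theorem smooth_recip : ∃ C : ℝ, ∃ L : ℕ, 3000 ≤ L ∧ ∀ l0 : ℕ, L ≤ l0 → ∀ F : Finset ℕ,
    (∀ q ∈ F, q.Prime ∧ q ≠ 2 ∧ gpf (tq q) ≤ l0) →
    ∑ q ∈ F, (1 : ℝ) / q ≤ 2 * Real.log (Real.log l0) + C := by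
  obtain ⟨C, hC, L, hL, h⟩ := tail_smooth
  obtain ⟨C5, h5⟩ := EK75.mert5
  refine ⟨2 * C + 2 + C5 + 3, L, hL, ?_⟩
  intro l0 hl0 F hF
  obtain ⟨x, hx⟩ : ∃ x : ℝ, x = Real.log (l0 + 1) := ⟨_, rfl⟩
  have hl3 : (3000 : ℝ) ≤ l0 := by exact_mod_cast hL.trans hl0
  have hlog0 : 1 ≤ Real.log l0 := by
    rw [Real.le_log_iff_exp_le (by linarith)]
    have := Real.exp_one_lt_d9
    linarith
  have hx1 : Real.log l0 ≤ x := by
    rw [hx]
    exact Real.log_le_log (by linarith) (by linarith)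
  have hx2 : x ≤ 2 * Real.log l0 := by
    rw [hx]
    have e1 : (2 : ℝ) * Real.log l0 = Real.log ((l0 : ℝ) ^ 2) := by
      rw [Real.log_pow]
      norm_num
    rw [e1]
    exact Real.log_le_log (by linarith) (by nlinarith)
  have hy2 : (2 : ℝ) ≤ Real.exp (x ^ 2) := by
    have := Real.add_one_le_exp (x ^ 2)
    nlinarith
  rw [← Finset.sum_filter_add_sum_filter_not F (fun q : ℕ => (tq q : ℝ) ≤ Real.exp (x ^ 2))]
  have h6 := smb_small C5 h5 (Real.exp (x ^ 2)) hy2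
    (F.filter (fun q : ℕ => (tq q : ℝ) ≤ Real.exp (x ^ 2))) (by
      intro q hq
      rw [Finset.mem_filter] at hq
      exact ⟨(hF q hq.1).1, (hF q hq.1).2.1, hq.2⟩)
  have h7 := smb_large C hC l0 (hL.trans hl0) (h l0 hl0)
    (F.filter (fun q : ℕ => ¬ (tq q : ℝ) ≤ Real.exp (x ^ 2))) (by
      intro q hq
      rw [Finset.mem_filter, not_le] at hq
      refine ⟨(hF q hq.1).1, (hF q hq.1).2.1, (hF q hq.1).2.2, ?_⟩
      rw [← hx]
      exact hq.2)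
  have h8 : Real.log (Real.log (Real.exp (x ^ 2) ^ 2)) ≤ 2 * Real.log (Real.log l0) + 3 := by
    have e1 : Real.exp (x ^ 2) ^ 2 = Real.exp (2 * x ^ 2) := by
      rw [← Real.exp_nat_mul]
      norm_num
    rw [e1, Real.log_exp]
    have e2 : 2 * x ^ 2 ≤ 8 * Real.log l0 ^ 2 := by nlinarith
    have e3 : 0 < 2 * x ^ 2 := by nlinarith
    have e4 : Real.log (8 * Real.log l0 ^ 2) = Real.log 8 + 2 * Real.log (Real.log l0) := by
      rw [Real.log_mul (by norm_num) (by positivity), Real.log_pow]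
      norm_num
    have e5 : Real.log 8 ≤ 3 := by
      have e6 : (8 : ℝ) = 2 ^ 3 := by norm_num
      rw [e6, Real.log_pow]
      have := Real.log_two_lt_d9
      norm_num
      linarith
    have e7 := Real.log_le_log e3 e2
    rw [e4] at e7
    linarith
  linarith

end Pool.H53.NA

end S_NA_Smb

section S_NA_Smc

/-!
Row Smc.  PROOFS.
`smooth_prod`: `1 - 1/q ≥ exp(-2/q)` for `q ≥ 3` (`Real.one_sub_inv_le_log_of_pos`, or `exp(2x)(1 - x) ≥ (1+2x)(1-x) ≥ 1` for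
`0 ≤ x ≤ 1/2`); `∏ ≥ exp(-2 ∑ 1/q) ≥ e^{-2C} (log l0)^(-4) ≥ c l0^(-1/4)` (`smooth_recip`; `log l0 ≤ 16 l0^(1/16)`).
`smooth_tail`: grouping by `d = tq q` and `ord_recip`: `∑ 2/q ≤ 2 ∑_{d > d0, gpf d ≤ l0} (1+log d)/d → 0` as `d0 → ∞` (`tail_smooth`,
`y = d0`; `y^(-1/log(l0+1)) → 0`) and `∑ 1/(tq q)^4 ≤ ∑ 1/(tq q)^3 ≤ 1/d0` (`bad_sum`).
-/


namespace Pool.H53.NA

theorem smc_exp (x : ℝ) (h0 : 0 ≤ x) (h1 : x ≤ 1 / 2) : Real.exp (-(2 * x)) ≤ 1 - x := by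
  rw [Real.exp_neg, inv_eq_one_div, div_le_iff₀ (Real.exp_pos _)]
  have h := Real.add_one_le_exp (2 * x)
  have h2 : (1 - x) * (2 * x + 1) ≤ (1 - x) * Real.exp (2 * x) :=
    mul_le_mul_of_nonneg_left h (by linarith)
  nlinarith

theorem smooth_prod : ∃ c : ℝ, 0 < c ∧ ∃ L : ℕ, 1 ≤ L ∧ ∀ l0 : ℕ, L ≤ l0 → ∀ F : Finset ℕ,
    (∀ q ∈ F, q.Prime ∧ q ≠ 2 ∧ gpf (tq q) ≤ l0) →
    c * (l0 : ℝ) ^ (-(1 : ℝ) / 4) ≤ ∏ q ∈ F, (1 - (1 : ℝ) / q) := by
  obtain ⟨C, L, hL, h⟩ := smooth_recip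
  refine ⟨Real.exp (-(2 * C)) / 65536, by positivity, L, by omega, ?_⟩
  intro l0 hl F hF
  have h1 := h l0 hl F hF
  have hl3 : (3000 : ℝ) ≤ l0 := by exact_mod_cast hL.trans hl
  have hl0 : (0 : ℝ) < l0 := by linarith
  have hlog : 0 < Real.log l0 := Real.log_pos (by linarith)
  have h2 : Real.exp (-(2 * ∑ q ∈ F, (1 : ℝ) / q)) ≤ ∏ q ∈ F, (1 - (1 : ℝ) / q) := by
    rw [Finset.mul_sum, ← Finset.sum_neg_distrib, Real.exp_sum]
    refine Finset.prod_le_prod (fun q _ => (Real.exp_pos _).le) ?_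
    intro q hq
    obtain ⟨hp, hq2, _⟩ := hF q hq
    have h3 : (2 : ℝ) ≤ q := by exact_mod_cast hp.two_le
    refine smc_exp _ (by positivity) ?_
    exact one_div_le_one_div_of_le (by norm_num) h3
  refine le_trans ?_ h2
  have h3 : Real.exp (-(2 * (2 * Real.log (Real.log l0) + C))) ≤
      Real.exp (-(2 * ∑ q ∈ F, (1 : ℝ) / q)) := Real.exp_le_exp.2 (by linarith)
  refine le_trans ?_ h3
  have h4 : Real.exp (-(2 * (2 * Real.log (Real.log l0) + C))) =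
      Real.exp (-(2 * C)) / (Real.log l0) ^ 4 := by
    have e1 : -(2 * (2 * Real.log (Real.log l0) + C)) = -(2 * C) - 4 * Real.log (Real.log l0) := by
      ring
    rw [e1, Real.exp_sub]
    congr 1
    have e2 : (4 : ℝ) * Real.log (Real.log l0) = Real.log ((Real.log l0) ^ 4) := by
      rw [Real.log_pow]; push_cast; ring
    rw [e2, Real.exp_log (by positivity)]
  rw [h4]
  have h5 : (Real.log l0) ^ 4 ≤ 65536 * (l0 : ℝ) ^ ((1 : ℝ) / 4) := by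
    have e1 := Real.log_le_rpow_div hl0.le (show (0 : ℝ) < 1 / 16 by norm_num)
    have e2 : (Real.log l0) ^ 4 ≤ ((l0 : ℝ) ^ ((1 : ℝ) / 16) / (1 / 16)) ^ 4 :=
      pow_le_pow_left₀ hlog.le e1 4
    refine e2.trans (le_of_eq ?_)
    have e3 : ((l0 : ℝ) ^ ((1 : ℝ) / 16)) ^ 4 = (l0 : ℝ) ^ ((1 : ℝ) / 4) := by
      rw [← Real.rpow_natCast, ← Real.rpow_mul hl0.le]
      norm_num
    rw [div_pow, e3]
    ring
  have h6 : (l0 : ℝ) ^ (-(1 : ℝ) / 4) = 1 / (l0 : ℝ) ^ ((1 : ℝ) / 4) := by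
    rw [neg_div, Real.rpow_neg hl0.le]; exact inv_eq_one_div _
  rw [h6]
  have h7 : (0 : ℝ) < (l0 : ℝ) ^ ((1 : ℝ) / 4) := Real.rpow_pos_of_pos hl0 _
  have h8 : Real.exp (-(2 * C)) / 65536 * (1 / (l0 : ℝ) ^ ((1 : ℝ) / 4)) =
      Real.exp (-(2 * C)) / (65536 * (l0 : ℝ) ^ ((1 : ℝ) / 4)) := by
    field_simp
  rw [h8]
  exact div_le_div_of_nonneg_left (Real.exp_pos _).le (by positivity) h5

theorem smooth_tail : ∃ L : ℕ, 1 ≤ L ∧ ∀ l0 : ℕ, L ≤ l0 → ∀ ε : ℝ, 0 < ε → ∃ d0 : ℕ,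
    ∀ F : Finset ℕ, (∀ q ∈ F, q.Prime ∧ q ≠ 2 ∧ gpf (tq q) ≤ l0 ∧ d0 < tq q) →
    ∑ q ∈ F, ((2 : ℝ) / q + 1 / (tq q : ℝ) ^ 4) ≤ ε := by
  classical
  obtain ⟨C, hC, L, hL, h⟩ := tail_smooth
  refine ⟨L, by omega, ?_⟩
  intro l0 hl ε hε
  have hl3 : (3000 : ℝ) ≤ l0 := by exact_mod_cast hL.trans hl
  have hlog : 0 < Real.log (l0 + 1) := Real.log_pos (by linarith)
  have ht : Filter.Tendsto (fun d : ℕ => 2 * (C * Real.log (l0 + 1) *
      (d : ℝ) ^ (-1 / Real.log (l0 + 1)) * ((l0 : ℝ) + 1) ^ ((1 : ℝ) / 40)) + 1 / (d : ℝ))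
      Filter.atTop (nhds 0) := by
    have h1 : Filter.Tendsto (fun d : ℕ => (d : ℝ) ^ (-1 / Real.log (l0 + 1))) Filter.atTop (nhds 0) := by
      have h2 := (tendsto_rpow_neg_atTop (show 0 < 1 / Real.log (l0 + 1) by positivity)).comp
        (tendsto_natCast_atTop_atTop (R := ℝ))
      have h3 : -(1 / Real.log (l0 + 1)) = -1 / Real.log (l0 + 1) := by rw [neg_div]
      rw [h3] at h2
      exact h2
    have h4 : Filter.Tendsto (fun d : ℕ => (1 : ℝ) / (d : ℝ)) Filter.atTop (nhds 0) :=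
      tendsto_one_div_atTop_nhds_zero_nat
    have h5 := ((((h1.const_mul (C * Real.log (l0 + 1))).mul_const
      (((l0 : ℝ) + 1) ^ ((1 : ℝ) / 40))).const_mul 2).add h4)
    simpa using h5
  have hev := (ht.eventually (gt_mem_nhds hε)).and (Filter.eventually_ge_atTop 1)
  obtain ⟨d0, hd0, hd1⟩ := hev.exists
  refine ⟨d0, ?_⟩
  intro F hF
  rw [Finset.sum_add_distrib]
  have hF' : ∀ q ∈ F, q.Prime ∧ q ≠ 2 := fun q hq => ⟨(hF q hq).1, (hF q hq).2.1⟩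
  have b1 : ∑ q ∈ F, (1 : ℝ) / (tq q : ℝ) ^ 4 ≤ 1 / d0 := by
    refine le_trans ?_ (bad_sum F hF' d0 hd1 (fun q hq => (hF q hq).2.2.2))
    refine Finset.sum_le_sum fun q hq => ?_
    have h1 : (1 : ℝ) ≤ tq q := by
      have := (hF q hq).2.2.2
      exact_mod_cast (show 1 ≤ tq q by omega)
    refine one_div_le_one_div_of_le (by positivity) ?_
    exact pow_le_pow_right₀ h1 (by norm_num)
  have b2 : ∑ q ∈ F, (1 : ℝ) / q ≤ C * Real.log (l0 + 1) *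
      (d0 : ℝ) ^ (-1 / Real.log (l0 + 1)) * ((l0 : ℝ) + 1) ^ ((1 : ℝ) / 40) := by
    have h1 : ∑ q ∈ F, (1 : ℝ) / q =
        ∑ d ∈ F.image tq, ∑ q ∈ F.filter (fun q => tq q = d), (1 : ℝ) / q :=
      (Finset.sum_fiberwise_of_maps_to (fun q hq => Finset.mem_image_of_mem _ hq) _).symm
    rw [h1]
    refine le_trans (Finset.sum_le_sum fun d hd => ?_)
      (h l0 hl d0 (by exact_mod_cast hd1) (F.image tq) ?_)
    · obtain ⟨q, hq, rfl⟩ := Finset.mem_image.1 hd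
      exact ord_recip F hF' (tq q) (by have := (hF q hq).2.2.2; omega)
    · intro d hd
      obtain ⟨q, hq, rfl⟩ := Finset.mem_image.1 hd
      have h3 := (hF q hq).2.2
      exact ⟨by omega, h3.1, by exact_mod_cast h3.2⟩
  have b3 : ∑ q ∈ F, (2 : ℝ) / q = 2 * ∑ q ∈ F, (1 : ℝ) / q := by
    rw [Finset.mul_sum]
    refine Finset.sum_congr rfl fun q _ => ?_
    ring
  rw [b3]
  linarith

end Pool.H53.NA

end S_NA_Smc

section S_NA_ScA

/-!
The primes with smooth order of two (assembly).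
-/


namespace Pool.H53.NA

theorem cnt_zero (q D s : ℕ) [NeZero q] (n : ZMod q) :
    ((Finset.univ : Finset (Fin s → Fin D)).filter fun k : Fin s → Fin D =>
      n - ∑ i, (2 : ZMod q) ^ (k i : ℕ) = 0).card = rep q D s n := by
  unfold rep
  congr 1
  ext k
  simp only [Finset.mem_filter, Finset.mem_univ, true_and]
  rw [sub_eq_zero, eq_comm]

theorem smooth_count : ∃ c : ℝ, 0 < c ∧ ∃ L : ℕ, 1 ≤ L ∧ ∀ l0 : ℕ, L ≤ l0 → ∃ s1 : ℕ, ∀ s : ℕ,
    s1 ≤ s → ∀ P : Finset ℕ, (∀ q ∈ P, q.Prime ∧ q ≠ 2) → ∀ D : ℕ, 0 < D →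
    (∀ F ⊆ P, (2 : ZMod (∏ q ∈ F, q)) ^ D = 1) → ∀ n : ℤ,
    c * (l0 : ℝ) ^ (-(1 : ℝ) / 4) * (D : ℝ) ^ s ≤
    (((Finset.univ : Finset (Fin s → Fin D)).filter fun k : Fin s → Fin D =>
      ∀ q ∈ P, gpf (tq q) ≤ l0 → ((n : ZMod q) - ∑ i, (2 : ZMod q) ^ (k i : ℕ)) ≠ 0).card : ℝ) := by
  obtain ⟨c, hc, L1, hL1, h1⟩ := smooth_prod
  obtain ⟨L2, hL2, h2⟩ := smooth_tail
  obtain ⟨s0, t1, hs0, ht1, h3⟩ := nt_final
  refine ⟨c / 4, by positivity, max L1 L2, le_trans hL1 (le_max_left _ _), ?_⟩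
  intro l0 hl0
  have hl0L1 : L1 ≤ l0 := (le_max_left _ _).trans hl0
  have hl0L2 : L2 ≤ l0 := (le_max_right _ _).trans hl0
  have hl0pos : (0 : ℝ) < l0 := by
    have : 1 ≤ l0 := hL1.trans hl0L1
    exact_mod_cast this
  set η : ℝ := c * (l0 : ℝ) ^ (-(1 : ℝ) / 4) with hη
  have hη0 : 0 < η := by positivity
  obtain ⟨d0', hd0'⟩ := h2 l0 hl0L2 (η / 4) (by positivity)
  set d0 : ℕ := max d0' t1 with hd0
  set F0 : Finset ℕ := (Finset.range (2 ^ (d0 + 1))).filter fun q => q.Prime ∧ q ≠ 2 with hF0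
  have hmix : ∀ G : Finset ℕ, ∃ s1 : ℕ, (∀ q ∈ G, q.Prime ∧ q ≠ 2) → ∀ s : ℕ, s1 ≤ s →
      ∀ D : ℕ, 0 < D → (2 : ZMod (∏ q ∈ G, q)) ^ D = 1 → ∀ y : ZMod (∏ q ∈ G, q),
      (1 - 1 / 2) * (D : ℝ) ^ s ≤ ((∏ q ∈ G, q : ℕ) : ℝ) * (rep (∏ q ∈ G, q) D s y : ℝ) := by
    intro G
    by_cases hG : ∀ q ∈ G, q.Prime ∧ q ≠ 2
    · have hodd : Odd (∏ q ∈ G, q) := by
        apply Finset.prod_induction _ (fun n => Odd n) (fun a b ha hb => ha.mul hb) odd_one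
        intro q hq
        exact (hG q hq).1.odd_of_ne_two (hG q hq).2
      haveI : NeZero (∏ q ∈ G, q) := ⟨hodd.pos.ne'⟩
      obtain ⟨s1, hs1⟩ := mixing (∏ q ∈ G, q) hodd (1 / 2) (by norm_num)
      exact ⟨s1, fun _ s hs D hD h2 y => hs1 s hs D hD h2 y⟩
    · exact ⟨0, fun h => absurd h hG⟩
  choose sm hsm using hmix
  refine ⟨max s0 (F0.powerset.sup sm), ?_⟩
  intro s hs P hP D hD h2D n
  have hss0 : s0 ≤ s := (le_max_left _ _).trans hs
  have hDR : (0 : ℝ) < D := by exact_mod_cast hD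
  set F : Finset ℕ := P.filter fun q => gpf (tq q) ≤ l0 ∧ tq q ≤ d0 with hF
  set P' : Finset ℕ := P.filter fun q => gpf (tq q) ≤ l0 ∧ d0 < tq q with hP'
  have hFP : F ⊆ P := Finset.filter_subset _ _
  have hFpr : ∀ q ∈ F, q.Prime ∧ q ≠ 2 := fun q hq => hP q (hFP hq)
  have hFF0 : F ∈ F0.powerset := by
    rw [Finset.mem_powerset]
    intro q hq
    rw [hF, Finset.mem_filter] at hq
    rw [hF0, Finset.mem_filter, Finset.mem_range]
    refine ⟨?_, hP q hq.1⟩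
    have := (ord_dvd q (hP q hq.1).1 (hP q hq.1).2).2.2.2
    calc q < 2 ^ tq q := this
      _ ≤ 2 ^ (d0 + 1) := Nat.pow_le_pow_right (by norm_num) (by omega)
  have hsF : sm F ≤ s := by
    have : sm F ≤ F0.powerset.sup sm := Finset.le_sup hFF0
    exact (this.trans (le_max_right _ _)).trans hs
  have hoddF : Odd (∏ q ∈ F, q) := by
    apply Finset.prod_induction _ (fun n => Odd n) (fun a b ha hb => ha.mul hb) odd_one
    intro q hq
    exact (hFpr q hq).1.odd_of_ne_two (hFpr q hq).2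
  haveI : NeZero (∏ q ∈ F, q) := ⟨hoddF.pos.ne'⟩
  have hA := cnt_unit F (fun q hq => (hFpr q hq).1) D s (1 / 2 * (D : ℝ) ^ s)
    (fun y => by
      have := hsm F hFpr s hsF D hD (h2D F hFP) y
      push_cast at this
      calc 1 / 2 * (D : ℝ) ^ s = (1 - 1 / 2) * (D : ℝ) ^ s := by norm_num
        _ ≤ _ := this) (by positivity) n
  have hprod : η ≤ ∏ q ∈ F, (1 - (1 : ℝ) / q) := by
    apply h1 l0 hl0L1 F
    intro q hq
    have := hq
    rw [hF, Finset.mem_filter] at this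
    exact ⟨(hFpr q hq).1, (hFpr q hq).2, this.2.1⟩
  set AA : Finset (Fin s → Fin D) := (Finset.univ : Finset (Fin s → Fin D)).filter
    fun k : Fin s → Fin D => ∀ q ∈ F, ((n : ZMod q) - ∑ i, (2 : ZMod q) ^ (k i : ℕ)) ≠ 0 with hAA
  set TT : Finset (Fin s → Fin D) := (Finset.univ : Finset (Fin s → Fin D)).filter
    fun k : Fin s → Fin D => ∀ q ∈ P, gpf (tq q) ≤ l0 →
      ((n : ZMod q) - ∑ i, (2 : ZMod q) ^ (k i : ℕ)) ≠ 0 with hTT
  set ZZ : ℕ → Finset (Fin s → Fin D) := fun q => (Finset.univ : Finset (Fin s → Fin D)).filter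
    fun k : Fin s → Fin D => ((n : ZMod q) - ∑ i, (2 : ZMod q) ^ (k i : ℕ)) = 0 with hZZ
  have hsub : AA ⊆ TT ∪ P'.biUnion ZZ := by
    intro k hk
    rw [hAA, Finset.mem_filter] at hk
    rw [Finset.mem_union]
    by_cases hk2 : k ∈ TT
    · exact Or.inl hk2
    right
    rw [hTT, Finset.mem_filter] at hk2
    push Not at hk2
    obtain ⟨q, hq, hg, hz⟩ := hk2 (Finset.mem_univ _)
    rw [Finset.mem_biUnion]
    refine ⟨q, ?_, ?_⟩
    · rw [hP', Finset.mem_filter]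
      refine ⟨hq, hg, ?_⟩
      by_contra hcon
      push Not at hcon
      exact hk.2 q (by rw [hF, Finset.mem_filter]; exact ⟨hq, hg, hcon⟩) hz
    · rw [hZZ]
      simp only [Finset.mem_filter, Finset.mem_univ, true_and]
      exact hz
  have hZc : ∀ q ∈ P', ((ZZ q).card : ℝ) ≤ ((2 : ℝ) / q + 1 / (tq q : ℝ) ^ 4) * (D : ℝ) ^ s := by
    intro q hq
    rw [hP', Finset.mem_filter] at hq
    obtain ⟨hqP, hqg, hqd⟩ := hq
    haveI : Fact q.Prime := ⟨(hP q hqP).1⟩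
    have hq0 : (0 : ℝ) < q := by exact_mod_cast (hP q hqP).1.pos
    have hone : (2 : ZMod q) ^ D = 1 := by
      have := h2D {q} (by simpa using hqP)
      rw [Finset.prod_singleton] at this
      exact this
    have e1 : (ZZ q).card = rep q D s n := cnt_zero q D s n
    rw [e1]
    have ht : t1 ≤ orderOf (2 : ZMod q) := by
      have : d0 < orderOf (2 : ZMod q) := hqd
      have := le_max_right d0' t1
      omega
    obtain ⟨ha, hb⟩ := (h3 s D hss0 hD).1 q hone ht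
    have htq : (0 : ℝ) < (tq q : ℝ) := by
      have : 0 < tq q := lt_of_le_of_lt (Nat.zero_le _) hqd
      exact_mod_cast this
    by_cases hgood : q ≤ orderOf (2 : ZMod q) ^ 5
    · calc (rep q D s (n : ZMod q) : ℝ) ≤ 2 / q * (D : ℝ) ^ s := ha hgood _
        _ ≤ _ := by
          gcongr
          have : 0 ≤ 1 / (tq q : ℝ) ^ 4 := by positivity
          linarith
    · push Not at hgood
      calc (rep q D s (n : ZMod q) : ℝ) ≤ (D : ℝ) ^ s / (orderOf (2 : ZMod q) : ℝ) ^ 4 := hb hgood _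
        _ = 1 / (tq q : ℝ) ^ 4 * (D : ℝ) ^ s := by unfold tq; ring
        _ ≤ _ := by
          gcongr
          have : 0 ≤ (2 : ℝ) / q := by positivity
          linarith
  have hZsum : ∑ q ∈ P', ((ZZ q).card : ℝ) ≤ η / 4 * (D : ℝ) ^ s := by
    calc ∑ q ∈ P', ((ZZ q).card : ℝ)
        ≤ ∑ q ∈ P', ((2 : ℝ) / q + 1 / (tq q : ℝ) ^ 4) * (D : ℝ) ^ s := Finset.sum_le_sum hZc
      _ = (∑ q ∈ P', ((2 : ℝ) / q + 1 / (tq q : ℝ) ^ 4)) * (D : ℝ) ^ s := by rw [Finset.sum_mul]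
      _ ≤ η / 4 * (D : ℝ) ^ s := by
        gcongr
        apply hd0' P'
        intro q hq
        rw [hP', Finset.mem_filter] at hq
        refine ⟨(hP q hq.1).1, (hP q hq.1).2, hq.2.1, ?_⟩
        have := le_max_left d0' t1
        have := hq.2.2
        omega
  have hcard : (AA.card : ℝ) ≤ TT.card + ∑ q ∈ P', ((ZZ q).card : ℝ) := by
    have h5 : AA.card ≤ TT.card + ∑ q ∈ P', (ZZ q).card := by
      calc AA.card ≤ (TT ∪ P'.biUnion ZZ).card := Finset.card_le_card hsub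
        _ ≤ TT.card + (P'.biUnion ZZ).card := Finset.card_union_le _ _
        _ ≤ _ := by gcongr; exact Finset.card_biUnion_le
    exact_mod_cast h5
  have hAA2 : η * (1 / 2 * (D : ℝ) ^ s) ≤ (AA.card : ℝ) :=
    (mul_le_mul_of_nonneg_right hprod (by positivity)).trans hA
  have hfin : η / 4 * (D : ℝ) ^ s ≤ (TT.card : ℝ) := by
    have : η * (1 / 2 * (D : ℝ) ^ s) = η / 4 * (D : ℝ) ^ s + η / 4 * (D : ℝ) ^ s := by ring
    linarith
  calc c / 4 * (l0 : ℝ) ^ (-(1 : ℝ) / 4) * (D : ℝ) ^ s = η / 4 * (D : ℝ) ^ s := by rw [hη]; ring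
    _ ≤ _ := hfin

end Pool.H53.NA

end S_NA_ScA
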