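import Mathlib
import Pool.Agent.H53.NM.M1
import Pool.Agent.H53.NM.M4
import Pool.Agent.H53.NM.M5

set_option autoImplicit false

/-! Sums of a prime and powers of two, part M6: this file joins several modules to save build time. -/

section S_NA_Dbl

/-!
Row Dbl: the double sum.  PROOF of `dbl_sum`.  `σ = 1/log l`, `l ≥ 3000` prime, `gpf d = l` for `d ∈ T`, `d = m l^j`, `m = mpt d`,
`j = d.factorization l ≥ 1`, all primes of `m` are `< l`.  `1 + log d ≤ (log l) d^σ` (`1 + x ≤ e^x` with `x = σ log d` gives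
`d^σ ≥ 1 + σ log d`, times `log l ≥ 1`).  `l^(jσ) = e^j`.  So
`(1+log d)(1+log e) wt d e ≤ (log l)² (e/l)^{j1} (e/l)^{j2} ow m1 ow m2 gcd(m1,m2) (m1 m2)^(-1+σ)`.
`∑_{j≥1} (e/l)^j ≤ 2e/l`.  For a finite set `M` of `m`'s: `gcd(m1,m2) ≤ ∑_{g ∣ m1, g ∣ m2} g`, and with `m1 = g a`, `m2 = g b`,
`ow (g a) ≤ ow g ow a`, the sum over `m1, m2 ∈ M` is
`≤ ∑_g g (ow g)² g^(-2+2σ) (∑_a ow a a^(-1+σ))² ≤ G³`, where `g`, `a` run over finite sets of numbers with primes `< l` and
`G` bounds `∑ fl l`: `(ow g)² ≤ (64/49)^ω ≤ (4/3)^Ω(g)`, `ow a ≤ (4/3)^Ω(a)` and `a^(-1+σ) ≤ a^(-1+2σ)`.  By `smooth_sum`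
`G ≤ C l^(1/40)`.  Total `≤ (log l)² (2e/l)² C³ l^(3/40) ≤ C' l^(-3/2)` (`log l ≤ 10 l^(1/10)`).
-/


namespace Pool.H53.NA

theorem dbl_gpf {d l : ℕ} (hl : l.Prime) (h : gpf d = l) :
    d ≠ 0 ∧ 1 ≤ d.factorization l ∧ mpt d ≠ 0 ∧ d = mpt d * l ^ d.factorization l ∧
      ∀ p, p.Prime → p ∣ mpt d → p < l := by
  have hne : d.primeFactors.Nonempty := by
    rw [Finset.nonempty_iff_ne_empty]
    intro he
    have : gpf d = 0 := by
      unfold gpf
      rw [he]
      rfl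
    rw [this] at h
    exact hl.ne_zero h.symm
  have hd : d ≠ 0 := by
    rintro rfl
    simp at hne
  obtain ⟨i, hi, hi2⟩ := Finset.exists_mem_eq_sup d.primeFactors hne id
  have hi3 : i = l := by
    rw [← h]
    exact hi2.symm
  subst hi3
  have hm : mpt d = d / i ^ d.factorization i := by
    unfold mpt
    rw [h]
  have hdvd : i ^ d.factorization i ∣ d := Nat.ordProj_dvd d i
  have hm0 : mpt d ≠ 0 := by
    rw [hm]
    exact (Nat.ordCompl_pos i hd).ne'
  refine ⟨hd, ?_, hm0, ?_, ?_⟩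
  · exact hl.factorization_pos_of_dvd hd (Nat.dvd_of_mem_primeFactors hi)
  · rw [hm]
    exact (Nat.div_mul_cancel hdvd).symm
  · intro p hp hpd
    have hpd2 : p ∣ d := hpd.trans (by rw [hm]; exact Nat.ordCompl_dvd d i)
    have h1 : p ≤ i := by
      have h2 : id p ≤ d.primeFactors.sup id :=
        Finset.le_sup (Nat.mem_primeFactors.2 ⟨hp, hpd2, hd⟩)
      exact h2.trans h.le
    rcases h1.lt_or_eq with h2 | h2
    · exact h2
    · exfalso
      subst h2
      rw [hm] at hpd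
      exact Nat.not_dvd_ordCompl hp hd hpd

/-- the weight of the first part -/
noncomputable def dbl_A (l m : ℕ) : ℝ := ow m * (m : ℝ) ^ (1 / Real.log l - 1)

theorem dbl_ow_pos (m : ℕ) : 0 < ow m := by
  unfold ow
  positivity

theorem dbl_A_nonneg (l m : ℕ) : 0 ≤ dbl_A l m := by
  unfold dbl_A
  exact mul_nonneg (dbl_ow_pos m).le (Real.rpow_nonneg (Nat.cast_nonneg m) _)

theorem dbl_ow_mul {g a : ℕ} (hg : g ≠ 0) (ha : a ≠ 0) : ow (g * a) ≤ ow g * ow a := by
  unfold ow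
  rw [Nat.primeFactors_mul hg ha, ← pow_add]
  exact pow_le_pow_right₀ (by norm_num) (Finset.card_union_le _ _)

theorem dbl_A_mul (l : ℕ) {g a : ℕ} (hg : g ≠ 0) (ha : a ≠ 0) :
    dbl_A l (g * a) ≤ dbl_A l g * dbl_A l a := by
  unfold dbl_A
  have e : ((g * a : ℕ) : ℝ) ^ (1 / Real.log l - 1) =
      (g : ℝ) ^ (1 / Real.log l - 1) * (a : ℝ) ^ (1 / Real.log l - 1) := by
    rw [Nat.cast_mul, Real.mul_rpow (Nat.cast_nonneg g) (Nat.cast_nonneg a)]
  rw [e]
  have h1 := dbl_ow_mul hg ha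
  have h2 : 0 ≤ (g : ℝ) ^ (1 / Real.log l - 1) * (a : ℝ) ^ (1 / Real.log l - 1) :=
    mul_nonneg (Real.rpow_nonneg (Nat.cast_nonneg g) _) (Real.rpow_nonneg (Nat.cast_nonneg a) _)
  calc ow (g * a) * ((g : ℝ) ^ (1 / Real.log l - 1) * (a : ℝ) ^ (1 / Real.log l - 1))
      ≤ ow g * ow a * ((g : ℝ) ^ (1 / Real.log l - 1) * (a : ℝ) ^ (1 / Real.log l - 1)) :=
        mul_le_mul_of_nonneg_right h1 h2
    _ = _ := by ring

theorem dbl_card_le (m : ℕ) : m.primeFactors.card ≤ ArithmeticFunction.cardFactors m := by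
  rw [ArithmeticFunction.cardFactors_apply]
  exact List.toFinset_card_le _

theorem dbl_fl1 {l a : ℕ} (hl : 0 ≤ Real.log l) (ha : a ≠ 0) : dbl_A l a ≤ fl l a := by
  unfold dbl_A fl
  have ha1 : (1 : ℝ) ≤ a := by exact_mod_cast Nat.one_le_iff_ne_zero.2 ha
  have h1 : ow a ≤ (4 / 3 : ℝ) ^ (ArithmeticFunction.cardFactors a) := by
    unfold ow
    calc (8 / 7 : ℝ) ^ a.primeFactors.card ≤ (4 / 3 : ℝ) ^ a.primeFactors.card :=
          pow_le_pow_left₀ (by norm_num) (by norm_num) _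
      _ ≤ _ := pow_le_pow_right₀ (by norm_num) (dbl_card_le a)
  have h2 : (a : ℝ) ^ (1 / Real.log l - 1) ≤ (a : ℝ) ^ (-1 + 2 / Real.log l) := by
    apply Real.rpow_le_rpow_of_exponent_le ha1
    have h3 : 0 ≤ 1 / Real.log l := div_nonneg zero_le_one hl
    have h4 : 2 / Real.log l = 2 * (1 / Real.log l) := by ring
    rw [h4]
    linarith
  exact mul_le_mul h1 h2 (Real.rpow_nonneg (Nat.cast_nonneg a) _) (by positivity)

theorem dbl_fl2 {l g : ℕ} (hg : g ≠ 0) : (g : ℝ) * dbl_A l g ^ 2 ≤ fl l g := by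
  unfold dbl_A fl
  have hg0 : (0 : ℝ) < g := by exact_mod_cast Nat.pos_of_ne_zero hg
  have h1 : ow g ^ 2 ≤ (4 / 3 : ℝ) ^ (ArithmeticFunction.cardFactors g) := by
    unfold ow
    rw [← pow_mul, mul_comm, pow_mul]
    calc ((8 / 7 : ℝ) ^ 2) ^ g.primeFactors.card ≤ (4 / 3 : ℝ) ^ g.primeFactors.card :=
          pow_le_pow_left₀ (by norm_num) (by norm_num) _
      _ ≤ _ := pow_le_pow_right₀ (by norm_num) (dbl_card_le g)
  have h2 : (g : ℝ) * ((g : ℝ) ^ (1 / Real.log l - 1)) ^ 2 = (g : ℝ) ^ (-1 + 2 / Real.log l) := by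
    have e1 : ((g : ℝ) ^ (1 / Real.log l - 1)) ^ 2 = (g : ℝ) ^ ((1 / Real.log l - 1) * 2) := by
      rw [Real.rpow_mul hg0.le]
      norm_cast
    have e2 : (g : ℝ) * (g : ℝ) ^ ((1 / Real.log l - 1) * 2) =
        (g : ℝ) ^ (1 + (1 / Real.log l - 1) * 2) := by
      rw [Real.rpow_add hg0, Real.rpow_one]
    rw [e1, e2]
    congr 1
    ring
  have h3 : 0 ≤ (g : ℝ) ^ (-1 + 2 / Real.log l) := Real.rpow_nonneg hg0.le _
  calc (g : ℝ) * (ow g * (g : ℝ) ^ (1 / Real.log l - 1)) ^ 2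
      = ow g ^ 2 * ((g : ℝ) * ((g : ℝ) ^ (1 / Real.log l - 1)) ^ 2) := by ring
    _ = ow g ^ 2 * (g : ℝ) ^ (-1 + 2 / Real.log l) := by rw [h2]
    _ ≤ _ := mul_le_mul_of_nonneg_right h1 h3

theorem dbl_inj {α β : Type} (T : Finset α) (S : Finset β) (φ : α → β) (hφ : ∀ t ∈ T, φ t ∈ S)
    (inj : ∀ t ∈ T, ∀ t' ∈ T, φ t = φ t' → t = t') (H : β → ℝ) (hH : ∀ b ∈ S, 0 ≤ H b) :
    ∑ t ∈ T, H (φ t) ≤ ∑ b ∈ S, H b := by
  classical
  have e : ∑ b ∈ T.image φ, H b = ∑ t ∈ T, H (φ t) :=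
    Finset.sum_image (fun t ht t' ht' h => inj t ht t' ht' h)
  rw [← e]
  refine Finset.sum_le_sum_of_subset_of_nonneg ?_ (fun b hb _ => hH b hb)
  intro b hb
  obtain ⟨t, ht, rfl⟩ := Finset.mem_image.1 hb
  exact hφ t ht

theorem dbl_geo (J : Finset ℕ) (hJ : ∀ j ∈ J, 1 ≤ j) (x : ℝ) (hx0 : 0 ≤ x) (hx : x ≤ 1 / 2) :
    ∑ j ∈ J, x ^ j ≤ 2 * x := by
  have hx1 : x < 1 := by linarith
  have e1 : ∑ j ∈ J, x ^ j = x * ∑ j ∈ J, x ^ (j - 1) := by
    rw [Finset.mul_sum]
    refine Finset.sum_congr rfl fun j hj => ?_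
    rw [← pow_succ', Nat.sub_add_cancel (hJ j hj)]
  have e2 : ∑ j ∈ J, x ^ (j - 1) ≤ ∑ i ∈ J.image (fun j => j - 1), x ^ i :=
    dbl_inj J (J.image (fun j => j - 1)) (fun j => j - 1)
      (fun t ht => Finset.mem_image_of_mem _ ht)
      (fun t ht t' ht' h => by
        have := hJ t ht
        have := hJ t' ht'
        have h' : t - 1 = t' - 1 := h
        omega) (fun i => x ^ i) (fun b _ => pow_nonneg hx0 b)
  have e3 : ∑ i ∈ J.image (fun j => j - 1), x ^ i ≤ ∑' i : ℕ, x ^ i :=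
    (summable_geometric_of_lt_one hx0 hx1).sum_le_tsum _ (fun i _ => pow_nonneg hx0 i)
  rw [tsum_geometric_of_lt_one hx0 hx1] at e3
  have e4 : (1 - x)⁻¹ ≤ 2 := by
    rw [inv_le_comm₀ (by linarith) (by norm_num)]
    linarith
  rw [e1]
  have e5 := mul_le_mul_of_nonneg_left ((e2.trans e3).trans e4) hx0
  linarith

theorem dbl_gcd (M : Finset ℕ) (hM : ∀ m ∈ M, m ≠ 0) (A : ℕ → ℝ) (hA : ∀ m, 0 ≤ A m)
    (hmul : ∀ g a, g ≠ 0 → a ≠ 0 → A (g * a) ≤ A g * A a) :
    ∑ m ∈ M, A m * ∑ n ∈ M, A n * (Nat.gcd m n : ℝ) ≤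
      (∑ g ∈ M.biUnion Nat.divisors, (g : ℝ) * A g ^ 2) *
        (∑ a ∈ M.biUnion Nat.divisors, A a) ^ 2 := by
  classical
  obtain ⟨G, hG⟩ : ∃ G, G = M.biUnion Nat.divisors := ⟨_, rfl⟩
  rw [← hG]
  have hmem : ∀ m ∈ M, ∀ g, g ∣ m → g ∈ G := by
    intro m hm g hg
    rw [hG]
    exact Finset.mem_biUnion.2 ⟨m, hm, Nat.mem_divisors.2 ⟨hg, hM m hm⟩⟩
  have hG0 : ∀ g ∈ G, g ≠ 0 := by
    intro g hg
    rw [hG] at hg
    obtain ⟨m, hm, hgm⟩ := Finset.mem_biUnion.1 hg
    exact (Nat.pos_of_mem_divisors hgm).ne'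
  have step1 : ∀ m ∈ M, ∀ n ∈ M, A m * (A n * (Nat.gcd m n : ℝ)) ≤
      ∑ g ∈ G, (if g ∣ m then A m else 0) * ((if g ∣ n then A n else 0) * (g : ℝ)) := by
    intro m hm n hn
    have h1 := Finset.single_le_sum
      (f := fun g : ℕ => (if g ∣ m then A m else 0) * ((if g ∣ n then A n else 0) * (g : ℝ)))
      (s := G) (fun g _ => by
        refine mul_nonneg ?_ (mul_nonneg ?_ (Nat.cast_nonneg g))
        · split_ifs
          · exact hA m
          · exact le_rfl
        · split_ifs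
          · exact hA n
          · exact le_rfl) (hmem m hm _ (Nat.gcd_dvd_left m n))
    have h2 : (if Nat.gcd m n ∣ m then A m else 0) *
        ((if Nat.gcd m n ∣ n then A n else 0) * ((Nat.gcd m n : ℕ) : ℝ)) =
        A m * (A n * (Nat.gcd m n : ℝ)) := by
      rw [if_pos (Nat.gcd_dvd_left m n), if_pos (Nat.gcd_dvd_right m n)]
    rw [← h2]
    exact h1
  have step3 : ∀ g ∈ G, ∑ m ∈ M, (if g ∣ m then A m else 0) ≤ A g * ∑ a ∈ G, A a := by
    intro g hg
    have hg0 := Nat.pos_of_ne_zero (hG0 g hg)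
    rw [← Finset.sum_filter]
    have h1 : ∑ m ∈ M.filter (fun m => g ∣ m), A m ≤
        ∑ m ∈ M.filter (fun m => g ∣ m), A g * A (m / g) := by
      refine Finset.sum_le_sum fun m hm => ?_
      obtain ⟨hmM, hgm⟩ := Finset.mem_filter.1 hm
      obtain ⟨a, rfl⟩ := hgm
      have ha : a ≠ 0 := fun h => hM _ hmM (by rw [h, mul_zero])
      rw [Nat.mul_div_cancel_left a hg0]
      exact hmul g a hg0.ne' ha
    have h2 : ∑ m ∈ M.filter (fun m => g ∣ m), A (m / g) ≤ ∑ a ∈ G, A a := by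
      refine dbl_inj (M.filter (fun m => g ∣ m)) G (fun m => m / g) ?_ ?_ A (fun b _ => hA b)
      · intro m hm
        obtain ⟨hmM, hgm⟩ := Finset.mem_filter.1 hm
        exact hmem m hmM _ (Nat.div_dvd_of_dvd hgm)
      · intro m hm m' hm' h
        obtain ⟨hmM, hgm⟩ := Finset.mem_filter.1 hm
        obtain ⟨hmM', hgm'⟩ := Finset.mem_filter.1 hm'
        have h' : m / g = m' / g := h
        rw [← Nat.div_mul_cancel hgm, ← Nat.div_mul_cancel hgm', h']
    calc ∑ m ∈ M.filter (fun m => g ∣ m), A m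
        ≤ ∑ m ∈ M.filter (fun m => g ∣ m), A g * A (m / g) := h1
      _ = A g * ∑ m ∈ M.filter (fun m => g ∣ m), A (m / g) := by rw [Finset.mul_sum]
      _ ≤ A g * ∑ a ∈ G, A a := mul_le_mul_of_nonneg_left h2 (hA g)
  calc ∑ m ∈ M, A m * ∑ n ∈ M, A n * (Nat.gcd m n : ℝ)
      = ∑ m ∈ M, ∑ n ∈ M, A m * (A n * (Nat.gcd m n : ℝ)) := by
        refine Finset.sum_congr rfl fun m _ => ?_
        rw [Finset.mul_sum]
    _ ≤ ∑ m ∈ M, ∑ n ∈ M, ∑ g ∈ G,
          (if g ∣ m then A m else 0) * ((if g ∣ n then A n else 0) * (g : ℝ)) :=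
        Finset.sum_le_sum fun m hm => Finset.sum_le_sum fun n hn => step1 m hm n hn
    _ = ∑ g ∈ G, ∑ m ∈ M, ∑ n ∈ M,
          (if g ∣ m then A m else 0) * ((if g ∣ n then A n else 0) * (g : ℝ)) := by
        rw [Finset.sum_comm' (s := G) (t := fun _ => M) (t' := M) (s' := fun _ => G)
          (fun x y => by tauto)]
        refine Finset.sum_congr rfl fun m _ => ?_
        rw [Finset.sum_comm]
    _ = ∑ g ∈ G, (g : ℝ) * (∑ m ∈ M, (if g ∣ m then A m else 0)) ^ 2 := by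
        refine Finset.sum_congr rfl fun g _ => ?_
        have e1 : ∀ m ∈ M, ∑ n ∈ M,
            (if g ∣ m then A m else 0) * ((if g ∣ n then A n else 0) * (g : ℝ)) =
            (if g ∣ m then A m else 0) * ((∑ n ∈ M, (if g ∣ n then A n else 0)) * (g : ℝ)) := by
          intro m _
          rw [Finset.sum_mul, Finset.mul_sum]
        rw [Finset.sum_congr rfl e1, ← Finset.sum_mul]
        ring
    _ ≤ ∑ g ∈ G, (g : ℝ) * (A g * ∑ a ∈ G, A a) ^ 2 := by
        refine Finset.sum_le_sum fun g hg => ?_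
        refine mul_le_mul_of_nonneg_left ?_ (Nat.cast_nonneg g)
        refine pow_le_pow_left₀ (Finset.sum_nonneg fun m _ => ?_) (step3 g hg) 2
        split_ifs
        · exact hA m
        · exact le_rfl
    _ = (∑ g ∈ G, (g : ℝ) * A g ^ 2) * (∑ a ∈ G, A a) ^ 2 := by
        rw [Finset.sum_mul]
        refine Finset.sum_congr rfl fun g _ => ?_
        ring

theorem dbl_log {l d : ℕ} (hl : 1 ≤ Real.log l) (hd : d ≠ 0) :
    1 + Real.log d ≤ Real.log l * (d : ℝ) ^ (1 / Real.log l) := by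
  have hd0 : (0 : ℝ) < d := by exact_mod_cast Nat.pos_of_ne_zero hd
  have hl0 : 0 < Real.log l := by linarith
  have h1 : (d : ℝ) ^ (1 / Real.log l) = Real.exp (Real.log d * (1 / Real.log l)) :=
    Real.rpow_def_of_pos hd0 _
  have h2 := Real.add_one_le_exp (Real.log d * (1 / Real.log l))
  rw [h1]
  have h3 := mul_le_mul_of_nonneg_left h2 hl0.le
  have h4 : Real.log l * (Real.log d * (1 / Real.log l) + 1) = Real.log d + Real.log l := by
    field_simp
  linarith

theorem dbl_point {l d : ℕ} (hlp : l.Prime) (hl : 1 ≤ Real.log l) (h : gpf d = l) :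
    (1 + Real.log d) * (ow (mpt d) / d) ≤
      Real.log l * (dbl_A l (mpt d) * (Real.exp 1 / l) ^ d.factorization l) := by
  obtain ⟨hd, hj, hm, hdm, -⟩ := dbl_gpf hlp h
  have hd0 : (0 : ℝ) < d := by exact_mod_cast Nat.pos_of_ne_zero hd
  have hl0 : (0 : ℝ) < l := by exact_mod_cast hlp.pos
  have hlog : 0 < Real.log l := by linarith
  have h1 := dbl_log hl hd
  obtain ⟨j, hjd⟩ : ∃ j, j = d.factorization l := ⟨_, rfl⟩
  obtain ⟨m, hmd⟩ : ∃ m, m = mpt d := ⟨_, rfl⟩
  rw [← hjd, ← hmd] at hdm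
  rw [← hjd, ← hmd]
  have h2 : (d : ℝ) ^ (1 / Real.log l) / d = (d : ℝ) ^ (1 / Real.log l - 1) := by
    rw [Real.rpow_sub hd0, Real.rpow_one]
  have h3 : (d : ℝ) ^ (1 / Real.log l - 1) =
      (m : ℝ) ^ (1 / Real.log l - 1) * (Real.exp 1 / l) ^ j := by
    have e1 : (d : ℝ) = (m : ℝ) * (l : ℝ) ^ j := by
      rw [hdm]
      push_cast
      ring
    rw [e1, Real.mul_rpow (Nat.cast_nonneg m) (pow_nonneg hl0.le j)]
    congr 1
    rw [← Real.rpow_pow_comm hl0.le, Real.rpow_sub hl0, Real.rpow_one]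
    congr 2
    rw [Real.rpow_def_of_pos hl0]
    congr 1
    field_simp
  have h4 : 0 ≤ ow m / d := div_nonneg (dbl_ow_pos m).le hd0.le
  calc (1 + Real.log d) * (ow m / d)
      ≤ (Real.log l * (d : ℝ) ^ (1 / Real.log l)) * (ow m / d) :=
        mul_le_mul_of_nonneg_right h1 h4
    _ = Real.log l * (ow m * ((d : ℝ) ^ (1 / Real.log l) / d)) := by ring
    _ = Real.log l * (dbl_A l m * (Real.exp 1 / l) ^ j) := by
        rw [h2, h3]
        unfold dbl_A
        ring

theorem dbl_R {l : ℕ} (hlp : l.Prime) (T : Finset ℕ) (hT : ∀ d ∈ T, gpf d = l) (f : ℕ → ℝ)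
    (hf : ∀ m, 0 ≤ f m) (x : ℝ) (hx : 0 ≤ x) :
    ∑ d ∈ T, f (mpt d) * x ^ d.factorization l ≤
      (∑ m ∈ T.image mpt, f m) * ∑ j ∈ T.image (fun d => d.factorization l), x ^ j := by
  rw [Finset.sum_mul_sum, ← Finset.sum_product']
  refine dbl_inj T (T.image mpt ×ˢ T.image (fun d => d.factorization l))
    (fun d => (mpt d, d.factorization l)) ?_ ?_ (fun p => f p.1 * x ^ p.2) ?_
  · intro d hd
    exact Finset.mem_product.2 ⟨Finset.mem_image_of_mem _ hd,
      Finset.mem_image_of_mem (fun d => d.factorization l) hd⟩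
  · intro d hd e he h
    have h1 : mpt d = mpt e := congrArg Prod.fst h
    have h2 : d.factorization l = e.factorization l := congrArg Prod.snd h
    rw [(dbl_gpf hlp (hT d hd)).2.2.2.1, (dbl_gpf hlp (hT e he)).2.2.2.1, h1, h2]
  · intro p _
    exact mul_nonneg (hf _) (pow_nonneg hx _)

theorem dbl_num {C l y : ℝ} (hC : 0 < C) (hy : 1 ≤ y) (hl : l = y ^ 40) (L X G : ℝ)
    (hL0 : 0 ≤ L) (hX0 : 0 ≤ X) (hG0 : 0 ≤ G)
    (hL : L ≤ 10 * y ^ 4) (hX : X ≤ 2 * (Real.exp 1 / l)) (hG : G ≤ C * y) :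
    L ^ 2 * (X ^ 2 * (G * G ^ 2)) ≤ 400 * Real.exp 1 ^ 2 * C ^ 3 * (y ^ 60)⁻¹ := by
  have hy0 : 0 < y := by linarith
  have hl0 : 0 < l := by rw [hl]; positivity
  have h1 : L ^ 2 ≤ (10 * y ^ 4) ^ 2 := pow_le_pow_left₀ hL0 hL 2
  have h2 : X ^ 2 ≤ (2 * (Real.exp 1 / l)) ^ 2 := pow_le_pow_left₀ hX0 hX 2
  have h3 : G ^ 3 ≤ (C * y) ^ 3 := pow_le_pow_left₀ hG0 hG 3
  have h4 : X ^ 2 * G ^ 3 ≤ (2 * (Real.exp 1 / l)) ^ 2 * (C * y) ^ 3 :=
    mul_le_mul h2 h3 (pow_nonneg hG0 3) (by positivity)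
  have h5 : L ^ 2 * (X ^ 2 * G ^ 3) ≤
      (10 * y ^ 4) ^ 2 * ((2 * (Real.exp 1 / l)) ^ 2 * (C * y) ^ 3) :=
    mul_le_mul h1 h4 (by positivity) (by positivity)
  have e1 : L ^ 2 * (X ^ 2 * (G * G ^ 2)) = L ^ 2 * (X ^ 2 * G ^ 3) := by ring
  rw [e1]
  refine h5.trans ?_
  have e2 : (10 * y ^ 4) ^ 2 * ((2 * (Real.exp 1 / l)) ^ 2 * (C * y) ^ 3) =
      400 * Real.exp 1 ^ 2 * C ^ 3 * (y ^ 69)⁻¹ := by
    rw [hl]
    field_simp
    ring
  rw [e2]
  have h6 : (y ^ 69)⁻¹ ≤ (y ^ 60)⁻¹ :=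
    inv_anti₀ (by positivity) (pow_le_pow_right₀ hy (by norm_num))
  exact mul_le_mul_of_nonneg_left h6 (by positivity)

theorem dbl_sum : ∃ C : ℝ, 0 < C ∧ ∃ L : ℕ, 1 ≤ L ∧ ∀ l : ℕ, L ≤ l → l.Prime → ∀ T : Finset ℕ,
    (∀ d ∈ T, gpf d = l) →
    ∑ d ∈ T, ∑ e ∈ T, (1 + Real.log d) * (1 + Real.log e) * wt d e
      ≤ C * (l : ℝ) ^ (-(3 : ℝ) / 2) := by
  classical
  obtain ⟨C, hC, L, hL, hS⟩ := smooth_sum
  refine ⟨400 * Real.exp 1 ^ 2 * C ^ 3, by positivity, L, by omega, ?_⟩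
  intro l hl hlp T hT
  have hl3 : (3000 : ℝ) ≤ l := by exact_mod_cast hL.trans hl
  have hl0 : (0 : ℝ) < l := by linarith
  have he3 : Real.exp 1 < 3 := Real.exp_one_lt_three
  have hlog1 : 1 ≤ Real.log l := by
    rw [Real.le_log_iff_exp_le hl0]
    linarith
  have hlog0 : 0 ≤ Real.log l := by linarith
  obtain ⟨x, hx⟩ : ∃ x : ℝ, x = Real.exp 1 / l := ⟨_, rfl⟩
  have hx0 : 0 ≤ x := by rw [hx]; positivity
  have hx2 : x ≤ 1 / 2 := by
    rw [hx, div_le_iff₀ hl0]
    linarith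
  obtain ⟨M, hM⟩ : ∃ M, M = T.image mpt := ⟨_, rfl⟩
  obtain ⟨J, hJ⟩ : ∃ J, J = T.image (fun d => d.factorization l) := ⟨_, rfl⟩
  obtain ⟨X, hX⟩ : ∃ X : ℝ, X = ∑ j ∈ J, x ^ j := ⟨_, rfl⟩
  have hX0 : 0 ≤ X := by
    rw [hX]
    exact Finset.sum_nonneg fun j _ => pow_nonneg hx0 j
  have hX2 : X ≤ 2 * x := by
    rw [hX]
    refine dbl_geo J ?_ x hx0 hx2
    intro j hj
    rw [hJ] at hj
    obtain ⟨d, hd, rfl⟩ := Finset.mem_image.1 hj
    exact (dbl_gpf hlp (hT d hd)).2.1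
  have hM0 : ∀ m ∈ M, m ≠ 0 ∧ ∀ p, p.Prime → p ∣ m → p < l := by
    intro m hm
    rw [hM] at hm
    obtain ⟨d, hd, rfl⟩ := Finset.mem_image.1 hm
    exact ⟨(dbl_gpf hlp (hT d hd)).2.2.1, (dbl_gpf hlp (hT d hd)).2.2.2.2⟩
  have hR : ∀ f : ℕ → ℝ, (∀ m, 0 ≤ f m) →
      ∑ d ∈ T, f (mpt d) * x ^ d.factorization l ≤ (∑ m ∈ M, f m) * X := by
    intro f hf
    rw [hM, hX, hJ]
    exact dbl_R hlp T hT f hf x hx0
  obtain ⟨A, hA⟩ : ∃ A : ℕ → ℝ, A = dbl_A l := ⟨_, rfl⟩
  have hA0 : ∀ m, 0 ≤ A m := by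
    intro m
    rw [hA]
    exact dbl_A_nonneg l m
  -- the pointwise bound
  have hpt : ∀ d ∈ T, (1 + Real.log d) * (ow (mpt d) / d) ≤
      Real.log l * (A (mpt d) * x ^ d.factorization l) := by
    intro d hd
    rw [hA, hx]
    exact dbl_point hlp hlog1 (hT d hd)
  have hpos : ∀ d ∈ T, 0 ≤ (1 + Real.log d) * (ow (mpt d) / d) := by
    intro d _
    have h1 : 0 ≤ Real.log d := Real.log_natCast_nonneg d
    have h2 := (dbl_ow_pos (mpt d)).le
    positivity
  have hterm : ∀ d ∈ T, ∀ e ∈ T, (1 + Real.log d) * (1 + Real.log e) * wt d e ≤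
      Real.log l ^ 2 * ((A (mpt d) * x ^ d.factorization l) *
        ((A (mpt e) * (Nat.gcd (mpt d) (mpt e) : ℝ)) * x ^ e.factorization l)) := by
    intro d hd e he
    have h1 : (1 + Real.log d) * (1 + Real.log e) * wt d e =
        ((1 + Real.log d) * (ow (mpt d) / d)) * ((1 + Real.log e) * (ow (mpt e) / e)) *
          (Nat.gcd (mpt d) (mpt e) : ℝ) := by
      unfold wt
      rw [if_pos ((hT d hd).trans (hT e he).symm)]
      ring
    rw [h1]
    have h2 : ((1 + Real.log d) * (ow (mpt d) / d)) * ((1 + Real.log e) * (ow (mpt e) / e)) ≤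
        (Real.log l * (A (mpt d) * x ^ d.factorization l)) *
          (Real.log l * (A (mpt e) * x ^ e.factorization l)) :=
      mul_le_mul (hpt d hd) (hpt e he) (hpos e he) ((hpos d hd).trans (hpt d hd))
    have h3 := mul_le_mul_of_nonneg_right h2 (Nat.cast_nonneg (α := ℝ) (Nat.gcd (mpt d) (mpt e)))
    refine h3.trans (le_of_eq ?_)
    ring
  have hsum1 : ∑ d ∈ T, ∑ e ∈ T, (1 + Real.log d) * (1 + Real.log e) * wt d e ≤
      Real.log l ^ 2 * (X ^ 2 * ∑ m ∈ M, A m * ∑ n ∈ M, A n * (Nat.gcd m n : ℝ)) := by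
    calc ∑ d ∈ T, ∑ e ∈ T, (1 + Real.log d) * (1 + Real.log e) * wt d e
        ≤ ∑ d ∈ T, ∑ e ∈ T, Real.log l ^ 2 * ((A (mpt d) * x ^ d.factorization l) *
            ((A (mpt e) * (Nat.gcd (mpt d) (mpt e) : ℝ)) * x ^ e.factorization l)) :=
          Finset.sum_le_sum fun d hd => Finset.sum_le_sum fun e he => hterm d hd e he
      _ = Real.log l ^ 2 * ∑ d ∈ T, (A (mpt d) * x ^ d.factorization l) *
            ∑ e ∈ T, (A (mpt e) * (Nat.gcd (mpt d) (mpt e) : ℝ)) * x ^ e.factorization l := by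
          rw [Finset.mul_sum]
          refine Finset.sum_congr rfl fun d _ => ?_
          rw [Finset.mul_sum, Finset.mul_sum]
      _ ≤ Real.log l ^ 2 * ∑ d ∈ T, (A (mpt d) * x ^ d.factorization l) *
            ((∑ n ∈ M, A n * (Nat.gcd (mpt d) n : ℝ)) * X) := by
          refine mul_le_mul_of_nonneg_left ?_ (sq_nonneg _)
          refine Finset.sum_le_sum fun d _ => ?_
          refine mul_le_mul_of_nonneg_left ?_ (mul_nonneg (hA0 _) (pow_nonneg hx0 _))
          exact hR (fun n => A n * (Nat.gcd (mpt d) n : ℝ))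
            (fun m => mul_nonneg (hA0 m) (Nat.cast_nonneg _))
      _ = Real.log l ^ 2 * (X * ∑ d ∈ T,
            (A (mpt d) * ∑ n ∈ M, A n * (Nat.gcd (mpt d) n : ℝ)) * x ^ d.factorization l) := by
          congr 1
          rw [Finset.mul_sum]
          refine Finset.sum_congr rfl fun d _ => ?_
          ring
      _ ≤ Real.log l ^ 2 * (X * ((∑ m ∈ M, A m * ∑ n ∈ M, A n * (Nat.gcd m n : ℝ)) * X)) := by
          refine mul_le_mul_of_nonneg_left ?_ (sq_nonneg _)
          refine mul_le_mul_of_nonneg_left ?_ hX0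
          exact hR (fun m => A m * ∑ n ∈ M, A n * (Nat.gcd m n : ℝ))
            (fun m => mul_nonneg (hA0 m) (Finset.sum_nonneg fun n _ =>
              mul_nonneg (hA0 n) (Nat.cast_nonneg _)))
      _ = _ := by ring
  obtain ⟨G, hG⟩ : ∃ G, G = M.biUnion Nat.divisors := ⟨_, rfl⟩
  have hG1 : ∀ g ∈ G, g ≠ 0 ∧ ∀ p, p.Prime → p ∣ g → p < l := by
    intro g hg
    rw [hG] at hg
    obtain ⟨m, hm, hgm⟩ := Finset.mem_biUnion.1 hg
    refine ⟨(Nat.pos_of_mem_divisors hgm).ne', ?_⟩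
    intro p hp hpg
    exact (hM0 m hm).2 p hp (hpg.trans (Nat.dvd_of_mem_divisors hgm))
  have hFl := hS l hl G hG1
  have hgcd := dbl_gcd M (fun m hm => (hM0 m hm).1) A hA0 (by
    intro g a hg ha
    rw [hA]
    exact dbl_A_mul l hg ha)
  rw [← hG] at hgcd
  obtain ⟨F, hF⟩ : ∃ F : ℝ, F = ∑ m ∈ G, fl l m := ⟨_, rfl⟩
  have hs1 : ∑ g ∈ G, (g : ℝ) * A g ^ 2 ≤ F := by
    rw [hF, hA]
    exact Finset.sum_le_sum fun g hg => dbl_fl2 (hG1 g hg).1
  have hs2 : ∑ a ∈ G, A a ≤ F := by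
    rw [hF, hA]
    exact Finset.sum_le_sum fun g hg => dbl_fl1 hlog0 (hG1 g hg).1
  have hs3 : 0 ≤ ∑ a ∈ G, A a := Finset.sum_nonneg fun a _ => hA0 a
  have hF0 : 0 ≤ F := hs3.trans hs2
  rw [← hF] at hFl
  have hgcd2 : ∑ m ∈ M, A m * ∑ n ∈ M, A n * (Nat.gcd m n : ℝ) ≤ F * F ^ 2 :=
    hgcd.trans (mul_le_mul hs1 (pow_le_pow_left₀ hs3 hs2 2) (sq_nonneg _) hF0)
  obtain ⟨y, hy⟩ : ∃ y : ℝ, y = (l : ℝ) ^ ((1 : ℝ) / 40) := ⟨_, rfl⟩
  have hy1 : 1 ≤ y := by
    rw [hy]
    exact Real.one_le_rpow (by linarith) (by norm_num)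
  have hyl : (l : ℝ) = y ^ 40 := by
    rw [hy, ← Real.rpow_natCast, ← Real.rpow_mul hl0.le]
    norm_num
  have hy4 : (l : ℝ) ^ ((1 : ℝ) / 10) = y ^ 4 := by
    rw [hy, ← Real.rpow_natCast, ← Real.rpow_mul hl0.le]
    norm_num
  have hy60 : (l : ℝ) ^ (-(3 : ℝ) / 2) = (y ^ 60)⁻¹ := by
    rw [hy, ← Real.rpow_natCast, ← Real.rpow_mul hl0.le, ← Real.rpow_neg hl0.le]
    norm_num
  have hlogle : Real.log l ≤ 10 * y ^ 4 := by
    have h1 := Real.log_le_rpow_div hl0.le (show (0 : ℝ) < 1 / 10 by norm_num)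
    rw [hy4] at h1
    linarith
  rw [hy60]
  refine hsum1.trans ?_
  refine le_trans ?_ (dbl_num hC hy1 hyl (Real.log l) X F hlog0 hX0 hF0 hlogle
    (by rw [← hx]; exact hX2) (by rw [hy]; exact hFl))
  refine mul_le_mul_of_nonneg_left ?_ (sq_nonneg _)
  exact mul_le_mul_of_nonneg_left hgcd2 (sq_nonneg _)

end Pool.H53.NA

end S_NA_Dbl

section S_NA_Tot

/-!
Row Tot: the total sum.  PROOF of `tot_sum`.  Take `C`, `L` from `dbl_sum`.  Group `T` by `l = gpf d` (`wt d e = 0` unless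
`gpf d = gpf e`; `gpf d > l0 ≥ 1` is a prime): `∑_{d,e} = ∑_l ∑_{gpf d = gpf e = l} ≤ ∑_{l > l0} C l^(-3/2) ≤ 2C/√l0`
(`l^(-3/2) ≤ 2 ((l-1)^(-1/2) - l^(-1/2))` for `l ≥ 2`, telescoping over `l0 < l ≤ n`).
-/


namespace Pool.H53.NA

theorem tot_step (n : ℕ) (hn : 1 ≤ n) :
    ((n + 1 : ℕ) : ℝ) ^ (-(3 : ℝ) / 2) ≤ 2 / Real.sqrt n - 2 / Real.sqrt ((n + 1 : ℕ) : ℝ) := by
  have hn' : (1 : ℝ) ≤ (n : ℝ) := by exact_mod_cast hn
  set a := Real.sqrt n with ha
  set b := Real.sqrt ((n + 1 : ℕ) : ℝ) with hb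
  have ha0 : 0 < a := Real.sqrt_pos.mpr (by linarith)
  have hb0 : 0 < b := Real.sqrt_pos.mpr (by push_cast; linarith)
  have ha2 : a ^ 2 = n := Real.sq_sqrt (by linarith)
  have hb2 : b ^ 2 = ((n + 1 : ℕ) : ℝ) := Real.sq_sqrt (by push_cast; linarith)
  have hab : a ≤ b := Real.sqrt_le_sqrt (by push_cast; linarith)
  have e1 : ((n + 1 : ℕ) : ℝ) ^ (-(3 : ℝ) / 2) = 1 / b ^ 3 := by
    rw [← hb2]
    rw [show (b ^ 2 : ℝ) = b ^ (2 : ℝ) by norm_cast, ← Real.rpow_mul hb0.le]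
    rw [show (2 : ℝ) * (-(3 : ℝ) / 2) = -3 by norm_num, Real.rpow_neg hb0.le, one_div]
    norm_cast
  rw [e1]
  have hba : (b - a) * (a + b) = 1 := by
    have h1 : (b - a) * (a + b) = b ^ 2 - a ^ 2 := by ring
    rw [h1, ha2, hb2]
    push_cast
    ring
  have e2 : 2 / a - 2 / b = 2 / (a * b * (a + b)) := by
    have hab0 : 0 < a + b := by linarith
    field_simp
    linarith
  rw [e2]
  rw [div_le_div_iff₀ (by positivity) (by positivity)]
  have : a * b * (a + b) ≤ b * b * (b + b) := by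
    apply mul_le_mul (mul_le_mul_of_nonneg_right hab hb0.le) (by linarith) (by positivity) (by positivity)
  nlinarith [this]

theorem tot_tail (l0 : ℕ) (hl0 : 1 ≤ l0) (P : Finset ℕ) (hP : ∀ l ∈ P, l0 < l) :
    ∑ l ∈ P, (l : ℝ) ^ (-(3 : ℝ) / 2) ≤ 2 / Real.sqrt l0 := by
  have key : ∀ n : ℕ, l0 ≤ n → ∑ l ∈ Finset.Ioc l0 n, (l : ℝ) ^ (-(3 : ℝ) / 2)
      ≤ 2 / Real.sqrt l0 - 2 / Real.sqrt n := by
    intro n hn
    induction n, hn using Nat.le_induction with
    | base => simp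
    | succ n hn ih =>
      rw [← Finset.insert_Ioc_right_eq_Ioc_add_one hn, Finset.sum_insert (by simp)]
      have := tot_step n (le_trans hl0 hn)
      linarith
  have hsub : P ⊆ Finset.Ioc l0 (l0 + P.sup id) := by
    intro l hl
    rw [Finset.mem_Ioc]
    refine ⟨hP l hl, ?_⟩
    have : id l ≤ P.sup id := Finset.le_sup hl
    simp only [id] at this
    exact le_trans this (Nat.le_add_left _ _)
  calc ∑ l ∈ P, (l : ℝ) ^ (-(3 : ℝ) / 2)
      ≤ ∑ l ∈ Finset.Ioc l0 (l0 + P.sup id), (l : ℝ) ^ (-(3 : ℝ) / 2) := by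
        apply Finset.sum_le_sum_of_subset_of_nonneg hsub
        intro l _ _
        exact Real.rpow_nonneg (Nat.cast_nonneg _) _
    _ ≤ 2 / Real.sqrt l0 - 2 / Real.sqrt ((l0 + P.sup id : ℕ) : ℝ) := key _ (Nat.le_add_right _ _)
    _ ≤ 2 / Real.sqrt l0 := by
        have : 0 ≤ 2 / Real.sqrt ((l0 + P.sup id : ℕ) : ℝ) := by positivity
        linarith

theorem gpf_prime_of_pos (d : ℕ) (h : 0 < gpf d) : (gpf d).Prime := by
  unfold gpf at h ⊢
  rcases Finset.eq_empty_or_nonempty d.primeFactors with h0 | h0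
  · rw [h0] at h
    simp at h
  · obtain ⟨p, hp, he⟩ := Finset.exists_mem_eq_sup d.primeFactors h0 id
    rw [he]
    exact Nat.prime_of_mem_primeFactors hp

theorem tot_sum : ∃ C : ℝ, 0 < C ∧ ∃ L : ℕ, 1 ≤ L ∧ ∀ l0 : ℕ, L ≤ l0 → ∀ T : Finset ℕ,
    (∀ d ∈ T, l0 < gpf d) →
    ∑ d ∈ T, ∑ e ∈ T, (1 + Real.log d) * (1 + Real.log e) * wt d e ≤ C / Real.sqrt l0 := by
  obtain ⟨C, hC, L, hL, hd⟩ := dbl_sum
  refine ⟨2 * C, by positivity, L, hL, ?_⟩
  intro l0 hl0 T hT
  have h1 : 1 ≤ l0 := le_trans hL hl0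
  rw [← Finset.sum_fiberwise_of_maps_to (s := T) (t := T.image gpf) (g := gpf)
    (fun x hx => Finset.mem_image_of_mem _ hx)]
  have h2 : ∀ l ∈ T.image gpf, ∑ d ∈ T.filter (fun d => gpf d = l), ∑ e ∈ T,
      (1 + Real.log d) * (1 + Real.log e) * wt d e ≤ C * (l : ℝ) ^ (-(3 : ℝ) / 2) := by
    intro l hl
    rw [Finset.mem_image] at hl
    obtain ⟨d0, hd0, rfl⟩ := hl
    have hl1 : l0 < gpf d0 := hT d0 hd0
    have hpr : (gpf d0).Prime := gpf_prime_of_pos d0 (by omega)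
    refine le_trans (le_of_eq ?_) (hd (gpf d0) (by omega) hpr (T.filter (fun d => gpf d = gpf d0))
      (fun d hd => (Finset.mem_filter.mp hd).2))
    apply Finset.sum_congr rfl
    intro d hd
    have hd2 := (Finset.mem_filter.mp hd).2
    rw [Finset.sum_filter]
    apply Finset.sum_congr rfl
    intro e _
    by_cases he : gpf e = gpf d0
    · rw [if_pos he]
    · rw [if_neg he]
      have : wt d e = 0 := by
        unfold wt
        rw [if_neg]
        rw [hd2]
        exact fun h => he h.symm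
      rw [this, mul_zero]
  calc ∑ l ∈ T.image gpf, ∑ d ∈ T.filter (fun d => gpf d = l), ∑ e ∈ T,
      (1 + Real.log d) * (1 + Real.log e) * wt d e
      ≤ ∑ l ∈ T.image gpf, C * (l : ℝ) ^ (-(3 : ℝ) / 2) := Finset.sum_le_sum h2
    _ = C * ∑ l ∈ T.image gpf, (l : ℝ) ^ (-(3 : ℝ) / 2) := by rw [Finset.mul_sum]
    _ ≤ C * (2 / Real.sqrt l0) := by
        apply mul_le_mul_of_nonneg_left _ hC.le
        apply tot_tail l0 h1
        intro l hl
        rw [Finset.mem_image] at hl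
        obtain ⟨d0, hd0, rfl⟩ := hl
        exact hT d0 hd0
    _ = 2 * C / Real.sqrt l0 := by ring

end Pool.H53.NA

end S_NA_Tot

section S_NA_LSa

/-!
The average of the weights (assembly).
-/


namespace Pool.H53.NA

theorem ow_nonneg (m : ℕ) : 0 ≤ ow m := by unfold ow; positivity

theorem wt_nonneg (d e : ℕ) : 0 ≤ wt d e := by
  unfold wt
  split_ifs
  · have := ow_nonneg (mpt d)
    have := ow_nonneg (mpt e)
    positivity
  · exact le_rfl

/-- the sum over primes is bounded by the sum over orders -/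
theorem sum_orders (G : Finset ℕ) (hG : ∀ q ∈ G, q.Prime ∧ q ≠ 2) (h : ℕ → ℕ → ℝ)
    (h0 : ∀ d e, 0 ≤ h d e) :
    ∑ q ∈ G, ∑ q' ∈ G, (1 / (q : ℝ)) * (1 / (q' : ℝ)) * h (tq q) (tq q')
      ≤ ∑ d ∈ G.image tq, ∑ e ∈ G.image tq,
        ((1 + Real.log d) / d) * ((1 + Real.log e) / e) * h d e := by
  classical
  have hmaps : ∀ q ∈ G, tq q ∈ G.image tq := fun q hq => Finset.mem_image_of_mem _ hq
  have hpos : ∀ d ∈ G.image tq, 1 ≤ d := by
    intro d hd
    rw [Finset.mem_image] at hd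
    obtain ⟨q, hq, rfl⟩ := hd
    have := (ord_dvd q (hG q hq).1 (hG q hq).2).2.2.1
    omega
  have hinner : ∀ q ∈ G, ∑ q' ∈ G, (1 / (q : ℝ)) * (1 / (q' : ℝ)) * h (tq q) (tq q')
      ≤ (1 / (q : ℝ)) * ∑ e ∈ G.image tq, ((1 + Real.log e) / e) * h (tq q) e := by
    intro q hq
    rw [← Finset.sum_fiberwise_of_maps_to hmaps, Finset.mul_sum]
    apply Finset.sum_le_sum
    intro e he
    calc ∑ q' ∈ G.filter (fun q' => tq q' = e), (1 / (q : ℝ)) * (1 / (q' : ℝ)) * h (tq q) (tq q')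
        = ∑ q' ∈ G.filter (fun q' => tq q' = e), (1 / (q : ℝ)) * h (tq q) e * (1 / (q' : ℝ)) := by
          apply Finset.sum_congr rfl
          intro q' hq'
          rw [Finset.mem_filter] at hq'
          rw [hq'.2]; ring
      _ = (1 / (q : ℝ)) * h (tq q) e * ∑ q' ∈ G.filter (fun q' => tq q' = e), (1 / (q' : ℝ)) := by
          rw [Finset.mul_sum]
      _ ≤ (1 / (q : ℝ)) * h (tq q) e * ((1 + Real.log e) / e) := by
          have := h0 (tq q) e
          exact mul_le_mul_of_nonneg_left (ord_recip G hG e (hpos e he)) (by positivity)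
      _ = _ := by ring
  calc ∑ q ∈ G, ∑ q' ∈ G, (1 / (q : ℝ)) * (1 / (q' : ℝ)) * h (tq q) (tq q')
      ≤ ∑ q ∈ G, (1 / (q : ℝ)) * ∑ e ∈ G.image tq, ((1 + Real.log e) / e) * h (tq q) e :=
        Finset.sum_le_sum hinner
    _ ≤ ∑ d ∈ G.image tq, ∑ e ∈ G.image tq,
        ((1 + Real.log d) / d) * ((1 + Real.log e) / e) * h d e := by
        rw [← Finset.sum_fiberwise_of_maps_to hmaps]
        apply Finset.sum_le_sum
        intro d hd
        have hlog : ∀ e ∈ G.image tq, 0 ≤ (1 + Real.log e) / (e : ℝ) := by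
          intro e he
          have h1 : (1 : ℝ) ≤ e := by exact_mod_cast hpos e he
          have := Real.log_nonneg h1
          positivity
        have hS0 : 0 ≤ ∑ e ∈ G.image tq, ((1 + Real.log e) / e) * h d e :=
          Finset.sum_nonneg fun e he => mul_nonneg (hlog e he) (h0 d e)
        calc ∑ q ∈ G.filter (fun q => tq q = d),
              (1 / (q : ℝ)) * ∑ e ∈ G.image tq, ((1 + Real.log e) / e) * h (tq q) e
            = (∑ q ∈ G.filter (fun q => tq q = d), (1 / (q : ℝ)))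
              * ∑ e ∈ G.image tq, ((1 + Real.log e) / e) * h d e := by
              rw [Finset.sum_mul]
              apply Finset.sum_congr rfl
              intro q hq
              rw [Finset.mem_filter] at hq
              rw [hq.2]
          _ ≤ ((1 + Real.log d) / d) * ∑ e ∈ G.image tq, ((1 + Real.log e) / e) * h d e :=
              mul_le_mul_of_nonneg_right (ord_recip G hG d (hpos d hd)) hS0
          _ = _ := by
              rw [Finset.mul_sum]
              apply Finset.sum_congr rfl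
              intro e _
              ring

/-- the diagonal -/
theorem sum_diag (G : Finset ℕ) (hG : ∀ q ∈ G, q.Prime ∧ q ≠ 2) :
    ∑ q ∈ G, (tq q : ℝ) * (2 / (q : ℝ)) * wt (tq q) (tq q)
      ≤ 2 * ∑ d ∈ G.image tq, ∑ e ∈ G.image tq,
        (1 + Real.log d) * (1 + Real.log e) * wt d e := by
  classical
  have hmaps : ∀ q ∈ G, tq q ∈ G.image tq := fun q hq => Finset.mem_image_of_mem _ hq
  have hpos : ∀ d ∈ G.image tq, 1 ≤ d := by
    intro d hd
    rw [Finset.mem_image] at hd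
    obtain ⟨q, hq, rfl⟩ := hd
    have := (ord_dvd q (hG q hq).1 (hG q hq).2).2.2.1
    omega
  have hlog : ∀ e ∈ G.image tq, 0 ≤ Real.log (e : ℝ) := by
    intro e he
    exact Real.log_nonneg (by exact_mod_cast hpos e he)
  rw [← Finset.sum_fiberwise_of_maps_to hmaps, Finset.mul_sum]
  apply Finset.sum_le_sum
  intro d hd
  have hd1 : (1 : ℝ) ≤ d := by exact_mod_cast hpos d hd
  have hd0 : (0 : ℝ) < d := by linarith
  have hw := wt_nonneg d d
  calc ∑ q ∈ G.filter (fun q => tq q = d), (tq q : ℝ) * (2 / (q : ℝ)) * wt (tq q) (tq q)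
      = (2 * d * wt d d) * ∑ q ∈ G.filter (fun q => tq q = d), (1 / (q : ℝ)) := by
        rw [Finset.mul_sum]
        apply Finset.sum_congr rfl
        intro q hq
        rw [Finset.mem_filter] at hq
        rw [hq.2]; ring
    _ ≤ (2 * d * wt d d) * ((1 + Real.log d) / d) :=
        mul_le_mul_of_nonneg_left (ord_recip G hG d (hpos d hd)) (by positivity)
    _ = 2 * ((1 + Real.log d) * wt d d) := by field_simp
    _ ≤ 2 * ((1 + Real.log d) * (1 + Real.log d) * wt d d) := by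
        have hl := hlog d hd
        have : (1 + Real.log d) * wt d d ≤ (1 + Real.log d) * (1 + Real.log d) * wt d d := by
          have h1 : 0 ≤ (1 + Real.log d) * wt d d := by positivity
          nlinarith
        linarith
    _ ≤ _ := by
        gcongr
        apply Finset.single_le_sum (f := fun e : ℕ => (1 + Real.log d) * (1 + Real.log e) * wt d e) _ hd
        intro e he
        have := hlog e he
        have := hlog d hd
        have := wt_nonneg d e
        positivity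

open Classical in
/-- the average weight -/
theorem avg_weight (G : Finset ℕ) (hG : ∀ q ∈ G, q.Prime ∧ q ≠ 2) (D s : ℕ)
    (K : Finset (Fin s → Fin D)) (A : ℕ → (Fin s → Fin D) → Prop)
    (h1 : ∀ q ∈ G, ((K.filter fun k => A q k).card : ℝ) ≤ tq q * (2 / (q : ℝ)) * (D : ℝ) ^ s)
    (h2 : ∀ q ∈ G, ∀ q' ∈ G, q ≠ q' → ((K.filter fun k => A q k ∧ A q' k).card : ℝ)
      ≤ tq q * tq q' * (4 / ((q : ℝ) * q')) * (D : ℝ) ^ s) :
    ∑ k ∈ K, ∑ q ∈ G.filter (fun q => A q k), ∑ q' ∈ G.filter (fun q => A q k), wt (tq q) (tq q')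
      ≤ 6 * (∑ d ∈ G.image tq, ∑ e ∈ G.image tq,
        (1 + Real.log d) * (1 + Real.log e) * wt d e) * (D : ℝ) ^ s := by
  have hpos : ∀ d ∈ G.image tq, 1 ≤ d := by
    intro d hd
    rw [Finset.mem_image] at hd
    obtain ⟨q, hq, rfl⟩ := hd
    have := (ord_dvd q (hG q hq).1 (hG q hq).2).2.2.1
    omega
  have hswap : ∑ k ∈ K, ∑ q ∈ G.filter (fun q => A q k), ∑ q' ∈ G.filter (fun q => A q k),
      wt (tq q) (tq q')
      = ∑ q ∈ G, ∑ q' ∈ G, ((K.filter fun k => A q k ∧ A q' k).card : ℝ) * wt (tq q) (tq q') := by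
    calc ∑ k ∈ K, ∑ q ∈ G.filter (fun q => A q k), ∑ q' ∈ G.filter (fun q => A q k),
          wt (tq q) (tq q')
        = ∑ k ∈ K, ∑ q ∈ G, ∑ q' ∈ G, (if A q k ∧ A q' k then wt (tq q) (tq q') else 0) := by
          apply Finset.sum_congr rfl
          intro k _
          rw [Finset.sum_filter]
          apply Finset.sum_congr rfl
          intro q _
          by_cases hq : A q k
          · rw [if_pos hq, Finset.sum_filter]
            apply Finset.sum_congr rfl
            intro q' _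
            simp [hq]
          · simp [hq]
      _ = ∑ q ∈ G, ∑ q' ∈ G, ∑ k ∈ K, (if A q k ∧ A q' k then wt (tq q) (tq q') else 0) := by
          rw [Finset.sum_comm]
          apply Finset.sum_congr rfl
          intro q _
          rw [Finset.sum_comm]
      _ = _ := by
          apply Finset.sum_congr rfl
          intro q _
          apply Finset.sum_congr rfl
          intro q' _
          rw [← Finset.sum_filter, Finset.sum_const, nsmul_eq_mul]
  rw [hswap]
  have hterm : ∀ q ∈ G, ∀ q' ∈ G,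
      ((K.filter fun k => A q k ∧ A q' k).card : ℝ) * wt (tq q) (tq q')
      ≤ 4 * (D : ℝ) ^ s * ((1 / (q : ℝ)) * (1 / (q' : ℝ)) * ((tq q : ℝ) * tq q' * wt (tq q) (tq q')))
        + (if q = q' then (tq q : ℝ) * (2 / (q : ℝ)) * wt (tq q) (tq q) * (D : ℝ) ^ s else 0) := by
    intro q hq q' hq'
    have hw := wt_nonneg (tq q) (tq q')
    by_cases hqq : q = q'
    · subst hqq
      rw [if_pos rfl]
      have e1 : (K.filter fun k => A q k ∧ A q k) = K.filter fun k => A q k := by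
        congr 1; ext k; simp
      rw [e1]
      have h3 := mul_le_mul_of_nonneg_right (h1 q hq) hw
      have h4 : 0 ≤ 4 * (D : ℝ) ^ s
          * ((1 / (q : ℝ)) * (1 / (q : ℝ)) * ((tq q : ℝ) * tq q * wt (tq q) (tq q))) := by
        positivity
      linarith
    · rw [if_neg hqq, add_zero]
      have h3 := mul_le_mul_of_nonneg_right (h2 q hq q' hq' hqq) hw
      refine h3.trans (le_of_eq ?_)
      have hq0 : (0 : ℝ) < q := by exact_mod_cast (hG q hq).1.pos
      have hq0' : (0 : ℝ) < q' := by exact_mod_cast (hG q' hq').1.pos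
      field_simp
  calc ∑ q ∈ G, ∑ q' ∈ G, ((K.filter fun k => A q k ∧ A q' k).card : ℝ) * wt (tq q) (tq q')
      ≤ ∑ q ∈ G, ∑ q' ∈ G, (4 * (D : ℝ) ^ s
          * ((1 / (q : ℝ)) * (1 / (q' : ℝ)) * ((tq q : ℝ) * tq q' * wt (tq q) (tq q')))
        + (if q = q' then (tq q : ℝ) * (2 / (q : ℝ)) * wt (tq q) (tq q) * (D : ℝ) ^ s else 0)) :=
        Finset.sum_le_sum fun q hq => Finset.sum_le_sum fun q' hq' => hterm q hq q' hq'
    _ = 4 * (D : ℝ) ^ s * ∑ q ∈ G, ∑ q' ∈ G,
          ((1 / (q : ℝ)) * (1 / (q' : ℝ)) * ((tq q : ℝ) * tq q' * wt (tq q) (tq q')))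
        + (∑ q ∈ G, (tq q : ℝ) * (2 / (q : ℝ)) * wt (tq q) (tq q)) * (D : ℝ) ^ s := by
        simp only [Finset.sum_add_distrib, Finset.mul_sum, Finset.sum_mul]
        congr 1
        apply Finset.sum_congr rfl
        intro q hq
        rw [Finset.sum_ite_eq, if_pos hq]
    _ ≤ 4 * (D : ℝ) ^ s * (∑ d ∈ G.image tq, ∑ e ∈ G.image tq,
          (1 + Real.log d) * (1 + Real.log e) * wt d e)
        + (2 * ∑ d ∈ G.image tq, ∑ e ∈ G.image tq,
          (1 + Real.log d) * (1 + Real.log e) * wt d e) * (D : ℝ) ^ s := by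
        gcongr
        · refine (sum_orders G hG (fun d e => (d : ℝ) * e * wt d e)
            (fun d e => by have := wt_nonneg d e; positivity)).trans (le_of_eq ?_)
          apply Finset.sum_congr rfl
          intro d hd
          apply Finset.sum_congr rfl
          intro e he
          have hd0 : (0 : ℝ) < d := by exact_mod_cast hpos d hd
          have he0 : (0 : ℝ) < e := by exact_mod_cast hpos e he
          field_simp
        · exact sum_diag G hG
    _ = _ := by ring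

end Pool.H53.NA

end S_NA_LSa

section S_NA_SvF

/-!
Row SvF: averaging over fibres.
-/


namespace Pool.H53.NA

theorem svf_one (D : ℕ) (f : ℕ → ℝ) :
    ∑ k ∈ Finset.range D, f (k + 1) = ∑ k ∈ Finset.range D, f k + f D - f 0 := by
  have h1 := Finset.sum_range_succ f D
  have h2 := Finset.sum_range_succ' f D
  linarith

theorem sum_shift (D : ℕ) (f : ℕ → ℝ) (hf : ∀ k, f (k + D) = f k) (j : ℕ) :
    ∑ k ∈ Finset.range D, f (k + j) = ∑ k ∈ Finset.range D, f k := by
  induction j with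
  | zero => rfl
  | succ j ih =>
    rw [← ih]
    have h := svf_one D (fun k => f (k + j))
    have h1 : f (D + j) = f j := by rw [add_comm, hf]
    simp only [zero_add, h1, add_sub_cancel_right] at h
    rw [← h]
    refine Finset.sum_congr rfl fun k _ => ?_
    rw [show k + (j + 1) = k + 1 + j by ring]

theorem svf_per (a : ℕ) (g : ℕ → ℝ) (hg : ∀ k, g (k + a) = g k) (m k : ℕ) :
    g (k + a * m) = g k := by
  induction m with
  | zero => rw [mul_zero, add_zero]
  | succ m ih => rw [show k + a * (m + 1) = k + a * m + a by ring, hg, ih]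

theorem fiber (D a L : ℕ) (h : a * L ∣ D) (hL : 0 < L) (g b : ℕ → ℝ) (hg : ∀ k, g (k + a) = g k)
    (hb : ∀ k, b (k + a * L) = b k) :
    ∑ k ∈ Finset.range D, g k * b k
      = ∑ k ∈ Finset.range D, g k * ((∑ i ∈ Finset.range L, b (k + i * a)) / L) := by
  obtain ⟨c, rfl⟩ := h
  have hL' : (L : ℝ) ≠ 0 := by exact_mod_cast hL.ne'
  have h1 : ∀ i, ∑ k ∈ Finset.range (a * L * c), g k * b (k + i * a) =
      ∑ k ∈ Finset.range (a * L * c), g k * b k := by
    intro i
    rw [← sum_shift (a * L * c) (fun k => g k * b k) _ (i * a)]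
    · refine Finset.sum_congr rfl fun k _ => ?_
      rw [mul_comm i a, svf_per a g hg]
    · intro k
      rw [svf_per (a * L) b hb, show k + a * L * c = k + a * (L * c) by ring, svf_per a g hg]
  have h2 : ∑ k ∈ Finset.range (a * L * c), g k * ((∑ i ∈ Finset.range L, b (k + i * a)) / L) =
      (∑ i ∈ Finset.range L, ∑ k ∈ Finset.range (a * L * c), g k * b (k + i * a)) / L := by
    rw [Finset.sum_comm, Finset.sum_div]
    refine Finset.sum_congr rfl fun k _ => ?_
    rw [← Finset.mul_sum, mul_div_assoc]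
  rw [h2, Finset.sum_congr rfl fun i _ => h1 i, Finset.sum_const, Finset.card_range, nsmul_eq_mul,
    mul_div_cancel_left₀ _ hL']

theorem fiber_per (a L : ℕ) (b : ℕ → ℝ) (hb : ∀ k, b (k + a * L) = b k) (k : ℕ) :
    ∑ i ∈ Finset.range L, b (k + a + i * a) = ∑ i ∈ Finset.range L, b (k + i * a) := by
  have h := svf_one L (fun i => b (k + i * a))
  have h1 : b (k + L * a) = b k := by rw [mul_comm, hb]
  simp only [zero_mul, add_zero, h1, add_sub_cancel_right] at h
  rw [← h]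
  refine Finset.sum_congr rfl fun i _ => ?_
  rw [show k + (i + 1) * a = k + a + i * a by ring]

theorem fiber_count (a l γ j m k x : ℕ) (hl : l.Prime) (hal : a.Coprime l) (hm : m ∣ a)
    (hj : j ≤ γ) :
    (((Finset.range (l ^ γ)).filter fun i => k + i * a ≡ x [MOD m * l ^ j]).card : ℝ) / (l : ℝ) ^ γ
      = (if k ≡ x [MOD m] then (1 : ℝ) else 0) / (l : ℝ) ^ j := by
  have hcop : m.Coprime (l ^ j) := Nat.Coprime.pow_right _ (Nat.Coprime.coprime_dvd_left hm hal)
  have haj : a.Coprime (l ^ j) := Nat.Coprime.pow_right _ hal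
  have hiff : ∀ i, k + i * a ≡ x [MOD m * l ^ j] ↔
      k ≡ x [MOD m] ∧ k + i * a ≡ x [MOD l ^ j] := by
    intro i
    rw [← Nat.modEq_and_modEq_iff_modEq_mul hcop]
    have h0 : k + i * a ≡ k [MOD m] := by
      have : i * a ≡ 0 [MOD m] := (Nat.modEq_zero_iff_dvd).2 (hm.mul_left i)
      simpa using (Nat.ModEq.refl k).add this
    constructor
    · rintro ⟨h1, h2⟩
      exact ⟨h0.symm.trans h1, h2⟩
    · rintro ⟨h1, h2⟩
      exact ⟨h0.trans h1, h2⟩
  have hl0 : (l : ℝ) ≠ 0 := by exact_mod_cast hl.ne_zero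
  by_cases hk : k ≡ x [MOD m]
  · rw [if_pos hk]
    have hpos : 0 < l ^ j := pow_pos hl.pos j
    haveI : NeZero (l ^ j) := ⟨hpos.ne'⟩
    have hu := ZMod.coe_mul_inv_eq_one a haj
    set i0 : ℕ := (((x : ZMod (l ^ j)) - k) * (a : ZMod (l ^ j))⁻¹).val with hi0
    have hi0' : (i0 : ZMod (l ^ j)) = ((x : ZMod (l ^ j)) - k) * (a : ZMod (l ^ j))⁻¹ := by
      rw [hi0, ZMod.natCast_val, ZMod.cast_id]
    have h3 : ∀ i, k + i * a ≡ x [MOD l ^ j] ↔ i ≡ i0 [MOD l ^ j] := by
      intro i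
      rw [← ZMod.natCast_eq_natCast_iff, ← ZMod.natCast_eq_natCast_iff, hi0']
      push_cast
      constructor
      · intro h
        rw [← h]
        linear_combination (-(i : ZMod (l ^ j))) * hu
      · intro h
        rw [h]
        linear_combination ((x : ZMod (l ^ j)) - k) * hu
    have h4 : ((Finset.range (l ^ γ)).filter fun i => k + i * a ≡ x [MOD m * l ^ j]).card =
        l ^ (γ - j) := by
      have h5 : ((Finset.range (l ^ γ)).filter fun i => k + i * a ≡ x [MOD m * l ^ j]) =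
          ((Finset.range (l ^ γ)).filter fun i => i ≡ i0 [MOD l ^ j]) := by
        ext i
        simp only [Finset.mem_filter, hiff, h3, hk, true_and]
      rw [h5, ← Nat.count_eq_card_filter_range, Nat.count_modEq_card _ hpos]
      have h6 : l ^ γ = l ^ j * l ^ (γ - j) := by rw [← pow_add]; congr 1; omega
      have h7 : l ^ γ % l ^ j = 0 := by rw [h6]; exact Nat.mul_mod_right _ _
      rw [h7, if_neg (Nat.not_lt_zero _), add_zero, h6, Nat.mul_div_cancel_left _ hpos]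
    rw [h4]
    have h8 : (l : ℝ) ^ γ = (l : ℝ) ^ j * (l : ℝ) ^ (γ - j) := by rw [← pow_add]; congr 1; omega
    rw [h8]
    push_cast
    have h9 : (l : ℝ) ^ (γ - j) ≠ 0 := pow_ne_zero _ hl0
    have h10 : (l : ℝ) ^ j ≠ 0 := pow_ne_zero _ hl0
    field_simp
  · rw [if_neg hk]
    have h4 : ((Finset.range (l ^ γ)).filter fun i => k + i * a ≡ x [MOD m * l ^ j]) = ∅ := by
      refine Finset.filter_eq_empty_iff.2 fun i _ h => hk ((hiff i).1 h).1
    rw [h4, Finset.card_empty, Nat.cast_zero, zero_div, zero_div]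

end Pool.H53.NA

end S_NA_SvF

section S_NA_SvS

/-!
Row SvS: one step of the sieve.  PROOF.  `L = l^γ`.  `B k :⇔ ∃ q ∈ S, k ≡ κ q [MOD m q * l ^ j q]` (period `a L`), `b` its
indicator, `α k = (∑_{i<L} b(k + i a))/L ∈ [0,1]`, which has period `a` (`fiber_per`).  By `fiber_count` and the union
bound `α k ≤ ∑_{q∈S} [k ≡ κ q mod m q] / l^(j q)`.  Put
`w' k = if α k < 1/8 ∧ ¬ B k then w k / (1 - α k) else 0`.
(ii) With `g k = if α k < 1/8 then w k/(1 - α k) else 0` (period `a`) and `w' = g - g b`, `fiber` gives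
`∑ w' = ∑ g (1 - α) = ∑_{α k < 1/8} w k = ∑ w - ∑_{α ≥ 1/8} w ≥ ∑ w - 64 ∑ w α²`, and
`∑ w α² ≤ ∑_{q,q'} l^(-j q - j q') ∑_{k ≡ κ q (m q), k ≡ κ q' (m q')} w k`; the two congruences are either
incompatible or one congruence modulo `lcm (m q) (m q')` (`∣ a`), so by (h3) the inner sum is
`≤ ow (lcm) D / lcm ≤ ow (m q) ow (m q') gcd D/(m q m q')`.
(iii) Let `m ∣ a l^γ`, `m = m' l^i` with `m' ∣ a`.  If `i = 0`: `∑_{k≡x (m)} w' = ∑_{k ≡ x (m), α k < 1/8} w` (`fiber` again,
with `g 1_{k ≡ x (m)}`, which has period `a`) `≤ ∑_{k ≡ x (m)} w`.  If `i ≥ 1`: `w' ≤ (8/7) w`, and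
`∑_{k ≡ x (m)} w = l^(-i) ∑_{k ≡ x (m')} w` by `fiber` and `fiber_count`; `ow m = (8/7) ow m'`.
-/


namespace Pool.H53.NA

theorem svs_per (f : ℕ → ℝ) (a : ℕ) (h : ∀ k, f (k + a) = f k) (n k : ℕ) :
    f (k + a * n) = f k := by
  induction n with
  | zero => simp
  | succ n ih => rw [Nat.mul_succ, ← Nat.add_assoc, h, ih]

/-- indicator of a residue class. -/
noncomputable def svs_I (m x k : ℕ) : ℝ := if k ≡ x [MOD m] then 1 else 0

theorem svs_I_nonneg (m x k : ℕ) : 0 ≤ svs_I m x k := by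
  unfold svs_I
  split_ifs
  · exact zero_le_one
  · exact le_refl _

theorem svs_modper (m x a : ℕ) (h : m ∣ a) (k : ℕ) :
    (k + a ≡ x [MOD m]) ↔ (k ≡ x [MOD m]) := by
  have h1 : k + a ≡ k [MOD m] := by
    have h2 := (Nat.ModEq.refl (n := m) k).add ((Nat.modEq_zero_iff_dvd).2 h)
    rwa [Nat.add_zero] at h2
  constructor
  · intro h2
    exact h1.symm.trans h2
  · intro h2
    exact h1.trans h2

theorem svs_I_per (m x a : ℕ) (h : m ∣ a) (k : ℕ) : svs_I m x (k + a) = svs_I m x k := by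
  unfold svs_I
  simp only [svs_modper m x a h k]

theorem svs_filter (D m x : ℕ) (f : ℕ → ℝ) :
    ∑ k ∈ (Finset.range D).filter (fun k => k ≡ x [MOD m]), f k =
      ∑ k ∈ Finset.range D, f k * svs_I m x k := by
  rw [Finset.sum_filter]
  refine Finset.sum_congr rfl fun k _ => ?_
  unfold svs_I
  split_ifs
  · rw [mul_one]
  · rw [mul_zero]

theorem svs_count (a l γ j m k x : ℕ) (hl : l.Prime) (hal : a.Coprime l) (hm : m ∣ a)
    (hj : j ≤ γ) :
    (∑ i ∈ Finset.range (l ^ γ), svs_I (m * l ^ j) x (k + i * a)) / ((l ^ γ : ℕ) : ℝ) =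
      svs_I m x k / (l : ℝ) ^ j := by
  have h := fiber_count a l γ j m k x hl hal hm hj
  unfold svs_I
  rw [Finset.sum_boole, Nat.cast_pow]
  exact h

theorem svs_ow_pos (m : ℕ) : 0 < ow m := by
  unfold ow
  positivity

theorem svs_ow_lcm (m m' : ℕ) (hm : m ≠ 0) (hm' : m' ≠ 0) :
    ow (Nat.lcm m m') ≤ ow m * ow m' := by
  unfold ow
  rw [← pow_add]
  refine pow_le_pow_right₀ (by norm_num) ?_
  have h1 : (Nat.lcm m m').primeFactors ⊆ m.primeFactors ∪ m'.primeFactors := by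
    intro p hp
    rw [Nat.mem_primeFactors] at hp
    obtain ⟨hp1, hp2, _⟩ := hp
    have h3 : p ∣ m * m' := hp2.trans (Nat.lcm_dvd_mul m m')
    rw [Finset.mem_union, Nat.mem_primeFactors, Nat.mem_primeFactors]
    rcases (Nat.Prime.dvd_mul hp1).1 h3 with h | h
    · exact Or.inl ⟨hp1, h, hm⟩
    · exact Or.inr ⟨hp1, h, hm'⟩
  exact (Finset.card_le_card h1).trans (Finset.card_union_le _ _)

theorem svs_ow_mul (m l e : ℕ) (hl : l.Prime) (h : m.Coprime l) (he : e ≠ 0) :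
    8 / 7 * ow m = ow (m * l ^ e) := by
  unfold ow
  have h1 : m.Coprime (l ^ e) := Nat.Coprime.pow_right e h
  rw [h1.primeFactors_mul, Finset.card_union_of_disjoint h1.disjoint_primeFactors,
    Nat.primeFactors_prime_pow he hl, Finset.card_singleton, pow_succ]
  ring

theorem svs_two (D a : ℕ) (ha : 0 < a) (w : ℕ → ℝ) (hw0 : ∀ k, 0 ≤ w k)
    (h3 : ∀ m, m ∣ a → ∀ x, ∑ k ∈ (Finset.range D).filter (fun k => k ≡ x [MOD m]), w k
      ≤ ow m * D / m) (m m' x x' : ℕ) (hm : m ∣ a) (hm' : m' ∣ a) :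
    ∑ k ∈ Finset.range D, w k * (svs_I m x k * svs_I m' x' k) ≤
      ow m * ow m' * (Nat.gcd m m' : ℝ) * D / ((m : ℝ) * m') := by
  have hm0 : 0 < m := Nat.pos_of_dvd_of_pos hm ha
  have hm0' : 0 < m' := Nat.pos_of_dvd_of_pos hm' ha
  have hmr : (0 : ℝ) < m := Nat.cast_pos.2 hm0
  have hmr' : (0 : ℝ) < m' := Nat.cast_pos.2 hm0'
  have hR : 0 ≤ ow m * ow m' * (Nat.gcd m m' : ℝ) * D / ((m : ℝ) * m') := by
    have h1 := svs_ow_pos m
    have h2 := svs_ow_pos m'
    positivity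
  by_cases hex : ∃ k0, k0 ≡ x [MOD m] ∧ k0 ≡ x' [MOD m']
  · obtain ⟨k0, hk1, hk2⟩ := hex
    have h1 : ∀ k, svs_I m x k * svs_I m' x' k ≤ svs_I (Nat.lcm m m') k0 k := by
      intro k
      unfold svs_I
      by_cases c1 : k ≡ x [MOD m]
      · by_cases c2 : k ≡ x' [MOD m']
        · rw [if_pos c1, if_pos c2, if_pos (Nat.mod_lcm (c1.trans hk1.symm) (c2.trans hk2.symm)),
            mul_one]
        · rw [if_neg c2, mul_zero]
          split_ifs
          · exact zero_le_one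
          · exact le_refl _
      · rw [if_neg c1, zero_mul]
        split_ifs
        · exact zero_le_one
        · exact le_refl _
    have h4 : ∑ k ∈ Finset.range D, w k * (svs_I m x k * svs_I m' x' k) ≤
        ow (Nat.lcm m m') * D / (Nat.lcm m m' : ℕ) := by
      refine le_trans (Finset.sum_le_sum fun k _ => mul_le_mul_of_nonneg_left (h1 k) (hw0 k)) ?_
      rw [← svs_filter]
      exact h3 _ (Nat.lcm_dvd hm hm') k0
    refine h4.trans ?_
    have hgl : (Nat.gcd m m' : ℝ) * (Nat.lcm m m' : ℝ) = (m : ℝ) * m' := by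
      rw [← Nat.cast_mul, Nat.gcd_mul_lcm, Nat.cast_mul]
    have hlp : (0 : ℝ) < (Nat.lcm m m' : ℕ) := Nat.cast_pos.2 (Nat.lcm_pos hm0 hm0')
    have hgp : (0 : ℝ) < (Nat.gcd m m' : ℕ) := Nat.cast_pos.2 (Nat.gcd_pos_of_pos_left _ hm0)
    rw [← hgl]
    have h5 : ow m * ow m' * (Nat.gcd m m' : ℝ) * D / ((Nat.gcd m m' : ℝ) * (Nat.lcm m m' : ℝ)) =
        ow m * ow m' * D / (Nat.lcm m m' : ℝ) := by
      field_simp
    rw [h5]
    gcongr
    exact svs_ow_lcm m m' hm0.ne' hm0'.ne'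
  · have h1 : ∀ k, svs_I m x k * svs_I m' x' k = 0 := by
      intro k
      unfold svs_I
      by_cases c1 : k ≡ x [MOD m]
      · by_cases c2 : k ≡ x' [MOD m']
        · exact absurd ⟨k, c1, c2⟩ hex
        · rw [if_neg c2, mul_zero]
      · rw [if_neg c1, zero_mul]
    simp only [h1, mul_zero, Finset.sum_const_zero]
    exact hR

theorem sieve_step {ι : Type} (D a l γ : ℕ) (hD : 0 < D) (hl : l.Prime)
    (hal : a.Coprime l) (hdiv : a * l ^ γ ∣ D) (w : ℕ → ℝ) (hw0 : ∀ k, 0 ≤ w k)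
    (hwa : ∀ k, w (k + a) = w k)
    (h3 : ∀ m, m ∣ a → ∀ x, ∑ k ∈ (Finset.range D).filter (fun k => k ≡ x [MOD m]), w k
      ≤ ow m * D / m)
    (S : Finset ι) (m κ j : ι → ℕ) (hm : ∀ q ∈ S, m q ∣ a) (hj1 : ∀ q ∈ S, 1 ≤ j q)
    (hj2 : ∀ q ∈ S, j q ≤ γ) :
    ∃ w' : ℕ → ℝ, (∀ k, 0 ≤ w' k) ∧ (∀ k, w' (k + a * l ^ γ) = w' k) ∧
      (∀ k, 0 < w' k → 0 < w k ∧ ∀ q ∈ S, ¬ k ≡ κ q [MOD m q * l ^ j q]) ∧
      (∑ k ∈ Finset.range D, w k - 64 * D * ∑ q ∈ S, ∑ q' ∈ S,
        ow (m q) * ow (m q') * (Nat.gcd (m q) (m q') : ℝ)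
          / ((m q * l ^ j q : ℕ) * (m q' * l ^ j q' : ℕ)) ≤ ∑ k ∈ Finset.range D, w' k) ∧
      (∀ i, i ∣ a * l ^ γ → ∀ x, ∑ k ∈ (Finset.range D).filter (fun k => k ≡ x [MOD i]), w' k
        ≤ ow i * D / i) := by
  classical
  have hL : 0 < l ^ γ := pow_pos hl.pos γ
  have haL : 0 < a * l ^ γ := Nat.pos_of_dvd_of_pos hdiv hD
  have ha : 0 < a := Nat.pos_of_mul_pos_right haL
  have hLr : (0 : ℝ) < ((l ^ γ : ℕ) : ℝ) := Nat.cast_pos.2 hL
  have hlr : (0 : ℝ) < (l : ℝ) := Nat.cast_pos.2 hl.pos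
  -- the union of the classes and its averages
  set b : ℕ → ℝ := fun k => if ∃ q ∈ S, k ≡ κ q [MOD m q * l ^ j q] then 1 else 0 with hb
  have hb0 : ∀ k, 0 ≤ b k := by
    intro k
    simp only [hb]
    split_ifs
    · exact zero_le_one
    · exact le_refl _
  have hb1 : ∀ k, b k ≤ 1 := by
    intro k
    simp only [hb]
    split_ifs
    · exact le_refl _
    · exact zero_le_one
  have hdv : ∀ q ∈ S, m q * l ^ j q ∣ a * l ^ γ := fun q hq =>
    Nat.mul_dvd_mul (hm q hq) (pow_dvd_pow l (hj2 q hq))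
  have hbp : ∀ k, b (k + a * l ^ γ) = b k := by
    intro k
    have h1 : (∃ q ∈ S, k + a * l ^ γ ≡ κ q [MOD m q * l ^ j q]) ↔
        (∃ q ∈ S, k ≡ κ q [MOD m q * l ^ j q]) := by
      constructor
      · rintro ⟨q, hq, h⟩
        exact ⟨q, hq, (svs_modper _ _ _ (hdv q hq) k).1 h⟩
      · rintro ⟨q, hq, h⟩
        exact ⟨q, hq, (svs_modper _ _ _ (hdv q hq) k).2 h⟩
    simp only [hb, h1]
  set α : ℕ → ℝ := fun k => (∑ i ∈ Finset.range (l ^ γ), b (k + i * a)) / ((l ^ γ : ℕ) : ℝ) with hα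
  have hαp : ∀ k, α (k + a) = α k := by
    intro k
    simp only [hα]
    rw [fiber_per a (l ^ γ) b hbp k]
  have hα0 : ∀ k, 0 ≤ α k := by
    intro k
    simp only [hα]
    exact div_nonneg (Finset.sum_nonneg fun i _ => hb0 _) hLr.le
  have hbu : ∀ k, b k ≤ ∑ q ∈ S, svs_I (m q * l ^ j q) (κ q) k := by
    intro k
    simp only [hb]
    split_ifs with h
    · obtain ⟨q, hq, h1⟩ := h
      have h2 : svs_I (m q * l ^ j q) (κ q) k = 1 := if_pos h1
      rw [← h2]
      exact Finset.single_le_sum (f := fun q => svs_I (m q * l ^ j q) (κ q) k)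
        (fun q _ => svs_I_nonneg _ _ _) hq
    · exact Finset.sum_nonneg fun q _ => svs_I_nonneg _ _ _
  have hαu : ∀ k, α k ≤ ∑ q ∈ S, svs_I (m q) (κ q) k / (l : ℝ) ^ j q := by
    intro k
    have h1 : α k ≤ (∑ i ∈ Finset.range (l ^ γ), ∑ q ∈ S,
        svs_I (m q * l ^ j q) (κ q) (k + i * a)) / ((l ^ γ : ℕ) : ℝ) := by
      simp only [hα]
      exact div_le_div_of_nonneg_right (Finset.sum_le_sum fun i _ => hbu _) hLr.le
    refine h1.trans (le_of_eq ?_)
    rw [Finset.sum_comm, Finset.sum_div]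
    exact Finset.sum_congr rfl fun q hq => svs_count a l γ (j q) (m q) k (κ q) hl hal (hm q hq)
      (hj2 q hq)
  -- the new weight
  set g : ℕ → ℝ := fun k => if α k < 1 / 8 then w k / (1 - α k) else 0 with hg
  have hgp : ∀ k, g (k + a) = g k := by
    intro k
    simp only [hg, hαp, hwa]
  have hg0 : ∀ k, 0 ≤ g k := by
    intro k
    simp only [hg]
    split_ifs with h
    · exact div_nonneg (hw0 k) (by linarith)
    · exact le_refl _
  have hgw : ∀ k, g k ≤ 8 / 7 * w k := by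
    intro k
    simp only [hg]
    split_ifs with h
    · rw [div_le_iff₀ (by linarith)]
      have h1 := hw0 k
      nlinarith
    · exact mul_nonneg (by norm_num) (hw0 k)
  have hgα : ∀ k, g k * (1 - α k) = if α k < 1 / 8 then w k else 0 := by
    intro k
    simp only [hg]
    split_ifs with h
    · exact div_mul_cancel₀ _ (by linarith)
    · exact zero_mul _
  -- averaging
  have hav : ∀ c : ℕ → ℝ, (∀ k, c (k + a) = c k) →
      ∑ k ∈ Finset.range D, (g k * (1 - b k)) * c k =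
        ∑ k ∈ Finset.range D, (if α k < 1 / 8 then w k else 0) * c k := by
    intro c hc
    have h1 := fiber D a (l ^ γ) hdiv hL (fun k => g k * c k) b
      (fun k => by simp only [hgp, hc]) hbp
    have h2 : ∑ k ∈ Finset.range D, (g k * (1 - b k)) * c k =
        ∑ k ∈ Finset.range D, g k * c k - ∑ k ∈ Finset.range D, (g k * c k) * b k := by
      rw [← Finset.sum_sub_distrib]
      exact Finset.sum_congr rfl fun k _ => by ring
    have h3 : ∑ k ∈ Finset.range D, (if α k < 1 / 8 then w k else 0) * c k =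
        ∑ k ∈ Finset.range D, g k * c k - ∑ k ∈ Finset.range D, (g k * c k) * α k := by
      rw [← Finset.sum_sub_distrib]
      refine Finset.sum_congr rfl fun k _ => ?_
      rw [← hgα k]
      ring
    rw [h2, h3, h1]
  refine ⟨fun k => g k * (1 - b k), ?_, ?_, ?_, ?_, ?_⟩
  · intro k
    exact mul_nonneg (hg0 k) (sub_nonneg.2 (hb1 k))
  · intro k
    simp only
    rw [hbp, svs_per g a hgp]
  · intro k hk
    simp only at hk
    constructor
    · rcases (hw0 k).lt_or_eq with h | h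
      · exact h
      · exfalso
        have h1 : g k = 0 := by
          simp only [hg, ← h, zero_div, ite_self]
        rw [h1, zero_mul] at hk
        exact lt_irrefl _ hk
    · intro q hq h
      have h1 : b k = 1 := by
        simp only [hb]
        exact if_pos ⟨q, hq, h⟩
      rw [h1, sub_self, mul_zero] at hk
      exact lt_irrefl _ hk
  · have h1 := hav (fun _ => 1) (fun _ => rfl)
    simp only [mul_one] at h1
    simp only
    rw [h1]
    have h2 : ∀ k, w k - 64 * (w k * α k ^ 2) ≤ if α k < 1 / 8 then w k else 0 := by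
      intro k
      have hwk := hw0 k
      split_ifs with h
      · have : 0 ≤ w k * α k ^ 2 := mul_nonneg hwk (sq_nonneg _)
        linarith
      · have h4 : 1 / 8 ≤ α k := not_lt.1 h
        have h5 : 1 ≤ 64 * α k ^ 2 := by nlinarith
        nlinarith
    have h6 : ∑ k ∈ Finset.range D, w k - 64 * ∑ k ∈ Finset.range D, w k * α k ^ 2 ≤
        ∑ k ∈ Finset.range D, if α k < 1 / 8 then w k else 0 := by
      rw [Finset.mul_sum, ← Finset.sum_sub_distrib]
      exact Finset.sum_le_sum fun k _ => h2 k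
    refine le_trans ?_ h6
    have h7 : ∑ k ∈ Finset.range D, w k * α k ^ 2 ≤ D * ∑ q ∈ S, ∑ q' ∈ S,
        ow (m q) * ow (m q') * (Nat.gcd (m q) (m q') : ℝ)
          / ((m q * l ^ j q : ℕ) * (m q' * l ^ j q' : ℕ)) := by
      have h8 : ∀ k, w k * α k ^ 2 ≤ ∑ q ∈ S, ∑ q' ∈ S,
          (w k * (svs_I (m q) (κ q) k * svs_I (m q') (κ q') k)) /
            ((l : ℝ) ^ j q * (l : ℝ) ^ j q') := by
        intro k
        have h9 : α k ^ 2 ≤ (∑ q ∈ S, svs_I (m q) (κ q) k / (l : ℝ) ^ j q) ^ 2 :=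
          pow_le_pow_left₀ (hα0 k) (hαu k) 2
        refine (mul_le_mul_of_nonneg_left h9 (hw0 k)).trans (le_of_eq ?_)
        rw [sq, Finset.sum_mul_sum, Finset.mul_sum]
        refine Finset.sum_congr rfl fun q _ => ?_
        rw [Finset.mul_sum]
        refine Finset.sum_congr rfl fun q' _ => ?_
        rw [div_mul_div_comm]
        ring
      refine (Finset.sum_le_sum fun k _ => h8 k).trans ?_
      rw [Finset.sum_comm, Finset.mul_sum]
      refine Finset.sum_le_sum fun q hq => ?_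
      rw [Finset.sum_comm, Finset.mul_sum]
      refine Finset.sum_le_sum fun q' hq' => ?_
      rw [← Finset.sum_div]
      have h10 := svs_two D a ha w hw0 h3 (m q) (m q') (κ q) (κ q') (hm q hq) (hm q' hq')
      have hmq : (0 : ℝ) < (m q : ℕ) := Nat.cast_pos.2 (Nat.pos_of_dvd_of_pos (hm q hq) ha)
      have hmq' : (0 : ℝ) < (m q' : ℕ) := Nat.cast_pos.2 (Nat.pos_of_dvd_of_pos (hm q' hq') ha)
      have hlj : (0 : ℝ) < (l : ℝ) ^ j q * (l : ℝ) ^ j q' := by positivity
      refine (div_le_div_of_nonneg_right h10 hlj.le).trans (le_of_eq ?_)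
      push_cast
      field_simp
    have h11 : 64 * ∑ k ∈ Finset.range D, w k * α k ^ 2 ≤ 64 * (D * ∑ q ∈ S, ∑ q' ∈ S,
        ow (m q) * ow (m q') * (Nat.gcd (m q) (m q') : ℝ)
          / ((m q * l ^ j q : ℕ) * (m q' * l ^ j q' : ℕ))) :=
      mul_le_mul_of_nonneg_left h7 (by norm_num)
    rw [← mul_assoc] at h11
    linarith
  · intro i hi x
    rw [svs_filter]
    obtain ⟨m', z, hm', hz, rfl⟩ := (Nat.dvd_mul).1 hi
    obtain ⟨e, he, rfl⟩ := (Nat.dvd_prime_pow hl).1 hz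
    have hm'0 : (0 : ℝ) < (m' : ℕ) := Nat.cast_pos.2 (Nat.pos_of_dvd_of_pos hm' ha)
    by_cases he0 : e = 0
    · subst he0
      rw [pow_zero, mul_one]
      rw [hav (svs_I m' x) (svs_I_per m' x a hm')]
      refine le_trans ?_ (h3 m' hm' x)
      rw [svs_filter]
      refine Finset.sum_le_sum fun k _ => mul_le_mul_of_nonneg_right ?_ (svs_I_nonneg _ _ _)
      split_ifs
      · exact le_refl _
      · exact hw0 k
    · have h1 : ∑ k ∈ Finset.range D, (g k * (1 - b k)) * svs_I (m' * l ^ e) x k ≤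
          8 / 7 * ∑ k ∈ Finset.range D, w k * svs_I (m' * l ^ e) x k := by
        rw [Finset.mul_sum]
        refine Finset.sum_le_sum fun k _ => ?_
        have h2 : g k * (1 - b k) ≤ 8 / 7 * w k := by
          have h4 := hg0 k
          have h5 := hb0 k
          have h6 := hgw k
          nlinarith
        have h7 := mul_le_mul_of_nonneg_right h2 (svs_I_nonneg (m' * l ^ e) x k)
        linarith
      refine h1.trans ?_
      have h2 := fiber D a (l ^ γ) hdiv hL w (svs_I (m' * l ^ e) x) hwa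
        (svs_I_per _ _ _ (Nat.mul_dvd_mul hm' (pow_dvd_pow l he)))
      rw [h2]
      have h4 : ∀ k, w k * ((∑ i ∈ Finset.range (l ^ γ), svs_I (m' * l ^ e) x (k + i * a)) /
          ((l ^ γ : ℕ) : ℝ)) = (w k * svs_I m' x k) / (l : ℝ) ^ e := by
        intro k
        rw [svs_count a l γ e m' k x hl hal hm' he, mul_div_assoc]
      rw [Finset.sum_congr rfl fun k _ => h4 k, ← Finset.sum_div, ← svs_filter]
      have h5 := h3 m' hm' x
      have hle : (0 : ℝ) < (l : ℝ) ^ e := by positivity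
      have h6 : 8 / 7 * ((∑ k ∈ (Finset.range D).filter (fun k => k ≡ x [MOD m']), w k) /
          (l : ℝ) ^ e) ≤ 8 / 7 * ((ow m' * D / m') / (l : ℝ) ^ e) :=
        mul_le_mul_of_nonneg_left (div_le_div_of_nonneg_right h5 hle.le) (by norm_num)
      refine h6.trans (le_of_eq ?_)
      rw [← svs_ow_mul m' l e hl (Nat.Coprime.coprime_dvd_left hm' hal) he0]
      push_cast
      field_simp

end Pool.H53.NA

end S_NA_SvS

section S_NA_Sv

/-!
Row Sv: the sieve.  PROOF.  Induction on `l ≥ l0` (up to `l = D`) of the claim: there is `w : ℕ → ℝ`, `w ≥ 0`, with period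
`spart D l`, such that (1) `0 < w k → U k ∧ ∀ q ∈ S, gpf (d q) ≤ l → ¬ k ≡ κ q [MOD d q]`; (2)
`#{k < D : U k} - 64 D ∑_{q,q' ∈ S, gpf (d q) = gpf (d q') ≤ l} wt (d q) (d q') ≤ ∑_{k<D} w k`; (3) for `i ∣ spart D l` and all `x`
`∑_{k<D, k≡x (i)} w k ≤ ow i D/i`.
Base `l = l0`: `w = 1_U`; no `q ∈ S` has `gpf (d q) ≤ l0`; `#{k < D : k ≡ x (i)} = D/i` for `i ∣ D` (`spart D l ∣ D`) and `ow i ≥ 1`.
Step `l → l+1 =: p`: if `p` is not a prime or `p ∤ D` then `spart D p = spart D l` and no `q ∈ S` has `gpf (d q) = p` (it would be a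
prime dividing `d q ∣ D`); keep `w`.  Otherwise `spart D p = spart D l * p ^ γ` with `γ = D.factorization p`, coprime
factors; for `q ∈ S_p = {q ∈ S : gpf (d q) = p}` `d q = mpt (d q) * p ^ (d q).factorization p` with `mpt (d q) ∣ spart D l` (its
primes are `< p` and its exponents are at most those of `D`), `1 ≤ (d q).factorization p ≤ γ`; apply `sieve_step`.
At `l = D` every `q ∈ S` has `gpf (d q) ≤ D`, `∑ w > 0` by (2) and `hW`, so some `w k > 0`; use (1).
-/


namespace Pool.H53.NA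

theorem sv_gpf_mem (d : ℕ) (h : 0 < gpf d) : gpf d ∈ d.primeFactors := by
  unfold gpf at h ⊢
  have hne : d.primeFactors.Nonempty := by
    rw [Finset.nonempty_iff_ne_empty]
    intro he
    rw [he] at h
    simp at h
  obtain ⟨i, hi, he⟩ := Finset.exists_mem_eq_sup d.primeFactors hne id
  rw [he]
  exact hi

theorem sv_gpf_ge (d q : ℕ) (h : q ∈ d.primeFactors) : q ≤ gpf d := by
  unfold gpf
  exact Finset.le_sup (f := id) h

theorem sv_gpf_le (d : ℕ) : gpf d ≤ d := by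
  rcases Nat.eq_zero_or_pos (gpf d) with h | h
  · omega
  · have := sv_gpf_mem d h
    exact Nat.le_of_mem_primeFactors this

theorem sv_spart_dvd (D l : ℕ) (hD : 0 < D) : spart D l ∣ D := by
  conv_rhs => rw [← Nat.prod_factorization_pow_eq_self hD.ne']
  unfold spart
  rw [Finsupp.prod]
  exact Finset.prod_dvd_prod_of_subset _ _ _ (Finset.filter_subset _ _)

theorem sv_dvd_spart (D l m : ℕ) (hD : 0 < D) (hm : m ∣ D) (h : ∀ q ∈ m.primeFactors, q ≤ l) :
    m ∣ spart D l := by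
  have hm0 : m ≠ 0 := by
    rintro rfl
    exact hD.ne' (Nat.eq_zero_of_zero_dvd hm)
  conv_lhs => rw [← Nat.prod_factorization_pow_eq_self hm0]
  rw [Finsupp.prod]
  have h1 : ∏ q ∈ m.factorization.support, q ^ m.factorization q ∣
      ∏ q ∈ m.factorization.support, q ^ D.factorization q := by
    apply Finset.prod_dvd_prod_of_dvd
    intro q _
    exact pow_dvd_pow q ((Nat.factorization_le_iff_dvd hm0 hD.ne').2 hm q)
  refine h1.trans ?_
  unfold spart
  apply Finset.prod_dvd_prod_of_subset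
  intro q hq
  rw [Nat.support_factorization] at hq
  rw [Finset.mem_filter]
  exact ⟨Nat.primeFactors_mono hm hD.ne' hq, h q hq⟩

theorem sv_spart_same (D l : ℕ) (h : ¬ (l + 1) ∈ D.primeFactors) :
    spart D (l + 1) = spart D l := by
  unfold spart
  congr 1
  ext q
  rw [Finset.mem_filter, Finset.mem_filter]
  constructor
  · rintro ⟨h1, h2⟩
    refine ⟨h1, ?_⟩
    rcases Nat.lt_or_ge l q with h3 | h3
    · have : q = l + 1 := by omega
      exact absurd (this ▸ h1) h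
    · exact h3
  · rintro ⟨h1, h2⟩
    exact ⟨h1, by omega⟩

theorem sv_spart_succ (D l : ℕ) (h : (l + 1) ∈ D.primeFactors) :
    spart D (l + 1) = spart D l * (l + 1) ^ D.factorization (l + 1) := by
  unfold spart
  have h1 : D.primeFactors.filter (fun p => p ≤ l + 1) =
      insert (l + 1) (D.primeFactors.filter (fun p => p ≤ l)) := by
    ext q
    rw [Finset.mem_insert, Finset.mem_filter, Finset.mem_filter]
    constructor
    · rintro ⟨h1, h2⟩
      rcases Nat.lt_or_ge l q with h3 | h3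
      · exact Or.inl (by omega)
      · exact Or.inr ⟨h1, h3⟩
    · rintro (h1 | ⟨h1, h2⟩)
      · subst h1
        exact ⟨h, le_rfl⟩
      · exact ⟨h1, by omega⟩
  rw [h1, Finset.prod_insert, mul_comm]
  rw [Finset.mem_filter]
  rintro ⟨_, h2⟩
  omega

theorem sv_spart_coprime (D l : ℕ) (hp : (l + 1).Prime) : (spart D l).Coprime (l + 1) := by
  unfold spart
  apply Nat.Coprime.prod_left
  intro q hq
  rw [Finset.mem_filter] at hq
  apply Nat.Coprime.pow_left
  rw [Nat.coprime_primes (Nat.prime_of_mem_primeFactors hq.1) hp]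
  omega

theorem sv_count (D i x : ℕ) (hD : 0 < D) (hi : i ∣ D) :
    (((Finset.range D).filter (fun k => k ≡ x [MOD i])).card : ℝ) = (D : ℝ) / i := by
  have hi0 : 0 < i := Nat.pos_of_dvd_of_pos hi hD
  have h1 := Nat.count_modEq_card D hi0 x
  rw [Nat.count_eq_card_filter_range, Nat.mod_eq_zero_of_dvd hi] at h1
  rw [h1]
  simp only [not_lt_zero, if_false, add_zero]
  rw [Nat.cast_div hi]
  exact_mod_cast hi0.ne'

theorem sv_ow (m : ℕ) : 1 ≤ ow m := by
  unfold ow
  exact one_le_pow₀ (by norm_num)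

/-- the claim of the induction -/
def SvP {ι : Type} (D : ℕ) (S : Finset ι) (d κ : ι → ℕ) (U : ℕ → Prop) (A : ℝ) (l : ℕ) : Prop :=
  ∃ w : ℕ → ℝ, (∀ k, 0 ≤ w k) ∧ (∀ k, w (k + spart D l) = w k) ∧
    (∀ k, 0 < w k → U k ∧ ∀ q ∈ S, gpf (d q) ≤ l → ¬ k ≡ κ q [MOD d q]) ∧
    (A - 64 * (D : ℝ) * ∑ q ∈ S, ∑ q' ∈ S, (if gpf (d q) ≤ l then wt (d q) (d q') else 0)
      ≤ ∑ k ∈ Finset.range D, w k) ∧
    (∀ i, i ∣ spart D l → ∀ x, ∑ k ∈ (Finset.range D).filter (fun k => k ≡ x [MOD i]), w k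
      ≤ ow i * D / i)

theorem sv_base {ι : Type} (D l0 : ℕ) (hD : 0 < D) (S : Finset ι) (d κ : ι → ℕ)
    (hg : ∀ q ∈ S, l0 < gpf (d q)) (U : ℕ → Prop) [DecidablePred U]
    (hU : ∀ k, U (k + spart D l0) ↔ U k) :
    SvP D S d κ U ((Finset.range D).filter U).card l0 := by
  refine ⟨fun k => if U k then 1 else 0, ?_, ?_, ?_, ?_, ?_⟩
  · intro k
    show (0 : ℝ) ≤ if U k then 1 else 0
    split_ifs <;> norm_num
  · intro k
    show (if U (k + spart D l0) then (1 : ℝ) else 0) = if U k then 1 else 0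
    by_cases h : U k
    · rw [if_pos ((hU k).2 h), if_pos h]
    · rw [if_neg (fun h' => h ((hU k).1 h')), if_neg h]
  · intro k hk
    have hk' : (0 : ℝ) < if U k then 1 else 0 := hk
    by_cases h : U k
    · refine ⟨h, fun q hq hle => ?_⟩
      have := hg q hq
      omega
    · rw [if_neg h] at hk'
      exact absurd hk' (lt_irrefl _)
  · have h1 : ∑ q ∈ S, ∑ q' ∈ S, (if gpf (d q) ≤ l0 then wt (d q) (d q') else 0) = 0 := by
      apply Finset.sum_eq_zero
      intro q hq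
      apply Finset.sum_eq_zero
      intro q' _
      rw [if_neg]
      have := hg q hq
      omega
    rw [h1, mul_zero, sub_zero, Finset.sum_boole]
  · intro i hi x
    show ∑ k ∈ (Finset.range D).filter (fun k => k ≡ x [MOD i]), (if U k then (1 : ℝ) else 0) ≤ _
    have hiD : i ∣ D := hi.trans (sv_spart_dvd D l0 hD)
    calc ∑ k ∈ (Finset.range D).filter (fun k => k ≡ x [MOD i]), (if U k then (1 : ℝ) else 0)
        ≤ ∑ k ∈ (Finset.range D).filter (fun k => k ≡ x [MOD i]), (1 : ℝ) := by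
          apply Finset.sum_le_sum
          intro k _
          split_ifs <;> norm_num
      _ = (D : ℝ) / i := by
          rw [Finset.sum_const, nsmul_eq_mul, mul_one]
          exact sv_count D i x hD hiD
      _ ≤ ow i * D / i := by
          have h2 : (D : ℝ) ≤ ow i * D := le_mul_of_one_le_left (Nat.cast_nonneg _) (sv_ow i)
          exact div_le_div_of_nonneg_right h2 (Nat.cast_nonneg _)

theorem sv_step {ι : Type} (D l0 l : ℕ) (hD : 0 < D) (S : Finset ι) (d κ : ι → ℕ)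
    (hd : ∀ q ∈ S, d q ∣ D) (hg : ∀ q ∈ S, l0 < gpf (d q)) (U : ℕ → Prop) (A : ℝ)
    (h : SvP D S d κ U A l) : SvP D S d κ U A (l + 1) := by
  classical
  obtain ⟨w, hw0, hwp, hw1, hw2, hw3⟩ := h
  by_cases hp : (l + 1) ∈ D.primeFactors
  · have hpp : (l + 1).Prime := Nat.prime_of_mem_primeFactors hp
    have hsp := sv_spart_succ D l hp
    obtain ⟨T, hT⟩ : ∃ T, T = S.filter (fun q => gpf (d q) = l + 1) := ⟨_, rfl⟩
    have hTm : ∀ q ∈ T, q ∈ S ∧ gpf (d q) = l + 1 := by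
      intro q hq
      rw [hT, Finset.mem_filter] at hq
      exact hq
    have hmem : ∀ q ∈ T, (l + 1) ∈ (d q).primeFactors := by
      intro q hq
      have h1 := sv_gpf_mem (d q) (by rw [(hTm q hq).2]; omega)
      rwa [(hTm q hq).2] at h1
    have hd0 : ∀ q ∈ T, d q ≠ 0 := fun q hq => (Nat.mem_primeFactors.1 (hmem q hq)).2.2
    have hmpt : ∀ q ∈ T, mpt (d q) = d q / (l + 1) ^ (d q).factorization (l + 1) := by
      intro q hq
      unfold mpt
      rw [(hTm q hq).2]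
    have hdq : ∀ q ∈ T, mpt (d q) * (l + 1) ^ (d q).factorization (l + 1) = d q := by
      intro q hq
      rw [hmpt q hq]
      exact Nat.div_mul_cancel (Nat.ordProj_dvd (d q) (l + 1))
    obtain ⟨w', h0', hp', h1', h2', h3'⟩ := sieve_step D (spart D l) (l + 1)
      (D.factorization (l + 1)) hD hpp (sv_spart_coprime D l hpp)
      (by rw [← hsp]; exact sv_spart_dvd D (l + 1) hD) w hw0 hwp hw3 T
      (fun q => mpt (d q)) κ (fun q => (d q).factorization (l + 1))
      (by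
        intro q hq
        apply sv_dvd_spart D l _ hD
        · exact (Dvd.intro _ (hdq q hq)).trans (hd q (hTm q hq).1)
        · intro r hr
          have hr1 : r ∈ (d q).primeFactors :=
            Nat.primeFactors_mono (Dvd.intro _ (hdq q hq)) (hd0 q hq) hr
          have hr2 := sv_gpf_ge (d q) r hr1
          rw [(hTm q hq).2] at hr2
          have hr3 : r ≠ l + 1 := by
            rintro rfl
            have h5 := Nat.dvd_of_mem_primeFactors hr
            rw [hmpt q hq] at h5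
            exact Nat.not_dvd_ordCompl hpp (hd0 q hq) h5
          omega)
      (by
        intro q hq
        exact hpp.factorization_pos_of_dvd (hd0 q hq) (Nat.dvd_of_mem_primeFactors (hmem q hq)))
      (by
        intro q hq
        exact (Nat.factorization_le_iff_dvd (hd0 q hq) hD.ne').2 (hd q (hTm q hq).1) (l + 1))
    refine ⟨w', h0', ?_, ?_, ?_, ?_⟩
    · rw [hsp]
      exact hp'
    · intro k hk
      obtain ⟨hk1, hk2⟩ := h1' k hk
      obtain ⟨hk3, hk4⟩ := hw1 k hk1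
      refine ⟨hk3, fun q hq hle => ?_⟩
      rcases Nat.lt_or_ge l (gpf (d q)) with h5 | h5
      · have hqT : q ∈ T := by
          rw [hT, Finset.mem_filter]
          exact ⟨hq, by omega⟩
        have := hk2 q hqT
        rwa [hdq q hqT] at this
      · exact hk4 q hq h5
    · refine le_trans ?_ h2'
      have hsum : ∑ q ∈ S, ∑ q' ∈ S, (if gpf (d q) ≤ l + 1 then wt (d q) (d q') else 0) =
          ∑ q ∈ S, ∑ q' ∈ S, (if gpf (d q) ≤ l then wt (d q) (d q') else 0) +
          ∑ q ∈ T, ∑ q' ∈ T, ow (mpt (d q)) * ow (mpt (d q')) *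
            (Nat.gcd (mpt (d q)) (mpt (d q')) : ℝ) /
            ((mpt (d q) * (l + 1) ^ (d q).factorization (l + 1) : ℕ) *
              (mpt (d q') * (l + 1) ^ (d q').factorization (l + 1) : ℕ)) := by
        have e1 : ∀ q ∈ S, ∑ q' ∈ S, (if gpf (d q) ≤ l + 1 then wt (d q) (d q') else 0) =
            ∑ q' ∈ S, (if gpf (d q) ≤ l then wt (d q) (d q') else 0) +
            (if gpf (d q) = l + 1 then ∑ q' ∈ S, wt (d q) (d q') else 0) := by
          intro q _
          rcases Nat.lt_trichotomy (gpf (d q)) (l + 1) with h | h | h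
          · rw [if_neg (by omega), add_zero]
            refine Finset.sum_congr rfl (fun q' _ => ?_)
            rw [if_pos (by omega), if_pos (by omega)]
          · rw [if_pos h]
            have : ∑ q' ∈ S, (if gpf (d q) ≤ l then wt (d q) (d q') else 0) = 0 := by
              apply Finset.sum_eq_zero
              intro q' _
              rw [if_neg (by omega)]
            rw [this, zero_add]
            refine Finset.sum_congr rfl (fun q' _ => ?_)
            rw [if_pos (by omega)]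
          · rw [if_neg (by omega), add_zero]
            refine Finset.sum_congr rfl (fun q' _ => ?_)
            rw [if_neg (by omega), if_neg (by omega)]
        rw [Finset.sum_congr rfl e1, Finset.sum_add_distrib]
        congr 1
        rw [← Finset.sum_filter, ← hT]
        refine Finset.sum_congr rfl (fun q hq => ?_)
        have e2 : ∑ q' ∈ S, wt (d q) (d q') = ∑ q' ∈ T, wt (d q) (d q') := by
          rw [hT, Finset.sum_filter]
          refine Finset.sum_congr rfl (fun q' _ => ?_)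
          by_cases h : gpf (d q') = l + 1
          · rw [if_pos h]
          · rw [if_neg h]
            unfold wt
            rw [if_neg]
            rw [(hTm q hq).2]
            exact fun h' => h h'.symm
        rw [e2]
        refine Finset.sum_congr rfl (fun q' hq' => ?_)
        unfold wt
        rw [if_pos ((hTm q hq).2.trans (hTm q' hq').2.symm), hdq q hq, hdq q' hq']
      rw [hsum]
      have h6 := hw2
      linarith
    · rw [hsp]
      exact h3'
  · have hsp := sv_spart_same D l hp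
    have hne : ∀ q ∈ S, gpf (d q) ≠ l + 1 := by
      intro q hq h
      have h1 := sv_gpf_mem (d q) (by rw [h]; omega)
      rw [h] at h1
      exact hp (Nat.primeFactors_mono (hd q hq) hD.ne' h1)
    refine ⟨w, hw0, ?_, ?_, ?_, ?_⟩
    · rw [hsp]
      exact hwp
    · intro k hk
      obtain ⟨hk3, hk4⟩ := hw1 k hk
      refine ⟨hk3, fun q hq hle => hk4 q hq ?_⟩
      have := hne q hq
      omega
    · have e : ∑ q ∈ S, ∑ q' ∈ S, (if gpf (d q) ≤ l + 1 then wt (d q) (d q') else 0) =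
          ∑ q ∈ S, ∑ q' ∈ S, (if gpf (d q) ≤ l then wt (d q) (d q') else 0) := by
        refine Finset.sum_congr rfl (fun q hq => ?_)
        refine Finset.sum_congr rfl (fun q' _ => ?_)
        have := hne q hq
        by_cases h : gpf (d q) ≤ l
        · rw [if_pos h, if_pos (by omega)]
        · rw [if_neg h, if_neg (by omega)]
      rw [e]
      exact hw2
    · rw [hsp]
      exact hw3

theorem sieve {ι : Type} (D l0 : ℕ) (hD : 0 < D) (S : Finset ι) (d κ : ι → ℕ)
    (hd : ∀ q ∈ S, d q ∣ D) (hg : ∀ q ∈ S, l0 < gpf (d q)) (U : ℕ → Prop) [DecidablePred U]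
    (hU : ∀ k, U (k + spart D l0) ↔ U k)
    (hW : 64 * (D : ℝ) * ∑ q ∈ S, ∑ q' ∈ S, wt (d q) (d q')
      < ((Finset.range D).filter U).card) :
    ∃ k, U k ∧ ∀ q ∈ S, ¬ k ≡ κ q [MOD d q] := by
  have hall : ∀ n, SvP D S d κ U ((Finset.range D).filter U).card (l0 + n) := by
    intro n
    induction n with
    | zero => exact sv_base D l0 hD S d κ hg U hU
    | succ n ih => exact sv_step D l0 (l0 + n) hD S d κ hd hg U _ ih
  obtain ⟨w, hw0, -, hw1, hw2, -⟩ := hall D
  have hle : ∀ q ∈ S, gpf (d q) ≤ l0 + D := by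
    intro q hq
    have h1 := sv_gpf_le (d q)
    have h2 := Nat.le_of_dvd hD (hd q hq)
    omega
  have e : ∑ q ∈ S, ∑ q' ∈ S, (if gpf (d q) ≤ l0 + D then wt (d q) (d q') else 0) =
      ∑ q ∈ S, ∑ q' ∈ S, wt (d q) (d q') := by
    refine Finset.sum_congr rfl (fun q hq => ?_)
    refine Finset.sum_congr rfl (fun q' _ => ?_)
    rw [if_pos (hle q hq)]
  rw [e] at hw2
  have hpos : 0 < ∑ k ∈ Finset.range D, w k := by linarith
  obtain ⟨k, _, hk⟩ := Finset.exists_lt_of_sum_lt (s := Finset.range D) (f := fun _ => (0 : ℝ))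
    (g := w) (by simpa using hpos)
  obtain ⟨h1, h2⟩ := hw1 k hk
  exact ⟨k, h1, fun q hq => h2 q hq (hle q hq)⟩

end Pool.H53.NA

end S_NA_Sv

section S_NA_LS

/-!
Local solubility (assembly).
-/


namespace Pool.H53.NA

/-- an order with largest prime factor `≤ l0` divides the `l0`-smooth part -/
theorem dvd_spart (D l0 t : ℕ) (hD : 0 < D) (ht : t ∣ D) (hg : gpf t ≤ l0) : t ∣ spart D l0 := by
  have ht0 : t ≠ 0 := fun h => by rw [h, zero_dvd_iff] at ht; omega
  have hs0 : spart D l0 ≠ 0 := by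
    unfold spart
    rw [Finset.prod_ne_zero_iff]
    intro p hp
    rw [Finset.mem_filter] at hp
    exact pow_ne_zero _ (Nat.prime_of_mem_primeFactors hp.1).ne_zero
  rw [← Nat.factorization_le_iff_dvd ht0 hs0]
  intro p
  by_cases hp : p ∈ t.primeFactors
  · have hpp : p.Prime := Nat.prime_of_mem_primeFactors hp
    have hpl : p ≤ l0 := by
      refine le_trans ?_ hg
      unfold gpf
      exact Finset.le_sup (f := id) hp
    have hpD : p ∈ D.primeFactors := Nat.primeFactors_mono ht hD.ne' hp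
    have h1 : t.factorization p ≤ D.factorization p :=
      (Nat.factorization_le_iff_dvd ht0 hD.ne').mpr ht p
    have h2 : p ^ D.factorization p ∣ spart D l0 := by
      unfold spart
      exact Finset.dvd_prod_of_mem (fun p => p ^ D.factorization p)
        (Finset.mem_filter.mpr ⟨hpD, hpl⟩)
    have h3 : D.factorization p ≤ (spart D l0).factorization p :=
      (hpp.pow_dvd_iff_le_factorization hs0).mp h2
    exact h1.trans h3
  · have : t.factorization p = 0 := by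
      rw [← Finsupp.notMem_support_iff, Nat.support_factorization]
      exact hp
    rw [this]
    exact Nat.zero_le _

/-- discrete logarithms -/
theorem exists_log (q : ℕ) (y : ZMod q) (hy : y ∈ pw q) : ∃ κ : ℕ, (2 : ZMod q) ^ κ = y := by
  unfold pw at hy
  rw [Finset.mem_image] at hy
  obtain ⟨k, _, hk⟩ := hy
  exact ⟨k, hk⟩

theorem pow_mem_pw (q D : ℕ) (hD : 0 < D) (h2 : (2 : ZMod q) ^ D = 1) (k : ℕ) :
    (2 : ZMod q) ^ k ∈ pw q := by
  unfold pw
  rw [Finset.mem_image]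
  have hpos : 0 < orderOf (2 : ZMod q) := order_pos q D hD h2
  exact ⟨k % orderOf (2 : ZMod q), Finset.mem_range.mpr (Nat.mod_lt _ hpos),
    pow_mod_orderOf _ _⟩

open Classical in
theorem LS : ∃ r : ℕ, ∀ P : Finset ℕ, (∀ q ∈ P, q.Prime ∧ q ≠ 2) → ∀ n : ℤ,
    ∃ k : Fin r → ℕ, ∀ q ∈ P, ((n : ZMod q) - ∑ i, (2 : ZMod q) ^ (k i)) ≠ 0 := by
  obtain ⟨c, hc, L1, hL1, h1⟩ := smooth_count
  obtain ⟨Cw, hCw, L2, hL2, h2⟩ := tot_sum
  obtain ⟨s0, t1, hs0, ht1, h3⟩ := nt_final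
  -- choice of `l0`
  obtain ⟨l0, hl01, hl02, hl03, hl04⟩ : ∃ l0 : ℕ, L1 ≤ l0 ∧ L2 ≤ l0 ∧ t1 ≤ l0 ∧
      1 / (l0 : ℝ) + 64 * (6 * (Cw / Real.sqrt l0)) < c * (l0 : ℝ) ^ (-(1 : ℝ) / 4) := by
    have hlim : Filter.Tendsto (fun l : ℕ => (1 / (l : ℝ) + 64 * (6 * (Cw / Real.sqrt l)))
        * (l : ℝ) ^ ((1 : ℝ) / 4)) Filter.atTop (nhds 0) := by
      have ha : Filter.Tendsto (fun l : ℕ => (l : ℝ) ^ (-(3 : ℝ) / 4)) Filter.atTop (nhds 0) := by
        have := (tendsto_rpow_neg_atTop (y := (3 : ℝ) / 4) (by norm_num)).comp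
          tendsto_natCast_atTop_atTop
        refine this.congr fun l => ?_
        simp only [Function.comp]
        congr 1; norm_num
      have hb : Filter.Tendsto (fun l : ℕ => (l : ℝ) ^ (-(1 : ℝ) / 4)) Filter.atTop (nhds 0) := by
        have := (tendsto_rpow_neg_atTop (y := (1 : ℝ) / 4) (by norm_num)).comp
          tendsto_natCast_atTop_atTop
        refine this.congr fun l => ?_
        simp only [Function.comp]
        congr 1; norm_num
      have hsum := ha.add (hb.const_mul (64 * (6 * Cw)))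
      rw [mul_zero, add_zero] at hsum
      refine hsum.congr' ?_
      filter_upwards [Filter.eventually_gt_atTop 0] with l hl
      have hl0 : (0 : ℝ) < l := by exact_mod_cast hl
      rw [Real.sqrt_eq_rpow]
      have e1 : (1 : ℝ) / l = (l : ℝ) ^ (-(1 : ℝ)) := by
        rw [Real.rpow_neg_one, one_div]
      have e2 : Cw / (l : ℝ) ^ ((1 : ℝ) / 2) = Cw * (l : ℝ) ^ (-(1 : ℝ) / 2) := by
        rw [neg_div, Real.rpow_neg hl0.le, div_eq_mul_inv]
      rw [e1, e2, add_mul, ← Real.rpow_add hl0]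
      have e3 : 64 * (6 * (Cw * (l : ℝ) ^ (-(1 : ℝ) / 2))) * (l : ℝ) ^ ((1 : ℝ) / 4)
          = 64 * (6 * Cw) * ((l : ℝ) ^ (-(1 : ℝ) / 2) * (l : ℝ) ^ ((1 : ℝ) / 4)) := by ring
      rw [e3, ← Real.rpow_add hl0]
      congr 2
      · norm_num
      · norm_num
    have hev := (hlim.eventually (gt_mem_nhds hc)).and
      ((Filter.eventually_ge_atTop L1).and ((Filter.eventually_ge_atTop L2).and
        ((Filter.eventually_ge_atTop t1).and (Filter.eventually_gt_atTop 0))))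
    obtain ⟨l0, ha, hb, hc', hd, he⟩ := hev.exists
    refine ⟨l0, hb, hc', hd, ?_⟩
    have hl0 : (0 : ℝ) < l0 := by exact_mod_cast he
    have hp : (0 : ℝ) < (l0 : ℝ) ^ (-(1 : ℝ) / 4) := Real.rpow_pos_of_pos hl0 _
    have hmul : (l0 : ℝ) ^ ((1 : ℝ) / 4) * (l0 : ℝ) ^ (-(1 : ℝ) / 4) = 1 := by
      rw [← Real.rpow_add hl0]
      norm_num
    calc 1 / (l0 : ℝ) + 64 * (6 * (Cw / Real.sqrt l0))
        = ((1 / (l0 : ℝ) + 64 * (6 * (Cw / Real.sqrt l0))) * (l0 : ℝ) ^ ((1 : ℝ) / 4))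
          * (l0 : ℝ) ^ (-(1 : ℝ) / 4) := by rw [mul_assoc, hmul, mul_one]
      _ < c * (l0 : ℝ) ^ (-(1 : ℝ) / 4) := by gcongr
  have hl0pos : 1 ≤ l0 := hL1.trans hl01
  obtain ⟨s1, hs1⟩ := h1 l0 hl01
  set s : ℕ := max s0 s1 with hs
  refine ⟨s + 1, ?_⟩
  intro P hP n
  -- the period
  have hoddP : Odd (∏ q ∈ P, q) := by
    apply Finset.prod_induction _ (fun n => Odd n) (fun a b ha hb => ha.mul hb) odd_one
    intro q hq
    exact (hP q hq).1.odd_of_ne_two (hP q hq).2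
  set D : ℕ := Nat.totient (∏ q ∈ P, q) with hDdef
  have hD : 0 < D := Nat.totient_pos.mpr hoddP.pos
  have hDR : (0 : ℝ) < D := by exact_mod_cast hD
  have hdvd : ∀ N : ℕ, N ∣ ∏ q ∈ P, q → (2 : ZMod N) ^ D = 1 := by
    intro N hN
    apply two_pow_proj N (∏ q ∈ P, q) D hN
    have hcop : Nat.Coprime 2 (∏ q ∈ P, q) := (Nat.coprime_two_left).mpr hoddP
    have := ZMod.pow_totient (ZMod.unitOfCoprime 2 hcop)
    have h4 := congrArg Units.val this
    push_cast at h4
    rw [ZMod.coe_unitOfCoprime] at h4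
    exact_mod_cast h4
  have hFdvd : ∀ F ⊆ P, (∏ q ∈ F, q) ∣ ∏ q ∈ P, q := fun F hF =>
    Finset.prod_dvd_prod_of_subset F P _ hF
  have h2F : ∀ F ⊆ P, (2 : ZMod (∏ q ∈ F, q)) ^ D = 1 := fun F hF => hdvd _ (hFdvd F hF)
  have h2q : ∀ q ∈ P, (2 : ZMod q) ^ D = 1 := fun q hq =>
    hdvd q (Finset.dvd_prod_of_mem (fun q => q) hq)
  have h2qq : ∀ q ∈ P, ∀ q' ∈ P, q ≠ q' → (2 : ZMod (q * q')) ^ D = 1 := by
    intro q hq q' hq' hne
    apply hdvd
    have := hFdvd {q, q'} (by intro x hx; simp at hx; rcases hx with rfl | rfl <;> assumption)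
    rwa [Finset.prod_pair hne] at this
  have htpos : ∀ q ∈ P, 2 ≤ tq q ∧ tq q ∣ D := by
    intro q hq
    exact ⟨(ord_dvd q (hP q hq).1 (hP q hq).2).2.2.1, orderOf_dvd_of_pow_eq_one (h2q q hq)⟩
  -- the residue `n - ∑ 2^κ`
  set yy : (q : ℕ) → (Fin s → Fin D) → ZMod q := fun q κ =>
    (n : ZMod q) - ∑ i, (2 : ZMod q) ^ (κ i : ℕ) with hyy
  -- smooth count
  have hsc := hs1 (s + 1) (by have := le_max_right s0 s1; omega) P hP D hD h2F n
  set US : (Fin s → Fin D) → ℕ → Prop := fun κ k => ∀ q ∈ P, gpf (tq q) ≤ l0 →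
    yy q κ - (2 : ZMod q) ^ k ≠ 0 with hUS
  set Bad : Finset (Fin s → Fin D) := Finset.univ.filter fun κ : Fin s → Fin D =>
    ∃ q ∈ P, l0 < gpf (tq q) ∧ tq q ^ 5 < q ∧ yy q κ ∈ pw q with hBad
  have hcount : (((Finset.univ : Finset (Fin (s + 1) → Fin D)).filter fun k : Fin (s + 1) → Fin D =>
      ∀ q ∈ P, gpf (tq q) ≤ l0 → ((n : ZMod q) - ∑ i, (2 : ZMod q) ^ (k i : ℕ)) ≠ 0).card : ℝ)
      ≤ ∑ κ : Fin s → Fin D, (((Finset.range D).filter (US κ)).card : ℝ) := by
    have hle : ((Finset.univ : Finset (Fin (s + 1) → Fin D)).filter fun k : Fin (s + 1) → Fin D =>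
      ∀ q ∈ P, gpf (tq q) ≤ l0 → ((n : ZMod q) - ∑ i, (2 : ZMod q) ^ (k i : ℕ)) ≠ 0).card
      ≤ (Finset.univ.sigma fun κ : Fin s → Fin D => (Finset.range D).filter (US κ)).card := by
      apply Finset.card_le_card_of_injOn
        (fun k => (⟨fun i => k i.succ, (k 0 : ℕ)⟩ : Σ _ : (Fin s → Fin D), ℕ))
      · intro k hk
        simp only [Finset.coe_filter, Finset.mem_univ, true_and, Set.mem_ofPred_eq] at hk
        simp only [Finset.coe_sigma, Set.mem_sigma_iff, Finset.coe_univ, Set.mem_univ, true_and,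
          Finset.coe_filter, Finset.mem_range, Set.mem_ofPred_eq]
        refine ⟨(k 0).isLt, ?_⟩
        intro q hq hg
        have := hk q hq hg
        rw [Fin.sum_univ_succ] at this
        simp only [hyy]
        intro h0
        apply this
        rw [← h0]; ring
      · intro k _ k' _ h
        simp only [Sigma.mk.injEq, heq_eq_eq] at h
        funext i
        refine Fin.cases ?_ (fun j => ?_) i
        · exact Fin.ext h.2
        · exact congrFun h.1 j
    rw [Finset.card_sigma] at hle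
    exact_mod_cast hle
  have hBadc : (Bad.card : ℝ) ≤ 1 / l0 * (D : ℝ) ^ s := by
    set PB : Finset ℕ := P.filter fun q => l0 < gpf (tq q) ∧ tq q ^ 5 < q with hPB
    have hsub : Bad ⊆ PB.biUnion fun q => Finset.univ.filter fun κ : Fin s → Fin D =>
        yy q κ ∈ pw q := by
      intro κ hκ
      rw [hBad, Finset.mem_filter] at hκ
      obtain ⟨_, q, hq, ha, hb, hc'⟩ := hκ
      rw [Finset.mem_biUnion]
      exact ⟨q, by rw [hPB, Finset.mem_filter]; exact ⟨hq, ha, hb⟩, by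
        rw [Finset.mem_filter]; exact ⟨Finset.mem_univ _, hc'⟩⟩
    have hgt : ∀ q ∈ P, l0 < gpf (tq q) → l0 < tq q := by
      intro q hq hg
      refine lt_of_lt_of_le hg ?_
      unfold gpf
      apply Finset.sup_le
      intro p hp
      exact Nat.le_of_dvd (by have := (htpos q hq).1; omega) (Nat.dvd_of_mem_primeFactors hp)
    calc (Bad.card : ℝ) ≤ ((PB.biUnion fun q => Finset.univ.filter fun κ : Fin s → Fin D =>
        yy q κ ∈ pw q).card : ℝ) := by exact_mod_cast Finset.card_le_card hsub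
      _ ≤ ∑ q ∈ PB, ((Finset.univ.filter fun κ : Fin s → Fin D => yy q κ ∈ pw q).card : ℝ) := by
        exact_mod_cast Finset.card_biUnion_le
      _ ≤ ∑ q ∈ PB, (1 / (tq q : ℝ) ^ 3) * (D : ℝ) ^ s := by
        apply Finset.sum_le_sum
        intro q hq
        rw [hPB, Finset.mem_filter] at hq
        have : Fact q.Prime := ⟨(hP q hq.1).1⟩
        have hlt := hgt q hq.1 hq.2.1
        have htR : (0 : ℝ) < tq q := by exact_mod_cast lt_of_le_of_lt (Nat.zero_le _) hlt
        have hb := ((h3 s D (le_max_left _ _) hD).1 q (h2q q hq.1)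
          (le_trans hl03 (by exact hlt.le))).2 hq.2.2
        have hcn := cnt_pw q D s _ hb (n : ZMod q)
        refine hcn.trans (le_of_eq ?_)
        unfold tq at htR ⊢
        field_simp
      _ = (∑ q ∈ PB, (1 / (tq q : ℝ) ^ 3)) * (D : ℝ) ^ s := by rw [Finset.sum_mul]
      _ ≤ 1 / l0 * (D : ℝ) ^ s := by
        gcongr
        apply bad_sum PB _ l0 hl0pos
        · intro q hq
          rw [hPB, Finset.mem_filter] at hq
          exact hgt q hq.1 hq.2.1
        · intro q hq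
          rw [hPB, Finset.mem_filter] at hq
          exact hP q hq.1
  -- the good primes
  set G : Finset ℕ := P.filter fun q => l0 < gpf (tq q) ∧ q ≤ tq q ^ 5 with hG
  have hGP : ∀ q ∈ G, q ∈ P ∧ l0 < gpf (tq q) ∧ q ≤ tq q ^ 5 := by
    intro q hq
    rw [hG, Finset.mem_filter] at hq
    exact ⟨hq.1, hq.2.1, hq.2.2⟩
  have hGt1 : ∀ q ∈ G, t1 ≤ orderOf (2 : ZMod q) := by
    intro q hq
    have hg := (hGP q hq).2.1
    have : gpf (tq q) ≤ tq q := by
      unfold gpf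
      apply Finset.sup_le
      intro p hp
      exact Nat.le_of_dvd (by have := (htpos q (hGP q hq).1).1; omega)
        (Nat.dvd_of_mem_primeFactors hp)
    change t1 ≤ tq q
    omega
  have havg := avg_weight G (fun q hq => hP q (hGP q hq).1) D s Finset.univ
    (fun q κ => yy q κ ∈ pw q)
    (by
      intro q hq
      have : Fact q.Prime := ⟨(hP q (hGP q hq).1).1⟩
      have ha := ((h3 s D (le_max_left _ _) hD).1 q (h2q q (hGP q hq).1) (hGt1 q hq)).1
        (hGP q hq).2.2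
      have hcn := cnt_pw q D s _ ha (n : ZMod q)
      refine le_trans (le_of_eq ?_) (hcn.trans (le_of_eq (by ring)))
      congr!)
    (by
      intro q hq q' hq' hne
      have : Fact q.Prime := ⟨(hP q (hGP q hq).1).1⟩
      have : Fact q'.Prime := ⟨(hP q' (hGP q' hq').1).1⟩
      have ha := (h3 s D (le_max_left _ _) hD).2 q q' hne
        (h2qq q (hGP q hq).1 q' (hGP q' hq').1 hne) (hGt1 q hq) (hGt1 q' hq')
        (hGP q hq).2.2 (hGP q' hq').2.2
      have hcn := cnt_pw2 q q' D s hne _ ha (n : ZMod q) (n : ZMod q')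
      refine le_trans (le_of_eq ?_) (hcn.trans (le_of_eq (by ring)))
      congr!)
  have htot := h2 l0 hl02 (G.image tq) (by
    intro d hd
    rw [Finset.mem_image] at hd
    obtain ⟨q, hq, rfl⟩ := hd
    exact (hGP q hq).2.1)
  have hW : ∑ κ : Fin s → Fin D, ∑ q ∈ G.filter (fun q => yy q κ ∈ pw q),
      ∑ q' ∈ G.filter (fun q => yy q κ ∈ pw q), wt (tq q) (tq q')
      ≤ 6 * (Cw / Real.sqrt l0) * (D : ℝ) ^ s := by
    refine le_trans (le_of_eq ?_) (havg.trans (b := 6 * (∑ d ∈ G.image tq, ∑ e ∈ G.image tq,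
        (1 + Real.log d) * (1 + Real.log e) * wt d e) * (D : ℝ) ^ s) ?_)
    · congr!
    · gcongr
  -- choose `κ`
  set WW : (Fin s → Fin D) → ℝ := fun κ => ∑ q ∈ G.filter (fun q => yy q κ ∈ pw q),
      ∑ q' ∈ G.filter (fun q => yy q κ ∈ pw q), wt (tq q) (tq q') with hWW
  set UU : (Fin s → Fin D) → ℕ → Prop := fun κ k => US κ k ∧ κ ∉ Bad with hUU
  have hUsum : c * (l0 : ℝ) ^ (-(1 : ℝ) / 4) * (D : ℝ) ^ (s + 1) - D * (1 / l0 * (D : ℝ) ^ s)
      ≤ ∑ κ : Fin s → Fin D, (((Finset.range D).filter (UU κ)).card : ℝ) := by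
    have h5 : ∑ κ : Fin s → Fin D, (((Finset.range D).filter (US κ)).card : ℝ)
        ≤ ∑ κ : Fin s → Fin D, ((((Finset.range D).filter (UU κ)).card : ℝ)
          + (if κ ∈ Bad then (D : ℝ) else 0)) := by
      apply Finset.sum_le_sum
      intro κ _
      by_cases hκ : κ ∈ Bad
      · rw [if_pos hκ]
        have h6 : (((Finset.range D).filter (US κ)).card : ℝ) ≤ D := by
          have := Finset.card_filter_le (Finset.range D) (US κ)
          rw [Finset.card_range] at this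
          exact_mod_cast this
        have h7 : (0 : ℝ) ≤ (((Finset.range D).filter (UU κ)).card : ℝ) := Nat.cast_nonneg _
        linarith
      · rw [if_neg hκ, add_zero]
        have : (Finset.range D).filter (US κ) ⊆ (Finset.range D).filter (UU κ) := by
          intro k hk
          rw [Finset.mem_filter] at hk ⊢
          exact ⟨hk.1, hk.2, hκ⟩
        exact_mod_cast Finset.card_le_card this
    rw [Finset.sum_add_distrib, ← Finset.sum_filter, Finset.sum_const, nsmul_eq_mul] at h5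
    have h8 : ((Finset.univ.filter fun κ : Fin s → Fin D => κ ∈ Bad).card : ℝ) = Bad.card := by
      congr 2
      ext κ; simp
    rw [h8] at h5
    have h9 : (Bad.card : ℝ) * D ≤ D * (1 / l0 * (D : ℝ) ^ s) := by
      rw [mul_comm]
      gcongr
    linarith [hsc.trans (hcount.trans h5)]
  obtain ⟨κ, hκ⟩ : ∃ κ : Fin s → Fin D, 64 * (D : ℝ) * WW κ
      < ((Finset.range D).filter (UU κ)).card := by
    by_contra hcon
    push Not at hcon
    have h10 : ∑ κ : Fin s → Fin D, (((Finset.range D).filter (UU κ)).card : ℝ)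
        ≤ ∑ κ : Fin s → Fin D, 64 * (D : ℝ) * WW κ := Finset.sum_le_sum fun κ _ => hcon κ
    rw [← Finset.mul_sum] at h10
    have h11 : 64 * (D : ℝ) * ∑ κ : Fin s → Fin D, WW κ
        ≤ 64 * (D : ℝ) * (6 * (Cw / Real.sqrt l0) * (D : ℝ) ^ s) := by gcongr
    have h12 : c * (l0 : ℝ) ^ (-(1 : ℝ) / 4) * (D : ℝ) ^ (s + 1)
        ≤ (1 / (l0 : ℝ) + 64 * (6 * (Cw / Real.sqrt l0))) * (D : ℝ) ^ (s + 1) := by
      have e1 : (1 / (l0 : ℝ) + 64 * (6 * (Cw / Real.sqrt l0))) * (D : ℝ) ^ (s + 1)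
          = D * (1 / l0 * (D : ℝ) ^ s) + 64 * (D : ℝ) * (6 * (Cw / Real.sqrt l0) * (D : ℝ) ^ s) := by
        rw [pow_succ]; ring
      rw [e1]
      linarith
    have h13 : (0 : ℝ) < (D : ℝ) ^ (s + 1) := by positivity
    have h14 := le_of_mul_le_mul_right h12 h13
    linarith
  -- the sieve
  have hlog : ∀ q : ℕ, ∃ l : ℕ, yy q κ ∈ pw q → (2 : ZMod q) ^ l = yy q κ := by
    intro q
    by_cases h : yy q κ ∈ pw q
    · obtain ⟨l, hl⟩ := exists_log q _ h
      exact ⟨l, fun _ => hl⟩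
    · exact ⟨0, fun h' => absurd h' h⟩
  choose lg hlg using hlog
  obtain ⟨k, hk1, hk2⟩ := sieve D l0 hD (G.filter (fun q => yy q κ ∈ pw q)) tq lg
    (by
      intro q hq
      rw [Finset.mem_filter] at hq
      exact (htpos q (hGP q hq.1).1).2)
    (by
      intro q hq
      rw [Finset.mem_filter] at hq
      exact (hGP q hq.1).2.1)
    (UU κ)
    (by
      intro k
      simp only [hUU, hUS]
      have key : ∀ q ∈ P, gpf (tq q) ≤ l0 →
          (2 : ZMod q) ^ (k + spart D l0) = (2 : ZMod q) ^ k := by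
        intro q hq hg
        have h15 : tq q ∣ spart D l0 := dvd_spart D l0 (tq q) hD (htpos q hq).2 hg
        have h16 : (2 : ZMod q) ^ spart D l0 = 1 := orderOf_dvd_iff_pow_eq_one.mp h15
        rw [pow_add, h16, mul_one]
      constructor
      · rintro ⟨ha, hb⟩
        exact ⟨fun q hq hg => by rw [← key q hq hg]; exact ha q hq hg, hb⟩
      · rintro ⟨ha, hb⟩
        exact ⟨fun q hq hg => by rw [key q hq hg]; exact ha q hq hg, hb⟩)
    hκ
  refine ⟨Fin.cons k (fun i => (κ i : ℕ)), ?_⟩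
  intro q hq
  rw [Fin.sum_univ_succ]
  simp only [Fin.cons_zero, Fin.cons_succ]
  have hgoal : yy q κ - (2 : ZMod q) ^ k ≠ 0 := by
    by_cases hs1' : gpf (tq q) ≤ l0
    · exact hk1.1 q hq hs1'
    · push Not at hs1'
      intro h0
      have h17 : yy q κ = (2 : ZMod q) ^ k := sub_eq_zero.mp h0
      have h18 : yy q κ ∈ pw q := by
        rw [h17]; exact pow_mem_pw q D hD (h2q q hq) k
      by_cases hgood : q ≤ tq q ^ 5
      · have hqG : q ∈ G.filter (fun q => yy q κ ∈ pw q) := by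
          rw [Finset.mem_filter, hG, Finset.mem_filter]
          exact ⟨⟨hq, hs1', hgood⟩, h18⟩
        have h19 := hk2 q hqG
        apply h19
        have h20 : (2 : ZMod q) ^ k = (2 : ZMod q) ^ lg q := by rw [hlg q h18, h17]
        have hun : IsUnit (2 : ZMod q) := by
          have : Fact q.Prime := ⟨(hP q hq).1⟩
          exact IsUnit.of_pow_eq_one (h2q q hq) hD.ne'
        obtain ⟨u, hu⟩ := hun
        rw [← hu] at h20
        have h21 : u ^ k = u ^ lg q := Units.ext (by push_cast; exact h20)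
        have h22 := pow_eq_pow_iff_modEq.mp h21
        have h23 : tq q = orderOf u := by
          unfold tq
          rw [← hu, orderOf_units]
        rw [h23]
        exact h22
      · push Not at hgood
        apply hk1.2
        rw [hBad, Finset.mem_filter]
        exact ⟨Finset.mem_univ _, q, hq, hs1', hgood, h18⟩
  intro h0
  apply hgoal
  simp only [hyy]
  rw [← h0]; ring

end Pool.H53.NA

end S_NA_LS
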