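import Mathlib
import Pool.Agent.H17.WBT
import Pool.Agent.H17.Upper
import Pool.Agent.H17.PNT
import Pool.Agent.H53.NM.M6

set_option autoImplicit false

/-! Sums of a prime and powers of two, part M7: this file joins several modules to save build time. -/

section S_NU_Defs

/-!
Romanoff's theorem in all residue classes, uniformly.  Definitions.
-/


namespace Pool.H53.NA

/-- `∏_{p ∣ h, p ≠ 2} (1 + 4/p)` -/
noncomputable def FF (h : ℕ) : ℝ := ∏ p ∈ h.primeFactors.filter (fun p => p ≠ 2), (1 + 4 / (p : ℝ))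

/-- `4^ω(d) / d` -/
noncomputable def g4 (d : ℕ) : ℝ := (4 : ℝ) ^ d.primeFactors.card / d

/-- the product of the odd primes `≤ y` -/
def oddp (y : ℕ) : ℕ := ∏ p ∈ (Finset.Icc 3 y).filter Nat.Prime, p

/-- admissible weights on the exponents -/
structure WT (D : ℕ) (w : ℕ → ℝ) : Prop where
  nn : ∀ k, 0 ≤ w k
  per : ∀ k, w (k + D) = w k
  cls : ∀ i, i ∣ D → ∀ x, ∑ k ∈ (Finset.range D).filter (fun k => k ≡ x [MOD i]), w k
    ≤ ow i * D / i

/-- the sum of the two free powers -/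
def AA (D i j : ℕ) : ℕ := 2 ^ j + 2 ^ (D * i)

/-- local Selberg weights of the pair sieve -/
noncomputable def hp2 (h p : ℕ) : ℝ := if p ∣ h then 1 / ((p : ℝ) - 1) else 2 / ((p : ℝ) - 2)

end Pool.H53.NA

end S_NU_Defs

section S_NU_LSw

/-!
The weights: a fixed exponent vector and an admissible weight on the last exponent.
-/


namespace Pool.H53.NA

theorem sieve_w {ι : Type} (D l0 : ℕ) (hD : 0 < D) (S : Finset ι) (d κ : ι → ℕ)
    (hd : ∀ q ∈ S, d q ∣ D) (hg : ∀ q ∈ S, l0 < gpf (d q)) (U : ℕ → Prop) [DecidablePred U]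
    (hU : ∀ k, U (k + spart D l0) ↔ U k) :
    ∃ w : ℕ → ℝ, WT D w ∧ (∀ k, 0 < w k → U k ∧ ∀ q ∈ S, ¬ k ≡ κ q [MOD d q]) ∧
      (((Finset.range D).filter U).card : ℝ) - 64 * (D : ℝ) * ∑ q ∈ S, ∑ q' ∈ S, wt (d q) (d q')
        ≤ ∑ k ∈ Finset.range D, w k := by
  have hall : ∀ n, SvP D S d κ U ((Finset.range D).filter U).card (l0 + n) := by
    intro n
    induction n with
    | zero => exact sv_base D l0 hD S d κ hg U hU
    | succ n ih => exact sv_step D l0 (l0 + n) hD S d κ hd hg U _ ih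
  obtain ⟨w, hw0, hwp, hw1, hw2, hw3⟩ := hall D
  have hsp : spart D (l0 + D) = D := by
    apply Nat.dvd_antisymm (sv_spart_dvd D _ hD)
    apply sv_dvd_spart D (l0 + D) D hD dvd_rfl
    intro q hq
    have := Nat.le_of_mem_primeFactors hq
    omega
  rw [hsp] at hwp hw3
  have hle : ∀ q ∈ S, gpf (d q) ≤ l0 + D := by
    intro q hq
    have h1 := sv_gpf_le (d q)
    have h2 := Nat.le_of_dvd hD (hd q hq)
    omega
  have e : ∑ q ∈ S, ∑ q' ∈ S, (if gpf (d q) ≤ l0 + D then wt (d q) (d q') else 0) =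
      ∑ q ∈ S, ∑ q' ∈ S, wt (d q) (d q') := by
    refine Finset.sum_congr rfl (fun q hq => ?_)
    refine Finset.sum_congr rfl (fun q' _ => ?_)
    rw [if_pos (hle q hq)]
  rw [e] at hw2
  exact ⟨w, ⟨hw0, hwp, hw3⟩, fun k hk => ⟨(hw1 k hk).1, fun q hq => (hw1 k hk).2 q hq (hle q hq)⟩, hw2⟩

open Classical in
theorem LSw : ∃ (s : ℕ) (c : ℝ), 0 < c ∧ ∀ P : Finset ℕ, (∀ q ∈ P, q.Prime ∧ q ≠ 2) →
    ∃ D : ℕ, 0 < D ∧ (∀ q ∈ P, (2 : ZMod q) ^ D = 1) ∧ ∀ n : ℤ,
    ∃ κ : Fin s → ℕ, ∃ w : ℕ → ℝ, WT D w ∧ c * D ≤ ∑ k ∈ Finset.range D, w k ∧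
      ∀ k, 0 < w k → ∀ q ∈ P, ((n : ZMod q) - ∑ i, (2 : ZMod q) ^ (κ i) - (2 : ZMod q) ^ k) ≠ 0 := by
  obtain ⟨c, hc, L1, hL1, h1⟩ := smooth_count
  obtain ⟨Cw, hCw, L2, hL2, h2⟩ := tot_sum
  obtain ⟨s0, t1, hs0, ht1, h3⟩ := nt_final
  -- choice of `l0`
  obtain ⟨l0, hl01, hl02, hl03, hl04⟩ : ∃ l0 : ℕ, L1 ≤ l0 ∧ L2 ≤ l0 ∧ t1 ≤ l0 ∧
      1 / (l0 : ℝ) + 64 * (6 * (Cw / Real.sqrt l0)) < c * (l0 : ℝ) ^ (-(1 : ℝ) / 4) := by
    have hlim : Filter.Tendsto (fun l : ℕ => (1 / (l : ℝ) + 64 * (6 * (Cw / Real.sqrt l)))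
        * (l : ℝ) ^ ((1 : ℝ) / 4)) Filter.atTop (nhds 0) := by
      have ha : Filter.Tendsto (fun l : ℕ => (l : ℝ) ^ (-(3 : ℝ) / 4)) Filter.atTop (nhds 0) := by
        have := (tendsto_rpow_neg_atTop (y := (3 : ℝ) / 4) (by norm_num)).comp
          tendsto_natCast_atTop_atTop
        refine this.congr fun l => ?_
        simp only [Function.comp]
        congr 1; norm_num
      have hb : Filter.Tendsto (fun l : ℕ => (l : ℝ) ^ (-(1 : ℝ) / 4)) Filter.atTop (nhds 0) := by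
        have := (tendsto_rpow_neg_atTop (y := (1 : ℝ) / 4) (by norm_num)).comp
          tendsto_natCast_atTop_atTop
        refine this.congr fun l => ?_
        simp only [Function.comp]
        congr 1; norm_num
      have hsum := ha.add (hb.const_mul (64 * (6 * Cw)))
      rw [mul_zero, add_zero] at hsum
      refine hsum.congr' ?_
      filter_upwards [Filter.eventually_gt_atTop 0] with l hl
      have hl0 : (0 : ℝ) < l := by exact_mod_cast hl
      rw [Real.sqrt_eq_rpow]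
      have e1 : (1 : ℝ) / l = (l : ℝ) ^ (-(1 : ℝ)) := by
        rw [Real.rpow_neg_one, one_div]
      have e2 : Cw / (l : ℝ) ^ ((1 : ℝ) / 2) = Cw * (l : ℝ) ^ (-(1 : ℝ) / 2) := by
        rw [neg_div, Real.rpow_neg hl0.le, div_eq_mul_inv]
      rw [e1, e2, add_mul, ← Real.rpow_add hl0]
      have e3 : 64 * (6 * (Cw * (l : ℝ) ^ (-(1 : ℝ) / 2))) * (l : ℝ) ^ ((1 : ℝ) / 4)
          = 64 * (6 * Cw) * ((l : ℝ) ^ (-(1 : ℝ) / 2) * (l : ℝ) ^ ((1 : ℝ) / 4)) := by ring
      rw [e3, ← Real.rpow_add hl0]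
      congr 2
      · norm_num
      · norm_num
    have hev := (hlim.eventually (gt_mem_nhds hc)).and
      ((Filter.eventually_ge_atTop L1).and ((Filter.eventually_ge_atTop L2).and
        ((Filter.eventually_ge_atTop t1).and (Filter.eventually_gt_atTop 0))))
    obtain ⟨l0, ha, hb, hc', hd, he⟩ := hev.exists
    refine ⟨l0, hb, hc', hd, ?_⟩
    have hl0 : (0 : ℝ) < l0 := by exact_mod_cast he
    have hp : (0 : ℝ) < (l0 : ℝ) ^ (-(1 : ℝ) / 4) := Real.rpow_pos_of_pos hl0 _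
    have hmul : (l0 : ℝ) ^ ((1 : ℝ) / 4) * (l0 : ℝ) ^ (-(1 : ℝ) / 4) = 1 := by
      rw [← Real.rpow_add hl0]
      norm_num
    calc 1 / (l0 : ℝ) + 64 * (6 * (Cw / Real.sqrt l0))
        = ((1 / (l0 : ℝ) + 64 * (6 * (Cw / Real.sqrt l0))) * (l0 : ℝ) ^ ((1 : ℝ) / 4))
          * (l0 : ℝ) ^ (-(1 : ℝ) / 4) := by rw [mul_assoc, hmul, mul_one]
      _ < c * (l0 : ℝ) ^ (-(1 : ℝ) / 4) := by gcongr
  have hl0pos : 1 ≤ l0 := hL1.trans hl01
  obtain ⟨s1, hs1⟩ := h1 l0 hl01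
  set s : ℕ := max s0 s1 with hs
  have hc' : 0 < c * (l0 : ℝ) ^ (-(1 : ℝ) / 4) - (1 / (l0 : ℝ) + 64 * (6 * (Cw / Real.sqrt l0))) := by
    linarith
  refine ⟨s, c * (l0 : ℝ) ^ (-(1 : ℝ) / 4) - (1 / (l0 : ℝ) + 64 * (6 * (Cw / Real.sqrt l0))), hc', ?_⟩
  intro P hP
  -- the period
  have hoddP : Odd (∏ q ∈ P, q) := by
    apply Finset.prod_induction _ (fun n => Odd n) (fun a b ha hb => ha.mul hb) odd_one
    intro q hq
    exact (hP q hq).1.odd_of_ne_two (hP q hq).2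
  set D : ℕ := Nat.totient (∏ q ∈ P, q) with hDdef
  have hD : 0 < D := Nat.totient_pos.mpr hoddP.pos
  have hDR : (0 : ℝ) < D := by exact_mod_cast hD
  have hdvd : ∀ N : ℕ, N ∣ ∏ q ∈ P, q → (2 : ZMod N) ^ D = 1 := by
    intro N hN
    apply two_pow_proj N (∏ q ∈ P, q) D hN
    have hcop : Nat.Coprime 2 (∏ q ∈ P, q) := (Nat.coprime_two_left).mpr hoddP
    have := ZMod.pow_totient (ZMod.unitOfCoprime 2 hcop)
    have h4 := congrArg Units.val this
    push_cast at h4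
    rw [ZMod.coe_unitOfCoprime] at h4
    exact_mod_cast h4
  have hFdvd : ∀ F ⊆ P, (∏ q ∈ F, q) ∣ ∏ q ∈ P, q := fun F hF =>
    Finset.prod_dvd_prod_of_subset F P _ hF
  have h2F : ∀ F ⊆ P, (2 : ZMod (∏ q ∈ F, q)) ^ D = 1 := fun F hF => hdvd _ (hFdvd F hF)
  have h2q : ∀ q ∈ P, (2 : ZMod q) ^ D = 1 := fun q hq =>
    hdvd q (Finset.dvd_prod_of_mem (fun q => q) hq)
  have h2qq : ∀ q ∈ P, ∀ q' ∈ P, q ≠ q' → (2 : ZMod (q * q')) ^ D = 1 := by
    intro q hq q' hq' hne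
    apply hdvd
    have := hFdvd {q, q'} (by intro x hx; simp at hx; rcases hx with rfl | rfl <;> assumption)
    rwa [Finset.prod_pair hne] at this
  refine ⟨D, hD, h2q, ?_⟩
  intro n
  have htpos : ∀ q ∈ P, 2 ≤ tq q ∧ tq q ∣ D := by
    intro q hq
    exact ⟨(ord_dvd q (hP q hq).1 (hP q hq).2).2.2.1, orderOf_dvd_of_pow_eq_one (h2q q hq)⟩
  -- the residue `n - ∑ 2^κ`
  set yy : (q : ℕ) → (Fin s → Fin D) → ZMod q := fun q κ =>
    (n : ZMod q) - ∑ i, (2 : ZMod q) ^ (κ i : ℕ) with hyy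
  -- smooth count
  have hsc := hs1 (s + 1) (by have := le_max_right s0 s1; omega) P hP D hD h2F n
  set US : (Fin s → Fin D) → ℕ → Prop := fun κ k => ∀ q ∈ P, gpf (tq q) ≤ l0 →
    yy q κ - (2 : ZMod q) ^ k ≠ 0 with hUS
  set Bad : Finset (Fin s → Fin D) := Finset.univ.filter fun κ : Fin s → Fin D =>
    ∃ q ∈ P, l0 < gpf (tq q) ∧ tq q ^ 5 < q ∧ yy q κ ∈ pw q with hBad
  have hcount : (((Finset.univ : Finset (Fin (s + 1) → Fin D)).filter fun k : Fin (s + 1) → Fin D =>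
      ∀ q ∈ P, gpf (tq q) ≤ l0 → ((n : ZMod q) - ∑ i, (2 : ZMod q) ^ (k i : ℕ)) ≠ 0).card : ℝ)
      ≤ ∑ κ : Fin s → Fin D, (((Finset.range D).filter (US κ)).card : ℝ) := by
    have hle : ((Finset.univ : Finset (Fin (s + 1) → Fin D)).filter fun k : Fin (s + 1) → Fin D =>
      ∀ q ∈ P, gpf (tq q) ≤ l0 → ((n : ZMod q) - ∑ i, (2 : ZMod q) ^ (k i : ℕ)) ≠ 0).card
      ≤ (Finset.univ.sigma fun κ : Fin s → Fin D => (Finset.range D).filter (US κ)).card := by
      apply Finset.card_le_card_of_injOn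
        (fun k => (⟨fun i => k i.succ, (k 0 : ℕ)⟩ : Σ _ : (Fin s → Fin D), ℕ))
      · intro k hk
        simp only [Finset.coe_filter, Finset.mem_univ, true_and, Set.mem_ofPred_eq] at hk
        simp only [Finset.coe_sigma, Set.mem_sigma_iff, Finset.coe_univ, Set.mem_univ, true_and,
          Finset.coe_filter, Finset.mem_range, Set.mem_ofPred_eq]
        refine ⟨(k 0).isLt, ?_⟩
        intro q hq hg
        have := hk q hq hg
        rw [Fin.sum_univ_succ] at this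
        simp only [hyy]
        intro h0
        apply this
        rw [← h0]; ring
      · intro k _ k' _ h
        simp only [Sigma.mk.injEq, heq_eq_eq] at h
        funext i
        refine Fin.cases ?_ (fun j => ?_) i
        · exact Fin.ext h.2
        · exact congrFun h.1 j
    rw [Finset.card_sigma] at hle
    exact_mod_cast hle
  have hBadc : (Bad.card : ℝ) ≤ 1 / l0 * (D : ℝ) ^ s := by
    set PB : Finset ℕ := P.filter fun q => l0 < gpf (tq q) ∧ tq q ^ 5 < q with hPB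
    have hsub : Bad ⊆ PB.biUnion fun q => Finset.univ.filter fun κ : Fin s → Fin D =>
        yy q κ ∈ pw q := by
      intro κ hκ
      rw [hBad, Finset.mem_filter] at hκ
      obtain ⟨_, q, hq, ha, hb, hc'⟩ := hκ
      rw [Finset.mem_biUnion]
      exact ⟨q, by rw [hPB, Finset.mem_filter]; exact ⟨hq, ha, hb⟩, by
        rw [Finset.mem_filter]; exact ⟨Finset.mem_univ _, hc'⟩⟩
    have hgt : ∀ q ∈ P, l0 < gpf (tq q) → l0 < tq q := by
      intro q hq hg
      refine lt_of_lt_of_le hg ?_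
      unfold gpf
      apply Finset.sup_le
      intro p hp
      exact Nat.le_of_dvd (by have := (htpos q hq).1; omega) (Nat.dvd_of_mem_primeFactors hp)
    calc (Bad.card : ℝ) ≤ ((PB.biUnion fun q => Finset.univ.filter fun κ : Fin s → Fin D =>
        yy q κ ∈ pw q).card : ℝ) := by exact_mod_cast Finset.card_le_card hsub
      _ ≤ ∑ q ∈ PB, ((Finset.univ.filter fun κ : Fin s → Fin D => yy q κ ∈ pw q).card : ℝ) := by
        exact_mod_cast Finset.card_biUnion_le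
      _ ≤ ∑ q ∈ PB, (1 / (tq q : ℝ) ^ 3) * (D : ℝ) ^ s := by
        apply Finset.sum_le_sum
        intro q hq
        rw [hPB, Finset.mem_filter] at hq
        have : Fact q.Prime := ⟨(hP q hq.1).1⟩
        have hlt := hgt q hq.1 hq.2.1
        have htR : (0 : ℝ) < tq q := by exact_mod_cast lt_of_le_of_lt (Nat.zero_le _) hlt
        have hb := ((h3 s D (le_max_left _ _) hD).1 q (h2q q hq.1)
          (le_trans hl03 (by exact hlt.le))).2 hq.2.2
        have hcn := cnt_pw q D s _ hb (n : ZMod q)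
        refine hcn.trans (le_of_eq ?_)
        unfold tq at htR ⊢
        field_simp
      _ = (∑ q ∈ PB, (1 / (tq q : ℝ) ^ 3)) * (D : ℝ) ^ s := by rw [Finset.sum_mul]
      _ ≤ 1 / l0 * (D : ℝ) ^ s := by
        gcongr
        apply bad_sum PB _ l0 hl0pos
        · intro q hq
          rw [hPB, Finset.mem_filter] at hq
          exact hgt q hq.1 hq.2.1
        · intro q hq
          rw [hPB, Finset.mem_filter] at hq
          exact hP q hq.1
  -- the good primes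
  set G : Finset ℕ := P.filter fun q => l0 < gpf (tq q) ∧ q ≤ tq q ^ 5 with hG
  have hGP : ∀ q ∈ G, q ∈ P ∧ l0 < gpf (tq q) ∧ q ≤ tq q ^ 5 := by
    intro q hq
    rw [hG, Finset.mem_filter] at hq
    exact ⟨hq.1, hq.2.1, hq.2.2⟩
  have hGt1 : ∀ q ∈ G, t1 ≤ orderOf (2 : ZMod q) := by
    intro q hq
    have hg := (hGP q hq).2.1
    have : gpf (tq q) ≤ tq q := by
      unfold gpf
      apply Finset.sup_le
      intro p hp
      exact Nat.le_of_dvd (by have := (htpos q (hGP q hq).1).1; omega)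
        (Nat.dvd_of_mem_primeFactors hp)
    change t1 ≤ tq q
    omega
  have havg := avg_weight G (fun q hq => hP q (hGP q hq).1) D s Finset.univ
    (fun q κ => yy q κ ∈ pw q)
    (by
      intro q hq
      have : Fact q.Prime := ⟨(hP q (hGP q hq).1).1⟩
      have ha := ((h3 s D (le_max_left _ _) hD).1 q (h2q q (hGP q hq).1) (hGt1 q hq)).1
        (hGP q hq).2.2
      have hcn := cnt_pw q D s _ ha (n : ZMod q)
      refine le_trans (le_of_eq ?_) (hcn.trans (le_of_eq (by ring)))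
      congr!)
    (by
      intro q hq q' hq' hne
      have : Fact q.Prime := ⟨(hP q (hGP q hq).1).1⟩
      have : Fact q'.Prime := ⟨(hP q' (hGP q' hq').1).1⟩
      have ha := (h3 s D (le_max_left _ _) hD).2 q q' hne
        (h2qq q (hGP q hq).1 q' (hGP q' hq').1 hne) (hGt1 q hq) (hGt1 q' hq')
        (hGP q hq).2.2 (hGP q' hq').2.2
      have hcn := cnt_pw2 q q' D s hne _ ha (n : ZMod q) (n : ZMod q')
      refine le_trans (le_of_eq ?_) (hcn.trans (le_of_eq (by ring)))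
      congr!)
  have htot := h2 l0 hl02 (G.image tq) (by
    intro d hd
    rw [Finset.mem_image] at hd
    obtain ⟨q, hq, rfl⟩ := hd
    exact (hGP q hq).2.1)
  have hW : ∑ κ : Fin s → Fin D, ∑ q ∈ G.filter (fun q => yy q κ ∈ pw q),
      ∑ q' ∈ G.filter (fun q => yy q κ ∈ pw q), wt (tq q) (tq q')
      ≤ 6 * (Cw / Real.sqrt l0) * (D : ℝ) ^ s := by
    refine le_trans (le_of_eq ?_) (havg.trans (b := 6 * (∑ d ∈ G.image tq, ∑ e ∈ G.image tq,
        (1 + Real.log d) * (1 + Real.log e) * wt d e) * (D : ℝ) ^ s) ?_)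
    · congr!
    · gcongr
  -- choose `κ`
  set WW : (Fin s → Fin D) → ℝ := fun κ => ∑ q ∈ G.filter (fun q => yy q κ ∈ pw q),
      ∑ q' ∈ G.filter (fun q => yy q κ ∈ pw q), wt (tq q) (tq q') with hWW
  set UU : (Fin s → Fin D) → ℕ → Prop := fun κ k => US κ k ∧ κ ∉ Bad with hUU
  have hUsum : c * (l0 : ℝ) ^ (-(1 : ℝ) / 4) * (D : ℝ) ^ (s + 1) - D * (1 / l0 * (D : ℝ) ^ s)
      ≤ ∑ κ : Fin s → Fin D, (((Finset.range D).filter (UU κ)).card : ℝ) := by
    have h5 : ∑ κ : Fin s → Fin D, (((Finset.range D).filter (US κ)).card : ℝ)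
        ≤ ∑ κ : Fin s → Fin D, ((((Finset.range D).filter (UU κ)).card : ℝ)
          + (if κ ∈ Bad then (D : ℝ) else 0)) := by
      apply Finset.sum_le_sum
      intro κ _
      by_cases hκ : κ ∈ Bad
      · rw [if_pos hκ]
        have h6 : (((Finset.range D).filter (US κ)).card : ℝ) ≤ D := by
          have := Finset.card_filter_le (Finset.range D) (US κ)
          rw [Finset.card_range] at this
          exact_mod_cast this
        have h7 : (0 : ℝ) ≤ (((Finset.range D).filter (UU κ)).card : ℝ) := Nat.cast_nonneg _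
        linarith
      · rw [if_neg hκ, add_zero]
        have : (Finset.range D).filter (US κ) ⊆ (Finset.range D).filter (UU κ) := by
          intro k hk
          rw [Finset.mem_filter] at hk ⊢
          exact ⟨hk.1, hk.2, hκ⟩
        exact_mod_cast Finset.card_le_card this
    rw [Finset.sum_add_distrib, ← Finset.sum_filter, Finset.sum_const, nsmul_eq_mul] at h5
    have h8 : ((Finset.univ.filter fun κ : Fin s → Fin D => κ ∈ Bad).card : ℝ) = Bad.card := by
      congr 2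
      ext κ; simp
    rw [h8] at h5
    have h9 : (Bad.card : ℝ) * D ≤ D * (1 / l0 * (D : ℝ) ^ s) := by
      rw [mul_comm]
      gcongr
    linarith [hsc.trans (hcount.trans h5)]
  obtain ⟨κ, hκ⟩ : ∃ κ : Fin s → Fin D,
      (c * (l0 : ℝ) ^ (-(1 : ℝ) / 4) - (1 / (l0 : ℝ) + 64 * (6 * (Cw / Real.sqrt l0)))) * D
      ≤ ((Finset.range D).filter (UU κ)).card - 64 * (D : ℝ) * WW κ := by
    by_contra hcon
    push Not at hcon
    have hne : (Finset.univ : Finset (Fin s → Fin D)).Nonempty := ⟨fun _ => ⟨0, hD⟩, Finset.mem_univ _⟩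
    have h10 : ∑ κ : Fin s → Fin D, ((((Finset.range D).filter (UU κ)).card : ℝ) - 64 * (D : ℝ) * WW κ)
        < ∑ κ : Fin s → Fin D, (c * (l0 : ℝ) ^ (-(1 : ℝ) / 4)
          - (1 / (l0 : ℝ) + 64 * (6 * (Cw / Real.sqrt l0)))) * D :=
      Finset.sum_lt_sum_of_nonempty hne fun κ _ => hcon κ
    rw [Finset.sum_sub_distrib, ← Finset.mul_sum, Finset.sum_const, nsmul_eq_mul] at h10
    have hcardu : ((Finset.univ : Finset (Fin s → Fin D)).card : ℝ) = (D : ℝ) ^ s := by simp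
    rw [hcardu] at h10
    have h11 : 64 * (D : ℝ) * ∑ κ : Fin s → Fin D, WW κ
        ≤ 64 * (D : ℝ) * (6 * (Cw / Real.sqrt l0) * (D : ℝ) ^ s) := by gcongr
    have e1 : (D : ℝ) ^ (s + 1) = (D : ℝ) ^ s * D := pow_succ _ _
    rw [e1] at hUsum
    nlinarith [hUsum, h11, h10]
  -- the sieve
  have hlog : ∀ q : ℕ, ∃ l : ℕ, yy q κ ∈ pw q → (2 : ZMod q) ^ l = yy q κ := by
    intro q
    by_cases h : yy q κ ∈ pw q
    · obtain ⟨l, hl⟩ := exists_log q _ h
      exact ⟨l, fun _ => hl⟩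
    · exact ⟨0, fun h' => absurd h' h⟩
  choose lg hlg using hlog
  obtain ⟨w, hwT, hw1, hw2⟩ := sieve_w D l0 hD (G.filter (fun q => yy q κ ∈ pw q)) tq lg
    (by
      intro q hq
      rw [Finset.mem_filter] at hq
      exact (htpos q (hGP q hq.1).1).2)
    (by
      intro q hq
      rw [Finset.mem_filter] at hq
      exact (hGP q hq.1).2.1)
    (UU κ)
    (by
      intro k
      simp only [hUU, hUS]
      have key : ∀ q ∈ P, gpf (tq q) ≤ l0 →
          (2 : ZMod q) ^ (k + spart D l0) = (2 : ZMod q) ^ k := by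
        intro q hq hg
        have h15 : tq q ∣ spart D l0 := dvd_spart D l0 (tq q) hD (htpos q hq).2 hg
        have h16 : (2 : ZMod q) ^ spart D l0 = 1 := orderOf_dvd_iff_pow_eq_one.mp h15
        rw [pow_add, h16, mul_one]
      constructor
      · rintro ⟨ha, hb⟩
        exact ⟨fun q hq hg => by rw [← key q hq hg]; exact ha q hq hg, hb⟩
      · rintro ⟨ha, hb⟩
        exact ⟨fun q hq hg => by rw [key q hq hg]; exact ha q hq hg, hb⟩)
  refine ⟨fun i => (κ i : ℕ), w, hwT, ?_, ?_⟩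
  · refine le_trans hκ (le_trans (le_of_eq ?_) hw2)
    simp only [hWW]
  intro k hwk q hq
  obtain ⟨hk1, hk2⟩ := hw1 k hwk
  have hgoal : yy q κ - (2 : ZMod q) ^ k ≠ 0 := by
    by_cases hs1' : gpf (tq q) ≤ l0
    · exact hk1.1 q hq hs1'
    · push Not at hs1'
      intro h0
      have h17 : yy q κ = (2 : ZMod q) ^ k := sub_eq_zero.mp h0
      have h18 : yy q κ ∈ pw q := by
        rw [h17]; exact pow_mem_pw q D hD (h2q q hq) k
      by_cases hgood : q ≤ tq q ^ 5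
      · have hqG : q ∈ G.filter (fun q => yy q κ ∈ pw q) := by
          rw [Finset.mem_filter, hG, Finset.mem_filter]
          exact ⟨⟨hq, hs1', hgood⟩, h18⟩
        have h19 := hk2 q hqG
        apply h19
        have h20 : (2 : ZMod q) ^ k = (2 : ZMod q) ^ lg q := by rw [hlg q h18, h17]
        have hun : IsUnit (2 : ZMod q) := by
          have : Fact q.Prime := ⟨(hP q hq).1⟩
          exact IsUnit.of_pow_eq_one (h2q q hq) hD.ne'
        obtain ⟨u, hu⟩ := hun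
        rw [← hu] at h20
        have h21 : u ^ k = u ^ lg q := Units.ext (by push_cast; exact h20)
        have h22 := pow_eq_pow_iff_modEq.mp h21
        have h23 : tq q = orderOf u := by
          unfold tq
          rw [← hu, orderOf_units]
        rw [h23]
        exact h22
      · push Not at hgood
        apply hk1.2
        rw [hBad, Finset.mem_filter]
        exact ⟨Finset.mem_univ _, q, hq, hs1', hgood, h18⟩
  intro h0
  exact hgoal h0

end Pool.H53.NA

end S_NU_LSw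

section S_NU_Wdb

/-!
Row Wdb: sums of an admissible weight over residue classes.

PROOFS.
* `w_le`: `WT.cls` with `i = D`: the only `k < D` with `k ≡ x mod D` is `x % D`, and `w x = w (x % D)` by periodicity.
* `ow_sqrt`: `ow g = (8/7)^ω(g) ≤ √g` (`(8/7)² ≤ 2` and `2^ω(g) ≤ g`).
* `class_period`: `g = gcd D t`, `m = lcm D t`.  By the Chinese remainder theorem `j ↦ j % D` is a bijection from
  `{j < m : j ≡ x mod t}` to `{k < D : k ≡ x mod g}` (surjective: `k ≡ x mod g` makes `j ≡ k mod D`, `j ≡ x mod t` solvable,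
  `Nat.chineseRemainder'` ; injective: two solutions agree modulo `m`), and `w j = w (j % D)`.  So
  `∑_{j < m, j ≡ x (t)} w j = ∑_{k < D, k ≡ x (g)} w k ≤ ow g D/g`.
* `wd_bound`: if `m ≤ J`, cover `[1,J]` by at most `J/m + 1 ≤ 2J/m` blocks of length `m` (any `m` consecutive integers give the same
  sum, by periodicity), so the sum is `≤ (2J/m) ow g D/g = 2 J ow g/t ≤ 2 J/√t` (`m g = D t`, `ow g ≤ √g ≤ √t`).
  If `m > J` then `t D ≥ m > J` and the sum is at most `ow D` times the number of `j ≤ J`, `j ≡ x mod t`, which is `≤ J/t + 1`.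
* `mass_lower`: `[1,J]` contains `⌊J/D⌋ ≥ J/(2D)` disjoint blocks of length `D`, each of sum `∑_{k<D} w k ≥ c D`.
* `mass_upper`: `wd_bound` with `t = 1`.
-/


namespace Pool.H53.NA

theorem wdb_per {D : ℕ} {w : ℕ → ℝ} (hw : WT D w) : Function.Periodic w D := hw.per

theorem w_le (D : ℕ) (hD : 0 < D) (w : ℕ → ℝ) (hw : WT D w) (k : ℕ) : w k ≤ ow D := by
  have h1 := hw.cls D dvd_rfl k
  have hD' : (D : ℝ) ≠ 0 := by exact_mod_cast hD.ne'
  rw [mul_div_assoc, div_self hD', mul_one] at h1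
  refine le_trans ?_ h1
  have h2 : w (k % D) ≤ ∑ k' ∈ (Finset.range D).filter (fun k' => k' ≡ k [MOD D]), w k' :=
    Finset.single_le_sum (f := w) (fun i _ => hw.nn i)
      (Finset.mem_filter.2 ⟨Finset.mem_range.2 (Nat.mod_lt _ hD), Nat.mod_modEq _ _⟩)
  rwa [(wdb_per hw).map_mod_nat] at h2

theorem ow_sqrt (g : ℕ) (hg : 0 < g) : ow g ≤ Real.sqrt g := by
  unfold ow
  apply Real.le_sqrt_of_sq_le
  have h1 : 2 ^ g.primeFactors.card ≤ g := by
    calc 2 ^ g.primeFactors.card = ∏ _p ∈ g.primeFactors, 2 := by rw [Finset.prod_const]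
      _ ≤ ∏ p ∈ g.primeFactors, p :=
        Finset.prod_le_prod' fun p hp => (Nat.prime_of_mem_primeFactors hp).two_le
      _ ≤ g := Nat.le_of_dvd hg (Nat.prod_primeFactors_dvd g)
  have h2 : ((2 : ℝ)) ^ g.primeFactors.card ≤ g := by exact_mod_cast h1
  refine le_trans ?_ h2
  rw [← pow_mul, mul_comm, pow_mul]
  exact pow_le_pow_left₀ (by norm_num) (by norm_num) _

theorem class_period (D t : ℕ) (hD : 0 < D) (ht : 0 < t) (w : ℕ → ℝ) (hw : WT D w) (x : ℕ) :
    ∑ j ∈ (Finset.range (Nat.lcm D t)).filter (fun j => j ≡ x [MOD t]), w j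
      ≤ ow (Nat.gcd D t) * D / (Nat.gcd D t) := by
  classical
  refine le_trans ?_ (hw.cls (Nat.gcd D t) (Nat.gcd_dvd_left D t) x)
  have h1 : ∑ j ∈ (Finset.range (Nat.lcm D t)).filter (fun j => j ≡ x [MOD t]), w j =
      ∑ k ∈ ((Finset.range (Nat.lcm D t)).filter (fun j => j ≡ x [MOD t])).image (fun j => j % D),
        w k := by
    rw [Finset.sum_image]
    · refine Finset.sum_congr rfl fun j _ => ?_
      rw [(wdb_per hw).map_mod_nat]
    · intro j hj j' hj' hjj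
      rw [Finset.mem_coe, Finset.mem_filter, Finset.mem_range] at hj hj'
      have h2 : j ≡ j' [MOD D] := hjj
      have h3 : j ≡ j' [MOD t] := hj.2.trans hj'.2.symm
      have h4 : ∀ a b : ℕ, a ≤ b → b < Nat.lcm D t → a ≡ b [MOD D] → a ≡ b [MOD t] → a = b := by
        intro a b hab hb ha1 ha2
        have h5 : Nat.lcm D t ∣ b - a :=
          Nat.lcm_dvd ((Nat.modEq_iff_dvd' hab).1 ha1) ((Nat.modEq_iff_dvd' hab).1 ha2)
        rcases Nat.eq_zero_or_pos (b - a) with h6 | h6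
        · omega
        · have := Nat.le_of_dvd h6 h5
          omega
      rcases le_total j j' with h | h
      · exact h4 j j' h hj'.1 h2 h3
      · exact (h4 j' j h hj.1 h2.symm h3.symm).symm
  rw [h1]
  refine Finset.sum_le_sum_of_subset_of_nonneg ?_ fun k _ _ => hw.nn k
  intro k hk
  rw [Finset.mem_image] at hk
  obtain ⟨j, hj, rfl⟩ := hk
  rw [Finset.mem_filter] at hj
  rw [Finset.mem_filter, Finset.mem_range]
  refine ⟨Nat.mod_lt _ hD, ?_⟩
  exact ((Nat.mod_modEq j D).of_dvd (Nat.gcd_dvd_left D t)).trans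
    (hj.2.of_dvd (Nat.gcd_dvd_right D t))

theorem wdb_blocks (f : ℕ → ℝ) (m : ℕ) (hf : Function.Periodic f m) (q : ℕ) :
    ∑ j ∈ Finset.range (m * q), f j = q * ∑ j ∈ Finset.range m, f j := by
  induction q with
  | zero => simp
  | succ q ih =>
    rw [Nat.mul_succ, Finset.sum_range_add, ih]
    have h : ∀ x ∈ Finset.range m, f (m * q + x) = f x := by
      intro x _
      rw [add_comm, mul_comm]
      exact hf.nat_mul q x
    rw [Finset.sum_congr rfl h]
    push_cast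
    ring

theorem wdb_card (t J : ℕ) (ht : 0 < t) (x : ℕ) :
    (((Finset.Icc 1 J).filter (fun j => j ≡ x [MOD t])).card : ℝ) ≤ (J : ℝ) / t + 1 := by
  have h1 : Finset.Icc 1 J = Finset.Ioc 0 J := by
    ext a
    simp [Finset.mem_Icc, Finset.mem_Ioc, Nat.lt_iff_add_one_le]
  have h2 := Nat.Ioc_filter_modEq_card 0 J ht x
  rw [h1]
  have h3 : ((((Finset.Ioc 0 J).filter (fun j => j ≡ x [MOD t])).card : ℤ) : ℝ) ≤
      (J : ℝ) / t + 1 := by
    rw [h2]
    push_cast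
    apply max_le
    · have h4 := Int.floor_le (((J : ℚ) - x) / t)
      have h5 := Int.sub_one_lt_floor (((0 : ℚ) - x) / t)
      have h6 : ((⌊((J : ℚ) - x) / t⌋ : ℤ) : ℚ) - ((⌊((0 : ℚ) - x) / t⌋ : ℤ) : ℚ) ≤
          (J : ℚ) / t + 1 := by
        have : ((J : ℚ) - x) / t - ((0 : ℚ) - x) / t = (J : ℚ) / t := by ring
        linarith
      have h7 : ((((⌊((J : ℚ) - x) / t⌋ : ℤ) : ℚ) - ((⌊((0 : ℚ) - x) / t⌋ : ℤ) : ℚ) : ℚ) : ℝ) ≤
          (((J : ℚ) / t + 1 : ℚ) : ℝ) := by exact_mod_cast h6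
      push_cast at h7
      simpa using h7
    · positivity
  exact_mod_cast h3

theorem wd_bound (D t J : ℕ) (hD : 0 < D) (ht : 0 < t) (w : ℕ → ℝ) (hw : WT D w) (x : ℕ) :
    ∑ j ∈ (Finset.Icc 1 J).filter (fun j => j ≡ x [MOD t]), w j
      ≤ 2 * J / Real.sqrt t + (if t * D ≤ J then 0 else ow D * ((J : ℝ) / t + 1)) := by
  classical
  have how : 0 ≤ ow D := by
    unfold ow
    positivity
  by_cases hc : t * D ≤ J
  · rw [if_pos hc, add_zero]
    obtain ⟨m, hm⟩ : ∃ m, m = Nat.lcm D t := ⟨_, rfl⟩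
    obtain ⟨g, hg⟩ : ∃ g, g = Nat.gcd D t := ⟨_, rfl⟩
    have hm0 : 0 < m := by rw [hm]; exact Nat.lcm_pos hD ht
    have hg0 : 0 < g := by rw [hg]; exact Nat.gcd_pos_of_pos_left _ hD
    have hgm : g * m = D * t := by rw [hg, hm]; exact Nat.gcd_mul_lcm D t
    have hmJ : m ≤ J := by
      refine le_trans ?_ hc
      rw [mul_comm t D, ← hgm]
      exact Nat.le_mul_of_pos_left m hg0
    have hcp := class_period D t hD ht w hw x
    rw [← hm, ← hg] at hcp
    have hper : Function.Periodic (fun j => if j ≡ x [MOD t] then w j else 0) m := by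
      intro j
      have h1 : (j + m ≡ x [MOD t]) ↔ (j ≡ x [MOD t]) := by
        have : m ≡ 0 [MOD t] := (Nat.modEq_zero_iff_dvd).2 (by rw [hm]; exact Nat.dvd_lcm_right D t)
        have h2 : j + m ≡ j [MOD t] := by simpa using (Nat.ModEq.refl j).add this
        exact ⟨fun h => h2.symm.trans h, fun h => h2.trans h⟩
      obtain ⟨c, hc'⟩ : D ∣ m := by rw [hm]; exact Nat.dvd_lcm_left D t
      have h3 : w (j + m) = w j := by
        rw [hc', mul_comm]
        exact (wdb_per hw).nat_mul c j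
      simp only [h1, h3]
    have hb := wdb_blocks _ m hper (J / m + 1)
    have hsub : ∑ j ∈ (Finset.Icc 1 J).filter (fun j => j ≡ x [MOD t]), w j ≤
        ∑ j ∈ Finset.range (m * (J / m + 1)), (if j ≡ x [MOD t] then w j else 0) := by
      rw [← Finset.sum_filter]
      refine Finset.sum_le_sum_of_subset_of_nonneg ?_ fun k _ _ => hw.nn k
      intro j hj
      rw [Finset.mem_filter, Finset.mem_Icc] at hj
      rw [Finset.mem_filter, Finset.mem_range]
      refine ⟨lt_of_le_of_lt hj.1.2 ?_, hj.2⟩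
      have := Nat.lt_mul_div_succ J hm0
      exact this
    refine hsub.trans ?_
    rw [hb, ← Finset.sum_filter]
    have hmR : (0 : ℝ) < m := by exact_mod_cast hm0
    have hgR : (0 : ℝ) < g := by exact_mod_cast hg0
    have htR : (0 : ℝ) < t := by exact_mod_cast ht
    have hq : (((J / m + 1 : ℕ)) : ℝ) ≤ 2 * J / m := by
      have h1 : (((J / m : ℕ)) : ℝ) ≤ (J : ℝ) / m := Nat.cast_div_le
      have h2 : (1 : ℝ) ≤ (J : ℝ) / m := by
        rw [le_div_iff₀ hmR, one_mul]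
        exact_mod_cast hmJ
      have h3 : (2 * J / m : ℝ) = (J : ℝ) / m + (J : ℝ) / m := by ring
      push_cast
      linarith
    have hgs : ow g ≤ Real.sqrt t := (ow_sqrt g hg0).trans (Real.sqrt_le_sqrt (by
      exact_mod_cast Nat.le_of_dvd ht (by rw [hg]; exact Nat.gcd_dvd_right D t)))
    have hsum0 : 0 ≤ ∑ j ∈ (Finset.range m).filter (fun j => j ≡ x [MOD t]), w j :=
      Finset.sum_nonneg fun j _ => hw.nn j
    calc (((J / m + 1 : ℕ)) : ℝ) * ∑ j ∈ (Finset.range m).filter (fun j => j ≡ x [MOD t]), w j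
        ≤ 2 * J / m * (ow g * D / g) := mul_le_mul hq hcp hsum0 (by positivity)
      _ = 2 * J * ow g * (D / (g * m)) := by
        field_simp
      _ = 2 * J * ow g / t := by
        have h5 : (g : ℝ) * m = D * t := by exact_mod_cast hgm
        have hDR : (0 : ℝ) < D := by exact_mod_cast hD
        rw [h5]
        field_simp
      _ ≤ 2 * J * Real.sqrt t / t := by gcongr
      _ = 2 * J / Real.sqrt t := by
        have h6 : Real.sqrt t * Real.sqrt t = t := Real.mul_self_sqrt htR.le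
        have h7 : 0 < Real.sqrt t := Real.sqrt_pos.2 htR
        rw [div_eq_div_iff htR.ne' h7.ne', mul_assoc, h6]
  · rw [if_neg hc]
    have h1 : ∑ j ∈ (Finset.Icc 1 J).filter (fun j => j ≡ x [MOD t]), w j ≤
        ow D * (((Finset.Icc 1 J).filter (fun j => j ≡ x [MOD t])).card : ℝ) := by
      have := Finset.sum_le_card_nsmul ((Finset.Icc 1 J).filter (fun j => j ≡ x [MOD t])) w (ow D)
        (fun j _ => w_le D hD w hw j)
      rw [nsmul_eq_mul, mul_comm] at this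
      exact this
    have h2 := mul_le_mul_of_nonneg_left (wdb_card t J ht x) how
    have h3 : 0 ≤ 2 * (J : ℝ) / Real.sqrt t := by positivity
    linarith

theorem mass_lower (D J : ℕ) (hD : 0 < D) (w : ℕ → ℝ) (hw : WT D w) (c : ℝ) (hc : 0 ≤ c)
    (hm : c * D ≤ ∑ k ∈ Finset.range D, w k) (hJ : D ≤ J) : c * J / 2 ≤ ∑ j ∈ Finset.Icc 1 J, w j := by
  have hper : Function.Periodic (fun j => w (j + 1)) D := by
    intro j
    show w (j + D + 1) = w (j + 1)
    rw [show j + D + 1 = j + 1 + D by ring]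
    exact hw.per _
  have hb := wdb_blocks _ D hper (J / D)
  have h1 : ∑ j ∈ Finset.range D, w (j + 1) = ∑ j ∈ Finset.range D, w j := by
    have h2 := Finset.sum_range_succ w D
    have h3 := Finset.sum_range_succ' w D
    have h4 : w D = w 0 := by
      have := hw.per 0
      rwa [zero_add] at this
    linarith
  have h5 : ∑ j ∈ Finset.range (D * (J / D)), w (j + 1) ≤ ∑ j ∈ Finset.Icc 1 J, w j := by
    have h6 : ∑ j ∈ Finset.range (D * (J / D)), w (j + 1) =
        ∑ j ∈ (Finset.range (D * (J / D))).image (fun j => j + 1), w j := by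
      rw [Finset.sum_image]
      intro a _ b _ hab
      exact Nat.succ.inj hab
    rw [h6]
    refine Finset.sum_le_sum_of_subset_of_nonneg ?_ fun k _ _ => hw.nn k
    intro k hk
    rw [Finset.mem_image] at hk
    obtain ⟨j, hj, rfl⟩ := hk
    rw [Finset.mem_range] at hj
    have := Nat.mul_div_le J D
    rw [Finset.mem_Icc]
    omega
  have hq1 : 1 ≤ J / D := Nat.div_pos hJ hD
  have hJ2 : (J : ℝ) / 2 ≤ D * ((J / D : ℕ) : ℝ) := by
    have h7 := Nat.lt_mul_div_succ J hD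
    have h8 : (J : ℝ) < D * (((J / D : ℕ) : ℝ) + 1) := by exact_mod_cast h7
    have h9 : (1 : ℝ) ≤ ((J / D : ℕ) : ℝ) := by exact_mod_cast hq1
    have hDR : (0 : ℝ) < D := by exact_mod_cast hD
    nlinarith
  calc c * J / 2 = c * (J / 2) := by ring
    _ ≤ c * (D * ((J / D : ℕ) : ℝ)) := mul_le_mul_of_nonneg_left hJ2 hc
    _ = ((J / D : ℕ) : ℝ) * (c * D) := by ring
    _ ≤ ((J / D : ℕ) : ℝ) * ∑ k ∈ Finset.range D, w k :=
      mul_le_mul_of_nonneg_left hm (by positivity)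
    _ = ∑ j ∈ Finset.range (D * (J / D)), w (j + 1) := by rw [hb, h1]
    _ ≤ _ := h5

theorem mass_upper (D J : ℕ) (hD : 0 < D) (w : ℕ → ℝ) (hw : WT D w) (hJ : D ≤ J) :
    ∑ j ∈ Finset.Icc 1 J, w j ≤ 2 * J := by
  have h := wd_bound D 1 J hD Nat.one_pos w hw 0
  have h1 : (Finset.Icc 1 J).filter (fun j => j ≡ 0 [MOD 1]) = Finset.Icc 1 J := by
    apply Finset.filter_true_of_mem
    intro j _
    exact Nat.modEq_one
  rw [h1, one_mul, if_pos hJ, Nat.cast_one, Real.sqrt_one, div_one, add_zero] at h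
  exact h

end Pool.H53.NA

end S_NU_Wdb

section S_NU_Dgn

/-!
Row Dgn: the diagonal.

PROOFS.  `two_pow_pair`: `2^a + 2^b = 2^c + 2^d` implies `{a,b} = {c,d}`: we may assume `a ≤ b`, `c ≤ d`; if `a < c` divide by `2^a`:
`1 + 2^(b-a) = 2^(c-a) + 2^(d-a)` is even, so `b = a` and `2 = 2^(c-a) + 2^(d-a) ≥ 4`, contradiction; so `a = c`, `b = d` by symmetry.
`diag_bound`: for fixed `x = (i,j)` the `x' = (i',j')` with `2^j' + 2^(D i') = 2^j + 2^(D i)` are `(i,j)` and possibly one with `D i' = j`,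
`j' = D i` (`D > 0`): at most 2.  With `w x'.2 ≤ ow D` (`w_le`) the sum is `≤ 2 ow D ∑_x w x.2 ≤ 2 ow D I 2J` (`mass_upper`).
-/


namespace Pool.H53.NA

/-- if the smaller exponent on the left is smaller than both on the right, the sums differ -/
theorem dgn_aux (a b c d : ℕ) (h : 2 ^ a + 2 ^ b = 2 ^ c + 2 ^ d) (hab : a ≤ b) (hcd : c ≤ d) :
    c ≤ a := by
  by_contra hcon
  push Not at hcon
  obtain ⟨c', rfl⟩ := Nat.exists_eq_add_of_lt hcon
  obtain ⟨b', rfl⟩ := Nat.exists_eq_add_of_le hab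
  obtain ⟨d', rfl⟩ := Nat.exists_eq_add_of_le hcd
  have h1 : 2 ^ a * (1 + 2 ^ b') = 2 ^ a * (2 * (2 ^ c' + 2 ^ (c' + d'))) := by
    calc 2 ^ a * (1 + 2 ^ b') = 2 ^ a + 2 ^ (a + b') := by rw [pow_add]; ring
      _ = 2 ^ (a + c' + 1) + 2 ^ (a + c' + 1 + d') := h
      _ = _ := by simp only [pow_add]; ring
  have h2 : 1 + 2 ^ b' = 2 * (2 ^ c' + 2 ^ (c' + d')) := Nat.eq_of_mul_eq_mul_left (by positivity) h1
  rcases Nat.eq_zero_or_pos b' with hb | hb
  · rw [hb] at h2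
    have h3 : 1 ≤ 2 ^ c' := Nat.one_le_two_pow
    have h4 : 1 ≤ 2 ^ (c' + d') := Nat.one_le_two_pow
    omega
  · obtain ⟨k, rfl⟩ : ∃ k, b' = k + 1 := ⟨b' - 1, by omega⟩
    rw [pow_succ] at h2
    omega

theorem dgn_eq (a b c d : ℕ) (h : 2 ^ a + 2 ^ b = 2 ^ c + 2 ^ d) (hab : a ≤ b) (hcd : c ≤ d) :
    a = c ∧ b = d := by
  have h1 := dgn_aux a b c d h hab hcd
  have h2 := dgn_aux c d a b h.symm hcd hab
  have h3 : a = c := by omega
  refine ⟨h3, ?_⟩
  rw [h3] at h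
  have h4 : 2 ^ b = 2 ^ d := by omega
  exact Nat.pow_right_injective (le_refl 2) h4

theorem two_pow_pair (a b c d : ℕ) (h : 2 ^ a + 2 ^ b = 2 ^ c + 2 ^ d) :
    (a = c ∧ b = d) ∨ (a = d ∧ b = c) := by
  rcases le_total a b with hab | hab <;> rcases le_total c d with hcd | hcd
  · exact Or.inl (dgn_eq a b c d h hab hcd)
  · exact Or.inr (dgn_eq a b d c (by omega) hab hcd)
  · obtain ⟨h1, h2⟩ := dgn_eq b a c d (by omega) hab hcd
    exact Or.inr ⟨h2, h1⟩
  · obtain ⟨h1, h2⟩ := dgn_eq b a d c (by omega) hab hcd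
    exact Or.inl ⟨h2, h1⟩

theorem dgn_card (D I J : ℕ) (hD : 0 < D) (x : ℕ × ℕ) :
    ((Finset.Icc 1 I ×ˢ Finset.Icc 1 J).filter fun x' : ℕ × ℕ =>
      AA D x.1 x.2 = AA D x'.1 x'.2).card ≤ 2 := by
  have hsub : ((Finset.Icc 1 I ×ˢ Finset.Icc 1 J).filter fun x' : ℕ × ℕ =>
      AA D x.1 x.2 = AA D x'.1 x'.2) ⊆ {x, (x.2 / D, D * x.1)} := by
    intro x' hx'
    rw [Finset.mem_filter] at hx'
    obtain ⟨_, he⟩ := hx'
    unfold AA at he
    rw [Finset.mem_insert, Finset.mem_singleton]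
    rcases two_pow_pair _ _ _ _ he with ⟨h1, h2⟩ | ⟨h1, h2⟩
    · left
      have h3 : x.1 = x'.1 := Nat.eq_of_mul_eq_mul_left hD h2
      exact Prod.ext h3.symm h1.symm
    · right
      apply Prod.ext
      · simp only
        rw [h1, Nat.mul_div_cancel_left _ hD]
      · simp only
        exact h2.symm
  exact (Finset.card_le_card hsub).trans Finset.card_le_two

theorem diag_bound (D I J : ℕ) (hD : 0 < D) (hJ : D ≤ J) (w : ℕ → ℝ) (hw : WT D w) :
    ∑ x ∈ Finset.Icc 1 I ×ˢ Finset.Icc 1 J, ∑ x' ∈ Finset.Icc 1 I ×ˢ Finset.Icc 1 J,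
      (if AA D x.1 x.2 = AA D x'.1 x'.2 then w x.2 * w x'.2 else 0) ≤ 4 * ow D * I * J := by
  have how : 0 ≤ ow D := by unfold ow; positivity
  have h1 : ∀ x ∈ Finset.Icc 1 I ×ˢ Finset.Icc 1 J, ∑ x' ∈ Finset.Icc 1 I ×ˢ Finset.Icc 1 J,
      (if AA D x.1 x.2 = AA D x'.1 x'.2 then w x.2 * w x'.2 else 0) ≤ w x.2 * (2 * ow D) := by
    intro x _
    rw [← Finset.sum_filter]
    calc ∑ x' ∈ (Finset.Icc 1 I ×ˢ Finset.Icc 1 J).filter (fun x' => AA D x.1 x.2 = AA D x'.1 x'.2),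
          w x.2 * w x'.2
        ≤ ∑ x' ∈ (Finset.Icc 1 I ×ˢ Finset.Icc 1 J).filter
            (fun x' => AA D x.1 x.2 = AA D x'.1 x'.2), w x.2 * ow D := by
          apply Finset.sum_le_sum
          intro x' _
          exact mul_le_mul_of_nonneg_left (w_le D hD w hw _) (hw.nn _)
      _ = (((Finset.Icc 1 I ×ˢ Finset.Icc 1 J).filter
            (fun x' => AA D x.1 x.2 = AA D x'.1 x'.2)).card : ℝ) * (w x.2 * ow D) := by
          rw [Finset.sum_const, nsmul_eq_mul]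
      _ ≤ 2 * (w x.2 * ow D) := by
          apply mul_le_mul_of_nonneg_right _ (mul_nonneg (hw.nn _) how)
          exact_mod_cast dgn_card D I J hD x
      _ = w x.2 * (2 * ow D) := by ring
  calc ∑ x ∈ Finset.Icc 1 I ×ˢ Finset.Icc 1 J, ∑ x' ∈ Finset.Icc 1 I ×ˢ Finset.Icc 1 J,
      (if AA D x.1 x.2 = AA D x'.1 x'.2 then w x.2 * w x'.2 else 0)
      ≤ ∑ x ∈ Finset.Icc 1 I ×ˢ Finset.Icc 1 J, w x.2 * (2 * ow D) := Finset.sum_le_sum h1
    _ = (I * ∑ j ∈ Finset.Icc 1 J, w j) * (2 * ow D) := by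
        rw [← Finset.sum_mul, Finset.sum_product]
        simp only [Finset.sum_const, Nat.card_Icc, Nat.add_sub_cancel, nsmul_eq_mul]
    _ ≤ (I * (2 * J)) * (2 * ow D) := by
        apply mul_le_mul_of_nonneg_right _ (by positivity)
        exact mul_le_mul_of_nonneg_left (mass_upper D J hD w hw hJ) (Nat.cast_nonneg _)
    _ = 4 * ow D * I * J := by ring

end Pool.H53.NA

end S_NU_Dgn

section S_NU_Pcn

/-!
Row Pcn: the number of primes in a residue class.

PROOF.  `piAP_tendsto` of `Pool.Agent.H17.PNT` for each of the finitely many units `c` of `ZMod B`: eventually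
`1/(2φ(B)) ≤ piAP c x * log x/x ≤ 2/φ(B)`; take the maximum of the thresholds.  `piAP c (X : ℝ)` is the number of primes `p ≤ X` with
`(p : ZMod B) = c` (`Nat.floor_natCast`, `ZMod.natCast_eq_natCast_iff`; `c` coprime to `B` gives `IsUnit (c : ZMod B)`,
`ZMod.isUnit_iff_coprime`).
-/


namespace Pool.H53.NA

open Filter Topology

theorem pcn_one (B : ℕ) (hB : 0 < B) (c : ZMod B) (hc : IsUnit c) : ∃ X0 : ℕ, ∀ X : ℕ, X0 ≤ X →
    (X : ℝ) / (2 * Nat.totient B * Real.log X) ≤ (Pool.Agent.H17.piAP c (X : ℝ) : ℝ) ∧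
    (Pool.Agent.H17.piAP c (X : ℝ) : ℝ) ≤ 2 * X / (Nat.totient B * Real.log X) := by
  have : NeZero B := ⟨hB.ne'⟩
  have hφ : (0 : ℝ) < Nat.totient B := by exact_mod_cast Nat.totient_pos.mpr hB
  have h1 := Pool.Agent.H17.piAP_tendsto hc
  have h2 : Tendsto (fun n : ℕ => (Pool.Agent.H17.piAP c (n : ℝ) : ℝ) * Real.log n / n) atTop
      (𝓝 ((Nat.totient B : ℝ)⁻¹)) := h1.comp tendsto_natCast_atTop_atTop
  have h3 : ∀ᶠ n : ℕ in atTop, ((Nat.totient B : ℝ)⁻¹) / 2
      < (Pool.Agent.H17.piAP c (n : ℝ) : ℝ) * Real.log n / n :=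
    h2.eventually_const_lt (by have := inv_pos.mpr hφ; linarith)
  have h4 : ∀ᶠ n : ℕ in atTop, (Pool.Agent.H17.piAP c (n : ℝ) : ℝ) * Real.log n / n
      < ((Nat.totient B : ℝ)⁻¹) * 2 :=
    h2.eventually_lt_const (by have := inv_pos.mpr hφ; linarith)
  obtain ⟨X0, hX0⟩ := (h3.and (h4.and (eventually_ge_atTop 2))).exists_forall_of_atTop
  refine ⟨X0, fun X hX => ?_⟩
  obtain ⟨a1, a2, a3⟩ := hX0 X hX
  have hXR : (2 : ℝ) ≤ X := by exact_mod_cast a3
  have hX0R : (0 : ℝ) < X := by linarith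
  have hlog : 0 < Real.log X := Real.log_pos (by linarith)
  constructor
  · rw [div_le_iff₀ (by positivity)]
    rw [lt_div_iff₀ hX0R] at a1
    have h5 : (Nat.totient B : ℝ)⁻¹ / 2 * X * (2 * Nat.totient B)
        ≤ (Pool.Agent.H17.piAP c (X : ℝ) : ℝ) * Real.log X * (2 * Nat.totient B) := by
      apply mul_le_mul_of_nonneg_right a1.le (by positivity)
    calc (X : ℝ) = (Nat.totient B : ℝ)⁻¹ / 2 * X * (2 * Nat.totient B) := by field_simp
      _ ≤ _ := h5
      _ = _ := by ring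
  · rw [le_div_iff₀ (by positivity)]
    rw [div_lt_iff₀ hX0R] at a2
    have h5 : (Pool.Agent.H17.piAP c (X : ℝ) : ℝ) * Real.log X * Nat.totient B
        ≤ (Nat.totient B : ℝ)⁻¹ * 2 * X * Nat.totient B := by
      apply mul_le_mul_of_nonneg_right a2.le hφ.le
    calc (Pool.Agent.H17.piAP c (X : ℝ) : ℝ) * (Nat.totient B * Real.log X)
        = (Pool.Agent.H17.piAP c (X : ℝ) : ℝ) * Real.log X * Nat.totient B := by ring
      _ ≤ _ := h5
      _ = 2 * X := by field_simp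

theorem prime_count (B : ℕ) (hB : 0 < B) : ∃ X0 : ℕ, 2 ≤ X0 ∧ ∀ X : ℕ, X0 ≤ X → ∀ c : ℕ, c.Coprime B →
    (X : ℝ) / (2 * Nat.totient B * Real.log X)
        ≤ (((Finset.Icc 1 X).filter fun p => p.Prime ∧ p ≡ c [MOD B]).card : ℝ) ∧
      (((Finset.Icc 1 X).filter fun p => p.Prime ∧ p ≡ c [MOD B]).card : ℝ)
        ≤ 2 * X / (Nat.totient B * Real.log X) := by
  classical
  have : NeZero B := ⟨hB.ne'⟩
  have h1 : ∀ c : ZMod B, ∃ X0 : ℕ, IsUnit c → ∀ X : ℕ, X0 ≤ X →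
    (X : ℝ) / (2 * Nat.totient B * Real.log X) ≤ (Pool.Agent.H17.piAP c (X : ℝ) : ℝ) ∧
    (Pool.Agent.H17.piAP c (X : ℝ) : ℝ) ≤ 2 * X / (Nat.totient B * Real.log X) := by
    intro c
    by_cases hc : IsUnit c
    · obtain ⟨X0, hX0⟩ := pcn_one B hB c hc
      exact ⟨X0, fun _ => hX0⟩
    · exact ⟨0, fun h => absurd h hc⟩
  choose F hF using h1
  refine ⟨2 + Finset.univ.sup F, by omega, ?_⟩
  intro X hX c hc
  have hu : IsUnit (c : ZMod B) := (ZMod.isUnit_iff_coprime c B).mpr hc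
  have hle : F (c : ZMod B) ≤ Finset.univ.sup F := Finset.le_sup (Finset.mem_univ _)
  have h2 := hF (c : ZMod B) hu X (by omega)
  have h3 : Pool.Agent.H17.piAP (c : ZMod B) (X : ℝ)
      = ((Finset.Icc 1 X).filter fun p => p.Prime ∧ p ≡ c [MOD B]).card := by
    unfold Pool.Agent.H17.piAP
    rw [Nat.floor_natCast]
    congr 1
    apply Finset.filter_congr
    intro p _
    rw [ZMod.natCast_eq_natCast_iff]
  rw [h3] at h2
  exact h2

end Pool.H53.NA

end S_NU_Pcn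

section S_NU_Mom

/-!
Row Mom: Cauchy-Schwarz and the second moment.

PROOFS.  `cs_count`: `∑_{τ ∈ T} v τ = ∑_{n ∈ N} R n` with `R n = ∑_{τ, f τ = n} v τ` (terms with `v τ = 0` do not matter), so
`(∑ v)² ≤ |N| ∑_{n ∈ N} (R n)² ≤ |N| ∑_{τ,τ'} [f τ = f τ'] v τ v τ'`.
`moment_one`: `∑_{τ ∈ TT} w = ∑_{x} w x.2 #{p}`.
`moment_two`: expand `TT` as pairs `(x, p)`; for fixed `x, x'` the number of `(p, p')` with `p + S + A = p' + S + A'` (`A = AA D x.1 x.2`) is:
if `A = A'`: `p = p'`, at most `Q`; if `A < A'`: `p = p' + h`, `h = A' - A`, `p'` is in a fixed class modulo `B` and `p', p' + h`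
are primes, at most `K FF h`; if `A > A'` symmetric.  Exchange `x, x'` in the last part.
-/


namespace Pool.H53.NA

theorem cs_count {Ω : Type} [DecidableEq Ω] (T : Finset Ω) (v : Ω → ℝ) (hv : ∀ τ ∈ T, 0 ≤ v τ)
    (f : Ω → ℕ) (N : Finset ℕ) (hN : ∀ τ ∈ T, 0 < v τ → f τ ∈ N) :
    (∑ τ ∈ T, v τ) ^ 2 ≤ N.card * ∑ τ ∈ T, ∑ τ' ∈ T, (if f τ = f τ' then v τ * v τ' else 0) := by
  have h1 : ∑ τ ∈ T, v τ = ∑ n ∈ N, ∑ τ ∈ T, (if f τ = n then v τ else 0) := by
    rw [Finset.sum_comm]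
    apply Finset.sum_congr rfl
    intro τ hτ
    rw [Finset.sum_ite_eq]
    by_cases h : f τ ∈ N
    · rw [if_pos h]
    · rw [if_neg h]
      have h2 : ¬ 0 < v τ := fun h3 => h (hN τ hτ h3)
      exact le_antisymm (not_lt.mp h2) (hv τ hτ)
  have h2 : (∑ n ∈ N, ∑ τ ∈ T, (if f τ = n then v τ else 0)) ^ 2 ≤
      N.card * ∑ n ∈ N, (∑ τ ∈ T, (if f τ = n then v τ else 0)) ^ 2 :=
    sq_sum_le_card_mul_sum_sq
  rw [h1]
  refine le_trans h2 ?_
  apply mul_le_mul_of_nonneg_left _ (Nat.cast_nonneg _)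
  have h3 : ∀ n, (∑ τ ∈ T, (if f τ = n then v τ else 0)) ^ 2 =
      ∑ τ ∈ T, ∑ τ' ∈ T, (if f τ = n then v τ else 0) * (if f τ' = n then v τ' else 0) := by
    intro n
    rw [sq, Finset.sum_mul_sum]
  rw [Finset.sum_congr rfl (fun n _ => h3 n)]
  rw [Finset.sum_comm]
  apply Finset.sum_le_sum
  intro τ hτ
  rw [Finset.sum_comm]
  apply Finset.sum_le_sum
  intro τ' hτ'
  have h4 : ∀ n ∈ N, (if f τ = n then v τ else 0) * (if f τ' = n then v τ' else 0) =
      if f τ = n then (if f τ = f τ' then v τ * v τ' else 0) else 0 := by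
    intro n _
    by_cases ha : f τ = n
    · by_cases hb : f τ' = n
      · rw [if_pos ha, if_pos hb, if_pos ha, if_pos (ha.trans hb.symm)]
      · rw [if_neg hb, mul_zero, if_pos ha, if_neg]
        intro hc
        exact hb (hc.symm.trans ha)
    · rw [if_neg ha, zero_mul, if_neg ha]
  rw [Finset.sum_congr rfl h4, Finset.sum_ite_eq]
  have h5 : (0 : ℝ) ≤ if f τ = f τ' then v τ * v τ' else 0 := by
    split_ifs
    · exact mul_nonneg (hv τ hτ) (hv τ' hτ')
    · exact le_rfl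
  split_ifs at h5 ⊢ <;> first | exact le_rfl | exact h5

/-- the index set: `((i, j), p)` -/
def TT (D I J Y S a B : ℕ) : Finset ((ℕ × ℕ) × ℕ) :=
  ((Finset.Icc 1 I ×ˢ Finset.Icc 1 J) ×ˢ Finset.Icc 1 Y).filter fun τ =>
    τ.2.Prime ∧ τ.2 + (S + AA D τ.1.1 τ.1.2) ≡ a [MOD B]

private theorem mom_TT (D I J Y S a B : ℕ) (g : (ℕ × ℕ) × ℕ → ℝ) :
    ∑ τ ∈ TT D I J Y S a B, g τ = ∑ x ∈ Finset.Icc 1 I ×ˢ Finset.Icc 1 J,
      ∑ p ∈ (Finset.Icc 1 Y).filter (fun p => p.Prime ∧ p + (S + AA D x.1 x.2) ≡ a [MOD B]),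
        g (x, p) := by
  rw [TT, Finset.sum_filter, Finset.sum_product]
  apply Finset.sum_congr rfl
  intro x _
  rw [Finset.sum_filter]

theorem moment_one (D I J Y S a B : ℕ) (w : ℕ → ℝ) (hw : ∀ k, 0 ≤ w k) (q : ℝ)
    (hq : ∀ i ∈ Finset.Icc 1 I, ∀ j ∈ Finset.Icc 1 J, 0 < w j →
      q ≤ (((Finset.Icc 1 Y).filter fun p => p.Prime ∧ p + (S + AA D i j) ≡ a [MOD B]).card : ℝ)) :
    q * (I * ∑ j ∈ Finset.Icc 1 J, w j) ≤ ∑ τ ∈ TT D I J Y S a B, w τ.1.2 := by
  rw [mom_TT, Finset.sum_product]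
  have h1 : q * (I * ∑ j ∈ Finset.Icc 1 J, w j) =
      ∑ i ∈ Finset.Icc 1 I, ∑ j ∈ Finset.Icc 1 J, q * w j := by
    rw [Finset.sum_const, Nat.card_Icc, ← Finset.mul_sum, nsmul_eq_mul]
    have : I + 1 - 1 = I := by omega
    rw [this]
    ring
  rw [h1]
  apply Finset.sum_le_sum
  intro i hi
  apply Finset.sum_le_sum
  intro j hj
  show q * w j ≤ ∑ p ∈ (Finset.Icc 1 Y).filter
    (fun p => p.Prime ∧ p + (S + AA D i j) ≡ a [MOD B]), w j
  rw [Finset.sum_const, nsmul_eq_mul]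
  by_cases h : 0 < w j
  · exact mul_le_mul_of_nonneg_right (hq i hi j hj h) h.le
  · have h0 : w j = 0 := le_antisymm (not_lt.mp h) (hw j)
    rw [h0, mul_zero, mul_zero]

private theorem mom_pairs (F F' : Finset ℕ) (hF : ∀ p ∈ F, p.Prime) (u v : ℕ) (huv : u ≤ v) :
    ∑ p ∈ F, ∑ p' ∈ F', (if p + u = p' + v then (1 : ℝ) else 0) ≤
      ((F'.filter fun p' => (p' + (v - u)).Prime).card : ℝ) := by
  rw [Finset.sum_comm, Finset.card_filter, Nat.cast_sum]
  apply Finset.sum_le_sum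
  intro p' _
  have h1 : ∀ p ∈ F, (if p + u = p' + v then (1 : ℝ) else 0) =
      if p = p' + (v - u) then (1 : ℝ) else 0 := by
    intro p _
    have : (p + u = p' + v) ↔ (p = p' + (v - u)) := by
      constructor <;> intro h <;> omega
    simp only [this]
  rw [Finset.sum_congr rfl h1, Finset.sum_ite_eq']
  by_cases h2 : p' + (v - u) ∈ F
  · rw [if_pos h2, if_pos (hF _ h2)]
    simp
  · rw [if_neg h2]
    positivity

private theorem mom_lt (Y S a B : ℕ) (K : ℝ)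
    (hK : ∀ c h : ℕ, 0 < h →
      (((Finset.Icc 1 Y).filter fun m => m ≡ c [MOD B] ∧ m.Prime ∧ (m + h).Prime).card : ℝ) ≤ K * FF h)
    (u v : ℕ) (huv : u < v) :
    ∑ p ∈ (Finset.Icc 1 Y).filter (fun p => p.Prime ∧ p + (S + u) ≡ a [MOD B]),
      ∑ p' ∈ (Finset.Icc 1 Y).filter (fun p => p.Prime ∧ p + (S + v) ≡ a [MOD B]),
        (if p + (S + u) = p' + (S + v) then (1 : ℝ) else 0) ≤ K * FF (v - u) := by
  refine le_trans (mom_pairs _ _ (fun p hp => (Finset.mem_filter.mp hp).2.1) (S + u) (S + v)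
    (by omega)) ?_
  have hvu : S + v - (S + u) = v - u := by omega
  rw [hvu]
  rcases Finset.eq_empty_or_nonempty
    (((Finset.Icc 1 Y).filter (fun p => p.Prime ∧ p + (S + v) ≡ a [MOD B])).filter
      fun p' => (p' + (v - u)).Prime) with h0 | ⟨c, hc⟩
  · rw [h0, Finset.card_empty, Nat.cast_zero]
    exact le_trans (Nat.cast_nonneg _) (hK 0 (v - u) (by omega))
  · refine le_trans ?_ (hK c (v - u) (by omega))
    have hc1 := Finset.mem_filter.mp (Finset.mem_filter.mp hc).1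
    rw [Nat.cast_le]
    apply Finset.card_le_card
    intro m hm
    rw [Finset.mem_filter] at hm
    have hm1 := Finset.mem_filter.mp hm.1
    rw [Finset.mem_filter]
    exact ⟨hm1.1, Nat.ModEq.add_right_cancel' (S + v) (hm1.2.2.trans hc1.2.2.symm), hm1.2.1, hm.2⟩

theorem moment_two (D I J Y S a B : ℕ) (w : ℕ → ℝ) (hw : ∀ k, 0 ≤ w k) (K Q : ℝ)
    (hK : ∀ c h : ℕ, 0 < h →
      (((Finset.Icc 1 Y).filter fun m => m ≡ c [MOD B] ∧ m.Prime ∧ (m + h).Prime).card : ℝ) ≤ K * FF h)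
    (hQ : ∀ i ∈ Finset.Icc 1 I, ∀ j ∈ Finset.Icc 1 J, 0 < w j →
      (((Finset.Icc 1 Y).filter fun p => p.Prime ∧ p + (S + AA D i j) ≡ a [MOD B]).card : ℝ) ≤ Q) :
    ∑ τ ∈ TT D I J Y S a B, ∑ τ' ∈ TT D I J Y S a B,
      (if τ.2 + (S + AA D τ.1.1 τ.1.2) = τ'.2 + (S + AA D τ'.1.1 τ'.1.2) then w τ.1.2 * w τ'.1.2 else 0)
    ≤ Q * ∑ x ∈ Finset.Icc 1 I ×ˢ Finset.Icc 1 J, ∑ x' ∈ Finset.Icc 1 I ×ˢ Finset.Icc 1 J,
        (if AA D x.1 x.2 = AA D x'.1 x'.2 then w x.2 * w x'.2 else 0)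
      + 2 * K * ∑ x ∈ Finset.Icc 1 I ×ˢ Finset.Icc 1 J, ∑ x' ∈ Finset.Icc 1 I ×ˢ Finset.Icc 1 J,
        (if AA D x.1 x.2 < AA D x'.1 x'.2 then w x.2 * w x'.2 * FF (AA D x'.1 x'.2 - AA D x.1 x.2) else 0) := by
  -- the number of pairs for fixed exponents
  set NN : ℕ × ℕ → ℕ × ℕ → ℝ := fun x x' =>
    ∑ p ∈ (Finset.Icc 1 Y).filter (fun p => p.Prime ∧ p + (S + AA D x.1 x.2) ≡ a [MOD B]),
      ∑ p' ∈ (Finset.Icc 1 Y).filter (fun p => p.Prime ∧ p + (S + AA D x'.1 x'.2) ≡ a [MOD B]),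
        (if p + (S + AA D x.1 x.2) = p' + (S + AA D x'.1 x'.2) then (1 : ℝ) else 0) with hNN
  have hexp : ∑ τ ∈ TT D I J Y S a B, ∑ τ' ∈ TT D I J Y S a B,
      (if τ.2 + (S + AA D τ.1.1 τ.1.2) = τ'.2 + (S + AA D τ'.1.1 τ'.1.2)
        then w τ.1.2 * w τ'.1.2 else 0) =
      ∑ x ∈ Finset.Icc 1 I ×ˢ Finset.Icc 1 J, ∑ x' ∈ Finset.Icc 1 I ×ˢ Finset.Icc 1 J,
        w x.2 * w x'.2 * NN x x' := by
    rw [mom_TT]
    apply Finset.sum_congr rfl
    intro x _
    rw [Finset.sum_congr rfl (fun p _ => mom_TT D I J Y S a B _)]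
    rw [Finset.sum_comm]
    apply Finset.sum_congr rfl
    intro x' _
    rw [hNN]
    simp only [Finset.mul_sum]
    apply Finset.sum_congr rfl
    intro p _
    apply Finset.sum_congr rfl
    intro p' _
    split_ifs
    · rw [mul_one]
    · rw [mul_zero]
  have hbound : ∀ x ∈ Finset.Icc 1 I ×ˢ Finset.Icc 1 J, ∀ x' ∈ Finset.Icc 1 I ×ˢ Finset.Icc 1 J,
      w x.2 * w x'.2 * NN x x' ≤
        Q * (if AA D x.1 x.2 = AA D x'.1 x'.2 then w x.2 * w x'.2 else 0) +
        (K * (if AA D x.1 x.2 < AA D x'.1 x'.2 then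
          w x.2 * w x'.2 * FF (AA D x'.1 x'.2 - AA D x.1 x.2) else 0) +
        K * (if AA D x'.1 x'.2 < AA D x.1 x.2 then
          w x'.2 * w x.2 * FF (AA D x.1 x.2 - AA D x'.1 x'.2) else 0)) := by
    intro x hx x' hx'
    have hww : 0 ≤ w x.2 * w x'.2 := mul_nonneg (hw _) (hw _)
    rcases lt_trichotomy (AA D x.1 x.2) (AA D x'.1 x'.2) with h | h | h
    · rw [if_neg (ne_of_lt h), if_pos h, if_neg (not_lt.mpr h.le)]
      have h1 : NN x x' ≤ K * FF (AA D x'.1 x'.2 - AA D x.1 x.2) :=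
        mom_lt Y S a B K hK _ _ h
      have h2 := mul_le_mul_of_nonneg_left h1 hww
      linarith
    · rw [if_pos h, if_neg (by omega), if_neg (by omega)]
      rcases (hw x.2).lt_or_eq with h0 | h0
      · have h1 : NN x x' ≤ Q := by
          have hx1 := Finset.mem_product.mp hx
          refine le_trans ?_ (hQ x.1 hx1.1 x.2 hx1.2 h0)
          rw [hNN]
          have h3 : ∀ p ∈ (Finset.Icc 1 Y).filter
              (fun p => p.Prime ∧ p + (S + AA D x.1 x.2) ≡ a [MOD B]),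
              ∑ p' ∈ (Finset.Icc 1 Y).filter
                (fun p => p.Prime ∧ p + (S + AA D x'.1 x'.2) ≡ a [MOD B]),
                (if p + (S + AA D x.1 x.2) = p' + (S + AA D x'.1 x'.2) then (1 : ℝ) else 0) ≤
                1 := by
            intro p _
            have h4 : ∀ p' ∈ (Finset.Icc 1 Y).filter
                (fun p => p.Prime ∧ p + (S + AA D x'.1 x'.2) ≡ a [MOD B]),
                (if p + (S + AA D x.1 x.2) = p' + (S + AA D x'.1 x'.2) then (1 : ℝ) else 0) =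
                if p = p' then (1 : ℝ) else 0 := by
              intro p' _
              rw [h]
              have : (p + (S + AA D x'.1 x'.2) = p' + (S + AA D x'.1 x'.2)) ↔ p = p' := by
                constructor <;> intro hh <;> omega
              simp only [this]
            rw [Finset.sum_congr rfl h4, Finset.sum_ite_eq]
            split_ifs <;> norm_num
          refine le_trans (Finset.sum_le_sum h3) ?_
          rw [Finset.sum_const, nsmul_eq_mul, mul_one]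
        have h2 := mul_le_mul_of_nonneg_left h1 hww
        linarith
      · rw [← h0]
        simp
    · rw [if_neg (ne_of_gt h), if_neg (not_lt.mpr h.le), if_pos h]
      have h1 : NN x x' ≤ K * FF (AA D x.1 x.2 - AA D x'.1 x'.2) := by
        have h5 := mom_lt Y S a B K hK _ _ h
        refine le_trans (le_of_eq ?_) h5
        rw [hNN]
        rw [Finset.sum_comm]
        apply Finset.sum_congr rfl
        intro p _
        apply Finset.sum_congr rfl
        intro p' _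
        simp only [eq_comm]
      have h2 := mul_le_mul_of_nonneg_left h1 hww
      have h3 : w x.2 * w x'.2 * (K * FF (AA D x.1 x.2 - AA D x'.1 x'.2)) =
          K * (w x'.2 * w x.2 * FF (AA D x.1 x.2 - AA D x'.1 x'.2)) := by ring
      linarith
  rw [hexp]
  refine le_trans (Finset.sum_le_sum fun x hx => Finset.sum_le_sum fun x' hx' =>
    hbound x hx x' hx') ?_
  simp only [Finset.sum_add_distrib, ← Finset.mul_sum]
  have hswap : ∑ x ∈ Finset.Icc 1 I ×ˢ Finset.Icc 1 J, ∑ x' ∈ Finset.Icc 1 I ×ˢ Finset.Icc 1 J,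
      (if AA D x'.1 x'.2 < AA D x.1 x.2 then
          w x'.2 * w x.2 * FF (AA D x.1 x.2 - AA D x'.1 x'.2) else 0) =
      ∑ x ∈ Finset.Icc 1 I ×ˢ Finset.Icc 1 J, ∑ x' ∈ Finset.Icc 1 I ×ˢ Finset.Icc 1 J,
      (if AA D x.1 x.2 < AA D x'.1 x'.2 then
          w x.2 * w x'.2 * FF (AA D x'.1 x'.2 - AA D x.1 x.2) else 0) := by
    rw [Finset.sum_comm]
  rw [hswap]
  apply le_of_eq
  ring

end Pool.H53.NA

end S_NU_Mom
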