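import Mathlib
import Pool.Agent.H75.EK.Mert
import Pool.Agent.H53.NM.M7

set_option autoImplicit false

/-! Sums of a prime and powers of two, part M8: this file joins several modules to save build time. -/

section S_NU_PsA

/-!
Row PsA: Selberg's upper bound for prime pairs in a progression.

PROOF.  Copy `triple_selberg` of `Pool.Agent.H17.Upper` (read that file first; helper lemmas of `Pool.Agent.H17`:
`Selb.selberg_bound`, `card_crt`, `count_residues`, `PPb`, `WWb`, `squarefree_WWb`, `primeFactors_WWb`, `sum_divisors_WWb`).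
Polynomial `f m = (c0 + B m)(c0 + B m + h)`, strictly increasing in `m` (`B > 0`, `h > 0`).  Sieving primes: `PPb B z` (primes
`≤ z` not dividing `B`; all are odd since `2 ∣ B`).  For `p ∤ B` the number of `t mod p` with `p ∣ f t` is `ν p = 1` if
`p ∣ h` and `2` otherwise.  `nu = prodPrimeFactors (fun p => (if p ∣ h then 1 else 2)/p)`: it has to be `< 1` only for
the primes dividing `prodPrimes = WWb B z` (so `p ≥ 3`).  For `D ∣ WWb B z`: `|rem D| ≤ ∏ ν p ≤ 2^ω(D)`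
(`count_residues` and `card_crt`); `2^ω(lcm d1 d2) ≤ 2^ω(d1) 2^ω(d2)`.  The Selberg weights are
`(ν/p)(1 - ν/p)⁻¹ = hp2 h p`.  Elements `m ∈ [1,N]` with both numbers prime: either `c0 + B m ≤ z` (then `m ≤ z`: at most `z` of them)
or `f m` is coprime to `WWb B z`.
-/


namespace Pool.H53.NA

open Pool.Agent.H17

/-- the polynomial of the pair sieve -/
def psa_f (B c0 h m : ℕ) : ℕ := (c0 + B * m) * (c0 + B * m + h)

theorem psa_f_strictMono (B c0 h : ℕ) (hB : 0 < B) (hh : 0 < h) : StrictMono (psa_f B c0 h) := by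
  intro m n hmn
  unfold psa_f
  have h1 : B * m < B * n := Nat.mul_lt_mul_of_pos_left hmn hB
  have h2 : c0 + B * m < c0 + B * n := by omega
  have h3 : c0 + B * m + h ≤ c0 + B * n + h := by omega
  calc (c0 + B * m) * (c0 + B * m + h) ≤ (c0 + B * m) * (c0 + B * n + h) :=
        Nat.mul_le_mul_left _ h3
    _ < (c0 + B * n) * (c0 + B * n + h) := Nat.mul_lt_mul_of_pos_right h2 (by omega)

theorem psa_prime_dvd_f {p : ℕ} (hp : p.Prime) (B c0 h m : ℕ) :
    p ∣ psa_f B c0 h m ↔ (p ∣ c0 + B * m ∨ p ∣ c0 + B * m + h) := by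
  unfold psa_f
  exact hp.dvd_mul

/-- the number of residue classes removed by `p` -/
def psa_nu (h p : ℕ) : ℕ := if p ∣ h then 1 else 2

theorem psa_nu_pos (h p : ℕ) : 1 ≤ psa_nu h p := by
  unfold psa_nu
  split_ifs <;> norm_num

theorem psa_nu_le (h p : ℕ) : psa_nu h p ≤ 2 := by
  unfold psa_nu
  split_ifs <;> norm_num

theorem psa_hit (B c0 h : ℕ) {p : ℕ} (hp : p.Prime) (hpB : ¬ p ∣ B) :
    ((Finset.range p).filter (fun t => p ∣ c0 + B * t ∨ p ∣ c0 + B * t + h)).card = psa_nu h p := by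
  classical
  haveI : Fact p.Prime := ⟨hp⟩
  have hB0 : (B : ZMod p) ≠ 0 := by
    intro h0
    exact hpB ((ZMod.natCast_eq_zero_iff B p).1 h0)
  have key1 : ∀ t : ℕ, p ∣ c0 + B * t ↔ (t : ZMod p) = -(c0 : ZMod p) * (B : ZMod p)⁻¹ := by
    intro t
    rw [← ZMod.natCast_eq_zero_iff]
    push_cast
    constructor
    · intro h1
      field_simp
      linear_combination h1
    · intro h1
      rw [h1]
      field_simp
      ring
  have key2 : ∀ t : ℕ, p ∣ c0 + B * t + h ↔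
      (t : ZMod p) = -((c0 : ZMod p) + h) * (B : ZMod p)⁻¹ := by
    intro t
    rw [← ZMod.natCast_eq_zero_iff]
    push_cast
    constructor
    · intro h1
      field_simp
      linear_combination h1
    · intro h1
      rw [h1]
      field_simp
      ring
  have e1 : ((Finset.range p).filter (fun t => p ∣ c0 + B * t ∨ p ∣ c0 + B * t + h)).card =
      ({-(c0 : ZMod p) * (B : ZMod p)⁻¹, -((c0 : ZMod p) + h) * (B : ZMod p)⁻¹} :
        Finset (ZMod p)).card := by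
    refine Finset.card_nbij' (fun t => (t : ZMod p)) (fun x => x.val) ?_ ?_ ?_ ?_
    · intro t ht
      simp only [Finset.coe_filter, Set.mem_ofPred_eq] at ht
      rw [key1, key2] at ht
      simp only [Finset.coe_insert, Finset.coe_singleton, Set.mem_insert_iff,
        Set.mem_singleton_iff]
      exact ht.2
    · intro x hx
      simp only [Finset.coe_insert, Finset.coe_singleton, Set.mem_insert_iff,
        Set.mem_singleton_iff] at hx
      simp only [Finset.coe_filter, Set.mem_ofPred_eq, Finset.mem_range]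
      refine ⟨ZMod.val_lt x, ?_⟩
      rw [key1, key2, ZMod.natCast_zmod_val]
      exact hx
    · intro t ht
      simp only [Finset.coe_filter, Set.mem_ofPred_eq, Finset.mem_range] at ht
      exact ZMod.val_natCast_of_lt ht.1
    · intro x _
      exact ZMod.natCast_zmod_val x
  rw [e1]
  unfold psa_nu
  by_cases hph : p ∣ h
  · rw [if_pos hph]
    have h0 : (h : ZMod p) = 0 := (ZMod.natCast_eq_zero_iff h p).2 hph
    rw [h0, add_zero]
    simp
  · rw [if_neg hph]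
    apply Finset.card_pair
    intro h1
    apply hph
    rw [← ZMod.natCast_eq_zero_iff]
    have h2 := mul_right_cancel₀ (inv_ne_zero hB0) h1
    linear_combination h2

/-- the local densities as an arithmetic function -/
noncomputable def psa_nuf (h : ℕ) : ArithmeticFunction ℝ :=
  ArithmeticFunction.prodPrimeFactors (fun p => (psa_nu h p : ℝ) / p)

theorem psa_nuf_apply (h : ℕ) {n : ℕ} (hn : n ≠ 0) :
    psa_nuf h n = ∏ p ∈ n.primeFactors, (psa_nu h p : ℝ) / p := by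
  unfold psa_nuf
  rw [ArithmeticFunction.prodPrimeFactors_apply hn]

theorem psa_nuf_prime (h : ℕ) {p : ℕ} (hp : p.Prime) : psa_nuf h p = (psa_nu h p : ℝ) / p := by
  rw [psa_nuf_apply h hp.ne_zero, hp.primeFactors, Finset.prod_singleton]

theorem psa_count_dvd (B c0 h z : ℕ) {D : ℕ} (hD : D ∣ WWb B z) :
    ((Finset.range D).filter (fun t => D ∣ psa_f B c0 h t)).card
      = ∏ p ∈ D.primeFactors, psa_nu h p := by
  have hsq : Squarefree D := Squarefree.squarefree_of_dvd hD (squarefree_WWb B z)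
  have hB : ∀ p ∈ D.primeFactors, ¬ p ∣ B := by
    intro p hp
    have h1 : p ∈ (WWb B z).primeFactors :=
      Nat.primeFactors_mono hD (WWb_pos B z).ne' hp
    rw [primeFactors_WWb, mem_PPb] at h1
    exact h1.2.2
  have h1 : ∏ p ∈ D.primeFactors, p = D := Nat.prod_primeFactors_of_squarefree hsq
  have h2 := card_crt D.primeFactors (fun p hp => Nat.prime_of_mem_primeFactors hp)
    (fun p t => p ∣ c0 + B * t ∨ p ∣ c0 + B * t + h) (by
      intro p _ t
      have hm : c0 + B * t ≡ c0 + B * (t % p) [MOD p] :=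
        ((Nat.mod_modEq t p).symm.mul_left B).add_left c0
      have k1 : p ∣ c0 + B * t ↔ p ∣ c0 + B * (t % p) := hm.dvd_iff dvd_rfl
      have k2 : p ∣ c0 + B * t + h ↔ p ∣ c0 + B * (t % p) + h := (hm.add_right h).dvd_iff dvd_rfl
      rw [k1, k2])
  rw [h1] at h2
  have h3 : (Finset.range D).filter (fun t => D ∣ psa_f B c0 h t)
      = (Finset.range D).filter (fun t => ∀ p ∈ D.primeFactors,
        (p ∣ c0 + B * t ∨ p ∣ c0 + B * t + h)) := by
    apply Finset.filter_congr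
    intro t _
    constructor
    · intro h4 p hp
      rw [← psa_prime_dvd_f (Nat.prime_of_mem_primeFactors hp)]
      exact (Nat.dvd_of_mem_primeFactors hp).trans h4
    · intro h4
      rw [← h1]
      apply Finset.prod_primes_dvd
      · intro p hp
        exact (Nat.prime_of_mem_primeFactors hp).prime
      · intro p hp
        rw [psa_prime_dvd_f (Nat.prime_of_mem_primeFactors hp)]
        exact h4 p hp
  rw [h3, h2]
  apply Finset.prod_congr rfl
  intro p hp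
  exact psa_hit B c0 h (Nat.prime_of_mem_primeFactors hp) (hB p hp)

theorem psa_lt (B h z : ℕ) (h2 : 2 ∣ B) {p : ℕ} (hp : p.Prime) (hd : p ∣ WWb B z) :
    psa_nu h p < p := by
  have h1 : p ∈ (WWb B z).primeFactors :=
    Nat.mem_primeFactors.2 ⟨hp, hd, (WWb_pos B z).ne'⟩
  rw [primeFactors_WWb, mem_PPb] at h1
  have h3 : p ≠ 2 := by
    rintro rfl
    exact h1.2.2 h2
  have h4 := hp.two_le
  have h5 := psa_nu_le h p
  omega

/-- the sieve problem -/
noncomputable def psa_sv (B c0 h N z : ℕ) (h2 : 2 ∣ B) : BoundingSieve where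
  support := (Finset.Icc 1 N).image (psa_f B c0 h)
  prodPrimes := WWb B z
  prodPrimes_squarefree := squarefree_WWb B z
  weights := fun _ => 1
  weights_nonneg := fun _ => zero_le_one
  totalMass := N
  nu := psa_nuf h
  nu_mult := by
    unfold psa_nuf
    exact ArithmeticFunction.IsMultiplicative.prodPrimeFactors _
  nu_pos_of_prime := by
    intro p hp _
    rw [psa_nuf_prime h hp]
    have h1 : (1 : ℝ) ≤ psa_nu h p := by exact_mod_cast psa_nu_pos h p
    have h2 : (0 : ℝ) < p := by exact_mod_cast hp.pos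
    positivity
  nu_lt_one_of_prime := by
    intro p hp hd
    rw [psa_nuf_prime h hp]
    have h3 : (0 : ℝ) < p := by exact_mod_cast hp.pos
    rw [div_lt_one h3]
    exact_mod_cast psa_lt B h z h2 hp hd

open BoundingSieve in
theorem psa_multSum (B c0 h N z : ℕ) (hB : 0 < B) (h2 : 2 ∣ B) (hh : 0 < h) (D : ℕ) :
    (psa_sv B c0 h N z h2).multSum D =
      (((Finset.Icc 1 N).filter (fun m => D ∣ psa_f B c0 h m)).card : ℝ) := by
  unfold multSum
  show ∑ n ∈ (Finset.Icc 1 N).image (psa_f B c0 h), (if D ∣ n then (1 : ℝ) else 0) = _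
  rw [Finset.sum_image (fun m _ n _ hmn => (psa_f_strictMono B c0 h hB hh).injective hmn),
    Finset.card_filter]
  push_cast
  rfl

open BoundingSieve in
theorem psa_rem (B c0 h N z : ℕ) (hB : 0 < B) (h2 : 2 ∣ B) (hh : 0 < h) {D : ℕ}
    (hD : D ∣ WWb B z) :
    |(psa_sv B c0 h N z h2).rem D| ≤ 2 ^ D.primeFactors.card := by
  have hsq : Squarefree D := Squarefree.squarefree_of_dvd hD (squarefree_WWb B z)
  have hD0 : 0 < D := Nat.pos_of_ne_zero hsq.ne_zero
  have h1 := count_residues N D hD0 (fun m => D ∣ psa_f B c0 h m) (by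
    intro m
    unfold psa_f
    apply Nat.ModEq.dvd_iff _ dvd_rfl
    have hm : c0 + B * m ≡ c0 + B * (m % D) [MOD D] :=
      ((Nat.mod_modEq m D).symm.mul_left B).add_left c0
    exact hm.mul (hm.add_right h))
  rw [psa_count_dvd B c0 h z hD] at h1
  unfold rem
  rw [psa_multSum B c0 h N z hB h2 hh]
  have h3 : (psa_sv B c0 h N z h2).nu D * (psa_sv B c0 h N z h2).totalMass
      = ((∏ p ∈ D.primeFactors, psa_nu h p : ℕ) : ℝ) / D * N := by
    show psa_nuf h D * (N : ℝ) = _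
    rw [psa_nuf_apply h hsq.ne_zero, Finset.prod_div_distrib]
    have h4 : (∏ p ∈ D.primeFactors, (p : ℝ)) = D := by
      rw [← Nat.cast_prod, Nat.prod_primeFactors_of_squarefree hsq]
    rw [h4]
    push_cast
    ring
  rw [h3]
  refine h1.trans ?_
  push_cast
  calc ∏ p ∈ D.primeFactors, (psa_nu h p : ℝ) ≤ ∏ p ∈ D.primeFactors, (2 : ℝ) := by
        apply Finset.prod_le_prod
        · intro p _; positivity
        · intro p _; exact_mod_cast psa_nu_le h p
    _ = 2 ^ D.primeFactors.card := by rw [Finset.prod_const]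

theorem psa_GG (B c0 h N z : ℕ) (h2 : 2 ∣ B) :
    Selb.GG (psa_sv B c0 h N z h2) z = Op (PPb B z) (hp2 h) one1 z := by
  unfold Selb.GG Op
  show ∑ l ∈ (Nat.divisors (WWb B z)).filter (fun l => l ≤ z),
    (psa_sv B c0 h N z h2).selbergTerms l = _
  rw [sum_divisors_WWb]
  apply Finset.sum_congr rfl
  intro T hT
  rw [Finset.mem_powerset] at hT
  have hpr : ∀ p ∈ T, p.Prime := fun p hp => (mem_PPb.mp (hT hp)).2.1
  have hpos : 0 < ∏ p ∈ T, p := Finset.prod_pos (fun p hp => (hpr p hp).pos)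
  have h1 : (psa_sv B c0 h N z h2).selbergTerms (∏ p ∈ T, p) = ∏ p ∈ T, hp2 h p := by
    rw [BoundingSieve.selbergTerms_apply, Nat.primeFactors_prod hpr]
    show psa_nuf h (∏ p ∈ T, p) * ∏ p ∈ T, (1 - psa_nuf h p)⁻¹ = _
    rw [psa_nuf_apply h hpos.ne', Nat.primeFactors_prod hpr, ← Finset.prod_mul_distrib]
    apply Finset.prod_congr rfl
    intro p hp
    rw [psa_nuf_prime h (hpr p hp)]
    have hp3 : (3 : ℝ) ≤ p := by
      have e1 : p ≠ 2 := by
        rintro rfl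
        exact (mem_PPb.mp (hT hp)).2.2 h2
      have e2 := (hpr p hp).two_le
      have e3 : 3 ≤ p := by omega
      exact_mod_cast e3
    have hp0 : (p : ℝ) ≠ 0 := by linarith
    have hp1 : (p : ℝ) - 1 ≠ 0 := by linarith
    have hp2' : (p : ℝ) - 2 ≠ 0 := by linarith
    unfold psa_nu hp2
    by_cases hph : p ∣ h
    · rw [if_pos hph, if_pos hph]
      have e4 : (1 : ℝ) - ((1 : ℕ) : ℝ) / p = ((p : ℝ) - 1) / p := by
        push_cast
        field_simp
      rw [e4]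
      push_cast
      field_simp
    · rw [if_neg hph, if_neg hph]
      have e4 : (1 : ℝ) - ((2 : ℕ) : ℝ) / p = ((p : ℝ) - 2) / p := by
        push_cast
        field_simp
      rw [e4]
      push_cast
      field_simp
  rw [h1]
  unfold one1
  by_cases h3 : ∏ p ∈ T, p ≤ z
  · rw [if_pos h3, if_pos (show 1 ≤ z / ∏ p ∈ T, p from Nat.div_pos h3 hpos), mul_one]
  · rw [if_neg h3, if_neg (by rw [Nat.div_eq_of_lt (not_le.mp h3)]; omega), mul_zero]

open BoundingSieve in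
theorem pair_selberg (B c0 h N z : ℕ) (hB : 0 < B) (h2 : 2 ∣ B) (hh : 0 < h) (hz : 1 ≤ z) :
    (((Finset.Icc 1 N).filter fun m => (c0 + B * m).Prime ∧ (c0 + B * m + h).Prime).card : ℝ)
      ≤ z + N * (Op (PPb B z) (hp2 h) one1 z)⁻¹
        + (∑ l ∈ (Nat.divisors (WWb B z)).filter (fun l => l ≤ z), (2 : ℝ) ^ l.primeFactors.card) ^ 2 := by
  have h1 := Selb.selberg_bound (s := psa_sv B c0 h N z h2) (z := z) hz
  rw [psa_GG] at h1
  have h3 : ∑ d1 ∈ (Nat.divisors (psa_sv B c0 h N z h2).prodPrimes).filter (fun l => l ≤ z),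
        ∑ d2 ∈ (Nat.divisors (psa_sv B c0 h N z h2).prodPrimes).filter (fun l => l ≤ z),
          |(psa_sv B c0 h N z h2).rem (d1.lcm d2)|
      ≤ (∑ l ∈ (Nat.divisors (WWb B z)).filter (fun l => l ≤ z), (2 : ℝ) ^ l.primeFactors.card) ^ 2 := by
    rw [pow_two, Finset.sum_mul_sum]
    apply Finset.sum_le_sum
    intro d1 hd1
    apply Finset.sum_le_sum
    intro d2 hd2
    have hd1' : d1 ∣ WWb B z := (Nat.mem_divisors.mp (Finset.mem_filter.mp hd1).1).1
    have hd2' : d2 ∣ WWb B z := (Nat.mem_divisors.mp (Finset.mem_filter.mp hd2).1).1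
    refine (psa_rem B c0 h N z hB h2 hh (Nat.lcm_dvd hd1' hd2')).trans ?_
    rw [← pow_add]
    apply pow_le_pow_right₀ (by norm_num)
    have e1 : d1 ≠ 0 := ne_zero_of_dvd_ne_zero (WWb_pos B z).ne' hd1'
    have e2 : d2 ≠ 0 := ne_zero_of_dvd_ne_zero (WWb_pos B z).ne' hd2'
    refine le_trans (Finset.card_le_card ?_) (Finset.card_union_le _ _)
    intro p hp
    have hpp := Nat.prime_of_mem_primeFactors hp
    have hdvd := (Nat.dvd_of_mem_primeFactors hp).trans (Nat.lcm_dvd_mul d1 d2)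
    rw [Finset.mem_union, Nat.mem_primeFactors, Nat.mem_primeFactors]
    rcases (hpp.dvd_mul).mp hdvd with hd | hd
    · left; exact ⟨hpp, hd, e1⟩
    · right; exact ⟨hpp, hd, e2⟩
  have h4 : (((Finset.Icc 1 N).filter (fun m => (c0 + B * m).Prime ∧
      (c0 + B * m + h).Prime)).card : ℝ)
      ≤ z + (psa_sv B c0 h N z h2).siftedSum := by
    have e1 : (psa_sv B c0 h N z h2).siftedSum =
        (((Finset.Icc 1 N).filter (fun m => Nat.Coprime (WWb B z) (psa_f B c0 h m))).card : ℝ) := by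
      unfold siftedSum
      show ∑ n ∈ (Finset.Icc 1 N).image (psa_f B c0 h),
        (if Nat.Coprime (WWb B z) n then (1 : ℝ) else 0) = _
      rw [Finset.sum_image (fun m _ n _ hmn => (psa_f_strictMono B c0 h hB hh).injective hmn),
        Finset.card_filter]
      push_cast
      rfl
    rw [e1]
    have e2 : (Finset.Icc 1 N).filter (fun m => (c0 + B * m).Prime ∧ (c0 + B * m + h).Prime)
        ⊆ Finset.Icc 1 z ∪
          (Finset.Icc 1 N).filter (fun m => Nat.Coprime (WWb B z) (psa_f B c0 h m)) := by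
      intro m hm
      rw [Finset.mem_filter, Finset.mem_Icc] at hm
      rw [Finset.mem_union, Finset.mem_Icc, Finset.mem_filter, Finset.mem_Icc]
      obtain ⟨hm1, hp1, hp2⟩ := hm
      by_cases hmz : c0 + B * m ≤ z
      · left
        have h5 : m ≤ B * m := Nat.le_mul_of_pos_left m hB
        exact ⟨hm1.1, by omega⟩
      · right
        refine ⟨hm1, ?_⟩
        unfold WWb
        apply Nat.Coprime.prod_left
        intro p hp
        have hpp := (mem_PPb.mp hp).2.1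
        have hpz := (mem_PPb.mp hp).1
        rw [Nat.Prime.coprime_iff_not_dvd hpp]
        intro hdvd
        rw [psa_prime_dvd_f hpp] at hdvd
        rcases hdvd with hd | hd
        · have := (Nat.prime_dvd_prime_iff_eq hpp hp1).mp hd
          omega
        · have := (Nat.prime_dvd_prime_iff_eq hpp hp2).mp hd
          omega
    have e3 := (Finset.card_le_card e2).trans (Finset.card_union_le _ _)
    rw [Nat.card_Icc, Nat.add_sub_cancel] at e3
    exact_mod_cast e3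
  have h5 : (psa_sv B c0 h N z h2).totalMass = N := rfl
  rw [h5] at h1
  linarith

end Pool.H53.NA

end S_NU_PsA

section S_NU_PsB

/-!
Row PsB: lower bound for the Selberg denominator of the pair sieve.

PROOF.  (Tools: `Op_mono`, `Op_weight_mono`, `Op_comp`, `Op_union`, `Op_upper`, `Hs_le_Op`, `Hs_log` of `Pool.Agent.H17.GBound`; see
`GG_lower` in `Pool.Agent.H17.WBT` and `G1_lower` in GBound for the pattern.)
`w1 p = 1/(p-1)`, `S0` = all primes `≤ z`, `S1 = {p ∈ PPb B z : p ∤ h}`, `S' = {p ≤ z prime : p ∣ B or p ∣ h}`, `S0 = S' ∪ S1`.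
(a) `Op (PPb B z) (hp2 h) one1 z ≥ Op S1 (hp2 h) one1 z` (`S1 ⊆ PPb B z`; `Op_union` and the term of the empty set, or sum over a
larger powerset of nonnegative terms; all these primes are odd as `2 ∣ B`, so `hp2 ≥ 0`)
`≥ Op S1 (w1 + w1 + w1 w1) one1 z` (`2/(p-2) ≥ 2/(p-1) + 1/(p-1)²` for `p ≥ 3`) `≥ Op S1 w1 (Op S1 w1 one1) z` (`Op_comp`).
(b) For monotone `Φ ≥ 0`: `Op S0 w1 Φ = Op S' w1 (Op S1 w1 Φ) ≤ K Op S1 w1 Φ` with `K = ∏_{S'} (1 + w1)` (`Op_upper`).
Twice: `Op S1 w1 (Op S1 w1 one1) z ≥ K⁻² Op S0 w1 (Op S0 w1 one1) z ≥ K⁻² Hs (Hs one1) z ≥ K⁻² (log z)²/2` (`Hs_le_Op` twice, `Hs_log`; the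
bound `(1/2)(log v)² ≤ Hs (Hs one1) ⌊v⌋` is inside the proof of `Hs_three`).
(c) `K² ≤ (Cb B)² ∏_{p ∣ h, p ≠ 2} (1 + 1/(p-1))²` (`2 ∣ B`) and `(1 + 1/(p-1))² ≤ 1 + 4/p` for `p ≥ 3`.
-/


namespace Pool.H53.NA

open Pool.Agent.H17

lemma psb_w1_nonneg {p : ℕ} (hp : p.Prime) : 0 ≤ 1 / ((p : ℝ) - 1) := by
  have : (2 : ℝ) ≤ p := by exact_mod_cast hp.two_le
  have h2 : (0 : ℝ) < (p : ℝ) - 1 := by linarith
  positivity

lemma psb_Op_subset {S T : Finset ℕ} (h : S ⊆ T) {w Φ : ℕ → ℝ} (hw : ∀ p ∈ T, 0 ≤ w p) (hΦ : ∀ u, 0 ≤ Φ u) (u : ℕ) :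
    Op S w Φ u ≤ Op T w Φ u := by
  unfold Op
  apply Finset.sum_le_sum_of_subset_of_nonneg (Finset.powerset_mono.mpr h)
  intro U hU _
  rw [Finset.mem_powerset] at hU
  exact mul_nonneg (Finset.prod_nonneg (fun p hp => hw p (hU hp))) (hΦ _)

lemma psb_Hs_two {z : ℕ} (hz : 1 ≤ z) : (Real.log z) ^ 2 / 2 ≤ Hs (Hs one1) z := by
  have h0 : ∀ v : ℝ, 1 ≤ v → 1 * (Real.log v) ^ 0 ≤ one1 ⌊v⌋₊ := by
    intro v hv
    unfold one1
    rw [if_pos (Nat.le_floor (by exact_mod_cast hv))]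
    simp
  have h1 : ∀ v : ℝ, 1 ≤ v → 1 * (Real.log v) ^ 1 ≤ Hs one1 ⌊v⌋₊ := by
    intro v hv
    have := Hs_log h0 zero_le_one hv
    simpa using this
  have hz' : (1 : ℝ) ≤ z := by exact_mod_cast hz
  have := Hs_log h1 zero_le_one hz'
  rw [Nat.floor_natCast] at this
  norm_num at this
  linarith

lemma psb_Kbound {B h : ℕ} (hB : 0 < B) (h2 : 2 ∣ B) (hh : 0 < h) {S : Finset ℕ}
    (hS : ∀ p ∈ S, p.Prime ∧ (p ∣ B ∨ p ∣ h)) :
    (∏ p ∈ S, (1 + 1 / ((p : ℝ) - 1))) ^ 2 ≤ Cb B ^ 2 * FF h := by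
  have hsub : S ⊆ B.primeFactors ∪ h.primeFactors.filter (fun p => p ≠ 2) := by
    intro p hp
    obtain ⟨hpp, hd⟩ := hS p hp
    rw [Finset.mem_union, Finset.mem_filter, Nat.mem_primeFactors, Nat.mem_primeFactors]
    by_cases hp2 : p = 2
    · left
      subst hp2
      exact ⟨hpp, h2, hB.ne'⟩
    · rcases hd with hd | hd
      · left; exact ⟨hpp, hd, hB.ne'⟩
      · right; exact ⟨⟨hpp, hd, hh.ne'⟩, hp2⟩
  have hone : ∀ p : ℕ, p.Prime → (1 : ℝ) ≤ 1 + 1 / ((p : ℝ) - 1) := by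
    intro p hp
    linarith [psb_w1_nonneg hp]
  have hprB : ∀ p ∈ B.primeFactors, p.Prime := fun p hp => Nat.prime_of_mem_primeFactors hp
  have hprh : ∀ p ∈ h.primeFactors.filter (fun p => p ≠ 2), p.Prime :=
    fun p hp => Nat.prime_of_mem_primeFactors (Finset.mem_filter.mp hp).1
  have hprU : ∀ p ∈ B.primeFactors ∪ h.primeFactors.filter (fun p => p ≠ 2), p.Prime := by
    intro p hp
    rcases Finset.mem_union.mp hp with h | h
    · exact hprB p h
    · exact hprh p h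
  have hS0 : 0 ≤ ∏ p ∈ S, (1 + 1 / ((p : ℝ) - 1)) :=
    Finset.prod_nonneg (fun p hp => zero_le_one.trans (hone p (hS p hp).1))
  have b1 : ∏ p ∈ S, (1 + 1 / ((p : ℝ) - 1)) ≤ ∏ p ∈ B.primeFactors ∪ h.primeFactors.filter (fun p => p ≠ 2), (1 + 1 / ((p : ℝ) - 1)) := by
    apply Finset.prod_le_prod_of_subset_of_one_le hsub
    · intro p hp
      exact zero_le_one.trans (hone p (hS p hp).1)
    · intro p hp _
      exact hone p (hprU p hp)
  have b2 : ∏ p ∈ B.primeFactors ∪ h.primeFactors.filter (fun p => p ≠ 2), (1 + 1 / ((p : ℝ) - 1))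
      ≤ Cb B * ∏ p ∈ h.primeFactors.filter (fun p => p ≠ 2), (1 + 1 / ((p : ℝ) - 1)) := by
    unfold Cb
    rw [← Finset.prod_union_inter]
    have b3 : 1 ≤ ∏ p ∈ B.primeFactors ∩ h.primeFactors.filter (fun p => p ≠ 2), (1 + 1 / ((p : ℝ) - 1)) := by
      apply Finset.one_le_prod
      intro p hp
      exact hone p (hprB p (Finset.mem_inter.mp hp).1)
    have b4 : 0 ≤ ∏ p ∈ B.primeFactors ∪ h.primeFactors.filter (fun p => p ≠ 2), (1 + 1 / ((p : ℝ) - 1)) :=
      Finset.prod_nonneg (fun p hp => zero_le_one.trans (hone p (hprU p hp)))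
    nlinarith
  have b5 : (∏ p ∈ h.primeFactors.filter (fun p => p ≠ 2), (1 + 1 / ((p : ℝ) - 1))) ^ 2 ≤ FF h := by
    unfold FF
    rw [← Finset.prod_pow]
    apply Finset.prod_le_prod
    · intro p hp
      positivity
    · intro p hp
      have hpp := hprh p hp
      have hp2 : p ≠ 2 := (Finset.mem_filter.mp hp).2
      have h3 : 3 ≤ p := by
        have := hpp.two_le
        omega
      have h3' : (3 : ℝ) ≤ p := by exact_mod_cast h3
      have h4 : (0 : ℝ) < (p : ℝ) - 1 := by linarith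
      have h5 : (0 : ℝ) < (p : ℝ) := by linarith
      rw [show (1 + 1 / ((p : ℝ) - 1)) = p / ((p : ℝ) - 1) by field_simp; ring, show (1 + 4 / (p : ℝ)) = (p + 4) / p by field_simp,
        div_pow, div_le_div_iff₀ (by positivity) h5]
      nlinarith [mul_nonneg (sub_nonneg.mpr h3') (sub_nonneg.mpr h3')]
  have b6 : ∏ p ∈ S, (1 + 1 / ((p : ℝ) - 1)) ≤ Cb B * ∏ p ∈ h.primeFactors.filter (fun p => p ≠ 2), (1 + 1 / ((p : ℝ) - 1)) :=
    b1.trans b2
  calc (∏ p ∈ S, (1 + 1 / ((p : ℝ) - 1))) ^ 2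
      ≤ (Cb B * ∏ p ∈ h.primeFactors.filter (fun p => p ≠ 2), (1 + 1 / ((p : ℝ) - 1))) ^ 2 := by
        gcongr
    _ = Cb B ^ 2 * (∏ p ∈ h.primeFactors.filter (fun p => p ≠ 2), (1 + 1 / ((p : ℝ) - 1))) ^ 2 := by ring
    _ ≤ Cb B ^ 2 * FF h := by gcongr

theorem pair_GG (B h z : ℕ) (hB : 0 < B) (h2 : 2 ∣ B) (hh : 0 < h) (hz : 1 ≤ z) :
    (Real.log z) ^ 2 / 2 ≤ Cb B ^ 2 * FF h * Op (PPb B z) (hp2 h) one1 z := by
  set S0 : Finset ℕ := (Finset.range (z + 1)).filter Nat.Prime with hS0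
  set S1 : Finset ℕ := S0.filter (fun p => ¬ (p ∣ B ∨ p ∣ h)) with hS1
  set S' : Finset ℕ := S0.filter (fun p => p ∣ B ∨ p ∣ h) with hS'
  have hun : S' ∪ S1 = S0 := Finset.filter_union_filter_not_eq _ _
  have hdis : Disjoint S' S1 := Finset.disjoint_filter_filter_not _ _ _
  have hp0 : ∀ p ∈ S0, p.Prime := fun p hp => (Finset.mem_filter.mp hp).2
  have hp1 : ∀ p ∈ S1, p.Prime := fun p hp => hp0 p (Finset.mem_filter.mp hp).1
  have hp' : ∀ p ∈ S', p.Prime := fun p hp => hp0 p (Finset.mem_filter.mp hp).1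
  set g : ℕ → ℝ := fun p => 1 / ((p : ℝ) - 1) with hg
  have g0 : ∀ p ∈ S0, 0 ≤ g p := fun p hp => psb_w1_nonneg (hp0 p hp)
  have g1 : ∀ p ∈ S1, 0 ≤ g p := fun p hp => psb_w1_nonneg (hp1 p hp)
  have g' : ∀ p ∈ S', 0 ≤ g p := fun p hp => psb_w1_nonneg (hp' p hp)
  have hall : ∀ u ≤ z, ∀ p : ℕ, p.Prime → p ≤ u → p ∈ S0 := by
    intro u hu p hp hpu
    rw [hS0, Finset.mem_filter, Finset.mem_range]
    exact ⟨by omega, hp⟩
  set K : ℝ := ∏ p ∈ S', (1 + g p) with hK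
  have hK0 : 0 ≤ K := Finset.prod_nonneg (fun p hp => by linarith [g' p hp])
  have comp : ∀ {Φ : ℕ → ℝ}, Monotone Φ → ∀ u, Op S0 g Φ u ≤ K * Op S1 g Φ u := by
    intro Φ hΦ u
    rw [← hun, Op_union hdis]
    exact Op_upper g' (Op_mono g1 hΦ) u
  have m0 : Monotone (Op S0 g one1) := Op_mono g0 one1_mono
  have m1 : Monotone (Op S1 g one1) := Op_mono g1 one1_mono
  have n0 : ∀ u, 0 ≤ Op S0 g one1 u := fun u => Op_nonneg g0 one1_nonneg u
  have s1 : ∀ u ≤ z, Hs one1 u ≤ Op S0 g one1 u := fun u hu => Hs_le_Op hp0 one1_mono one1_nonneg (hall u hu)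
  have s2 : Hs (Hs one1) z ≤ Op S0 g (Op S0 g one1) z :=
    (Hs_mono_arg (fun w hw => s1 w hw)).trans (Hs_le_Op hp0 m0 n0 (hall z le_rfl))
  have s3 : Op S0 g (Op S0 g one1) z ≤ K * Op S1 g (Op S0 g one1) z := comp m0 z
  have s4 : Op S1 g (Op S0 g one1) z ≤ Op S1 g (fun v => K * Op S1 g one1 v) z :=
    Op_le_Op g1 (fun v _ => comp one1_mono v)
  rw [Op_smul] at s4
  have s5 : Op S1 g (Op S1 g one1) z ≤ Op S1 (fun p => g p + g p + g p * g p) one1 z :=
    Op_comp g1 g1 (fun p _ => rfl) one1_mono z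
  have three : ∀ p : ℕ, p.Prime → ¬ p ∣ B → (3 : ℝ) ≤ p := by
    intro p hp hpB
    have h3 : p ≠ 2 := by
      rintro rfl
      exact hpB h2
    have := hp.two_le
    have h4 : 3 ≤ p := by omega
    exact_mod_cast h4
  have s6 : Op S1 (fun p => g p + g p + g p * g p) one1 z ≤ Op S1 (hp2 h) one1 z := by
    apply Op_weight_mono _ _ one1_nonneg
    · intro p hp
      have := g1 p hp
      positivity
    · intro p hp
      rw [hS1, Finset.mem_filter] at hp
      have hpp := hp0 p hp.1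
      have h3 := three p hpp (fun h => hp.2 (Or.inl h))
      have hnh : ¬ p ∣ h := fun h => hp.2 (Or.inr h)
      unfold hp2
      rw [if_neg hnh]
      simp only [hg]
      have h4 : (0 : ℝ) < (p : ℝ) - 1 := by linarith
      have h5 : (0 : ℝ) < (p : ℝ) - 2 := by linarith
      rw [show 1 / ((p : ℝ) - 1) + 1 / ((p : ℝ) - 1) + 1 / ((p : ℝ) - 1) * (1 / ((p : ℝ) - 1)) = (2 * (p - 1) + 1) / ((p : ℝ) - 1) ^ 2 by
        field_simp; ring, div_le_div_iff₀ (by positivity) h5]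
      nlinarith
  have hnn : ∀ p ∈ PPb B z, 0 ≤ hp2 h p := by
    intro p hp
    unfold PPb at hp
    rw [Finset.mem_filter] at hp
    have h3 := three p hp.2.1 hp.2.2
    unfold hp2
    have h4 : (0 : ℝ) < (p : ℝ) - 1 := by linarith
    have h5 : (0 : ℝ) < (p : ℝ) - 2 := by linarith
    split_ifs <;> positivity
  have s7 : Op S1 (hp2 h) one1 z ≤ Op (PPb B z) (hp2 h) one1 z := by
    apply psb_Op_subset _ hnn one1_nonneg
    intro p hp
    rw [hS1, Finset.mem_filter, hS0, Finset.mem_filter] at hp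
    unfold PPb
    rw [Finset.mem_filter]
    exact ⟨hp.1.1, hp.1.2, fun h => hp.2 (Or.inl h)⟩
  have s8 : Op S1 g (Op S1 g one1) z ≤ Op (PPb B z) (hp2 h) one1 z := s5.trans (s6.trans s7)
  have n1 : 0 ≤ Op S1 g (Op S1 g one1) z := Op_nonneg g1 (fun u => Op_nonneg g1 one1_nonneg u) z
  have hKb : K ^ 2 ≤ Cb B ^ 2 * FF h := by
    apply psb_Kbound hB h2 hh
    intro p hp
    exact ⟨hp' p hp, (Finset.mem_filter.mp hp).2⟩
  calc (Real.log z) ^ 2 / 2 ≤ Hs (Hs one1) z := psb_Hs_two hz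
    _ ≤ K * Op S1 g (Op S0 g one1) z := s2.trans s3
    _ ≤ K * (K * Op S1 g (Op S1 g one1) z) := by gcongr
    _ = K ^ 2 * Op S1 g (Op S1 g one1) z := by ring
    _ ≤ (Cb B ^ 2 * FF h) * Op S1 g (Op S1 g one1) z := by gcongr
    _ ≤ Cb B ^ 2 * FF h * Op (PPb B z) (hp2 h) one1 z := by
        have : 0 ≤ Cb B ^ 2 * FF h := (sq_nonneg K).trans hKb
        gcongr

end Pool.H53.NA

end S_NU_PsB

section S_NU_PsC

/-!
Row PsC: the upper bound for prime pairs in a residue class.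

PROOF.  `c0 = c % B`, `N = X / B`.  The `m ≤ X` with `m ≡ c mod B` are `c0 + B m'` with `0 ≤ m' ≤ N`; `m' = 0` contributes at most 1.
`z = ⌊X^(1/16)⌋`.  `pair_selberg` with `(∑_{l ≤ z} 2^ω(l))² ≤ (z²)²` (`2^ω(l) ≤ l`; `∏_{p ∣ l} 2 ≤ ∏_{p ∣ l} p ≤ l`) gives
`count ≤ 1 + z + z⁴ + N G⁻¹`, and `pair_GG` gives `G⁻¹ ≤ 2 Cb² FF/(log z)²`.  For `X ≥ X0(B)`: `log z ≥ (log X)/20`,
`1 + z + z⁴ ≤ 1 + X^(1/16) + X^(1/4) ≤ (X/B)/(log X)²`.  As `FF h ≥ 1`, `Cb B ≥ 1`, the constant `C = 801` works.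
-/


namespace Pool.H53.NA

open Pool.Agent.H17

lemma psc_FF (h : ℕ) : 1 ≤ FF h := by
  unfold FF
  calc (1 : ℝ) = ∏ _p ∈ h.primeFactors.filter (fun p => p ≠ 2), (1 : ℝ) := by simp
    _ ≤ _ := by
      refine Finset.prod_le_prod (fun _ _ => zero_le_one) (fun p _ => ?_)
      have : (0 : ℝ) ≤ 4 / (p : ℝ) := by positivity
      linarith

lemma psc_Cb (b : ℕ) : 1 ≤ Cb b := by
  unfold Cb
  calc (1 : ℝ) = ∏ _p ∈ b.primeFactors, (1 : ℝ) := by simp
    _ ≤ _ := by
      refine Finset.prod_le_prod (fun _ _ => zero_le_one) (fun p hp => ?_)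
      have h1 : (2 : ℝ) ≤ p := by exact_mod_cast (Nat.prime_of_mem_primeFactors hp).two_le
      have : (0 : ℝ) ≤ 1 / ((p : ℝ) - 1) := by
        apply div_nonneg zero_le_one
        linarith
      linarith

lemma psc_om (l : ℕ) (hl : l ≠ 0) : (2 : ℝ) ^ l.primeFactors.card ≤ l := by
  have h1 : (2 : ℕ) ^ l.primeFactors.card ≤ l := by
    calc 2 ^ l.primeFactors.card = ∏ _p ∈ l.primeFactors, 2 := by rw [Finset.prod_const]
      _ ≤ ∏ p ∈ l.primeFactors, p :=
        Finset.prod_le_prod (fun _ _ => Nat.zero_le _)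
          (fun p hp => (Nat.prime_of_mem_primeFactors hp).two_le)
      _ ≤ l := Nat.le_of_dvd (Nat.pos_of_ne_zero hl) (Nat.prod_primeFactors_dvd l)
  exact_mod_cast h1

lemma psc_sum (W z : ℕ) :
    (∑ l ∈ (Nat.divisors W).filter (fun l => l ≤ z), (2 : ℝ) ^ l.primeFactors.card) ≤
      (z : ℝ) ^ 2 := by
  have h1 : ∀ l ∈ (Nat.divisors W).filter (fun l => l ≤ z), (2 : ℝ) ^ l.primeFactors.card ≤ z := by
    intro l hl
    rw [Finset.mem_filter, Nat.mem_divisors] at hl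
    have h0 : l ≠ 0 := by
      rintro rfl
      exact hl.1.2 (Nat.eq_zero_of_zero_dvd hl.1.1)
    exact (psc_om l h0).trans (by exact_mod_cast hl.2)
  have h2 : ((Nat.divisors W).filter (fun l => l ≤ z)).card ≤ z := by
    calc ((Nat.divisors W).filter (fun l => l ≤ z)).card ≤ (Finset.Icc 1 z).card := by
          refine Finset.card_le_card (fun l hl => ?_)
          rw [Finset.mem_filter, Nat.mem_divisors] at hl
          have h0 : l ≠ 0 := by
            rintro rfl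
            exact hl.1.2 (Nat.eq_zero_of_zero_dvd hl.1.1)
          rw [Finset.mem_Icc]
          exact ⟨Nat.pos_of_ne_zero h0, hl.2⟩
      _ = z := by simp
  calc (∑ l ∈ (Nat.divisors W).filter (fun l => l ≤ z), (2 : ℝ) ^ l.primeFactors.card)
      ≤ ∑ _l ∈ (Nat.divisors W).filter (fun l => l ≤ z), (z : ℝ) := Finset.sum_le_sum h1
    _ = ((Nat.divisors W).filter (fun l => l ≤ z)).card * (z : ℝ) := by
      rw [Finset.sum_const, nsmul_eq_mul]
    _ ≤ (z : ℝ) * z := by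
      have : (((Nat.divisors W).filter (fun l => l ≤ z)).card : ℝ) ≤ z := by exact_mod_cast h2
      exact mul_le_mul_of_nonneg_right this (Nat.cast_nonneg z)
    _ = (z : ℝ) ^ 2 := by ring

lemma psc_count (B X c h : ℕ) (hB : 0 < B) :
    ((Finset.Icc 1 X).filter fun m => m ≡ c [MOD B] ∧ m.Prime ∧ (m + h).Prime).card ≤
      1 + ((Finset.Icc 1 (X / B)).filter fun m => (c % B + B * m).Prime ∧
        (c % B + B * m + h).Prime).card := by
  classical
  have h1 : ((Finset.Icc 1 X).filter fun m => m ≡ c [MOD B] ∧ m.Prime ∧ (m + h).Prime) ⊆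
      (insert 0 ((Finset.Icc 1 (X / B)).filter fun m => (c % B + B * m).Prime ∧
        (c % B + B * m + h).Prime)).image (fun m => c % B + B * m) := by
    intro m hm
    rw [Finset.mem_filter, Finset.mem_Icc] at hm
    obtain ⟨⟨hm1, hm2⟩, hm3, hm4, hm5⟩ := hm
    have e : c % B + B * (m / B) = m := by
      have : m % B = c % B := hm3
      rw [← this]
      exact Nat.mod_add_div m B
    rw [Finset.mem_image]
    refine ⟨m / B, ?_, e⟩
    rw [Finset.mem_insert]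
    rcases Nat.eq_zero_or_pos (m / B) with h0 | h0
    · exact Or.inl h0
    · right
      rw [Finset.mem_filter, Finset.mem_Icc, e]
      exact ⟨⟨h0, Nat.div_le_div_right hm2⟩, hm4, hm5⟩
  have hB' := hB
  calc _ ≤ _ := Finset.card_le_card h1
    _ ≤ _ := Finset.card_image_le
    _ ≤ _ := Finset.card_insert_le _ _
    _ = _ := by ring

theorem pair_sieve : ∃ C : ℝ, 0 < C ∧ ∀ B : ℕ, 0 < B → 2 ∣ B → ∃ X0 : ℕ, 2 ≤ X0 ∧ ∀ X : ℕ, X0 ≤ X →
    ∀ c h : ℕ, 0 < h →
    (((Finset.Icc 1 X).filter fun m => m ≡ c [MOD B] ∧ m.Prime ∧ (m + h).Prime).card : ℝ)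
      ≤ C * Cb B ^ 2 * ((X : ℝ) / B) / (Real.log X) ^ 2 * FF h := by
  refine ⟨801, by norm_num, fun B hB h2 => ⟨2 ^ 80 + (192 * B) ^ 2, ?_, ?_⟩⟩
  · have : 2 ≤ 2 ^ 80 := by norm_num
    omega
  intro X hX c h hh
  have hBr : (0 : ℝ) < B := by exact_mod_cast hB
  have hXr : (2 : ℝ) ^ 80 + (192 * B) ^ 2 ≤ X := by exact_mod_cast hX
  have hX80 : (2 : ℝ) ^ 80 ≤ X := by nlinarith [sq_nonneg (192 * (B : ℝ))]
  have hXB : (192 * (B : ℝ)) ^ 2 ≤ X := by
    have : (0 : ℝ) ≤ 2 ^ 80 := by norm_num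
    linarith
  have hX0 : (0 : ℝ) < X := lt_of_lt_of_le (by norm_num) hX80
  have hX1 : (1 : ℝ) ≤ X := le_trans (by norm_num) hX80
  have hlog80 : 80 * Real.log 2 ≤ Real.log X := by
    have := Real.log_le_log (by norm_num) hX80
    rw [Real.log_pow] at this
    exact_mod_cast this
  have hl2 : 0 < Real.log 2 := Real.log_pos (by norm_num)
  have hlX : 0 < Real.log X := by linarith
  set r : ℝ := (X : ℝ) ^ (1 / 16 : ℝ) with hr
  have hr2 : (32 : ℝ) ≤ r := by
    have h1 : ((2 : ℝ) ^ 80) ^ (1 / 16 : ℝ) ≤ r :=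
      Real.rpow_le_rpow (by norm_num) hX80 (by norm_num)
    have h2 : ((2 : ℝ) ^ 80) ^ (1 / 16 : ℝ) = 32 := by
      rw [← Real.rpow_natCast, ← Real.rpow_mul (by norm_num)]
      norm_num
    linarith
  set z : ℕ := ⌊r⌋₊ with hz
  have hzr : (z : ℝ) ≤ r := Nat.floor_le (by linarith)
  have hzr2 : r / 2 ≤ z := by
    have := Nat.lt_floor_add_one r
    rw [← hz] at this
    linarith
  have hz1 : (1 : ℝ) ≤ z := by linarith
  have hz1' : 1 ≤ z := by exact_mod_cast hz1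
  have hlogz : Real.log X / 20 ≤ Real.log z := by
    have h1 : Real.log (r / 2) ≤ Real.log z := Real.log_le_log (by linarith) hzr2
    rw [Real.log_div (by linarith) (by norm_num), hr, Real.log_rpow hX0] at h1
    linarith
  have hlz : 0 < Real.log z := by linarith [div_pos hlX (by norm_num : (0 : ℝ) < 20)]
  have hFF := psc_FF h
  have hCb := psc_Cb B
  have hGG := pair_GG B h z hB h2 hh hz1'
  set G : ℝ := Op (PPb B z) (hp2 h) one1 z with hG
  have hCF : 0 < Cb B ^ 2 * FF h := by positivity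
  have hCF1 : 1 ≤ Cb B ^ 2 * FF h := by
    have : 1 ≤ Cb B ^ 2 := one_le_pow₀ hCb
    nlinarith
  have hGpos : 0 < G := by
    have h1 : 0 < (Real.log z) ^ 2 / 2 := by positivity
    have h3 : 0 < Cb B ^ 2 * FF h * G := lt_of_lt_of_le h1 hGG
    exact (pos_iff_pos_of_mul_pos h3).1 hCF
  have hGinv : G⁻¹ ≤ 800 * (Cb B ^ 2 * FF h) / (Real.log X) ^ 2 := by
    have h1 : (Real.log X) ^ 2 / 800 ≤ (Real.log z) ^ 2 / 2 := by
      have : (Real.log X / 20) ^ 2 ≤ (Real.log z) ^ 2 :=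
        pow_le_pow_left₀ (by positivity) hlogz 2
      nlinarith
    have h3 : (Real.log X) ^ 2 / 800 ≤ Cb B ^ 2 * FF h * G := h1.trans hGG
    rw [inv_eq_one_div, div_le_div_iff₀ hGpos (by positivity)]
    nlinarith
  have hsel := pair_selberg B (c % B) h (X / B) z hB h2 hh hz1'
  have hcount := psc_count B X c h hB
  have hcount' : (((Finset.Icc 1 X).filter fun m => m ≡ c [MOD B] ∧ m.Prime ∧
      (m + h).Prime).card : ℝ) ≤ 1 + (((Finset.Icc 1 (X / B)).filter fun m =>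
        (c % B + B * m).Prime ∧ (c % B + B * m + h).Prime).card : ℝ) := by
    exact_mod_cast hcount
  have hN : (((X / B : ℕ)) : ℝ) ≤ (X : ℝ) / B := Nat.cast_div_le
  have hs2 : (∑ l ∈ (Nat.divisors (WWb B z)).filter (fun l => l ≤ z),
      (2 : ℝ) ^ l.primeFactors.card) ^ 2 ≤ (z : ℝ) ^ 4 := by
    have h1 := psc_sum (WWb B z) z
    have h0 : 0 ≤ ∑ l ∈ (Nat.divisors (WWb B z)).filter (fun l => l ≤ z),
      (2 : ℝ) ^ l.primeFactors.card := Finset.sum_nonneg (fun _ _ => by positivity)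
    calc _ ≤ ((z : ℝ) ^ 2) ^ 2 := pow_le_pow_left₀ h0 h1 2
      _ = (z : ℝ) ^ 4 := by ring
  have hNG : (((X / B : ℕ)) : ℝ) * G⁻¹ ≤
      (X : ℝ) / B * (800 * (Cb B ^ 2 * FF h) / (Real.log X) ^ 2) :=
    mul_le_mul hN hGinv (inv_nonneg.2 hGpos.le) (by positivity)
  have hsmall : 1 + (z : ℝ) + (z : ℝ) ^ 4 ≤ (X : ℝ) / B / (Real.log X) ^ 2 := by
    have hr1 : (1 : ℝ) ≤ r := by linarith
    have e4 : r ^ 4 = (X : ℝ) ^ (1 / 4 : ℝ) := by
      rw [hr, ← Real.rpow_natCast, ← Real.rpow_mul hX0.le]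
      norm_num
    have h1 : 1 + (z : ℝ) + (z : ℝ) ^ 4 ≤ 3 * (X : ℝ) ^ (1 / 4 : ℝ) := by
      have ha : (z : ℝ) ^ 4 ≤ r ^ 4 := pow_le_pow_left₀ (by linarith) hzr 4
      have hb : r ≤ r ^ 4 := le_self_pow₀ hr1 (by norm_num)
      rw [← e4]
      linarith
    have h3 : Real.log X ≤ 8 * (X : ℝ) ^ (1 / 8 : ℝ) := by
      have := Real.log_le_rpow_div hX0.le (by norm_num : (0 : ℝ) < 1 / 8)
      linarith
    have h4 : (Real.log X) ^ 2 ≤ 64 * (X : ℝ) ^ (1 / 4 : ℝ) := by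
      have e8 : ((X : ℝ) ^ (1 / 8 : ℝ)) ^ 2 = (X : ℝ) ^ (1 / 4 : ℝ) := by
        rw [← Real.rpow_natCast, ← Real.rpow_mul hX0.le]
        norm_num
      calc (Real.log X) ^ 2 ≤ (8 * (X : ℝ) ^ (1 / 8 : ℝ)) ^ 2 := pow_le_pow_left₀ hlX.le h3 2
        _ = 64 * (X : ℝ) ^ (1 / 4 : ℝ) := by rw [mul_pow, e8]; norm_num
    have hs : (X : ℝ) ^ (1 / 4 : ℝ) * (X : ℝ) ^ (1 / 4 : ℝ) = Real.sqrt X := by
      rw [← Real.rpow_add hX0, Real.sqrt_eq_rpow]
      norm_num
    have hq : 192 * (B : ℝ) ≤ Real.sqrt X := Real.le_sqrt_of_sq_le hXB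
    have hsq : Real.sqrt X * Real.sqrt X = X := Real.mul_self_sqrt hX0.le
    have hq0 : 0 ≤ Real.sqrt X := Real.sqrt_nonneg _
    rw [div_div, le_div_iff₀ (by positivity)]
    have hX4 : 0 ≤ (X : ℝ) ^ (1 / 4 : ℝ) := by positivity
    calc (1 + (z : ℝ) + (z : ℝ) ^ 4) * (B * Real.log X ^ 2)
        ≤ (3 * (X : ℝ) ^ (1 / 4 : ℝ)) * (B * (64 * (X : ℝ) ^ (1 / 4 : ℝ))) := by
          refine mul_le_mul h1 ?_ (by positivity) (by positivity)
          exact mul_le_mul_of_nonneg_left h4 hBr.le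
      _ = (192 * B) * ((X : ℝ) ^ (1 / 4 : ℝ) * (X : ℝ) ^ (1 / 4 : ℝ)) := by ring
      _ = (192 * B) * Real.sqrt X := by rw [hs]
      _ ≤ Real.sqrt X * Real.sqrt X := mul_le_mul_of_nonneg_right hq hq0
      _ = X := hsq
  have hfin : (X : ℝ) / B / (Real.log X) ^ 2 ≤
      (X : ℝ) / B / (Real.log X) ^ 2 * (Cb B ^ 2 * FF h) :=
    le_mul_of_one_le_right (by positivity) hCF1
  calc _ ≤ _ := hcount'
    _ ≤ (1 + (z : ℝ) + (z : ℝ) ^ 4) +
        (X : ℝ) / B * (800 * (Cb B ^ 2 * FF h) / (Real.log X) ^ 2) := by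
      linarith
    _ ≤ (X : ℝ) / B / (Real.log X) ^ 2 * (Cb B ^ 2 * FF h) +
        (X : ℝ) / B * (800 * (Cb B ^ 2 * FF h) / (Real.log X) ^ 2) := by
      linarith
    _ = 801 * Cb B ^ 2 * ((X : ℝ) / B) / (Real.log X) ^ 2 * FF h := by ring

end Pool.H53.NA

end S_NU_PsC

section S_NU_RsA

/-!
Row RsA: Romanoff's sum, moduli with small order.

PROOF.  Let `Q` be the set of prime factors of `∏_{1 ≤ i ≤ x} (2^i - 1)`; all are odd.  If `d ∈ T` and `q ∣ d` is a prime, then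
`t = orderOf (2 : ZMod q)` divides `orderOf (2 : ZMod d) ≤ x` (apply `ZMod.castHom`), and `q ∣ 2^t - 1`, `t ≥ 1`, so `q ∈ Q`.
As `d` is squarefree, `∑_{d ∈ T} g4 d ≤ ∑_{A ⊆ Q} ∏_{q ∈ A} 4/q = ∏_{q ∈ Q} (1 + 4/q) ≤ exp(4 ∑_{q ∈ Q} 1/q)` (`d ↦ d.primeFactors`
is injective on squarefree numbers; `g4 d = ∏_{q ∣ d} 4/q`; `Finset.prod_one_add`).
`2^|Q| ≤ ∏_{q ∈ Q} q ≤ ∏_{i ≤ x} 2^i ≤ 2^(x²)`, so `|Q| ≤ x²`.
`∑_{q ∈ Q} 1/q ≤ ∑_{q ≤ x²} 1/q + |Q|/x² ≤ log log (x²) + C0 + 1` by `mert5` of `Pool.Agent.H75.EK.Mert` (namespace `EK75`; `x² ≥ 4`).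
So the sum is `≤ e^(4 C0 + 4) (log x²)⁴ = 16 e^(4 C0 + 4) (log x)⁴`.
-/


namespace Pool.H53.NA

private theorem rsa_g4 {d : ℕ} (hd : Squarefree d) :
    g4 d = ∏ q ∈ d.primeFactors, (4 / (q : ℝ)) := by
  unfold g4
  rw [Finset.prod_div_distrib, Finset.prod_const]
  congr 1
  have h := Nat.prod_primeFactors_of_squarefree hd
  calc (d : ℝ) = ((∏ p ∈ d.primeFactors, p : ℕ) : ℝ) := by rw [h]
    _ = ∏ q ∈ d.primeFactors, (q : ℝ) := by push_cast; rfl

private theorem rsa_mem {x d q : ℕ} (hd : Squarefree d) (ho : Odd d)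
    (hx : orderOf (2 : ZMod d) ≤ x) (hq : q ∈ d.primeFactors) :
    q ∈ (∏ i ∈ Finset.Icc 1 x, (2 ^ i - 1)).primeFactors := by
  have hd0 : d ≠ 0 := hd.ne_zero
  have : NeZero d := ⟨hd0⟩
  have hqp := Nat.prime_of_mem_primeFactors hq
  have hqd := Nat.dvd_of_mem_primeFactors hq
  have hc : Nat.Coprime 2 d := (Nat.coprime_two_left).mpr ho
  set u : (ZMod d)ˣ := ZMod.unitOfCoprime 2 hc with hu
  have hu2 : ((u : (ZMod d)ˣ) : ZMod d) = 2 := by
    rw [hu, ZMod.coe_unitOfCoprime]; norm_num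
  have hpos : 0 < orderOf (2 : ZMod d) := by
    rw [← hu2, orderOf_units]
    exact orderOf_pos u
  have h1 : d ∣ 2 ^ orderOf (2 : ZMod d) - 1 := by
    have h2 : ((2 ^ orderOf (2 : ZMod d) - 1 : ℕ) : ZMod d) = 0 := by
      rw [Nat.cast_sub Nat.one_le_two_pow]
      push_cast
      rw [pow_orderOf_eq_one, sub_self]
    exact (ZMod.natCast_eq_zero_iff _ _).mp h2
  refine Nat.mem_primeFactors.mpr ⟨hqp, ?_, ?_⟩
  · refine (hqd.trans h1).trans ?_
    exact Finset.dvd_prod_of_mem (fun i => 2 ^ i - 1) (Finset.mem_Icc.mpr ⟨hpos, hx⟩)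
  · refine Finset.prod_ne_zero_iff.mpr fun i hi => ?_
    have h1 := (Finset.mem_Icc.mp hi).1
    have h2 : 2 ^ 1 ≤ 2 ^ i := Nat.pow_le_pow_right (by norm_num) h1
    omega

private theorem rsa_card {x : ℕ} :
    (∏ i ∈ Finset.Icc 1 x, (2 ^ i - 1)).primeFactors.card ≤ x ^ 2 := by
  set N := ∏ i ∈ Finset.Icc 1 x, (2 ^ i - 1) with hN
  have hN0 : N ≠ 0 := by
    refine Finset.prod_ne_zero_iff.mpr fun i hi => ?_
    have h1 := (Finset.mem_Icc.mp hi).1
    have h2 : 2 ^ 1 ≤ 2 ^ i := Nat.pow_le_pow_right (by norm_num) h1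
    omega
  have h1 : 2 ^ N.primeFactors.card ≤ ∏ q ∈ N.primeFactors, q := by
    rw [← Finset.prod_const]
    exact Finset.prod_le_prod' fun q hq => (Nat.prime_of_mem_primeFactors hq).two_le
  have h2 : ∏ q ∈ N.primeFactors, q ≤ N :=
    Nat.le_of_dvd (Nat.pos_of_ne_zero hN0) (Nat.prod_primeFactors_dvd N)
  have h3 : N ≤ 2 ^ (x ^ 2) := by
    calc N ≤ ∏ i ∈ Finset.Icc 1 x, 2 ^ x := by
          refine Finset.prod_le_prod' fun i hi => ?_
          exact (Nat.sub_le _ _).trans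
            (Nat.pow_le_pow_right (by norm_num) (Finset.mem_Icc.mp hi).2)
      _ = 2 ^ (x ^ 2) := by
          rw [Finset.prod_const, Nat.card_Icc, Nat.add_sub_cancel, ← pow_mul, sq]
  exact (Nat.pow_le_pow_iff_right (by norm_num : 1 < 2)).mp (h1.trans (h2.trans h3))

theorem rom_small : ∃ C : ℝ, 0 < C ∧ ∀ x : ℕ, 2 ≤ x → ∀ T : Finset ℕ,
    (∀ d ∈ T, Squarefree d ∧ Odd d ∧ orderOf (2 : ZMod d) ≤ x) →
    ∑ d ∈ T, g4 d ≤ C * (Real.log x) ^ 4 := by
  obtain ⟨C0, hC0⟩ := EK75.mert5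
  refine ⟨16 * Real.exp (4 * C0 + 4), by positivity, fun x hx T hT => ?_⟩
  set Q := (∏ i ∈ Finset.Icc 1 x, (2 ^ i - 1)).primeFactors with hQ
  have hQp : ∀ q ∈ Q, q.Prime := fun q hq => Nat.prime_of_mem_primeFactors hq
  -- the sum over subsets
  have h1 : ∑ d ∈ T, g4 d ≤ ∏ q ∈ Q, (1 + 4 / (q : ℝ)) := by
    rw [Finset.prod_one_add]
    have hinj : Set.InjOn (fun d : ℕ => d.primeFactors) (T : Set ℕ) := by
      intro a ha b hb hab
      have h1 := Nat.prod_primeFactors_of_squarefree (hT a ha).1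
      have h2 := Nat.prod_primeFactors_of_squarefree (hT b hb).1
      simp only at hab
      rw [hab] at h1
      exact h1.symm.trans h2
    have h2 : ∑ d ∈ T, g4 d = ∑ A ∈ T.image (fun d : ℕ => d.primeFactors),
        ∏ q ∈ A, (4 / (q : ℝ)) := by
      rw [Finset.sum_image hinj]
      exact Finset.sum_congr rfl fun d hd => rsa_g4 (hT d hd).1
    rw [h2]
    refine Finset.sum_le_sum_of_subset_of_nonneg ?_ fun A _ _ =>
      Finset.prod_nonneg fun q _ => by positivity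
    intro A hA
    obtain ⟨d, hd, rfl⟩ := Finset.mem_image.mp hA
    refine Finset.mem_powerset.mpr fun q hq => ?_
    exact rsa_mem (hT d hd).1 (hT d hd).2.1 (hT d hd).2.2 hq
  have h2 : ∏ q ∈ Q, (1 + 4 / (q : ℝ)) ≤ Real.exp (4 * ∑ q ∈ Q, 1 / (q : ℝ)) := by
    rw [Finset.mul_sum, Real.exp_sum]
    refine Finset.prod_le_prod (fun q _ => by positivity) fun q _ => ?_
    have := Real.add_one_le_exp (4 * (1 / (q : ℝ)))
    calc (1 : ℝ) + 4 / q = 4 * (1 / (q : ℝ)) + 1 := by ring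
      _ ≤ _ := this
  -- the sum of the reciprocals
  have hx2 : (2 : ℝ) ≤ (x : ℝ) ^ 2 := by
    have : (2 : ℝ) ≤ x := by exact_mod_cast hx
    nlinarith
  have hxpos : (0 : ℝ) < (x : ℝ) ^ 2 := by linarith
  have h3 : ∑ q ∈ Q, 1 / (q : ℝ) ≤ Real.log (Real.log ((x : ℝ) ^ 2)) + C0 + 1 := by
    rw [← Finset.sum_filter_add_sum_filter_not Q (fun q => q ≤ x ^ 2)]
    have h4 : ∑ q ∈ Q.filter (fun q => q ≤ x ^ 2), 1 / (q : ℝ) ≤
        ∑ p ∈ EK75.prLe ((x : ℝ) ^ 2), (1 : ℝ) / p := by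
      refine Finset.sum_le_sum_of_subset_of_nonneg ?_ fun q _ _ => by positivity
      intro q hq
      obtain ⟨hq1, hq2⟩ := Finset.mem_filter.mp hq
      unfold EK75.prLe
      have hfl : ⌊((x : ℝ) ^ 2)⌋₊ = x ^ 2 := by
        rw [show ((x : ℝ) ^ 2) = ((x ^ 2 : ℕ) : ℝ) by push_cast; rfl, Nat.floor_natCast]
      rw [hfl]
      simp only [Finset.mem_filter, Finset.mem_range]
      exact ⟨by omega, hQp q hq1⟩
    have h5 : ∑ q ∈ Q.filter (fun q => ¬ q ≤ x ^ 2), 1 / (q : ℝ) ≤ 1 := by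
      calc ∑ q ∈ Q.filter (fun q => ¬ q ≤ x ^ 2), 1 / (q : ℝ)
          ≤ ∑ q ∈ Q.filter (fun q => ¬ q ≤ x ^ 2), 1 / (x : ℝ) ^ 2 := by
            refine Finset.sum_le_sum fun q hq => ?_
            have h6 := (Finset.mem_filter.mp hq).2
            have h7 : (x : ℝ) ^ 2 ≤ q := by
              have : x ^ 2 ≤ q := by omega
              exact_mod_cast this
            exact one_div_le_one_div_of_le hxpos h7
        _ = ((Q.filter (fun q => ¬ q ≤ x ^ 2)).card : ℝ) * (1 / (x : ℝ) ^ 2) := by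
            rw [Finset.sum_const, nsmul_eq_mul]
        _ ≤ (x : ℝ) ^ 2 * (1 / (x : ℝ) ^ 2) := by
            refine mul_le_mul_of_nonneg_right ?_ (by positivity)
            have h8 : (Q.filter (fun q => ¬ q ≤ x ^ 2)).card ≤ x ^ 2 :=
              (Finset.card_filter_le _ _).trans rsa_card
            exact_mod_cast h8
        _ = 1 := by field_simp
    have h6 := (abs_le.mp (hC0 ((x : ℝ) ^ 2) hx2)).2
    linarith
  have hlx : 0 < Real.log (x : ℝ) := Real.log_pos (by exact_mod_cast (by omega : 1 < x))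
  have hl2 : Real.log ((x : ℝ) ^ 2) = 2 * Real.log x := by
    rw [Real.log_pow]; norm_num
  calc ∑ d ∈ T, g4 d ≤ Real.exp (4 * ∑ q ∈ Q, 1 / (q : ℝ)) := h1.trans h2
    _ ≤ Real.exp (4 * (Real.log (Real.log ((x : ℝ) ^ 2)) + C0 + 1)) :=
        Real.exp_le_exp.mpr (by linarith)
    _ = Real.exp (Real.log (Real.log ((x : ℝ) ^ 2))) ^ 4 * Real.exp (4 * C0 + 4) := by
        rw [← Real.exp_nat_mul, ← Real.exp_add]
        congr 1
        push_cast
        ring
    _ = 16 * Real.exp (4 * C0 + 4) * Real.log x ^ 4 := by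
        rw [hl2, Real.exp_log (by positivity)]
        ring

end Pool.H53.NA

end S_NU_RsA

section S_NU_RsB

/-!
Row RsB: Romanoff's sum.

PROOF.  `t_d = orderOf (2 : ZMod d) ≥ 1` for odd `d` (`2` is a unit of the finite ring `ZMod d`).  Sort `T` by `k` with
`2^k ≤ t_d < 2^(k+1)` (`k = Nat.log 2 t_d`).  By `rom_small` (with `x = 2^(k+1) ≥ 2`)
`∑_{d ∈ T_k} g4 d/√t_d ≤ 2^(-k/2) C (log 2^(k+1))⁴ ≤ C (k+1)⁴ (1/√2)^k`.  The series `∑_k (k+1)⁴ (1/√2)^k` converges
(`summable_pow_mul_geometric_of_norm_lt_one`, shifted), so the total is bounded by a constant independent of `T`.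
-/


namespace Pool.H53.NA

theorem rsb_ord {d : ℕ} (hd : Odd d) : 1 ≤ orderOf (2 : ZMod d) := by
  have hc : Nat.Coprime 2 d := (Nat.coprime_two_left).mpr hd
  have hd0 : d ≠ 0 := by rintro rfl; simp at hd
  haveI : NeZero d := ⟨hd0⟩
  have h1 : ((ZMod.unitOfCoprime 2 hc : (ZMod d)ˣ) : ZMod d) = 2 := by
    rw [ZMod.coe_unitOfCoprime]; norm_num
  rw [← h1, orderOf_units]
  exact orderOf_pos _

theorem rsb_summable : Summable (fun k : ℕ => ((k : ℝ) + 1) ^ 4 * (1 / Real.sqrt 2) ^ k) := by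
  have h2 : 1 < Real.sqrt 2 := by
    rw [Real.lt_sqrt (by norm_num)]; norm_num
  have hr : ‖(1 / Real.sqrt 2 : ℝ)‖ < 1 := by
    rw [Real.norm_of_nonneg (by positivity), div_lt_one (by linarith)]
    exact h2
  have h := summable_pow_mul_geometric_of_norm_lt_one 4 hr
  have h1 := (summable_nat_add_iff 1).2 h
  have h3 := h1.mul_left (Real.sqrt 2)
  refine h3.congr fun k => ?_
  have h0 : Real.sqrt 2 ≠ 0 := by linarith
  push_cast
  rw [pow_succ (1 / Real.sqrt 2)]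
  field_simp

theorem rom_sum : ∃ C : ℝ, 0 < C ∧ ∀ T : Finset ℕ, (∀ d ∈ T, Squarefree d ∧ Odd d) →
    ∑ d ∈ T, g4 d / Real.sqrt (orderOf (2 : ZMod d)) ≤ C := by
  classical
  obtain ⟨C, hC, hrom⟩ := rom_small
  set a : ℕ → ℝ := fun k => C * (((k : ℝ) + 1) ^ 4 * (1 / Real.sqrt 2) ^ k) with ha
  have hsum : Summable a := rsb_summable.mul_left C
  have ha0 : ∀ k, 0 ≤ a k := fun k => by simp only [ha]; positivity
  refine ⟨∑' k, a k + 1, by have h00 : 0 ≤ ∑' k, a k := tsum_nonneg ha0; linarith, ?_⟩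
  intro T hT
  set κ : ℕ → ℕ := fun d => Nat.log 2 (orderOf (2 : ZMod d)) with hκ
  have h1 : ∑ d ∈ T, g4 d / Real.sqrt (orderOf (2 : ZMod d)) =
      ∑ k ∈ T.image κ, ∑ d ∈ T with κ d = k, g4 d / Real.sqrt (orderOf (2 : ZMod d)) :=
    (Finset.sum_fiberwise_of_maps_to (fun d hd => Finset.mem_image_of_mem κ hd) _).symm
  have h2 : ∀ k ∈ T.image κ, ∑ d ∈ T with κ d = k, g4 d / Real.sqrt (orderOf (2 : ZMod d)) ≤ a k := by
    intro k _
    have hs2 : 0 < Real.sqrt 2 := by positivity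
    have h3 : ∀ d ∈ T.filter (fun d => κ d = k), g4 d / Real.sqrt (orderOf (2 : ZMod d)) ≤
        g4 d * (1 / Real.sqrt 2) ^ k := by
      intro d hd
      obtain ⟨hdT, hdk⟩ := Finset.mem_filter.mp hd
      have hord := rsb_ord (hT d hdT).2
      have h4 : 2 ^ k ≤ orderOf (2 : ZMod d) := by
        rw [← hdk]
        exact Nat.pow_log_le_self 2 (by omega)
      have h5 : Real.sqrt 2 ^ k ≤ Real.sqrt (orderOf (2 : ZMod d)) := by
        apply Real.le_sqrt_of_sq_le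
        rw [← pow_mul, mul_comm, pow_mul, Real.sq_sqrt (by norm_num)]
        exact_mod_cast h4
      have hg : 0 ≤ g4 d := by
        unfold g4
        positivity
      rw [div_eq_mul_inv]
      apply mul_le_mul_of_nonneg_left _ hg
      rw [one_div, inv_pow]
      exact inv_anti₀ (by positivity) h5
    refine (Finset.sum_le_sum h3).trans ?_
    rw [← Finset.sum_mul]
    have h6 := hrom (2 ^ (k + 1)) (by
      calc 2 = 2 ^ 1 := by norm_num
        _ ≤ 2 ^ (k + 1) := Nat.pow_le_pow_right (by norm_num) (by omega)) (T.filter (fun d => κ d = k))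
      (by
        intro d hd
        obtain ⟨hdT, hdk⟩ := Finset.mem_filter.mp hd
        refine ⟨(hT d hdT).1, (hT d hdT).2, ?_⟩
        have : orderOf (2 : ZMod d) < 2 ^ (Nat.log 2 (orderOf (2 : ZMod d))).succ :=
          Nat.lt_pow_succ_log_self (by norm_num) _
        rw [← hdk]
        exact this.le)
    have h7 : Real.log ((2 ^ (k + 1) : ℕ) : ℝ) ≤ (k : ℝ) + 1 := by
      push_cast
      rw [Real.log_pow]
      push_cast
      have := Real.log_two_lt_d9
      nlinarith [(Nat.cast_nonneg k : (0 : ℝ) ≤ k)]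
    have h8 : 0 ≤ Real.log ((2 ^ (k + 1) : ℕ) : ℝ) := Real.log_natCast_nonneg _
    have h9 : Real.log ((2 ^ (k + 1) : ℕ) : ℝ) ^ 4 ≤ ((k : ℝ) + 1) ^ 4 := pow_le_pow_left₀ h8 h7 4
    calc (∑ d ∈ T with κ d = k, g4 d) * (1 / Real.sqrt 2) ^ k
        ≤ (C * ((k : ℝ) + 1) ^ 4) * (1 / Real.sqrt 2) ^ k := by
          apply mul_le_mul_of_nonneg_right _ (by positivity)
          exact h6.trans (mul_le_mul_of_nonneg_left h9 hC.le)
      _ = a k := by simp only [ha]; ring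
  rw [h1]
  calc _ ≤ ∑ k ∈ T.image κ, a k := Finset.sum_le_sum h2
    _ ≤ ∑' k, a k := hsum.sum_le_tsum _ (fun k _ => ha0 k)
    _ ≤ ∑' k, a k + 1 := by linarith

end Pool.H53.NA

end S_NU_RsB

section S_NU_Fdv

/-!
Row Fdv: the weight `FF` as a divisor sum.

PROOFS.
* `oddp_sq`: `oddp y` is squarefree and odd.
* `FF_le`: split the odd primes `p ∣ h` into `p ≤ y` and `p > y`.  There are at most `y` of the latter (`2^#{p ∣ h} ≤ h < 2^y`), so
  `∏_{p ∣ h, p > y} (1 + 4/p) ≤ (1 + 4/y)^y ≤ e⁴`.  The product over the set `Q` of the odd primes `p ∣ h`, `p ≤ y` is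
  `∑_{A ⊆ Q} ∏_{p ∈ A} 4/p = ∑_{d ∣ oddp y, d ∣ h} g4 d` (`Finset.prod_one_add`; `A ↦ ∏_{p ∈ A} p`).
* `g4_sum`: `∑_{d ∣ oddp y} g4 d = ∏_{3 ≤ p ≤ y} (1 + 4/p) ≤ exp(4 ∑_{p ≤ y} 1/p) ≤ C (log y)⁴` by `mert5` of
  `Pool.Agent.H75.EK.Mert` (namespace `EK75`).
-/


namespace Pool.H53.NA

lemma fdv_sqf (S : Finset ℕ) (hS : ∀ p ∈ S, p.Prime) : Squarefree (∏ p ∈ S, p) := by
  have hn : ∏ p ∈ S, p ≠ 0 := Finset.prod_ne_zero_iff.2 fun p hp ↦ (hS _ hp).ne_zero
  have h := Nat.primeFactors_prod hS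
  induction S using Finset.induction_on with
  | empty => simp
  | insert p S hp ih =>
    have hS' : ∀ q ∈ S, q.Prime := fun q hq => hS q (Finset.mem_insert_of_mem hq)
    have hp' : p.Prime := hS p (Finset.mem_insert_self _ _)
    have hn' : ∏ q ∈ S, q ≠ 0 := Finset.prod_ne_zero_iff.2 fun q hq ↦ (hS' _ hq).ne_zero
    rw [Finset.prod_insert hp]
    have hcop : Nat.Coprime p (∏ q ∈ S, q) := by
      refine Nat.Coprime.prod_right fun q hq => ?_
      refine (Nat.coprime_primes hp' (hS' q hq)).mpr ?_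
      rintro rfl
      exact hp hq
    exact (Nat.squarefree_mul hcop).mpr ⟨hp'.squarefree, ih hS' hn' (Nat.primeFactors_prod hS')⟩

lemma fdv_mem (y p : ℕ) (hp : p ∈ (Finset.Icc 3 y).filter Nat.Prime) : p.Prime :=
  (Finset.mem_filter.mp hp).2

lemma fdv_g4_nonneg (d : ℕ) : 0 ≤ g4 d := by
  unfold g4
  positivity

lemma fdv_sum (S : Finset ℕ) (hS : ∀ p ∈ S, p.Prime) :
    ∑ d ∈ (∏ p ∈ S, p).divisors, g4 d = ∏ p ∈ S, (1 + 4 / (p : ℝ)) := by
  have hn : ∏ p ∈ S, p ≠ 0 := Finset.prod_ne_zero_iff.2 fun p hp ↦ (hS _ hp).ne_zero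
  have hsq := fdv_sqf S hS
  rw [Finset.prod_one_add]
  symm
  refine Finset.sum_bij' (fun A _ => ∏ p ∈ A, p) (fun d _ => d.primeFactors) ?_ ?_ ?_ ?_ ?_
  · intro A hA
    rw [Nat.mem_divisors]
    exact ⟨Finset.prod_dvd_prod_of_subset _ _ _ (Finset.mem_powerset.mp hA), hn⟩
  · intro d hd
    rw [Finset.mem_powerset]
    have h1 := Nat.primeFactors_mono (Nat.dvd_of_mem_divisors hd) hn
    rwa [Nat.primeFactors_prod hS] at h1
  · intro A hA
    exact Nat.primeFactors_prod fun p hp => hS p (Finset.mem_powerset.mp hA hp)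
  · intro d hd
    exact Nat.prod_primeFactors_of_squarefree (hsq.squarefree_of_dvd (Nat.dvd_of_mem_divisors hd))
  · intro A hA
    unfold g4
    rw [Nat.primeFactors_prod fun p hp => hS p (Finset.mem_powerset.mp hA hp),
      Finset.prod_div_distrib, Finset.prod_const]
    push_cast
    rfl

lemma fdv_exp (S : Finset ℕ) : ∏ p ∈ S, (1 + 4 / (p : ℝ)) ≤ Real.exp (∑ p ∈ S, 4 / (p : ℝ)) := by
  rw [Real.exp_sum]
  refine Finset.prod_le_prod (fun p _ => by positivity) fun p _ => ?_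
  have := Real.add_one_le_exp (4 / (p : ℝ))
  linarith

theorem oddp_sq (y d : ℕ) (hd : d ∈ (oddp y).divisors) : Squarefree d ∧ Odd d := by
  have hdv := Nat.dvd_of_mem_divisors hd
  refine ⟨(fdv_sqf _ (fdv_mem y)).squarefree_of_dvd hdv, ?_⟩
  rw [← Nat.not_even_iff_odd]
  intro he
  have h2 : 2 ∣ oddp y := (even_iff_two_dvd.mp he).trans hdv
  unfold oddp at h2
  rw [Nat.prime_two.prime.dvd_finsetProd_iff] at h2
  obtain ⟨p, hp, h2p⟩ := h2
  have hp' := Finset.mem_filter.mp hp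
  have h3 := (Nat.prime_dvd_prime_iff_eq Nat.prime_two hp'.2).mp h2p
  have h4 := (Finset.mem_Icc.mp hp'.1).1
  omega

theorem FF_le (y h : ℕ) (hy : 1 ≤ y) (hh : 0 < h) (hlt : h < 2 ^ y) :
    FF h ≤ Real.exp 4 * ∑ d ∈ (oddp y).divisors.filter (fun d => d ∣ h), g4 d := by
  set T : Finset ℕ := h.primeFactors.filter (fun p => p ≠ 2) with hT
  set Q : Finset ℕ := T.filter (fun p => p ≤ y) with hQ
  set B : Finset ℕ := T.filter (fun p => ¬ p ≤ y) with hB
  have hTp : ∀ p ∈ T, p.Prime ∧ p ∣ h ∧ p ≠ 2 := by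
    intro p hp
    rw [hT, Finset.mem_filter, Nat.mem_primeFactors] at hp
    exact ⟨hp.1.1, hp.1.2.1, hp.2⟩
  have hQp : ∀ p ∈ Q, p.Prime := fun p hp => (hTp p (Finset.mem_filter.mp hp).1).1
  have hBp : ∀ p ∈ B, p.Prime := fun p hp => (hTp p (Finset.mem_filter.mp hp).1).1
  have hsplit : FF h = (∏ p ∈ B, (1 + 4 / (p : ℝ))) * ∏ p ∈ Q, (1 + 4 / (p : ℝ)) := by
    unfold FF
    rw [← hT, mul_comm, hQ, hB, Finset.prod_filter_mul_prod_filter_not]
  -- the big primes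
  have hBd : (∏ p ∈ B, p) ∣ h := by
    refine (Finset.prod_dvd_prod_of_subset B h.primeFactors _ ?_).trans (Nat.prod_primeFactors_dvd h)
    exact (Finset.filter_subset _ _).trans (Finset.filter_subset _ _)
  have hBc : B.card ≤ y := by
    have h1 : 2 ^ B.card ≤ ∏ p ∈ B, p := by
      rw [← Finset.prod_const]
      exact Finset.prod_le_prod' fun p hp => (hBp p hp).two_le
    have h2 : 2 ^ B.card < 2 ^ y := (h1.trans (Nat.le_of_dvd hh hBd)).trans_lt hlt
    exact ((Nat.pow_lt_pow_iff_right (by norm_num)).mp h2).le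
  have hy0 : (0 : ℝ) < y := by exact_mod_cast hy
  have hBle : ∏ p ∈ B, (1 + 4 / (p : ℝ)) ≤ Real.exp 4 := by
    refine (fdv_exp B).trans (Real.exp_le_exp.mpr ?_)
    have h1 : ∑ p ∈ B, 4 / (p : ℝ) ≤ ∑ p ∈ B, 4 / (y : ℝ) := by
      refine Finset.sum_le_sum fun p hp => ?_
      have h2 : (y : ℝ) ≤ p := by
        have := (Finset.mem_filter.mp hp).2
        have h3 : y ≤ p := by omega
        exact_mod_cast h3
      exact div_le_div_of_nonneg_left (by norm_num) hy0 h2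
    rw [Finset.sum_const, nsmul_eq_mul] at h1
    have h4 : (B.card : ℝ) * (4 / y) ≤ y * (4 / y) := by
      refine mul_le_mul_of_nonneg_right ?_ (by positivity)
      exact_mod_cast hBc
    have h5 : (y : ℝ) * (4 / y) = 4 := by field_simp
    linarith
  -- the small primes
  have hQ1 : (∏ p ∈ Q, p) ∣ h := by
    refine (Finset.prod_dvd_prod_of_subset Q h.primeFactors _ ?_).trans (Nat.prod_primeFactors_dvd h)
    exact (Finset.filter_subset _ _).trans (Finset.filter_subset _ _)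
  have hQ2 : (∏ p ∈ Q, p) ∣ oddp y := by
    unfold oddp
    refine Finset.prod_dvd_prod_of_subset _ _ _ ?_
    intro p hp
    have h1 := Finset.mem_filter.mp hp
    have h2 := hTp p h1.1
    rw [Finset.mem_filter, Finset.mem_Icc]
    have h3 := h2.1.two_le
    have h4 := h2.2.2
    have h5 := h1.2
    exact ⟨⟨by omega, by omega⟩, h2.1⟩
  have hodd0 : oddp y ≠ 0 := (fdv_sqf _ (fdv_mem y)).ne_zero
  have hQle : ∏ p ∈ Q, (1 + 4 / (p : ℝ)) ≤
      ∑ d ∈ (oddp y).divisors.filter (fun d => d ∣ h), g4 d := by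
    rw [← fdv_sum Q hQp]
    refine Finset.sum_le_sum_of_subset_of_nonneg ?_ fun d _ _ => fdv_g4_nonneg d
    intro d hd
    have h1 := Nat.dvd_of_mem_divisors hd
    rw [Finset.mem_filter, Nat.mem_divisors]
    exact ⟨⟨h1.trans hQ2, hodd0⟩, h1.trans hQ1⟩
  rw [hsplit]
  exact mul_le_mul hBle hQle (Finset.prod_nonneg fun p _ => by positivity) (Real.exp_pos 4).le

theorem g4_sum : ∃ C : ℝ, 0 < C ∧ ∀ y : ℕ, 2 ≤ y →
    ∑ d ∈ (oddp y).divisors, g4 d ≤ C * (Real.log y) ^ 4 := by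
  obtain ⟨C, hC⟩ := EK75.mert5
  refine ⟨Real.exp (4 * C), Real.exp_pos _, fun y hy => ?_⟩
  have hy2 : (2 : ℝ) ≤ y := by exact_mod_cast hy
  have hlog : 0 < Real.log y := Real.log_pos (by linarith)
  have h1 := hC y hy2
  have h2 : ∑ p ∈ (Finset.Icc 3 y).filter Nat.Prime, 4 / (p : ℝ) ≤
      4 * ∑ p ∈ EK75.prLe y, (1 : ℝ) / p := by
    rw [Finset.mul_sum]
    have h3 : ∀ p : ℕ, 4 * ((1 : ℝ) / p) = 4 / p := fun p => by ring
    simp only [h3]
    refine Finset.sum_le_sum_of_subset_of_nonneg ?_ fun p _ _ => by positivity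
    intro p hp
    rw [Finset.mem_filter, Finset.mem_Icc] at hp
    unfold EK75.prLe
    rw [Finset.mem_filter, Finset.mem_range, Nat.floor_natCast]
    exact ⟨by omega, hp.2⟩
  unfold oddp
  rw [fdv_sum _ (fdv_mem y)]
  refine (fdv_exp _).trans ?_
  have h4 := (abs_le.mp h1).2
  have h5 : ∑ p ∈ (Finset.Icc 3 y).filter Nat.Prime, 4 / (p : ℝ) ≤
      4 * C + 4 * Real.log (Real.log y) := by linarith
  refine (Real.exp_le_exp.mpr h5).trans ?_
  rw [Real.exp_add]
  refine mul_le_mul_of_nonneg_left ?_ (Real.exp_pos _).le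
  have h6 : Real.exp (4 * Real.log (Real.log y)) = Real.log y ^ 4 := by
    rw [show (4 : ℝ) * Real.log (Real.log y) = Real.log (Real.log y) * ((4 : ℕ) : ℝ) by push_cast; ring,
      Real.exp_mul, Real.exp_log hlog, Real.rpow_natCast]
  exact h6.le

end Pool.H53.NA

end S_NU_Fdv

section S_NU_Avb

/-!
Row Avb: the average of `FF` over the differences.

PROOFS.  `inner_bound`: `y = J + 2`, `h = AA D i' j' - A > 0`, `h ≤ 2^j' + 2^(D i') ≤ 2^(J+1) < 2^y`.  By `FF_le`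
`∑_{j'} w j' [A < AA D i' j'] FF h ≤ e⁴ ∑_{d ∣ oddp y} g4 d ∑_{j' : d ∣ h, A < AA D i' j'} w j'`.  For fixed `d` (odd) all these `j'` are congruent
modulo `t_d = orderOf (2 : ZMod d)`: `2^j' = A - 2^(D i')` in `ZMod d`, and `2^a = 2^b` in `ZMod d` implies `a ≡ b mod t_d` (`2` is a
unit; `pow_eq_pow_iff_modEq`).  So by `wd_bound` (if there is such a `j'` take `x = j'`)
the inner sum is `≤ 2J/√t_d + [t_d D > J] ow D (J/t_d + 1)`.  Sum over `d` with `rom_sum`, `g4_sum`: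
`∑ g4 d/√t_d ≤ C1`; `∑_{t_d > J/D} g4 d/t_d ≤ √(D/J) ∑ g4 d/√t_d ≤ √(D/J) C1`; `∑ g4 d ≤ C2 (log (J+2))⁴`.  Total
`≤ e⁴ (2 J C1 + ow D √(D J) C1 + ow D C2 (log (J+2))⁴) ≤ e⁴ (2 C1 + 1) J` for `J ≥ J0(D)` (`w` enters only through `ow D`).
`av_bound`: sum `inner_bound` over `i', i, j` with `∑_j w j ≤ 2J` (`mass_upper`).
-/


namespace Pool.H53.NA

theorem avb_asym (a b : ℝ) : ∃ J0 : ℕ, ∀ J : ℕ, J0 ≤ J →
    a * Real.sqrt J + b * (Real.log ((J + 2 : ℕ) : ℝ)) ^ 4 ≤ J := by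
  have h2 : (fun J : ℕ => b * (Real.log ((J + 2 : ℕ) : ℝ)) ^ 4) =o[Filter.atTop]
      (fun J : ℕ => (J : ℝ)) := by
    have h3 : (fun J : ℕ => (Real.log ((J + 2 : ℕ) : ℝ)) ^ 4) =o[Filter.atTop]
        (fun J : ℕ => ((J + 2 : ℕ) : ℝ)) := by
      have h4 := Real.isLittleO_pow_log_id_atTop (n := 4)
      have h5 : Filter.Tendsto (fun J : ℕ => ((J + 2 : ℕ) : ℝ)) Filter.atTop Filter.atTop :=
        tendsto_natCast_atTop_atTop.comp (Filter.tendsto_add_atTop_nat 2)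
      exact h4.comp_tendsto h5
    have h6 : (fun J : ℕ => ((J + 2 : ℕ) : ℝ)) =O[Filter.atTop] (fun J : ℕ => (J : ℝ)) := by
      refine Asymptotics.IsBigO.of_bound 3 ?_
      filter_upwards [Filter.eventually_ge_atTop 1] with J hJ
      have hJ' : (1 : ℝ) ≤ J := by exact_mod_cast hJ
      rw [Real.norm_of_nonneg (by positivity), Real.norm_of_nonneg (by positivity)]
      push_cast
      linarith
    exact (h3.trans_isBigO h6).const_mul_left b
  have h7 := h2.bound (show (0 : ℝ) < 1 / 2 by norm_num)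
  obtain ⟨J0, hJ0⟩ := Filter.eventually_atTop.1 h7
  refine ⟨max J0 (⌈4 * a ^ 2⌉₊), fun J hJ => ?_⟩
  have h8 := hJ0 J ((le_max_left _ _).trans hJ)
  rw [Real.norm_of_nonneg (show (0 : ℝ) ≤ (J : ℝ) by positivity)] at h8
  have h9 : 4 * a ^ 2 ≤ J := (Nat.le_ceil _).trans (by exact_mod_cast (le_max_right _ _).trans hJ)
  have h10 : 2 * a ≤ Real.sqrt J := by
    refine (le_abs_self _).trans (Real.abs_le_sqrt ?_)
    nlinarith
  have h11 : a * Real.sqrt J ≤ 1 / 2 * J := by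
    have h12 : (J : ℝ) = Real.sqrt J * Real.sqrt J := (Real.mul_self_sqrt (by positivity)).symm
    have h13 := mul_le_mul_of_nonneg_right h10 (Real.sqrt_nonneg (J : ℝ))
    nlinarith
  have h14 := (le_abs_self _).trans h8
  linarith

theorem avb_modeq (d a b : ℕ) (hd : Odd d) (hab : (2 : ZMod d) ^ a = 2 ^ b) :
    a ≡ b [MOD orderOf (2 : ZMod d)] := by
  have hc : Nat.Coprime 2 d := hd.coprime_two_left
  have hu : ((ZMod.unitOfCoprime 2 hc : (ZMod d)ˣ) : ZMod d) = 2 := by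
    rw [ZMod.coe_unitOfCoprime]; norm_cast
  have h1 : (ZMod.unitOfCoprime 2 hc) ^ a = (ZMod.unitOfCoprime 2 hc) ^ b := by
    apply Units.ext
    rw [Units.val_pow_eq_pow_val, Units.val_pow_eq_pow_val, hu, hab]
  have h2 := pow_eq_pow_iff_modEq.1 h1
  rwa [← orderOf_units, hu] at h2

theorem avb_ord_pos (d : ℕ) (hd : Odd d) : 0 < orderOf (2 : ZMod d) := by
  have hc : Nat.Coprime 2 d := hd.coprime_two_left
  have hu : ((ZMod.unitOfCoprime 2 hc : (ZMod d)ˣ) : ZMod d) = 2 := by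
    rw [ZMod.coe_unitOfCoprime]; norm_cast
  have : NeZero d := ⟨by rintro rfl; exact absurd hd (by decide)⟩
  rw [← hu, orderOf_units]
  exact orderOf_pos _

theorem avb_class (D J : ℕ) (hD : 0 < D) (w : ℕ → ℝ) (hw : WT D w) (A i' d : ℕ) (hd : Odd d) :
    ∑ j' ∈ Finset.Icc 1 J, (if A < AA D i' j' ∧ d ∣ AA D i' j' - A then w j' else 0)
      ≤ 2 * J / Real.sqrt (orderOf (2 : ZMod d))
        + (if orderOf (2 : ZMod d) * D ≤ J then 0 else ow D * ((J : ℝ) / orderOf (2 : ZMod d) + 1)) := by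
  have hpos := avb_ord_pos d hd
  by_cases hex : ∃ x, A < AA D i' x ∧ d ∣ AA D i' x - A
  · obtain ⟨x, hx1, hx2⟩ := hex
    refine le_trans ?_ (wd_bound D (orderOf (2 : ZMod d)) J hD hpos w hw x)
    rw [Finset.sum_filter]
    refine Finset.sum_le_sum fun j' _ => ?_
    by_cases hj : A < AA D i' j' ∧ d ∣ AA D i' j' - A
    · rw [if_pos hj, if_pos]
      apply avb_modeq d j' x hd
      have h1 : (((AA D i' j' - A : ℕ) : ℤ) : ZMod d) = 0 := by
        have := (ZMod.natCast_eq_zero_iff (AA D i' j' - A) d).2 hj.2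
        exact_mod_cast this
      have h2 : (((AA D i' x - A : ℕ) : ℤ) : ZMod d) = 0 := by
        have := (ZMod.natCast_eq_zero_iff (AA D i' x - A) d).2 hx2
        exact_mod_cast this
      rw [Nat.cast_sub hj.1.le] at h1
      rw [Nat.cast_sub hx1.le] at h2
      unfold AA at h1 h2
      push_cast at h1 h2
      linear_combination h1 - h2
    · rw [if_neg hj]
      split_ifs
      · exact hw.nn j'
      · exact le_refl _
  · have h0 : ∑ j' ∈ Finset.Icc 1 J, (if A < AA D i' j' ∧ d ∣ AA D i' j' - A then w j' else 0) = 0 := by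
      refine Finset.sum_eq_zero fun j' _ => if_neg fun h => hex ⟨j', h⟩
    rw [h0]
    have how : 0 ≤ ow D := by unfold ow; positivity
    refine add_nonneg (by positivity) ?_
    split_ifs
    · exact le_refl _
    · positivity

theorem inner_bound : ∃ C : ℝ, 0 < C ∧ ∀ D : ℕ, 0 < D → ∃ J0 : ℕ, D ≤ J0 ∧ ∀ J : ℕ, J0 ≤ J →
    ∀ w : ℕ → ℝ, WT D w → ∀ A i' : ℕ, D * i' ≤ J →
    ∑ j' ∈ Finset.Icc 1 J, (if A < AA D i' j' then w j' * FF (AA D i' j' - A) else 0) ≤ C * J := by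
  obtain ⟨C1, hC1, hrom⟩ := rom_sum
  obtain ⟨C2, hC2, hg4⟩ := g4_sum
  refine ⟨Real.exp 4 * (2 * C1 + 1), by positivity, ?_⟩
  intro D hD
  have how : 0 ≤ ow D := by unfold ow; positivity
  obtain ⟨J1, hJ1⟩ := avb_asym (ow D * Real.sqrt D * C1) (ow D * C2)
  refine ⟨max D J1, le_max_left _ _, ?_⟩
  intro J hJ w hw A i' hi
  have hJD : D ≤ J := (le_max_left _ _).trans hJ
  have hJ2 := hJ1 J ((le_max_right _ _).trans hJ)
  have hJpos : (0 : ℝ) < J := by exact_mod_cast (by omega : 0 < J)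
  have hgnn : ∀ d, 0 ≤ g4 d := fun d => by unfold g4; positivity
  set S := (oddp (J + 2)).divisors with hS
  -- step 1
  have hstep1 : ∑ j' ∈ Finset.Icc 1 J, (if A < AA D i' j' then w j' * FF (AA D i' j' - A) else 0)
      ≤ ∑ j' ∈ Finset.Icc 1 J, ∑ d ∈ S, Real.exp 4 * (g4 d *
        (if A < AA D i' j' ∧ d ∣ AA D i' j' - A then w j' else 0)) := by
    refine Finset.sum_le_sum fun j' hj' => ?_
    rw [Finset.mem_Icc] at hj'
    by_cases hA : A < AA D i' j'
    · rw [if_pos hA]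
      have hlt : AA D i' j' - A < 2 ^ (J + 2) := by
        unfold AA
        have h1 : 2 ^ j' ≤ 2 ^ J := Nat.pow_le_pow_right (by norm_num) hj'.2
        have h2 : 2 ^ (D * i') ≤ 2 ^ J := Nat.pow_le_pow_right (by norm_num) hi
        have h3 : 2 ^ (J + 2) = 4 * 2 ^ J := by ring
        have h4 : 0 < 2 ^ J := by positivity
        omega
      have h5 := FF_le (J + 2) (AA D i' j' - A) (by omega) (by omega) hlt
      rw [Finset.sum_filter] at h5
      calc w j' * FF (AA D i' j' - A)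
          ≤ w j' * (Real.exp 4 * ∑ d ∈ S, if d ∣ AA D i' j' - A then g4 d else 0) :=
            mul_le_mul_of_nonneg_left h5 (hw.nn j')
        _ = ∑ d ∈ S, Real.exp 4 * (g4 d *
              (if A < AA D i' j' ∧ d ∣ AA D i' j' - A then w j' else 0)) := by
            rw [Finset.mul_sum, Finset.mul_sum]
            refine Finset.sum_congr rfl fun d _ => ?_
            by_cases hdv : d ∣ AA D i' j' - A
            · rw [if_pos hdv, if_pos ⟨hA, hdv⟩]; ring
            · rw [if_neg hdv, if_neg (fun h => hdv h.2)]; ring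
    · rw [if_neg hA]
      refine Finset.sum_nonneg fun d _ => ?_
      rw [if_neg (fun h => hA h.1)]
      simp
  refine hstep1.trans ?_
  rw [Finset.sum_comm]
  have hstep2 : ∀ d ∈ S, ∑ j' ∈ Finset.Icc 1 J, Real.exp 4 * (g4 d *
        (if A < AA D i' j' ∧ d ∣ AA D i' j' - A then w j' else 0))
      ≤ Real.exp 4 * ((2 * J + ow D * Real.sqrt D * Real.sqrt J) * (g4 d / Real.sqrt (orderOf (2 : ZMod d)))
        + ow D * g4 d) := by
    intro d hd
    have hodd := (oddp_sq (J + 2) d hd).2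
    have hpos := avb_ord_pos d hodd
    rw [← Finset.mul_sum, ← Finset.mul_sum]
    refine mul_le_mul_of_nonneg_left ?_ (Real.exp_pos _).le
    have h1 := avb_class D J hD w hw A i' d hodd
    set t := orderOf (2 : ZMod d) with ht
    have htpos : (0 : ℝ) < t := by exact_mod_cast hpos
    have hst : 0 < Real.sqrt t := Real.sqrt_pos.2 htpos
    have h2 : (if t * D ≤ J then (0 : ℝ) else ow D * ((J : ℝ) / t + 1))
        ≤ ow D * (Real.sqrt D * Real.sqrt J / Real.sqrt t + 1) := by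
      split_ifs with hc
      · positivity
      · refine mul_le_mul_of_nonneg_left ?_ how
        have h3 : (J : ℝ) ≤ t * D := by
          have : J ≤ t * D := by omega
          exact_mod_cast this
        have h4 : (J : ℝ) / t ≤ Real.sqrt D * Real.sqrt J / Real.sqrt t := by
          rw [div_le_div_iff₀ htpos hst]
          have h5 : Real.sqrt J ≤ Real.sqrt t * Real.sqrt D := by
            rw [← Real.sqrt_mul htpos.le]
            exact Real.sqrt_le_sqrt h3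
          have h6 : (J : ℝ) = Real.sqrt J * Real.sqrt J := (Real.mul_self_sqrt hJpos.le).symm
          have h7 : (t : ℝ) = Real.sqrt t * Real.sqrt t := (Real.mul_self_sqrt htpos.le).symm
          calc (J : ℝ) * Real.sqrt t = Real.sqrt J * Real.sqrt t * Real.sqrt J := by
                nth_rw 1 [h6]; ring
            _ ≤ Real.sqrt J * Real.sqrt t * (Real.sqrt t * Real.sqrt D) :=
                mul_le_mul_of_nonneg_left h5 (by positivity)
            _ = Real.sqrt D * Real.sqrt J * (Real.sqrt t * Real.sqrt t) := by ring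
            _ = Real.sqrt D * Real.sqrt J * t := by rw [← h7]
        linarith
    calc g4 d * ∑ j' ∈ Finset.Icc 1 J, (if A < AA D i' j' ∧ d ∣ AA D i' j' - A then w j' else 0)
        ≤ g4 d * (2 * J / Real.sqrt t + ow D * (Real.sqrt D * Real.sqrt J / Real.sqrt t + 1)) := by
          refine mul_le_mul_of_nonneg_left ?_ (hgnn d)
          linarith
      _ = (2 * J + ow D * Real.sqrt D * Real.sqrt J) * (g4 d / Real.sqrt t) + ow D * g4 d := by
          field_simp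
          ring
  refine (Finset.sum_le_sum hstep2).trans ?_
  rw [← Finset.mul_sum, Finset.sum_add_distrib, ← Finset.mul_sum, ← Finset.mul_sum,
    mul_assoc (Real.exp 4)]
  refine mul_le_mul_of_nonneg_left ?_ (Real.exp_pos _).le
  have h1 := hrom S (fun d hd => oddp_sq (J + 2) d hd)
  have h2 := hg4 (J + 2) (by omega)
  have h3 : (2 * J + ow D * Real.sqrt D * Real.sqrt J) * ∑ d ∈ S, g4 d / Real.sqrt (orderOf (2 : ZMod d))
      ≤ (2 * J + ow D * Real.sqrt D * Real.sqrt J) * C1 :=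
    mul_le_mul_of_nonneg_left h1 (by positivity)
  have h4 : ow D * ∑ d ∈ S, g4 d ≤ ow D * (C2 * (Real.log ((J + 2 : ℕ) : ℝ)) ^ 4) :=
    mul_le_mul_of_nonneg_left h2 how
  calc (2 * J + ow D * Real.sqrt D * Real.sqrt J) * ∑ d ∈ S, g4 d / Real.sqrt (orderOf (2 : ZMod d))
        + ow D * ∑ d ∈ S, g4 d
      ≤ (2 * J + ow D * Real.sqrt D * Real.sqrt J) * C1
        + ow D * (C2 * (Real.log ((J + 2 : ℕ) : ℝ)) ^ 4) := add_le_add h3 h4
    _ = 2 * C1 * J + (ow D * Real.sqrt D * C1 * Real.sqrt J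
        + ow D * C2 * (Real.log ((J + 2 : ℕ) : ℝ)) ^ 4) := by ring
    _ ≤ 2 * C1 * J + J := by linarith
    _ = (2 * C1 + 1) * J := by ring

theorem av_bound : ∃ C : ℝ, 0 < C ∧ ∀ D : ℕ, 0 < D → ∃ J0 : ℕ, D ≤ J0 ∧ ∀ J : ℕ, J0 ≤ J →
    ∀ w : ℕ → ℝ, WT D w → ∀ I : ℕ, D * I ≤ J →
    ∑ x ∈ Finset.Icc 1 I ×ˢ Finset.Icc 1 J, ∑ x' ∈ Finset.Icc 1 I ×ˢ Finset.Icc 1 J,
      (if AA D x.1 x.2 < AA D x'.1 x'.2 then w x.2 * w x'.2 * FF (AA D x'.1 x'.2 - AA D x.1 x.2) else 0)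
      ≤ C * (I : ℝ) ^ 2 * (J : ℝ) ^ 2 := by
  obtain ⟨C, hC, hin⟩ := inner_bound
  refine ⟨2 * C, by positivity, ?_⟩
  intro D hD
  obtain ⟨J0, hDJ, hJ0⟩ := hin D hD
  refine ⟨J0, hDJ, ?_⟩
  intro J hJ w hw I hI
  have hmu := mass_upper D J hD w hw (hDJ.trans hJ)
  have h1 : ∀ x ∈ Finset.Icc 1 I ×ˢ Finset.Icc 1 J,
      ∑ x' ∈ Finset.Icc 1 I ×ˢ Finset.Icc 1 J,
        (if AA D x.1 x.2 < AA D x'.1 x'.2 then w x.2 * w x'.2 * FF (AA D x'.1 x'.2 - AA D x.1 x.2) else 0)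
      ≤ w x.2 * (C * I * J) := by
    intro x _
    rw [Finset.sum_product]
    have h2 : ∀ i' ∈ Finset.Icc 1 I, ∑ j' ∈ Finset.Icc 1 J,
        (if AA D x.1 x.2 < AA D i' j' then w x.2 * w j' * FF (AA D i' j' - AA D x.1 x.2) else 0)
        ≤ w x.2 * (C * J) := by
      intro i' hi'
      rw [Finset.mem_Icc] at hi'
      have h3 := hJ0 J hJ w hw (AA D x.1 x.2) i' ((Nat.mul_le_mul_left D hi'.2).trans hI)
      have h4 := mul_le_mul_of_nonneg_left h3 (hw.nn x.2)
      rw [Finset.mul_sum] at h4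
      refine le_trans (le_of_eq ?_) h4
      refine Finset.sum_congr rfl fun j' _ => ?_
      split_ifs
      · ring
      · ring
    refine (Finset.sum_le_sum h2).trans (le_of_eq ?_)
    rw [Finset.sum_const, Nat.card_Icc, nsmul_eq_mul]
    simp
    ring
  refine (Finset.sum_le_sum h1).trans ?_
  rw [← Finset.sum_mul, Finset.sum_product]
  simp only [Finset.sum_const, Nat.card_Icc, nsmul_eq_mul, Nat.add_sub_cancel]
  calc (I : ℝ) * (∑ j ∈ Finset.Icc 1 J, w j) * (C * I * J)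
      ≤ (I : ℝ) * (2 * J) * (C * I * J) := by
        refine mul_le_mul_of_nonneg_right (mul_le_mul_of_nonneg_left hmu (by positivity)) (by positivity)
    _ = 2 * C * (I : ℝ) ^ 2 * (J : ℝ) ^ 2 := by ring

end Pool.H53.NA

end S_NU_Avb
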