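import Mathlib
import Pool.Agent.H53.NM.M7
import Pool.Agent.H53.NM.M8

set_option autoImplicit false

/-! Sums of a prime and powers of two, part M9: this file joins several modules to save build time. -/

section S_NU_FinU

/-!
Romanoff's theorem in all residue classes, uniformly (assembly).
-/


namespace Pool.H53.NA

open Pool.Agent.H17

theorem Cb_totient (B : ℕ) (hB : 0 < B) : Cb B * (Nat.totient B : ℝ) = B := by
  have h1 : (Nat.totient B : ℝ) = B * ∏ p ∈ B.primeFactors, (1 - ((p : ℝ))⁻¹) := by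
    have := Nat.totient_eq_mul_prod_factors B
    have h2 : (((Nat.totient B : ℚ)) : ℝ) = ((B * ∏ p ∈ B.primeFactors, (1 - ((p : ℚ))⁻¹) : ℚ) : ℝ) := by
      rw [this]
    push_cast at h2
    exact h2
  rw [h1]
  unfold Cb
  rw [mul_comm (B : ℝ), ← mul_assoc, ← Finset.prod_mul_distrib]
  have h3 : ∀ p ∈ B.primeFactors, (1 + 1 / ((p : ℝ) - 1)) * (1 - ((p : ℝ))⁻¹) = 1 := by
    intro p hp
    have h2 : (1 : ℝ) < p := by exact_mod_cast (Nat.prime_of_mem_primeFactors hp).one_lt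
    have h4 : (p : ℝ) - 1 ≠ 0 := by linarith
    have h5 : (p : ℝ) ≠ 0 := by linarith
    field_simp
    ring
  rw [Finset.prod_congr rfl h3, Finset.prod_const_one, one_mul]

/-- the class of the prime -/
theorem class_shift (B T a p : ℕ) (hB : 0 < B) :
    p + T ≡ a [MOD B] ↔ p ≡ a + T * (B - 1) [MOD B] := by
  have h1 : a + T * (B - 1) + T ≡ a [MOD B] := by
    have : a + T * (B - 1) + T = a + T * B := by
      obtain ⟨b, rfl⟩ : ∃ b, B = b + 1 := ⟨B - 1, by omega⟩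
      simp only [Nat.add_sub_cancel]
      ring
    rw [this]
    unfold Nat.ModEq
    rw [Nat.add_mul_mod_self_right]
  constructor
  · intro h
    exact Nat.ModEq.add_right_cancel' T (h.trans h1.symm)
  · intro h
    exact (h.add_right T).trans h1

theorem class_coprime (B S T a D i j : ℕ) (hB : 0 < B) (h2 : 2 ∣ B) (ha : Odd a)
    (hT : T = S + AA D i j) (hS : Even S) (hj : 1 ≤ j) (hDi : 1 ≤ D * i)
    (hq : ∀ q ∈ B.primeFactors.erase 2, ((a : ZMod q) - S - 2 ^ j - 2 ^ (D * i)) ≠ 0) :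
    (a + T * (B - 1)).Coprime B := by
  have hTe : Even T := by
    rw [hT]
    apply hS.add
    unfold AA
    apply Even.add
    · exact (even_two).pow_of_ne_zero (by omega)
    · exact (even_two).pow_of_ne_zero (by omega)
  apply Nat.Coprime.symm
  rw [Nat.coprime_iff_gcd_eq_one]
  by_contra hg
  obtain ⟨q, hq1, hq2⟩ := Nat.exists_prime_and_dvd hg
  have hqB : q ∣ B := hq2.trans (Nat.gcd_dvd_left _ _)
  have hqc : q ∣ a + T * (B - 1) := hq2.trans (Nat.gcd_dvd_right _ _)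
  by_cases hq22 : q = 2
  · subst hq22
    have : Odd (a + T * (B - 1)) := ha.add_even (hTe.mul_right _)
    exact (Nat.not_even_iff_odd.mpr this) (even_iff_two_dvd.mpr hqc)
  · have hmem : q ∈ B.primeFactors.erase 2 := by
      rw [Finset.mem_erase, Nat.mem_primeFactors]
      exact ⟨hq22, hq1, hqB, by omega⟩
    apply hq q hmem
    have h0 : ((a + T * (B - 1) : ℕ) : ZMod q) = 0 := (ZMod.natCast_eq_zero_iff _ _).mpr hqc
    have hB0 : ((B : ℕ) : ZMod q) = 0 := (ZMod.natCast_eq_zero_iff _ _).mpr hqB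
    have hB1 : (((B - 1 : ℕ)) : ZMod q) = -1 := by
      rw [Nat.cast_sub (by omega), hB0]
      simp
    push_cast at h0
    rw [hB1, hT] at h0
    unfold AA at h0
    push_cast at h0
    linear_combination h0

theorem core_num (c Cp Ca B φ Y L I J owD M1 M2 N : ℝ) (hc : 0 < c) (hCp : 0 < Cp) (hCa : 0 < Ca)
    (hφ : 0 < φ) (hφB : φ ≤ B) (hY : 0 < Y) (hL : 0 < L) (hI : 0 < I) (hJ : L ≤ J) (how : 0 ≤ owD)
    (hI2 : 4 * owD ≤ Cp * Ca * I)
    (h1 : Y / (2 * φ * L) * (I * (c * J / 2)) ≤ M1)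
    (h2 : M2 ≤ 2 * Y / (φ * L) * (4 * owD * I * J) +
      2 * (Cp * (B / φ) ^ 2 * (Y / B) / L ^ 2) * (Ca * I ^ 2 * J ^ 2))
    (h3 : M1 ^ 2 ≤ N * M2) (hN : 0 ≤ N) : c ^ 2 / (64 * Cp * Ca) * (Y / B) ≤ N := by
  have hB : 0 < B := lt_of_lt_of_le hφ hφB
  have hJ0 : 0 < J := lt_of_lt_of_le hL hJ
  have e1 : 2 * Y / (φ * L) * (4 * owD * I * J) ≤ 2 * Cp * Ca * B * Y * I ^ 2 * J ^ 2 / (φ ^ 2 * L ^ 2) := by
    rw [div_mul_eq_mul_div, div_le_div_iff₀ (by positivity) (by positivity)]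
    have h4 : 4 * owD * L * φ ≤ Cp * Ca * I * J * B := by
      calc 4 * owD * L * φ ≤ (Cp * Ca * I) * J * B := by gcongr
        _ = _ := by ring
    calc 2 * Y * (4 * owD * I * J) * (φ ^ 2 * L ^ 2)
        = (2 * Y * I * J * φ * L) * (4 * owD * L * φ) := by ring
      _ ≤ (2 * Y * I * J * φ * L) * (Cp * Ca * I * J * B) := by gcongr
      _ = 2 * Cp * Ca * B * Y * I ^ 2 * J ^ 2 * (φ * L) := by ring
  have e2 : 2 * (Cp * (B / φ) ^ 2 * (Y / B) / L ^ 2) * (Ca * I ^ 2 * J ^ 2)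
      = 2 * Cp * Ca * B * Y * I ^ 2 * J ^ 2 / (φ ^ 2 * L ^ 2) := by
    field_simp
  have e3 : M2 ≤ 4 * Cp * Ca * B * Y * I ^ 2 * J ^ 2 / (φ ^ 2 * L ^ 2) := by
    rw [e2] at h2
    calc M2 ≤ _ := h2
      _ ≤ 2 * Cp * Ca * B * Y * I ^ 2 * J ^ 2 / (φ ^ 2 * L ^ 2)
        + 2 * Cp * Ca * B * Y * I ^ 2 * J ^ 2 / (φ ^ 2 * L ^ 2) := by linarith
      _ = _ := by ring
  have e4 : c * Y * I * J / (4 * φ * L) ≤ M1 := by
    refine le_trans (le_of_eq ?_) h1
    field_simp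
    ring
  have e5 : (c * Y * I * J / (4 * φ * L)) ^ 2 ≤ N * (4 * Cp * Ca * B * Y * I ^ 2 * J ^ 2 / (φ ^ 2 * L ^ 2)) := by
    calc (c * Y * I * J / (4 * φ * L)) ^ 2 ≤ M1 ^ 2 := by gcongr
      _ ≤ N * M2 := h3
      _ ≤ _ := by gcongr
  have e6 : (c * Y * I * J / (4 * φ * L)) ^ 2 = (c ^ 2 / (64 * Cp * Ca) * (Y / B))
      * (4 * Cp * Ca * B * Y * I ^ 2 * J ^ 2 / (φ ^ 2 * L ^ 2)) := by
    field_simp
    ring
  rw [e6] at e5
  exact le_of_mul_le_mul_right e5 (by positivity)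

open Classical in
theorem coreU : ∃ (r : ℕ) (c : ℝ), 0 < c ∧ ∀ B : ℕ, 0 < B → 2 ∣ B → ∀ a : ℕ, Odd a →
    ∃ X0 : ℕ, ∀ X : ℕ, X0 ≤ X → c * ((X : ℝ) / B) ≤
      (((Finset.Icc 1 X).filter fun n => n ≡ a [MOD B] ∧
        ∃ p : ℕ, p.Prime ∧ ∃ k : Fin r → ℕ, n = p + ∑ i, 2 ^ k i).card : ℝ) := by
  obtain ⟨s, c, hc, hL⟩ := LSw
  obtain ⟨Cp, hCp, hps⟩ := pair_sieve
  obtain ⟨Ca, hCa, hav⟩ := av_bound
  refine ⟨s + 1 + 1, c ^ 2 / (64 * Cp * Ca) / 8, by positivity, ?_⟩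
  intro B hB h2 a ha
  obtain ⟨D, hD, hDq, hn⟩ := hL (B.primeFactors.erase 2) (by
    intro q hq
    rw [Finset.mem_erase] at hq
    exact ⟨Nat.prime_of_mem_primeFactors hq.2, hq.1⟩)
  obtain ⟨κ, w, hw, hmass, hgood⟩ := hn ((a : ℤ) - 1)
  obtain ⟨X1, hX1, hps⟩ := hps B hB h2
  obtain ⟨J0, hJ0D, hav⟩ := hav D hD
  obtain ⟨X2, hX2, hpc⟩ := prime_count B hB
  set S : ℕ := ∑ i, 2 ^ (κ i + D) with hS
  have hSe : Even S := by
    rw [hS]
    apply Finset.even_sum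
    intro i _
    exact (even_two).pow_of_ne_zero (by omega)
  have howD : 0 ≤ ow D := ow_nonneg D
  -- the size of `Y`
  obtain ⟨I0, hI0⟩ := exists_nat_gt (4 * ow D / (Cp * Ca))
  obtain ⟨Y0, hY0⟩ : ∃ Y0 : ℕ, ∀ Y, Y0 ≤ Y → X1 ≤ Y ∧ X2 ≤ Y ∧ S ≤ Y ∧ J0 ≤ Nat.log 2 Y ∧
      D * (I0 + 1) ≤ Nat.log 2 Y ∧ 16 ≤ Y := by
    refine ⟨max (max X1 X2) (max S (max (2 ^ J0) (max (2 ^ (D * (I0 + 1))) 16))), ?_⟩
    intro Y hY
    have a1 : X1 ≤ Y := by omega
    have a2 : X2 ≤ Y := by omega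
    have a3 : S ≤ Y := by omega
    have a4 : 2 ^ J0 ≤ Y := by omega
    have a5 : 2 ^ (D * (I0 + 1)) ≤ Y := by omega
    have a6 : 16 ≤ Y := by omega
    refine ⟨a1, a2, a3, ?_, ?_, a6⟩
    · exact Nat.le_log_of_pow_le (by norm_num) a4
    · exact Nat.le_log_of_pow_le (by norm_num) a5
  refine ⟨4 * Y0 + 8, ?_⟩
  intro X hX
  obtain ⟨Y, hYdef⟩ : ∃ Y, Y = X / 4 := ⟨_, rfl⟩
  obtain ⟨hYX1, hYX2, hYS, hYJ, hYI, hY16⟩ := hY0 Y (by omega)
  obtain ⟨J, hJdef⟩ : ∃ J, J = Nat.log 2 Y := ⟨_, rfl⟩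
  obtain ⟨I, hIdef⟩ : ∃ I, I = J / D := ⟨_, rfl⟩
  rw [← hJdef] at hYJ hYI
  have hJD : D ≤ J := le_trans hJ0D hYJ
  have hDI : D * I ≤ J := by rw [hIdef]; exact Nat.mul_div_le J D
  have hI1 : I0 + 1 ≤ I := by
    rw [hIdef, Nat.le_div_iff_mul_le hD, mul_comm]
    exact hYI
  have h2J : 2 ^ J ≤ Y := by
    rw [hJdef]
    exact Nat.pow_log_le_self 2 (by omega)
  have h2DI : 2 ^ (D * I) ≤ Y := le_trans (Nat.pow_le_pow_right (by norm_num) hDI) h2J
  have hYR : (16 : ℝ) ≤ Y := by exact_mod_cast hY16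
  have hY0R : (0 : ℝ) < Y := by linarith
  have hlogY : 0 < Real.log Y := Real.log_pos (by linarith)
  have hLJ : Real.log Y ≤ J := by
    have h3 : Y < 2 ^ (J + 1) := by
      rw [hJdef]
      exact Nat.lt_pow_succ_log_self (by norm_num) Y
    have h4 : Real.log Y ≤ ((J : ℝ) + 1) * Real.log 2 := by
      have : Real.log Y ≤ Real.log ((2 : ℝ) ^ (J + 1)) := by
        apply Real.log_le_log hY0R
        exact_mod_cast h3.le
      rw [Real.log_pow] at this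
      push_cast at this
      exact this
    have h5 : Real.log 2 < 0.6931471808 := Real.log_two_lt_d9
    have h6 : (4 : ℝ) * 0.6931471803 < Real.log Y := by
      have : Real.log 16 ≤ Real.log Y := Real.log_le_log (by norm_num) hYR
      have h7 : Real.log 16 = 4 * Real.log 2 := by
        rw [show (16 : ℝ) = 2 ^ 4 by norm_num, Real.log_pow]; norm_num
      have := Real.log_two_gt_d9
      linarith
    have h8 : 0 < Real.log 2 := Real.log_pos (by norm_num)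
    by_contra hcon
    push Not at hcon
    have h9 : ((J : ℝ) + 1) * Real.log 2 ≤ (Real.log Y + 1) * 0.6931471808 := by
      have h10 : (J : ℝ) + 1 ≤ Real.log Y + 1 := by linarith
      exact mul_le_mul h10 h5.le h8.le (by linarith)
    linarith
  -- the classes
  have hcop : ∀ i ∈ Finset.Icc 1 I, ∀ j ∈ Finset.Icc 1 J, 0 < w j →
      (a + (S + AA D i j) * (B - 1)).Coprime B := by
    intro i hi j hj hwj
    rw [Finset.mem_Icc] at hi hj
    apply class_coprime B S (S + AA D i j) a D i j hB h2 ha rfl hSe hj.1 (Nat.mul_pos hD hi.1)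
    intro q hq h0
    apply hgood j hwj q hq
    have hSq : ((S : ℕ) : ZMod q) = ∑ i, (2 : ZMod q) ^ (κ i) := by
      rw [hS]
      push_cast
      apply Finset.sum_congr rfl
      intro i _
      rw [pow_add, hDq q hq, mul_one]
    rw [pow_mul, hDq q hq, one_pow, hSq] at h0
    push_cast
    linear_combination h0
  have hset : ∀ i j, ((Finset.Icc 1 Y).filter fun p => p.Prime ∧ p + (S + AA D i j) ≡ a [MOD B])
      = ((Finset.Icc 1 Y).filter fun p => p.Prime ∧ p ≡ a + (S + AA D i j) * (B - 1) [MOD B]) := by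
    intro i j
    apply Finset.filter_congr
    intro p _
    rw [class_shift B _ a p hB]
  -- first moment
  have hM1 := moment_one D I J Y S a B w hw.nn ((Y : ℝ) / (2 * Nat.totient B * Real.log Y)) (by
    intro i hi j hj hwj
    have := (hpc Y hYX2 _ (hcop i hi j hj hwj)).1
    rw [hset i j]
    exact this)
  -- second moment
  have hM2 := moment_two D I J Y S a B w hw.nn (Cp * Cb B ^ 2 * ((Y : ℝ) / B) / (Real.log Y) ^ 2)
    (2 * Y / (Nat.totient B * Real.log Y)) (by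
      intro c' h hh
      exact hps Y hYX1 c' h hh) (by
      intro i hi j hj hwj
      have := (hpc Y hYX2 _ (hcop i hi j hj hwj)).2
      rw [hset i j]
      exact this)
  have hdg := diag_bound D I J hD hJD w hw
  have hoff := hav J hYJ w hw I hDI
  have hmassJ := mass_lower D J hD w hw c hc.le hmass hJD
  -- Cauchy-Schwarz
  set NN : Finset ℕ := (Finset.Icc 1 X).filter fun n => n ≡ a [MOD B] ∧
        ∃ p : ℕ, p.Prime ∧ ∃ k : Fin (s + 1 + 1) → ℕ, n = p + ∑ i, 2 ^ k i with hNN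
  have hcs := cs_count (TT D I J Y S a B) (fun τ => w τ.1.2) (fun τ _ => hw.nn _)
    (fun τ => τ.2 + (S + AA D τ.1.1 τ.1.2)) NN (by
      intro τ hτ _
      unfold TT at hτ
      rw [Finset.mem_filter, Finset.mem_product, Finset.mem_product, Finset.mem_Icc,
        Finset.mem_Icc, Finset.mem_Icc] at hτ
      obtain ⟨⟨⟨hi, hj⟩, hp⟩, hpp, hcl⟩ := hτ
      rw [hNN, Finset.mem_filter, Finset.mem_Icc]
      have h3 : 2 ^ τ.1.2 ≤ Y := le_trans (Nat.pow_le_pow_right (by norm_num) hj.2) h2J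
      have h4 : 2 ^ (D * τ.1.1) ≤ Y :=
        le_trans (Nat.pow_le_pow_right (by norm_num) (Nat.mul_le_mul_left D hi.2)) h2DI
      have h5 : AA D τ.1.1 τ.1.2 ≤ 2 * Y := by unfold AA; omega
      refine ⟨⟨by omega, by omega⟩, hcl, τ.2, hpp,
        Fin.cons τ.1.2 (Fin.cons (D * τ.1.1) (fun i => κ i + D)), ?_⟩
      rw [Fin.sum_univ_succ, Fin.sum_univ_succ]
      simp only [Fin.cons_zero, Fin.cons_succ]
      rw [hS]
      unfold AA
      ring)
  have hCbB : Cb B = (B : ℝ) / Nat.totient B := by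
    have h3 := Cb_totient B hB
    have h4 : (0 : ℝ) < Nat.totient B := by exact_mod_cast Nat.totient_pos.mpr hB
    field_simp
    exact h3
  have hφ : (0 : ℝ) < Nat.totient B := by exact_mod_cast Nat.totient_pos.mpr hB
  have hφB : (Nat.totient B : ℝ) ≤ B := by exact_mod_cast Nat.totient_le B
  have hIR : (0 : ℝ) < I := by exact_mod_cast (by omega : 0 < I)
  have hJR : (0 : ℝ) < J := lt_of_lt_of_le hlogY hLJ
  have hfin := core_num c Cp Ca B (Nat.totient B) Y (Real.log Y) I J (ow D)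
    (∑ τ ∈ TT D I J Y S a B, w τ.1.2)
    (∑ τ ∈ TT D I J Y S a B, ∑ τ' ∈ TT D I J Y S a B,
      (if τ.2 + (S + AA D τ.1.1 τ.1.2) = τ'.2 + (S + AA D τ'.1.1 τ'.1.2) then w τ.1.2 * w τ'.1.2 else 0))
    NN.card hc hCp hCa hφ hφB hY0R hlogY hIR hLJ howD
    (by
      have h3 : 4 * ow D / (Cp * Ca) ≤ I := by
        refine le_trans hI0.le ?_
        exact_mod_cast (by omega : I0 ≤ I)
      rw [div_le_iff₀ (by positivity)] at h3
      linarith)
    (by
      refine le_trans ?_ hM1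
      gcongr)
    (by
      refine le_trans hM2 ?_
      rw [hCbB]
      gcongr)
    hcs (Nat.cast_nonneg _)
  refine le_trans ?_ hfin
  have hX8 : (X : ℝ) / 8 ≤ Y := by
    have : X ≤ 8 * Y := by omega
    have h3 : (X : ℝ) ≤ 8 * Y := by exact_mod_cast this
    linarith
  have hBR : (0 : ℝ) < B := by exact_mod_cast hB
  calc c ^ 2 / (64 * Cp * Ca) / 8 * ((X : ℝ) / B) = c ^ 2 / (64 * Cp * Ca) * (X / 8 / B) := by ring
    _ ≤ c ^ 2 / (64 * Cp * Ca) * ((Y : ℝ) / B) := by gcongr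

/-- **Romanoff's theorem in all residue classes.** -/
theorem main_u : ∃ (r₀ : ℕ) (c : ℝ), 0 < c ∧ ∀ r : ℕ, r₀ ≤ r → ∀ a b : ℕ, 0 < b →
    (∃ m : ℕ, Odd (a + m * b)) → ∃ X₀ : ℕ, ∀ X : ℕ, X₀ ≤ X → c * ((X : ℝ) / b) ≤
      (({n : ℕ | n ≤ X ∧ n ≡ a [MOD b] ∧ Odd n ∧
        ∃ p : ℕ, p.Prime ∧ ∃ k : Fin r → ℕ, n = p + ∑ i, 2 ^ k i}.ncard : ℕ) : ℝ) := by
  classical
  obtain ⟨r₀, c, hc, h⟩ := coreU
  refine ⟨r₀, c / 4, by positivity, ?_⟩
  intro r hr a b hb ⟨m, hm⟩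
  obtain ⟨t, rfl⟩ := Nat.exists_eq_add_of_le hr
  have hle : 2 * t ≤ 2 * t * b := Nat.le_mul_of_pos_right _ hb
  set a' : ℕ := a + m * b + 2 * t * b - 2 * t with ha'
  have ha'e : a' + 2 * t = a + m * b + 2 * t * b := by omega
  have hodd : Odd a' := by
    rw [Nat.odd_iff] at hm ⊢
    have : 2 * t * b = 2 * (t * b) := by ring
    omega
  obtain ⟨X0, hX0⟩ := h (2 * b) (by omega) (dvd_mul_right 2 b) a' hodd
  refine ⟨X0 + 4 * t + 1, ?_⟩
  intro X hX
  have h1 := hX0 (X - 2 * t) (by omega)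
  have hfin : {n : ℕ | n ≤ X ∧ n ≡ a [MOD b] ∧ Odd n ∧
        ∃ p : ℕ, p.Prime ∧ ∃ k : Fin (r₀ + t) → ℕ, n = p + ∑ i, 2 ^ k i}.Finite :=
    (Set.finite_Iic X).subset (fun n hn => hn.1)
  have h2 : (((Finset.Icc 1 (X - 2 * t)).filter fun n => n ≡ a' [MOD 2 * b] ∧
        ∃ p : ℕ, p.Prime ∧ ∃ k : Fin r₀ → ℕ, n = p + ∑ i, 2 ^ k i).card)
      ≤ {n : ℕ | n ≤ X ∧ n ≡ a [MOD b] ∧ Odd n ∧
        ∃ p : ℕ, p.Prime ∧ ∃ k : Fin (r₀ + t) → ℕ, n = p + ∑ i, 2 ^ k i}.ncard := by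
    rw [← Set.ncard_coe_finset]
    apply Set.ncard_le_ncard_of_injOn (fun n => n + 2 * t) _ _ hfin
    · intro n hn
      rw [Finset.mem_coe, Finset.mem_filter, Finset.mem_Icc] at hn
      obtain ⟨hn1, hn2, p, hp, k, hk⟩ := hn
      have h3 : n + 2 * t ≡ a + m * b + 2 * t * b [MOD 2 * b] := by
        rw [← ha'e]
        exact hn2.add_right _
      refine ⟨by omega, ?_, ?_, p, hp, Fin.append k (fun _ => 1), ?_⟩
      · have h4 : n + 2 * t ≡ a + m * b + 2 * t * b [MOD b] := Nat.ModEq.of_mul_left 2 h3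
        refine h4.trans ?_
        have h5 : a + m * b + 2 * t * b = a + (m + 2 * t) * b := by ring
        rw [h5]
        unfold Nat.ModEq
        rw [Nat.add_mul_mod_self_right]
      · have h4 : n + 2 * t ≡ a + m * b + 2 * t * b [MOD 2] := Nat.ModEq.of_mul_right b h3
        have h5 : 2 * t * b = 2 * (t * b) := by ring
        rw [Nat.odd_iff] at hm ⊢
        unfold Nat.ModEq at h4
        omega
      · rw [Fin.sum_univ_add]
        simp only [Fin.append_left, Fin.append_right, Finset.sum_const, Finset.card_univ,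
          Fintype.card_fin, smul_eq_mul, pow_one]
        rw [hk]
        ring
    · intro x _ y _ hxy
      simp only at hxy
      omega
  have h3 : c / 4 * ((X : ℝ) / b) ≤ c * (((X - 2 * t : ℕ) : ℝ) / ((2 * b : ℕ) : ℝ)) := by
    have hbR : (0 : ℝ) < b := by exact_mod_cast hb
    have h4 : (X : ℝ) ≤ 2 * ((X - 2 * t : ℕ) : ℝ) := by
      have : X ≤ 2 * (X - 2 * t) := by omega
      exact_mod_cast this
    push_cast
    rw [div_mul_div_comm, ← mul_div_assoc, div_le_div_iff₀ (by positivity) (by positivity)]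
    have h5 : 0 < c * (b : ℝ) := by positivity
    nlinarith [mul_le_mul_of_nonneg_left h4 h5.le]
  calc c / 4 * ((X : ℝ) / b) ≤ _ := h3
    _ ≤ _ := h1
    _ ≤ _ := by exact_mod_cast h2

end Pool.H53.NA

end S_NU_FinU
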